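import Pool.Agent.H654R4.MO.Time

/-!
# Good pairs of branchings: the definitions used in the statements
-/

namespace Pool.Agent.H871.GP

/-- `u v` is an arc of the digraph given by the vertex list `G.1` and the arc list `G.2`. -/
def Arc (G : List ℕ × List (ℕ × ℕ)) (u v : ℕ) : Prop :=
  (u, v) ∈ G.2 ∧ u ∈ G.1 ∧ v ∈ G.1 ∧ u ≠ v

/-- `u` and `v` are different vertices not joined by an arc. -/
def Nonadj (G : List ℕ × List (ℕ × ℕ)) (u v : ℕ) : Prop :=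
  u ∈ G.1 ∧ v ∈ G.1 ∧ u ≠ v ∧ ¬ Arc G u v ∧ ¬ Arc G v u

/-- The digraph has independence number two. -/
def AlphaTwo (G : List ℕ × List (ℕ × ℕ)) : Prop :=
  (∃ I : Finset ℕ, (∀ v ∈ I, v ∈ G.1) ∧ (∀ u ∈ I, ∀ v ∈ I, ¬ Arc G u v) ∧ I.card = 2) ∧
    ∀ I : Finset ℕ, (∀ v ∈ I, v ∈ G.1) → (∀ u ∈ I, ∀ v ∈ I, ¬ Arc G u v) → I.card ≤ 2

/-- Every vertex has at most `d` non-neighbours. -/
def CoDeg (G : List ℕ × List (ℕ × ℕ)) (d : ℕ) : Prop :=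
  ∀ z ∈ G.1, ∀ F : Finset ℕ, (∀ v ∈ F, Nonadj G z v) → F.card ≤ d

/-- There is a walk with exactly `n` arcs, all in `X`, from `u` to `v`. -/
def Walk (X : Set (ℕ × ℕ)) : ℕ → ℕ → ℕ → Prop
  | 0, u, v => u = v
  | n + 1, u, v => ∃ w, Walk X n u w ∧ (w, v) ∈ X

/-- `X` is the arc set of an out-branching of `G` with root `s`. -/
def OutBr (G : List ℕ × List (ℕ × ℕ)) (s : ℕ) (X : Set (ℕ × ℕ)) : Prop :=
  s ∈ G.1 ∧ (∀ e ∈ X, Arc G e.1 e.2 ∧ e.2 ≠ s) ∧ (∀ v ∈ G.1, v ≠ s → ∃! u, (u, v) ∈ X) ∧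
    ∀ v ∈ G.1, ∃ n, Walk X n s v

/-- `Y` is the arc set of an in-branching of `G` with root `t`. -/
def InBr (G : List ℕ × List (ℕ × ℕ)) (t : ℕ) (Y : Set (ℕ × ℕ)) : Prop :=
  t ∈ G.1 ∧ (∀ e ∈ Y, Arc G e.1 e.2 ∧ e.1 ≠ t) ∧ (∀ v ∈ G.1, v ≠ t → ∃! w, (v, w) ∈ Y) ∧
    ∀ v ∈ G.1, ∃ n, Walk Y n v t

/-- `X` and `Y` are the arc sets of an out-branching with root `s` and of an in-branching with
root `t` of `G`, and they are disjoint. -/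
def GoodPair (G : List ℕ × List (ℕ × ℕ)) (s t : ℕ) (X Y : Set (ℕ × ℕ)) : Prop :=
  OutBr G s X ∧ InBr G t Y ∧ Disjoint X Y

/-- In the branchings `X` (root `s`) and `Y` (root `t`), the vertex `x` is at distance at most `c`
from the root `s` in `X` and at distance at most `c` to the root `t` in `Y`. -/
def Near (X Y : Set (ℕ × ℕ)) (c s t x : ℕ) : Prop :=
  (∃ n ≤ c, Walk X n s x) ∧ ∃ n ≤ c, Walk Y n x t

end Pool.Agent.H871.GP
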