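import Pool.Agent.H871_GP.Time2
import Pool.Agent.H871_GP.Defs

/-!
# Correctness of the algorithm
-/

namespace Pool.Agent.H871.GP

open Relation Pool.Agent.NPC

theorem mem_arcs {G : List ℕ × List (ℕ × ℕ)} {u v : ℕ} : (u, v) ∈ arcs G ↔ Arc G u v := by
  unfold arcs Arc
  simp only [List.mem_filter, Bool.and_eq_true, Bool.not_eq_true', decide_eq_true_eq,
    decide_eq_false_iff_not]
  try tauto

theorem adB_iff {E : List (ℕ × ℕ)} {u v : ℕ} : adB E (u, v) = true ↔ (u, v) ∈ E ∨ (v, u) ∈ E := by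
  unfold adB
  simp only [Bool.or_eq_true, decide_eq_true_eq]

theorem adB_false {E : List (ℕ × ℕ)} {u v : ℕ} :
    adB E (u, v) = false ↔ ¬ ((u, v) ∈ E ∨ (v, u) ∈ E) := by
  rw [← adB_iff, Bool.not_eq_true]

/-- no three pairwise nonadjacent vertices, in terms of the arc list -/
def Al2 (V : List ℕ) (E : List (ℕ × ℕ)) : Prop :=
  ∀ p ∈ V, ∀ q ∈ V, ∀ r ∈ V, p ≠ q → p ≠ r → q ≠ r →
      ((p, q) ∈ E ∨ (q, p) ∈ E) ∨ ((p, r) ∈ E ∨ (r, p) ∈ E) ∨ ((q, r) ∈ E ∨ (r, q) ∈ E)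

theorem alB_iff' {V : List ℕ} {E : List (ℕ × ℕ)} : alB V E = true ↔
    (∃ p ∈ V, ∃ q ∈ V, p ≠ q ∧ ¬ ((p, q) ∈ E ∨ (q, p) ∈ E)) ∧ Al2 V E := by
  unfold alB Al2
  simp only [Bool.and_eq_true, List.any_eq_true, List.all_eq_true, Bool.or_eq_true,
    decide_eq_true_eq, Bool.not_eq_true', decide_eq_false_iff_not, Prod.exists, Prod.forall,
    List.mem_product, adB_iff, adB_false]
  constructor
  · rintro ⟨⟨p, q, ⟨h1, h2⟩, h3, h4⟩, h5⟩
    refine ⟨⟨p, h1, q, h2, h3, h4⟩, fun p hp q hq r hr n1 n2 n3 => ?_⟩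
    have := h5 p q r ⟨hp, hq, hr⟩
    tauto
  · rintro ⟨⟨p, h1, q, h2, h3, h4⟩, h5⟩
    refine ⟨⟨p, q, ⟨h1, h2⟩, h3, h4⟩, fun p q r h => ?_⟩
    obtain ⟨hp, hq, hr⟩ := h
    by_cases n1 : p = q
    · tauto
    by_cases n2 : p = r
    · tauto
    by_cases n3 : q = r
    · tauto
    have := h5 p hp q hq r hr n1 n2 n3
    tauto

theorem arc_irrefl {G : List ℕ × List (ℕ × ℕ)} {u : ℕ} : ¬ Arc G u u := fun h => h.2.2.2 rfl

theorem alphaTwo_iff {G : List ℕ × List (ℕ × ℕ)} : AlphaTwo G ↔ alB G.1 (arcs G) = true := by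
  classical
  rw [alB_iff']
  constructor
  · rintro ⟨⟨I, h1, h2, h3⟩, h4⟩
    obtain ⟨p, q, hpq, rfl⟩ := Finset.card_eq_two.1 h3
    refine ⟨⟨p, h1 p (by simp), q, h1 q (by simp), hpq, ?_⟩, ?_⟩
    · rw [mem_arcs, mem_arcs, not_or]
      exact ⟨h2 p (by simp) q (by simp), h2 q (by simp) p (by simp)⟩
    · intro p hp q hq r hr n1 n2 n3
      by_contra hc
      simp only [mem_arcs, not_or] at hc
      obtain ⟨⟨c1, c2⟩, ⟨c3, c4⟩, c5, c6⟩ := hc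
      have := h4 {p, q, r} (by simp [hp, hq, hr]) (by
        intro u hu v hv
        simp only [Finset.mem_insert, Finset.mem_singleton] at hu hv
        rcases hu with rfl | rfl | rfl <;> rcases hv with rfl | rfl | rfl <;>
          first | exact arc_irrefl | assumption)
      rw [Finset.card_eq_three.2 ⟨p, q, r, n1, n2, n3, rfl⟩] at this
      omega
  · rintro ⟨⟨p, hp, q, hq, hpq, hn⟩, hal⟩
    rw [mem_arcs, mem_arcs, not_or] at hn
    refine ⟨⟨{p, q}, by simp [hp, hq], ?_, Finset.card_pair hpq⟩, ?_⟩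
    · intro u hu v hv
      simp only [Finset.mem_insert, Finset.mem_singleton] at hu hv
      rcases hu with rfl | rfl <;> rcases hv with rfl | rfl
      · exact arc_irrefl
      · exact hn.1
      · exact hn.2
      · exact arc_irrefl
    · intro I h1 h2
      by_contra hc
      push Not at hc
      obtain ⟨p, q, r, hp, hq, hr, n1, n2, n3⟩ := Finset.two_lt_card_iff.1 hc
      have := hal p (h1 p hp) q (h1 q hq) r (h1 r hr) n1 n2 n3
      simp only [mem_arcs] at this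
      rcases this with (h | h) | (h | h) | (h | h)
      · exact h2 p hp q hq h
      · exact h2 q hq p hp h
      · exact h2 p hp r hr h
      · exact h2 r hr p hp h
      · exact h2 q hq r hr h
      · exact h2 r hr q hq h

/-! ### Walks -/

theorem Walk.mono {X X' : Set (ℕ × ℕ)} (h : X ⊆ X') {n u v : ℕ} (hw : Walk X n u v) :
    Walk X' n u v := by
  induction n generalizing v with
  | zero => exact hw
  | succ n ih =>
    obtain ⟨w, h1, h2⟩ := hw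
    exact ⟨w, ih h1, h h2⟩

theorem walk_head {X : Set (ℕ × ℕ)} {n u v : ℕ} :
    Walk X (n + 1) u v ↔ ∃ w, (u, w) ∈ X ∧ Walk X n w v := by
  induction n generalizing v with
  | zero =>
    constructor
    · rintro ⟨w, rfl, h⟩; exact ⟨v, h, rfl⟩
    · rintro ⟨w, h, rfl⟩; exact ⟨u, rfl, h⟩
  | succ n ih =>
    constructor
    · rintro ⟨w, h1, h2⟩
      obtain ⟨z, h3, h4⟩ := ih.1 h1
      exact ⟨z, h3, w, h4, h2⟩
    · rintro ⟨z, h3, w, h4, h2⟩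
      exact ⟨w, ih.2 ⟨z, h3, h4⟩, h2⟩

/-- the reversed arc set -/
def rv (X : Set (ℕ × ℕ)) : Set (ℕ × ℕ) := {e | (e.2, e.1) ∈ X}

theorem walk_rv {X : Set (ℕ × ℕ)} {n u v : ℕ} : Walk (rv X) n u v ↔ Walk X n v u := by
  induction n generalizing u with
  | zero => exact eq_comm
  | succ n ih =>
    rw [walk_head]
    constructor
    · rintro ⟨w, h1, h2⟩; exact ⟨w, ih.1 h2, h1⟩
    · rintro ⟨w, h1, h2⟩; exact ⟨w, h2, ih.2 h1⟩

theorem rt_walk {X : Set (ℕ × ℕ)} {u v : ℕ} : RT (· ∈ X) u v ↔ ∃ n, Walk X n u v := by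
  constructor
  · intro h
    induction h with
    | refl => exact ⟨0, rfl⟩
    | tail _ h2 ih =>
      obtain ⟨n, hn⟩ := ih
      exact ⟨n + 1, _, hn, h2⟩
  · rintro ⟨n, hn⟩
    induction n generalizing v with
    | zero => obtain rfl : u = v := hn; exact ReflTransGen.refl
    | succ n ih =>
      obtain ⟨w, h1, h2⟩ := hn
      exact ReflTransGen.tail (ih h1) h2

/-- Shortest walks form an out-branching. -/
theorem exOB {V : Set ℕ} {D : ℕ → ℕ → Prop} (hD : ∀ u v, D u v → u ∈ V ∧ v ∈ V) {s : ℕ}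
    (hs : s ∈ V) {X : Set (ℕ × ℕ)}
    (hX : ∀ e ∈ X, D e.1 e.2) (hr : ∀ v ∈ V, ∃ n, Walk X n s v) :
    ∃ f a, OB V D s f a ∧ (∀ v ∈ V, v ≠ s → (f v, v) ∈ X) ∧ ∀ v ∈ V, ∀ n, Walk X n s v →
      a v ≤ n := by
  classical
  let a : ℕ → ℕ := fun v => if h : ∃ n, Walk X n s v then Nat.find h else 0
  have ha : ∀ v ∈ V, Walk X (a v) s v := by
    intro v hv
    have h := hr v hv
    simp only [a, dif_pos h]
    exact Nat.find_spec h
  have hmin : ∀ v ∈ V, ∀ n, Walk X n s v → a v ≤ n := by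
    intro v hv n hn
    have h := hr v hv
    simp only [a, dif_pos h]
    exact Nat.find_min' h hn
  have hpar : ∀ v ∈ V, v ≠ s → ∃ u ∈ V, (u, v) ∈ X ∧ a v = a u + 1 := by
    intro v hv hvs
    have h1 := ha v hv
    obtain ⟨k, hk⟩ : ∃ k, a v = k + 1 := by
      rcases Nat.eq_zero_or_pos (a v) with h0 | h0
      · rw [h0] at h1
        exact absurd h1.symm hvs
      · exact ⟨a v - 1, by omega⟩
    rw [hk] at h1
    obtain ⟨u, h2, h3⟩ := h1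
    have huV := (hD _ _ (hX _ h3)).1
    have h4 := hmin u huV k h2
    have h5 := hmin v hv (a u + 1) ⟨u, ha u huV, h3⟩
    exact ⟨u, huV, h3, by omega⟩
  choose! f hf using hpar
  refine ⟨f, a, ⟨hs, ?_, fun v hv hvs => hX _ (hf v hv hvs).2.1, fun v hv hvs =>
    (hf v hv hvs).2.2⟩, fun v hv hvs => (hf v hv hvs).2.1, hmin⟩
  have := hmin s hs 0 rfl
  omega

theorem gpair_of {G : List ℕ × List (ℕ × ℕ)} {s t : ℕ} {X Y : Set (ℕ × ℕ)} (hs : s ∈ G.1)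
    (ht : t ∈ G.1) (hX : ∀ e ∈ X, Arc G e.1 e.2) (hY : ∀ e ∈ Y, Arc G e.1 e.2)
    (hXY : ∀ e ∈ X, e ∉ Y) (rX : ∀ v ∈ G.1, ∃ n, Walk X n s v) (rY : ∀ v ∈ G.1, ∃ n, Walk Y n v t) :
    ∃ f a g b, GPair {v | v ∈ G.1} (Arc G) s t f a g b ∧
      (∀ v ∈ G.1, ∀ n, Walk X n s v → a v ≤ n) ∧ ∀ v ∈ G.1, ∀ n, Walk Y n v t → b v ≤ n := by
  obtain ⟨f, a, h1, h2, h3⟩ := exOB (V := {v | v ∈ G.1}) (D := Arc G)
    (fun u v h => ⟨h.2.1, h.2.2.1⟩) hs hX rX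
  obtain ⟨g, b, h4, h5, h6⟩ := exOB (V := {v | v ∈ G.1}) (D := fun u v => Arc G v u)
    (fun u v h => ⟨h.2.2.1, h.2.1⟩) ht (X := rv Y) (fun e he => hY _ he)
    (fun v hv => by
      obtain ⟨n, hn⟩ := rY v hv
      exact ⟨n, walk_rv.2 hn⟩)
  refine ⟨f, a, g, b, ⟨h1, h4, fun v hv hvs hft he => ?_⟩, h3, fun v hv n hn =>
    h6 v hv n (walk_rv.2 hn)⟩
  have h7 := h2 v hv hvs
  have hfv : f v ∈ G.1 := (hX _ h7).2.1
  have h8 : (f v, g (f v)) ∈ Y := h5 (f v) hfv hft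
  rw [he] at h8
  exact hXY _ h7 h8

theorem ob_walk {V : Set ℕ} {D : ℕ → ℕ → Prop} (hD : ∀ u v, D u v → u ∈ V ∧ v ∈ V) {s : ℕ}
    {f a : ℕ → ℕ} (h : OB V D s f a) {X : Set (ℕ × ℕ)} (hX : ∀ v ∈ V, v ≠ s → (f v, v) ∈ X) :
    ∀ n, ∀ v ∈ V, a v = n → Walk X n s v := by
  intro n
  induction n with
  | zero => intro v hv h0; exact (h.eq_root hv h0).symm
  | succ n ih =>
    intro v hv hn
    have hvs : v ≠ s := fun hh => by rw [hh, h.root] at hn; omega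
    have hd := h.dep v hv hvs
    have hfv := (hD _ _ (h.arc v hv hvs)).1
    exact ⟨f v, ih _ hfv (by omega), hX v hv hvs⟩

theorem goodPair_of {G : List ℕ × List (ℕ × ℕ)} {s t : ℕ} {f a g b : ℕ → ℕ}
    (h : GPair {v | v ∈ G.1} (Arc G) s t f a g b) :
    ∃ X Y, GoodPair G s t X Y ∧ ∀ v ∈ G.1, Walk X (a v) s v ∧ Walk Y (b v) v t := by
  let X : Set (ℕ × ℕ) := {e | e.2 ∈ G.1 ∧ e.2 ≠ s ∧ e.1 = f e.2}
  let Y : Set (ℕ × ℕ) := {e | e.1 ∈ G.1 ∧ e.1 ≠ t ∧ e.2 = g e.1}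
  have wX : ∀ v ∈ G.1, Walk X (a v) s v := fun v hv =>
    ob_walk (fun u v h => ⟨h.2.1, h.2.2.1⟩) h.ob (X := X) (fun v hv hvs => ⟨hv, hvs, rfl⟩) _ v hv rfl
  have wY : ∀ v ∈ G.1, Walk Y (b v) v t := fun v hv => walk_rv.1
    (ob_walk (D := fun u v => Arc G v u) (fun u v h => ⟨h.2.2.1, h.2.1⟩) h.ib (X := rv Y)
      (fun v hv hvs => ⟨hv, hvs, rfl⟩) _ v hv rfl)
  refine ⟨X, Y, ⟨⟨h.ob.mem, ?_, ?_, fun v hv => ⟨_, wX v hv⟩⟩, ⟨h.ib.mem, ?_, ?_,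
    fun v hv => ⟨_, wY v hv⟩⟩, ?_⟩, fun v hv => ⟨wX v hv, wY v hv⟩⟩
  · rintro ⟨u, v⟩ ⟨h1, h2, h3⟩
    simp only at h1 h2 h3
    subst h3
    exact ⟨h.ob.arc v h1 h2, h2⟩
  · intro v hv hvs
    exact ⟨f v, ⟨hv, hvs, rfl⟩, fun u hu => hu.2.2⟩
  · rintro ⟨u, v⟩ ⟨h1, h2, h3⟩
    simp only at h1 h2 h3
    subst h3
    exact ⟨h.ib.arc u h1 h2, h2⟩
  · intro v hv hvs
    exact ⟨g v, ⟨hv, hvs, rfl⟩, fun u hu => hu.2.2⟩
  · rw [Set.disjoint_left]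
    rintro ⟨u, v⟩ ⟨h1, h2, h3⟩ ⟨h4, h5, h6⟩
    simp only at h1 h2 h3 h4 h5 h6
    subst h3
    exact h.dj v h1 h2 h5 h6.symm

end Pool.Agent.H871.GP
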