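import Pool.Agent.H871_GP.Sound2
import Pool.Agent.H871_GP.Corr

/-!
# The algorithm for the general case, and its soundness
-/

namespace Pool.Agent.H871.GP

open Relation

/-- two roots, and two further vertices -/
abbrev Rts := (ℕ × ℕ) × (ℕ × ℕ)

/-- two lists of arcs -/
abbrev Lst := List (ℕ × ℕ) × List (ℕ × ℕ)

/-- the guess is consistent -/
def gs2 (r : Rts) (X : List ℕ) (L : Lst) : Bool :=
  (((decide (r.1.2 ∈ X) && (decide (r.2.1 ∈ X) && decide (r.2.2 ∈ X))) &&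
    ((L.1 ++ L.2).all (fun e => decide (e.1 ∈ X) || decide (e.2 ∈ X)) &&
      L.1.all (fun e => !decide (e ∈ L.2)))) &&
  ((decide (r.1.2 ∈ r.1.1 :: ends L.1) && (decide (r.2.1 ∈ r.1.1 :: ends L.1) &&
    decide (r.2.2 ∈ r.1.1 :: ends L.1))) &&
   (decide (r.2.1 ∈ r.1.2 :: ends L.2) && decide (r.2.2 ∈ r.1.2 :: ends L.2))))

/-- the state after all rounds of absorption -/
def cl2 (V : List ℕ) (E : List (ℕ × ℕ)) (r : Rts) (L : Lst) : List ℕ × List ℕ :=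
  (stp V E L.1 L.2)^[(V ++ V).length] (r.1.1 :: ends L.1, r.1.2 :: ends L.2)

/-- every vertex is dominated -/
def dmB (V : List ℕ) (E : List (ℕ × ℕ)) (z : List ℕ × List ℕ) : Bool :=
  V.all (fun v => (decide (v ∈ z.1) || decide (v ∈ z.2)) || (inn E z.1 z.2 v || outn E z.1 z.2 v))

/-- the free vertices -/
def frv (V X : List ℕ) (z : List ℕ × List ℕ) : List ℕ :=
  V.filter (fun v => !decide (v ∈ X) && (decide (v ∈ z.1) && decide (v ∈ z.2)))

/-- the free vertices between the two walls -/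
def mM (E : List (ℕ × ℕ)) (r : Rts) (L : Lst) (U : List ℕ) : List ℕ :=
  U.filter (fun v => !adB E (v, r.1.2) &&
    ((decide ((v, r.2.1) ∈ E) && !decide ((v, r.2.1) ∈ L.1)) &&
    (decide ((r.2.2, v) ∈ E) && !decide ((r.2.2, v) ∈ L.2))))

/-- the free in-neighbours of the centre -/
def mA (E : List (ℕ × ℕ)) (r : Rts) (L : Lst) (U : List ℕ) : List ℕ :=
  U.filter (fun v => (decide ((v, r.1.2) ∈ E) && !decide ((v, r.1.2) ∈ L.1)) &&
    !decide ((r.1.2, v) ∈ E))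

/-- the free out-neighbours of the centre -/
def mB (E : List (ℕ × ℕ)) (r : Rts) (L : Lst) (U : List ℕ) : List ℕ :=
  U.filter (fun v => (decide ((r.1.2, v) ∈ E) && !decide ((r.1.2, v) ∈ L.2)) &&
    !decide ((v, r.1.2) ∈ E))

/-- three lists of vertices -/
abbrev Cls := List ℕ × (List ℕ × List ℕ)

/-- the three classes of free vertices -/
def cs3 (V : List ℕ) (E : List (ℕ × ℕ)) (r : Rts) (X : List ℕ) (L : Lst)
    (z : List ℕ × List ℕ) : Cls :=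
  (mM E r L (frv V X z), (mA E r L (frv V X z), mB E r L (frv V X z)))

/-- the configurations -/
def cfs (B : ℕ) (V : List ℕ) (E : List (ℕ × ℕ)) : List Cf :=
  List.range (0 :: 0 :: V).length ×ˢ ((V ×ˢ V) ×ˢ (tup B E ×ˢ tup B E))

/-- the reachable configurations -/
def rch (N : List Cf) (E : List (ℕ × ℕ)) (Z : Cls) (L : Lst) (c0 : Cf) : List Cf :=
  (rnd N (stB E Z.1 Z.2.1 Z.2.2 L.1 L.2))^[N.length] [c0]

/-- arcs inside a list of vertices -/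
def inr (E : List (ℕ × ℕ)) (Z : List ℕ) : List (ℕ × ℕ) :=
  E.filter (fun e => decide (e.1 ∈ Z) && decide (e.2 ∈ Z))

/-- the configuration is final -/
def enB (E : List (ℕ × ℕ)) (Z : Cls) (r : Rts) (L : Lst) (c : Cf) : Bool :=
  decide (c.2.1.2 = r.1.2) &&
  (L.1.all (fun e => decide (e ∈ c.2.2.1) ||
      H654R4.MO.reachB (L.1 ++ inr E Z.2.1) r.1.1 e.1) &&
    L.2.all (fun e => decide (e ∈ c.2.2.2) ||
      H654R4.MO.reachB (L.2 ++ inr E Z.2.2) e.2 r.1.2))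

/-- the test for one guess -/
def ts2 (N : List Cf) (V : List ℕ) (E : List (ℕ × ℕ)) (r : Rts) (X : List ℕ) (L : Lst)
    (z : List ℕ × List ℕ) : Bool :=
  gs2 r X L && (dmB V E z &&
    ((rch N E (cs3 V E r X L z) L (0, ((r.1.1, r.2.1), ([], [])))).any
      (fun c => enB E (cs3 V E r X L z) r L c) &&
    (tup 4 E ×ˢ tup 4 E).any (fun F => fin V E L.1 L.2 z.1 z.2 F.1 F.2)))

/-- the algorithm -/
def al2 (cX cL B : ℕ) (V : List ℕ) (E : List (ℕ × ℕ)) : Bool :=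
  ((V ×ˢ V) ×ˢ (V ×ˢ V)).any (fun r => (tup cX V).any (fun X => (tup cL E ×ˢ tup cL E).any (fun L =>
    ts2 (cfs B V E) V E r X L (cl2 V E r L))))

/-- the algorithm for prescribed roots -/
def alF (cX cL B : ℕ) (V : List ℕ) (E : List (ℕ × ℕ)) (p : ℕ × ℕ) : Bool :=
  (V ×ˢ V).any (fun y => (tup cX V).any (fun X => (tup cL E ×ˢ tup cL E).any (fun L =>
    ts2 (cfs B V E) V E (p, y) X L (cl2 V E (p, y) L))))

theorem al2_of_alF {cX cL B : ℕ} {V : List ℕ} {E : List (ℕ × ℕ)} {s t : ℕ} (hs : s ∈ V)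
    (ht : t ∈ V) (h : alF cX cL B V E (s, t) = true) : al2 cX cL B V E = true := by
  unfold alF at h
  unfold al2
  simp only [List.any_eq_true, List.mem_product, Prod.exists] at h ⊢
  obtain ⟨y1, y2, hy, h⟩ := h
  exact ⟨s, t, y1, y2, ⟨⟨hs, ht⟩, hy⟩, h⟩

theorem mem_inr {E : List (ℕ × ℕ)} {Z : List ℕ} {e : ℕ × ℕ} :
    e ∈ inr E Z ↔ e ∈ E ∧ e.1 ∈ Z ∧ e.2 ∈ Z := by
  unfold inr
  simp only [List.mem_filter, Bool.and_eq_true, decide_eq_true_eq]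

theorem mem_frv {V X : List ℕ} {z : List ℕ × List ℕ} {v : ℕ} :
    v ∈ frv V X z ↔ v ∈ V ∧ v ∉ X ∧ v ∈ z.1 ∧ v ∈ z.2 := by
  unfold frv
  simp only [List.mem_filter, Bool.and_eq_true, decide_eq_true_eq, Bool.not_eq_true',
    decide_eq_false_iff_not]

theorem mem_mM {E : List (ℕ × ℕ)} {r : Rts} {L : Lst} {U : List ℕ} {v : ℕ} :
    v ∈ mM E r L U ↔ v ∈ U ∧ ¬ ((v, r.1.2) ∈ E ∨ (r.1.2, v) ∈ E) ∧
      ((v, r.2.1) ∈ E ∧ (v, r.2.1) ∉ L.1) ∧ (r.2.2, v) ∈ E ∧ (r.2.2, v) ∉ L.2 := by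
  unfold mM
  simp only [List.mem_filter, Bool.and_eq_true, decide_eq_true_eq, Bool.not_eq_true',
    decide_eq_false_iff_not, adB_false]

theorem mem_mA {E : List (ℕ × ℕ)} {r : Rts} {L : Lst} {U : List ℕ} {v : ℕ} :
    v ∈ mA E r L U ↔ v ∈ U ∧ ((v, r.1.2) ∈ E ∧ (v, r.1.2) ∉ L.1) ∧ (r.1.2, v) ∉ E := by
  unfold mA
  simp only [List.mem_filter, Bool.and_eq_true, decide_eq_true_eq, Bool.not_eq_true',
    decide_eq_false_iff_not]

theorem mem_mB {E : List (ℕ × ℕ)} {r : Rts} {L : Lst} {U : List ℕ} {v : ℕ} :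
    v ∈ mB E r L U ↔ v ∈ U ∧ ((r.1.2, v) ∈ E ∧ (r.1.2, v) ∉ L.2) ∧ (v, r.1.2) ∉ E := by
  unfold mB
  simp only [List.mem_filter, Bool.and_eq_true, decide_eq_true_eq, Bool.not_eq_true',
    decide_eq_false_iff_not]

/-- **Soundness** of the test for one guess. -/
theorem ts2_sound {N : List Cf} {V : List ℕ} {E : List (ℕ × ℕ)} {r : Rts} {X : List ℕ} {L : Lst}
    (hL1 : ∀ e ∈ L.1, e ∈ E) (hL2 : ∀ e ∈ L.2, e ∈ E)
    (h : ts2 N V E r X L (cl2 V E r L) = true) :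
    ∃ X' Y' : ℕ × ℕ → Prop, (∀ e, X' e → e ∈ E) ∧ (∀ e, Y' e → e ∈ E) ∧ (∀ e, X' e → ¬ Y' e) ∧
      (∀ v ∈ V, RT X' r.1.1 v) ∧ (∀ v ∈ V, RT Y' v r.1.2) := by
  obtain ⟨⟨s, t⟩, y1, y2⟩ := r
  obtain ⟨LO, LI⟩ := L
  unfold ts2 at h
  simp only [Bool.and_eq_true] at h
  obtain ⟨hgs, hdm, hdp, hfin⟩ := h
  generalize hz : cl2 V E ((s, t), (y1, y2)) (LO, LI) = z at hdm hdp hfin
  -- the guess
  unfold gs2 at hgs
  simp only [Bool.and_eq_true, Bool.or_eq_true, decide_eq_true_eq, Bool.not_eq_true',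
    decide_eq_false_iff_not, List.all_eq_true] at hgs
  obtain ⟨⟨⟨g1, g2, g3⟩, g4, g5⟩, ⟨g6, g7, g8⟩, g9, g10⟩ := hgs
  have g4O : ∀ e ∈ LO, e.1 ∈ X ∨ e.2 ∈ X := fun e he => g4 e (List.mem_append_left _ he)
  have g4I : ∀ e ∈ LI, e.1 ∈ X ∨ e.2 ∈ X := fun e he => g4 e (List.mem_append_right _ he)
  -- the classes
  rw [List.any_eq_true] at hdp hfin
  obtain ⟨c, hc, hen⟩ := hdp
  obtain ⟨F, -, hfin⟩ := hfin
  unfold cs3 at hc hen
  set M := mM E ((s, t), (y1, y2)) (LO, LI) (frv V X z) with hMd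
  set ZA := mA E ((s, t), (y1, y2)) (LO, LI) (frv V X z) with hAd
  set ZB := mB E ((s, t), (y1, y2)) (LO, LI) (frv V X z) with hBd
  have memM : ∀ v, v ∈ M → (v ∉ X ∧ v ∈ z.1 ∧ v ∈ z.2) ∧ ¬ ((v, t) ∈ E ∨ (t, v) ∈ E) ∧
      ((v, y1) ∈ E ∧ (v, y1) ∉ LO) ∧ (y2, v) ∈ E ∧ (y2, v) ∉ LI := by
    intro v hv
    rw [hMd, mem_mM, mem_frv] at hv
    exact ⟨hv.1.2, hv.2⟩
  have memA : ∀ v, v ∈ ZA → (v ∉ X ∧ v ∈ z.1 ∧ v ∈ z.2) ∧ ((v, t) ∈ E ∧ (v, t) ∉ LO) ∧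
      (t, v) ∉ E := by
    intro v hv
    rw [hAd, mem_mA, mem_frv] at hv
    exact ⟨hv.1.2, hv.2⟩
  have memB : ∀ v, v ∈ ZB → (v ∉ X ∧ v ∈ z.1 ∧ v ∈ z.2) ∧ ((t, v) ∈ E ∧ (t, v) ∉ LI) ∧
      (v, t) ∉ E := by
    intro v hv
    rw [hBd, mem_mB, mem_frv] at hv
    exact ⟨hv.1.2, hv.2⟩
  have nAM : ∀ v ∈ ZA, v ∉ M := fun v h1 h2 => (memM v h2).2.1 (Or.inl (memA v h1).2.1.1)
  have nBM : ∀ v ∈ ZB, v ∉ M := fun v h1 h2 => (memM v h2).2.1 (Or.inr (memB v h1).2.1.1)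
  have nAB : ∀ v ∈ ZA, v ∉ ZB := fun v h1 h2 => (memB v h2).2.2 (memA v h1).2.1.1
  clear_value M ZA ZB
  -- the dynamic program
  have nmO : ∀ e ∈ LO, mmB E M e = false := by
    intro e he
    rw [← Bool.not_eq_true, mmB_iff]
    rintro ⟨-, h1, h2⟩
    rcases g4O e he with h3 | h3
    · exact (memM _ h1).1.1 h3
    · exact (memM _ h2).1.1 h3
  have nmI : ∀ e ∈ LI, mmB E M e = false := by
    intro e he
    rw [← Bool.not_eq_true, mmB_iff]
    rintro ⟨-, h1, h2⟩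
    rcases g4I e he with h3 | h3
    · exact (memM _ h1).1.1 h3
    · exact (memM _ h2).1.1 h3
  obtain ⟨P, Q, hDI⟩ := rnd_inv (N := N) (st := stB E M ZA ZB LO LI)
    (I := fun c => ∃ P Q, DI E M ZA ZB LO LI s y1 c P Q)
    (fun c c' hI hst => by
      obtain ⟨P, Q, hI⟩ := hI
      exact di_step nAM nBM nmO nmI hI hst)
    (R := [(0, ((s, y1), ([], [])))]) (by
      intro c hc
      rw [List.mem_singleton] at hc
      subst hc
      exact ⟨fun _ => False, fun _ => False, ⟨fun e he => he.elim, fun e he => he.elim,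
        fun e he => he.elim, fun e he => he.elim, fun e he => he.elim, fun e he => he.elim,
        ReflTransGen.refl, fun e he => he.elim, ReflTransGen.refl,
        fun e he => absurd he List.not_mem_nil, fun e he => absurd he List.not_mem_nil⟩⟩)
    N.length c hc
  unfold enB at hen
  simp only [Bool.and_eq_true, Bool.or_eq_true, decide_eq_true_eq, List.all_eq_true,
    reachB_rt] at hen
  obtain ⟨e1, e2, e3⟩ := hen
  obtain ⟨θ, ⟨x, y⟩, G, G'⟩ := c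
  simp only at e1 e2 e3
  subst e1
  let GO : ℕ × ℕ → Prop := fun e => e ∈ LO ++ inr E ZA ∨ P e
  let GI : ℕ × ℕ → Prop := fun e => e ∈ LI ++ inr E ZB ∨ Q e
  have hGO : ∀ e, GO e → e ∈ LO ∨ (e ∈ E ∧ (e.1 ∈ M ∨ e.1 ∈ ZA) ∧ (e.2 ∈ M ∨ e.2 ∈ ZA)) := by
    rintro e (he | he)
    · rcases List.mem_append.1 he with he | he
      · exact Or.inl he
      · obtain ⟨h1, h2, h3⟩ := mem_inr.1 he
        exact Or.inr ⟨h1, Or.inr h2, Or.inr h3⟩
    · rcases hDI.subP e he with h1 | h1 | h1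
      · exact Or.inl h1
      · obtain ⟨h1, h2, h3⟩ := mmB_iff.1 h1
        exact Or.inr ⟨h1, Or.inl h2, Or.inl h3⟩
      · obtain ⟨h1, ⟨h2, h3⟩ | ⟨h2, h3⟩⟩ := frB_iff.1 h1
        · exact Or.inr ⟨h1, Or.inr h2, h3.symm⟩
        · exact Or.inr ⟨h1, Or.inl h2, Or.inr h3⟩
  have hGI : ∀ e, GI e → e ∈ LI ∨ (e ∈ E ∧ (e.1 ∈ M ∨ e.1 ∈ ZB) ∧ (e.2 ∈ M ∨ e.2 ∈ ZB)) := by
    rintro e (he | he)
    · rcases List.mem_append.1 he with he | he
      · exact Or.inl he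
      · obtain ⟨h1, h2, h3⟩ := mem_inr.1 he
        exact Or.inr ⟨h1, Or.inr h2, Or.inr h3⟩
    · rcases hDI.subQ e he with h1 | h1 | h1
      · exact Or.inl h1
      · obtain ⟨h1, h2, h3⟩ := mmB_iff.1 h1
        exact Or.inr ⟨h1, Or.inl h2, Or.inl h3⟩
      · obtain ⟨h1, ⟨h2, h3⟩ | ⟨h2, h3⟩⟩ := frB_iff.1 h1
        · exact Or.inr ⟨h1, Or.inr h2, h3.symm⟩
        · exact Or.inr ⟨h1, Or.inl h2, Or.inr h3⟩
  -- if an arc of the first kind is not in the list and lies inside `M`, it is in `P`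
  have GOM : ∀ e, GO e → e.1 ∈ M → e.2 ∈ M → e ∉ LO → P e := by
    rintro e (he | he) h1 h2 h3
    · exact absurd h1 (nAM _ (mem_inr.1 ((List.mem_append.1 he).resolve_left h3)).2.1)
    · exact he
  have GIM : ∀ e, GI e → e.1 ∈ M → e.2 ∈ M → e ∉ LI → Q e := by
    rintro e (he | he) h1 h2 h3
    · exact absurd h1 (nBM _ (mem_inr.1 ((List.mem_append.1 he).resolve_left h3)).2.1)
    · exact he
  have nX : ∀ v, v ∈ X → v ∉ M ∧ v ∉ ZA ∧ v ∉ ZB := fun v hv =>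
    ⟨fun h1 => (memM v h1).1.1 hv, fun h1 => (memA v h1).1.1 hv, fun h1 => (memB v h1).1.1 hv⟩
  have hdj : ∀ e, GO e → ¬ GI e := by
    intro e h1 h2
    rcases hGO e h1 with h3 | ⟨h3, h4, h5⟩
    · rcases hGI e h2 with h6 | ⟨h6, h7, h8⟩
      · exact g5 e h3 h6
      · rcases g4O e h3 with h9 | h9
        · exact h7.elim (nX _ h9).1 (nX _ h9).2.2
        · exact h8.elim (nX _ h9).1 (nX _ h9).2.2
    · rcases hGI e h2 with h6 | ⟨h6, h7, h8⟩
      · rcases g4I e h6 with h9 | h9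
        · exact h4.elim (nX _ h9).1 (nX _ h9).2.1
        · exact h5.elim (nX _ h9).1 (nX _ h9).2.1
      · have c1 : e.1 ∈ M := by
          rcases h4 with h4 | h4
          · exact h4
          · rcases h7 with h7 | h7
            · exact h7
            · exact absurd h7 (nAB _ h4)
        have c2 : e.2 ∈ M := by
          rcases h5 with h5 | h5
          · exact h5
          · rcases h8 with h8 | h8
            · exact h8
            · exact absurd h8 (nAB _ h5)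
        have hm : mmB E M e = true := mmB_iff.2 ⟨h3, c1, c2⟩
        exact hDI.dj e (GOM e h1 c1 c2 fun hl => by rw [nmO e hl] at hm; exact absurd hm (by simp))
          (GIM e h2 c1 c2 fun hl => by rw [nmI e hl] at hm; exact absurd hm (by simp)) hm
  have hLOr : ∀ e ∈ LO, GO e ∧ RT GO s e.1 := by
    intro e he
    refine ⟨Or.inl (List.mem_append_left _ he), ?_⟩
    rcases e2 e he with h1 | h1
    · exact (hDI.rP e (hDI.fP e h1)).mono fun e he => Or.inr he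
    · exact h1.mono fun e he => Or.inl he
  have hLIr : ∀ e ∈ LI, GI e ∧ RT GI e.2 y := by
    intro e he
    refine ⟨Or.inl (List.mem_append_left _ he), ?_⟩
    rcases e3 e he with h1 | h1
    · exact (hDI.rQ e (hDI.fQ e h1)).mono fun e he => Or.inr he
    · exact h1.mono fun e he => Or.inl he
  obtain ⟨X1, Y1, hinv⟩ := invS_base (E := E) (M := M) (ZA := ZA) (ZB := ZB) (GO := GO) (GI := GI)
    hL1 hL2 ⟨g1, g2, g3⟩ hdj ⟨g6, g7, g8⟩ ⟨g9, g10⟩
    (fun v hv => ⟨(memM v hv).1.1, (memM v hv).2.2.1, (memM v hv).2.2.2⟩)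
    (fun v hv => ⟨(memA v hv).1.1, (memA v hv).2.1⟩)
    (fun v hv => ⟨(memB v hv).1.1, (memB v hv).2.1⟩) hGO hGI hLOr hLIr
  obtain ⟨X2, Y2, hinv2⟩ := invS_iter (V := V) (z := (s :: ends LO, y :: ends LI)) hinv
    (V ++ V).length
  have hz' : (stp V E LO LI)^[(V ++ V).length] (s :: ends LO, y :: ends LI) = z := hz
  rw [hz'] at hinv2
  have hinv3 := hinv2.congr (A' := fun v => v ∈ z.1) (B' := fun v => v ∈ z.2) (fun v => by
    constructor
    · rintro (h1 | h1 | h1 | h1)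
      · exact h1
      · exact (memM v h1).1.2.1
      · exact (memA v h1.1).1.2.1
      · exact (memB v h1.1).1.2.1
    · exact Or.inl) (fun v => by
    constructor
    · rintro (h1 | h1 | h1 | h1)
      · exact h1
      · exact (memM v h1).1.2.2
      · exact (memA v h1.1).1.2.2
      · exact (memB v h1.1).1.2.2
    · exact Or.inl)
  refine sound2 hinv3 ?_ hfin
  intro v hv h1 h2 h3
  unfold dmB at hdm
  simp only [Bool.or_eq_true, decide_eq_true_eq, List.all_eq_true, inn_iff, outn_iff] at hdm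
  rcases hdm v hv with (h4 | h4) | h4 | h4
  · exact absurd h4 h1
  · exact absurd h4 h2
  · exact absurd h4 h3
  · exact h4

/-- **Soundness** of the algorithm. -/
theorem al2_sound {cX cL B : ℕ} {V : List ℕ} {E : List (ℕ × ℕ)} (h : al2 cX cL B V E = true) :
    ∃ s ∈ V, ∃ t ∈ V, ∃ X' Y' : ℕ × ℕ → Prop, (∀ e, X' e → e ∈ E) ∧ (∀ e, Y' e → e ∈ E) ∧
      (∀ e, X' e → ¬ Y' e) ∧ (∀ v ∈ V, RT X' s v) ∧ (∀ v ∈ V, RT Y' v t) := by
  unfold al2 at h
  simp only [List.any_eq_true, List.mem_product, Prod.exists] at h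
  obtain ⟨s, t, y1, y2, ⟨⟨hs, ht⟩, -, -⟩, X, -, LO, LI, ⟨hLO, hLI⟩, h⟩ := h
  exact ⟨s, hs, t, ht, ts2_sound (mem_tup.1 hLO).2 (mem_tup.1 hLI).2 h⟩

/-- **Soundness** of the algorithm for prescribed roots. -/
theorem alF_sound {cX cL B : ℕ} {V : List ℕ} {E : List (ℕ × ℕ)} {s t : ℕ}
    (h : alF cX cL B V E (s, t) = true) :
    ∃ X' Y' : ℕ × ℕ → Prop, (∀ e, X' e → e ∈ E) ∧ (∀ e, Y' e → e ∈ E) ∧
      (∀ e, X' e → ¬ Y' e) ∧ (∀ v ∈ V, RT X' s v) ∧ (∀ v ∈ V, RT Y' v t) := by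
  unfold alF at h
  simp only [List.any_eq_true, List.mem_product, Prod.exists] at h
  obtain ⟨y1, y2, -, X, -, LO, LI, ⟨hLO, hLI⟩, h⟩ := h
  exact ts2_sound (mem_tup.1 hLO).2 (mem_tup.1 hLI).2 h

end Pool.Agent.H871.GP
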