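import Pool.Agent.H871_GP.Exch
import Pool.Agent.H654R4.MO.Time

/-!
# The certificates: definitions and soundness
-/

namespace Pool.Agent.H871.GP

open Relation

/-- `v` can be reached from `u` along the arcs in `R`. -/
abbrev RT (R : ℕ × ℕ → Prop) (u v : ℕ) : Prop := ReflTransGen (fun u v => R (u, v)) u v

theorem RT.mono {R R' : ℕ × ℕ → Prop} (h : ∀ e, R e → R' e) {u v : ℕ} (hr : RT R u v) :
    RT R' u v := by
  induction hr with
  | refl => exact ReflTransGen.refl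
  | tail _ h2 ih => exact ReflTransGen.tail ih (h _ h2)

theorem reachB_rt {D : List (ℕ × ℕ)} {s t : ℕ} :
    H654R4.MO.reachB D s t = true ↔ RT (· ∈ D) s t := by
  rw [H654R4.MO.reachB_iff]
  constructor
  · intro h
    by_contra hc
    obtain ⟨a, ha, h1, h2⟩ := h {v | RT (· ∈ D) s v} ReflTransGen.refl hc
    exact h2 (ReflTransGen.tail h1 ha)
  · intro h S hs ht
    by_contra hc
    push Not at hc
    have key : ∀ v, RT (· ∈ D) s v → v ∈ S := by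
      intro v hv
      induction hv with
      | refl => exact hs
      | tail _ h2 ih => exact hc _ h2 ih
    exact ht (key t h)

/-- the vertex `v` has an in-neighbour which is in both lists -/
def inn (E : List (ℕ × ℕ)) (A B : List ℕ) (v : ℕ) : Bool :=
  E.any (fun e => decide (e.2 = v) && (decide (e.1 ∈ A) && decide (e.1 ∈ B)))

/-- the vertex `v` has an out-neighbour which is in both lists -/
def outn (E : List (ℕ × ℕ)) (A B : List ℕ) (v : ℕ) : Bool :=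
  E.any (fun e => decide (e.1 = v) && (decide (e.2 ∈ A) && decide (e.2 ∈ B)))

/-- the vertices added to the first list -/
def newA (V : List ℕ) (E LI : List (ℕ × ℕ)) (A B : List ℕ) : List ℕ :=
  V.filter (fun v => !decide (v ∈ A) && ((!decide (v ∈ B) && (inn E A B v && outn E A B v)) ||
    (decide (v ∈ B) && inn (E.filter (fun e => !decide (e ∈ LI))) A B v)))

/-- the vertices added to the second list -/
def newB (V : List ℕ) (E LO : List (ℕ × ℕ)) (A B : List ℕ) : List ℕ :=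
  V.filter (fun v => !decide (v ∈ B) && ((!decide (v ∈ A) && (inn E A B v && outn E A B v)) ||
    (decide (v ∈ A) && outn (E.filter (fun e => !decide (e ∈ LO))) A B v)))

/-- one round of absorption -/
def stp (V : List ℕ) (E LO LI : List (ℕ × ℕ)) (z : List ℕ × List ℕ) : List ℕ × List ℕ :=
  (z.1 ++ newA V E LI z.1 z.2, z.2 ++ newB V E LO z.1 z.2)

/-- the vertices from which the in-branching has to escape -/
def up (V : List ℕ) (E : List (ℕ × ℕ)) (A B : List ℕ) : List ℕ :=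
  V.filter (fun v => !decide (v ∈ B) && (decide (v ∈ A) || inn E A B v))

/-- the vertices which the out-branching has to enter -/
def um (V : List ℕ) (E : List (ℕ × ℕ)) (A B : List ℕ) : List ℕ :=
  V.filter (fun v => !decide (v ∈ A) && (decide (v ∈ B) || !(inn E A B v)))

/-- the arcs of `E` outside `L` with both ends in `U` -/
def ins (E L : List (ℕ × ℕ)) (U : List ℕ) : List (ℕ × ℕ) :=
  E.filter (fun e => decide (e.1 ∈ U) && (decide (e.2 ∈ U) && !decide (e ∈ L)))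

/-- the final test -/
def fin (V : List ℕ) (E LO LI : List (ℕ × ℕ)) (A B : List ℕ) (FO FI : List (ℕ × ℕ)) : Bool :=
  (FO.all (fun e => decide (e ∈ E) && (decide (e.1 ∈ up V E A B) &&
    (decide (e.2 ∈ um V E A B) && !decide (e ∈ FI)))) &&
  FI.all (fun e => decide (e ∈ E) && (decide (e.1 ∈ up V E A B) &&
    decide (e.2 ∈ um V E A B)))) &&
  ((up V E A B).all (fun u => FI.any (fun e =>
    H654R4.MO.reachB (ins E LO (up V E A B)) u e.1)) &&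
  (um V E A B).all (fun v => FO.any (fun e =>
    H654R4.MO.reachB (ins E LI (um V E A B)) e.2 v)))

theorem inn_iff {E : List (ℕ × ℕ)} {A B : List ℕ} {v : ℕ} :
    inn E A B v = true ↔ ∃ c, (c, v) ∈ E ∧ c ∈ A ∧ c ∈ B := by
  unfold inn
  simp only [List.any_eq_true, Bool.and_eq_true, decide_eq_true_eq, Prod.exists]
  constructor
  · rintro ⟨c, w, h, rfl, h1, h2⟩; exact ⟨c, h, h1, h2⟩
  · rintro ⟨c, h, h1, h2⟩; exact ⟨c, v, h, rfl, h1, h2⟩

theorem outn_iff {E : List (ℕ × ℕ)} {A B : List ℕ} {v : ℕ} :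
    outn E A B v = true ↔ ∃ c, (v, c) ∈ E ∧ c ∈ A ∧ c ∈ B := by
  unfold outn
  simp only [List.any_eq_true, Bool.and_eq_true, decide_eq_true_eq, Prod.exists]
  constructor
  · rintro ⟨w, c, h, rfl, h1, h2⟩; exact ⟨c, h, h1, h2⟩
  · rintro ⟨c, h, h1, h2⟩; exact ⟨v, c, h, rfl, h1, h2⟩

theorem mem_newA {V : List ℕ} {E LI : List (ℕ × ℕ)} {A B : List ℕ} {v : ℕ} :
    v ∈ newA V E LI A B ↔ v ∈ V ∧ v ∉ A ∧
      ((v ∉ B ∧ (∃ c, (c, v) ∈ E ∧ c ∈ A ∧ c ∈ B) ∧ ∃ c, (v, c) ∈ E ∧ c ∈ A ∧ c ∈ B) ∨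
      (v ∈ B ∧ ∃ c, ((c, v) ∈ E ∧ (c, v) ∉ LI) ∧ c ∈ A ∧ c ∈ B)) := by
  unfold newA
  simp only [List.mem_filter, Bool.and_eq_true, Bool.or_eq_true, Bool.not_eq_true',
    decide_eq_true_eq, decide_eq_false_iff_not, inn_iff, outn_iff]

theorem mem_newB {V : List ℕ} {E LO : List (ℕ × ℕ)} {A B : List ℕ} {v : ℕ} :
    v ∈ newB V E LO A B ↔ v ∈ V ∧ v ∉ B ∧
      ((v ∉ A ∧ (∃ c, (c, v) ∈ E ∧ c ∈ A ∧ c ∈ B) ∧ ∃ c, (v, c) ∈ E ∧ c ∈ A ∧ c ∈ B) ∨
      (v ∈ A ∧ ∃ c, ((v, c) ∈ E ∧ (v, c) ∉ LO) ∧ c ∈ A ∧ c ∈ B)) := by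
  unfold newB
  simp only [List.mem_filter, Bool.and_eq_true, Bool.or_eq_true, Bool.not_eq_true',
    decide_eq_true_eq, decide_eq_false_iff_not, inn_iff, outn_iff]

theorem mem_up {V : List ℕ} {E : List (ℕ × ℕ)} {A B : List ℕ} {v : ℕ} :
    v ∈ up V E A B ↔ v ∈ V ∧ v ∉ B ∧ (v ∈ A ∨ ∃ c, (c, v) ∈ E ∧ c ∈ A ∧ c ∈ B) := by
  unfold up
  simp only [List.mem_filter, Bool.and_eq_true, Bool.or_eq_true, Bool.not_eq_true',
    decide_eq_true_eq, decide_eq_false_iff_not, inn_iff]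

theorem mem_um {V : List ℕ} {E : List (ℕ × ℕ)} {A B : List ℕ} {v : ℕ} :
    v ∈ um V E A B ↔ v ∈ V ∧ v ∉ A ∧ (v ∈ B ∨ ¬ ∃ c, (c, v) ∈ E ∧ c ∈ A ∧ c ∈ B) := by
  unfold um
  simp only [List.mem_filter, Bool.and_eq_true, Bool.or_eq_true, Bool.not_eq_true',
    decide_eq_true_eq, decide_eq_false_iff_not, ← inn_iff, Bool.not_eq_true]

theorem mem_ins {E L : List (ℕ × ℕ)} {U : List ℕ} {e : ℕ × ℕ} :
    e ∈ ins E L U ↔ e ∈ E ∧ e.1 ∈ U ∧ e.2 ∈ U ∧ e ∉ L := by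
  unfold ins
  simp only [List.mem_filter, Bool.and_eq_true, Bool.not_eq_true',
    decide_eq_true_eq, decide_eq_false_iff_not]

/-- The invariant of the absorption process. -/
structure Inv (E LO LI : List (ℕ × ℕ)) (s t : ℕ) (A B : List ℕ) (X Y : ℕ × ℕ → Prop) : Prop where
  subO : ∀ e, X e → e ∈ E ∧ e.1 ∈ A ∧ e.2 ∈ A
  subI : ∀ e, Y e → e ∈ E ∧ e.1 ∈ B ∧ e.2 ∈ B
  dj : ∀ e, X e → ¬ Y e
  rO : ∀ v ∈ A, RT X s v
  rI : ∀ v ∈ B, RT Y v t
  oldO : ∀ e, X e → e.1 ∉ B → e ∈ LO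
  oldI : ∀ e, Y e → e.2 ∉ A → e ∈ LI
  inO : ∀ e ∈ LO, X e
  inI : ∀ e ∈ LI, Y e

/-- One round of absorption preserves the invariant. -/
theorem inv_step {V : List ℕ} {E LO LI : List (ℕ × ℕ)} {s t : ℕ} {A B : List ℕ}
    {X Y : ℕ × ℕ → Prop} (h : Inv E LO LI s t A B X Y) :
    ∃ X' Y', Inv E LO LI s t (A ++ newA V E LI A B) (B ++ newB V E LO A B) X' Y' := by
  classical
  have hA : ∀ v ∈ newA V E LI A B, ∃ c, (c, v) ∈ E ∧ c ∈ A ∧ c ∈ B ∧ ¬ Y (c, v) := by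
    intro v hv
    obtain ⟨-, h1, ⟨h2, ⟨c, h3, h4, h5⟩, -⟩ | ⟨h2, c, ⟨h3, h6⟩, h4, h5⟩⟩ := mem_newA.1 hv
    · exact ⟨c, h3, h4, h5, fun hY => h2 (h.subI _ hY).2.2⟩
    · exact ⟨c, h3, h4, h5, fun hY => h6 (h.oldI _ hY h1)⟩
  have hB : ∀ v ∈ newB V E LO A B, ∃ c, (v, c) ∈ E ∧ c ∈ A ∧ c ∈ B ∧ ¬ X (v, c) := by
    intro v hv
    obtain ⟨-, h1, ⟨h2, -, c, h3, h4, h5⟩ | ⟨h2, c, ⟨h3, h6⟩, h4, h5⟩⟩ := mem_newB.1 hv
    · exact ⟨c, h3, h4, h5, fun hX => h2 (h.subO _ hX).2.1⟩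
    · exact ⟨c, h3, h4, h5, fun hX => h6 (h.oldO _ hX h1)⟩
  have nA : ∀ v ∈ newA V E LI A B, v ∉ A := fun v hv => (mem_newA.1 hv).2.1
  have nB : ∀ v ∈ newB V E LO A B, v ∉ B := fun v hv => (mem_newB.1 hv).2.1
  choose! p hp using hA
  choose! q hq using hB
  let X' : ℕ × ℕ → Prop := fun e => X e ∨ (e.2 ∈ newA V E LI A B ∧ e.1 = p e.2)
  let Y' : ℕ × ℕ → Prop := fun e => Y e ∨ (e.1 ∈ newB V E LO A B ∧ e.2 = q e.1)
  have hX : ∀ u v, RT X u v → RT X' u v := fun u v hh => hh.mono fun e he => Or.inl he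
  have hY : ∀ u v, RT Y u v → RT Y' u v := fun u v hh => hh.mono fun e he => Or.inl he
  refine ⟨X', Y', ⟨?_, ?_, ?_, ?_, ?_, ?_, ?_, ?_, ?_⟩⟩
  · rintro ⟨u, v⟩ (h1 | ⟨h1, h2⟩)
    · obtain ⟨h3, h4, h5⟩ := h.subO _ h1
      exact ⟨h3, List.mem_append_left _ h4, List.mem_append_left _ h5⟩
    · simp only at h1 h2
      subst h2
      obtain ⟨h3, h4, -⟩ := hp v h1
      exact ⟨h3, List.mem_append_left _ h4, List.mem_append_right _ h1⟩
  · rintro ⟨u, v⟩ (h1 | ⟨h1, h2⟩)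
    · obtain ⟨h3, h4, h5⟩ := h.subI _ h1
      exact ⟨h3, List.mem_append_left _ h4, List.mem_append_left _ h5⟩
    · simp only at h1 h2
      subst h2
      obtain ⟨h3, -, h4, -⟩ := hq u h1
      exact ⟨h3, List.mem_append_right _ h1, List.mem_append_left _ h4⟩
  · rintro ⟨u, v⟩ (h1 | ⟨h1, h2⟩) (h3 | ⟨h3, h4⟩)
    · exact h.dj _ h1 h3
    · simp only at h3 h4
      subst h4
      exact (hq u h3).2.2.2 h1
    · simp only at h1 h2
      subst h2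
      exact (hp v h1).2.2.2 h3
    · simp only at h1 h2 h3 h4
      subst h2
      exact nB _ h3 (hp v h1).2.2.1
  · intro v hv
    rcases List.mem_append.1 hv with hv | hv
    · exact hX _ _ (h.rO v hv)
    · obtain ⟨h1, h2, h3, h4⟩ := hp v hv
      have h5 : X' (p v, v) := Or.inr ⟨hv, rfl⟩
      exact ReflTransGen.tail (hX _ _ (h.rO _ h2)) h5
  · intro v hv
    rcases List.mem_append.1 hv with hv | hv
    · exact hY _ _ (h.rI v hv)
    · obtain ⟨h1, h2, h3, h4⟩ := hq v hv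
      have h5 : Y' (v, q v) := Or.inr ⟨hv, rfl⟩
      exact ReflTransGen.head h5 (hY _ _ (h.rI _ h3))
  · rintro ⟨u, v⟩ (h1 | ⟨h1, h2⟩) h3
    · exact h.oldO _ h1 fun h4 => h3 (List.mem_append_left _ h4)
    · simp only at h1 h2 h3
      subst h2
      exact absurd (List.mem_append_left _ (hp v h1).2.2.1) h3
  · rintro ⟨u, v⟩ (h1 | ⟨h1, h2⟩) h3
    · exact h.oldI _ h1 fun h4 => h3 (List.mem_append_left _ h4)
    · simp only at h1 h2 h3
      subst h2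
      exact absurd (List.mem_append_left _ (hq u h1).2.1) h3
  · exact fun e he => Or.inl (h.inO e he)
  · exact fun e he => Or.inl (h.inI e he)

theorem inv_iter {V : List ℕ} {E LO LI : List (ℕ × ℕ)} {s t : ℕ} {z : List ℕ × List ℕ}
    {X Y : ℕ × ℕ → Prop} (h : Inv E LO LI s t z.1 z.2 X Y) (n : ℕ) :
    ∃ X' Y', Inv E LO LI s t ((stp V E LO LI)^[n] z).1 ((stp V E LO LI)^[n] z).2 X' Y' := by
  induction n with
  | zero => exact ⟨X, Y, h⟩
  | succ n ih =>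
    obtain ⟨X', Y', h'⟩ := ih
    rw [Function.iterate_succ_apply']
    exact inv_step h'

theorem sub_iter {V : List ℕ} {E LO LI : List (ℕ × ℕ)} {z : List ℕ × List ℕ} (n : ℕ) :
    (∀ v ∈ z.1, v ∈ ((stp V E LO LI)^[n] z).1) ∧ ∀ v ∈ z.2, v ∈ ((stp V E LO LI)^[n] z).2 := by
  induction n with
  | zero => exact ⟨fun v h => h, fun v h => h⟩
  | succ n ih =>
    rw [Function.iterate_succ_apply']
    exact ⟨fun v h => List.mem_append_left _ (ih.1 v h),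
      fun v h => List.mem_append_left _ (ih.2 v h)⟩

/-- **Soundness.**  If the final test succeeds, then there are disjoint sets of arcs in which the
root `s` reaches every vertex and every vertex reaches `t`. -/
theorem sound {V : List ℕ} {E LO LI : List (ℕ × ℕ)} {s t : ℕ} {A B : List ℕ}
    {X Y : ℕ × ℕ → Prop} (h : Inv E LO LI s t A B X Y) {x y : ℕ} (hxA : x ∈ A) (hxB : x ∈ B)
    (hyA : y ∈ A) (hyB : y ∈ B)
    (hdom : ∀ v ∈ V, v ≠ x → v ≠ y → (v, x) ∈ E ∨ (x, v) ∈ E ∨ (v, y) ∈ E ∨ (y, v) ∈ E)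
    {FO FI : List (ℕ × ℕ)} (hf : fin V E LO LI A B FO FI = true) :
    ∃ X' Y' : ℕ × ℕ → Prop, (∀ e, X' e → e ∈ E) ∧ (∀ e, Y' e → e ∈ E) ∧ (∀ e, X' e → ¬ Y' e) ∧
      (∀ v ∈ V, RT X' s v) ∧ (∀ v ∈ V, RT Y' v t) ∧ (∀ e ∈ LO, X' e) ∧ ∀ e ∈ LI, Y' e := by
  classical
  unfold fin at hf
  simp only [Bool.and_eq_true, List.all_eq_true, List.any_eq_true, Bool.not_eq_true',
    decide_eq_true_eq, decide_eq_false_iff_not, reachB_rt] at hf
  obtain ⟨⟨hFO, hFI⟩, hup, hum⟩ := hf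
  set P := up V E A B with hP
  set M := um V E A B with hM
  have memP : ∀ {v}, v ∈ P ↔ v ∈ V ∧ v ∉ B ∧ (v ∈ A ∨ ∃ c, (c, v) ∈ E ∧ c ∈ A ∧ c ∈ B) := by
    intro v; rw [hP]; exact mem_up
  have memM : ∀ {v}, v ∈ M ↔ v ∈ V ∧ v ∉ A ∧ (v ∈ B ∨ ¬ ∃ c, (c, v) ∈ E ∧ c ∈ A ∧ c ∈ B) := by
    intro v; rw [hM]; exact mem_um
  have hPM : ∀ v ∈ P, v ∉ M := by
    intro v h1 h2
    obtain ⟨-, h3, h4⟩ := memP.1 h1
    obtain ⟨-, h5, h6⟩ := memM.1 h2
    rcases h4 with h4 | h4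
    · exact h5 h4
    · exact (h6.resolve_left h3) h4
  -- vertices outside both lists with no in-neighbour in the core have an out-neighbour in it
  have hout : ∀ v ∈ V, v ∉ A → v ∉ B → (¬ ∃ c, (c, v) ∈ E ∧ c ∈ A ∧ c ∈ B) →
      ∃ c, (v, c) ∈ E ∧ c ∈ A ∧ c ∈ B := by
    intro v hv h1 h2 h3
    have hvx : v ≠ x := fun hh => h1 (hh ▸ hxA)
    have hvy : v ≠ y := fun hh => h1 (hh ▸ hyA)
    rcases hdom v hv hvx hvy with h4 | h4 | h4 | h4
    · exact ⟨x, h4, hxA, hxB⟩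
    · exact absurd ⟨x, h4, hxA, hxB⟩ h3
    · exact ⟨y, h4, hyA, hyB⟩
    · exact absurd ⟨y, h4, hyA, hyB⟩ h3
  let X' : ℕ × ℕ → Prop := fun e => X e ∨ (e ∈ E ∧ e.1 ∈ A ∧ e.1 ∈ B ∧ e.2 ∉ A ∧ e.2 ∉ B) ∨
    e ∈ FO ∨ e ∈ ins E LI M
  let Y' : ℕ × ℕ → Prop := fun e => Y e ∨ (e ∈ E ∧ e.2 ∈ A ∧ e.2 ∈ B ∧ e.1 ∉ A ∧ e.1 ∉ B) ∨
    e ∈ FI ∨ e ∈ ins E LO P
  have hX : ∀ u v, RT X u v → RT X' u v := fun u v hh => hh.mono fun e he => Or.inl he
  have hY : ∀ u v, RT Y u v → RT Y' u v := fun u v hh => hh.mono fun e he => Or.inl he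
  have hX2 : ∀ u v, RT (· ∈ ins E LI M) u v → RT X' u v := fun u v hh =>
    hh.mono fun e he => Or.inr (Or.inr (Or.inr he))
  have hY2 : ∀ u v, RT (· ∈ ins E LO P) u v → RT Y' u v := fun u v hh =>
    hh.mono fun e he => Or.inr (Or.inr (Or.inr he))
  refine ⟨X', Y', ?_, ?_, ?_, ?_, ?_, fun e he => Or.inl (h.inO e he),
    fun e he => Or.inl (h.inI e he)⟩
  · rintro e (h1 | h1 | h1 | h1)
    · exact (h.subO e h1).1
    · exact h1.1
    · exact (hFO e h1).1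
    · exact (mem_ins.1 h1).1
  · rintro e (h1 | h1 | h1 | h1)
    · exact (h.subI e h1).1
    · exact h1.1
    · exact (hFI e h1).1
    · exact (mem_ins.1 h1).1
  · rintro e (h1 | h1 | h1 | h1) (h2 | h2 | h2 | h2)
    · exact h.dj e h1 h2
    · exact h2.2.2.2.1 (h.subO e h1).2.1
    · exact (memM.1 (hFI e h2).2.2).2.1 (h.subO e h1).2.2
    · obtain ⟨-, h3, -, h4⟩ := mem_ins.1 h2
      exact h4 (h.oldO e h1 (memP.1 h3).2.1)
    · exact h1.2.2.2.2 (h.subI e h2).2.2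
    · exact h2.2.2.2.1 h1.2.1
    · exact (memP.1 (hFI e h2).2.1).2.1 h1.2.2.1
    · exact (memP.1 (mem_ins.1 h2).2.1).2.1 h1.2.2.1
    · exact (memP.1 (hFO e h1).2.1).2.1 (h.subI e h2).2.1
    · exact (memM.1 (hFO e h1).2.2.1).2.1 h2.2.1
    · exact (hFO e h1).2.2.2 h2
    · exact hPM _ (mem_ins.1 h2).2.2.1 (hFO e h1).2.2.1
    · obtain ⟨-, -, h3, h4⟩ := mem_ins.1 h1
      exact h4 (h.oldI e h2 (memM.1 h3).2.1)
    · exact (memM.1 (mem_ins.1 h1).2.2.1).2.1 h2.2.1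
    · exact hPM _ (hFI e h2).2.1 (mem_ins.1 h1).2.1
    · exact hPM _ (mem_ins.1 h2).2.1 (mem_ins.1 h1).2.1
  · -- reachability from `s`
    have hPs : ∀ v ∈ P, RT X' s v := by
      intro v hv
      obtain ⟨h1, h2, h3⟩ := memP.1 hv
      by_cases hvA : v ∈ A
      · exact hX _ _ (h.rO v hvA)
      · obtain ⟨c, hc, hcA, hcB⟩ := h3.resolve_left hvA
        have h5 : X' (c, v) := Or.inr (Or.inl ⟨hc, hcA, hcB, hvA, h2⟩)
        exact ReflTransGen.tail (hX _ _ (h.rO c hcA)) h5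
    intro v hv
    by_cases hvA : v ∈ A
    · exact hX _ _ (h.rO v hvA)
    by_cases hvP : v ∈ P
    · exact hPs v hvP
    have hvM : v ∈ M := by
      rw [memM]
      refine ⟨hv, hvA, ?_⟩
      by_contra hc
      rw [not_or, not_not] at hc
      exact hvP (memP.2 ⟨hv, hc.1, Or.inr hc.2⟩)
    obtain ⟨e, he, hr⟩ := hum v hvM
    have h1 := hPs e.1 (hFO e he).2.1
    have h5 : X' (e.1, e.2) := Or.inr (Or.inr (Or.inl he))
    exact (ReflTransGen.tail h1 h5).trans (hX2 _ _ hr)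
  · -- reachability of `t`
    have hMt : ∀ v ∈ M, RT Y' v t := by
      intro v hv
      obtain ⟨h1, h2, h3⟩ := memM.1 hv
      by_cases hvB : v ∈ B
      · exact hY _ _ (h.rI v hvB)
      · obtain ⟨c, hc, hcA, hcB⟩ := hout v h1 h2 hvB (h3.resolve_left hvB)
        have h5 : Y' (v, c) := Or.inr (Or.inl ⟨hc, hcA, hcB, h2, hvB⟩)
        exact ReflTransGen.head h5 (hY _ _ (h.rI c hcB))
    intro v hv
    by_cases hvB : v ∈ B
    · exact hY _ _ (h.rI v hvB)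
    by_cases hvM : v ∈ M
    · exact hMt v hvM
    have hvP : v ∈ P := by
      rw [memP]
      refine ⟨hv, hvB, ?_⟩
      by_contra hc
      rw [not_or] at hc
      exact hvM (memM.2 ⟨hv, hc.1, Or.inr hc.2⟩)
    obtain ⟨e, he, hr⟩ := hup v hvP
    have h1 := hMt e.2 (hFI e he).2.2
    have h5 : Y' (e.1, e.2) := Or.inr (Or.inr (Or.inl he))
    exact (hY2 _ _ hr).trans (ReflTransGen.head h5 h1)

end Pool.Agent.H871.GP
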