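import Pool.Agent.H871_GP.Corr2

/-!
# Digraphs in which every vertex has few non-neighbours
-/

namespace Pool.Agent.H871.GP

open Pool.Agent.NPC

theorem prs_chain {w : List ℕ} : (∀ e ∈ prs w, e.1 < e.2) ↔ w.IsChain (· < ·) := by
  induction w with
  | nil => simp [prs]
  | cons u l ih =>
    cases l with
    | nil => simp [prs]
    | cons v l =>
      rw [prs_cons_cons, List.isChain_cons_cons, ← ih]
      simp only [List.mem_cons, forall_eq_or_imp]

theorem cdB_iff {G : List ℕ × List (ℕ × ℕ)} {d : ℕ} : CoDeg G d ↔ cdB d G.1 (arcs G) = true := by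
  classical
  unfold cdB CoDeg
  simp only [List.all_eq_true, Bool.or_eq_true, Bool.not_eq_true', decide_eq_false_iff_not,
    List.any_eq_true, decide_eq_true_eq, Prod.forall, List.mem_product, mem_tup, adB_iff]
  constructor
  · rintro h z w ⟨hz, hw1, hw2⟩
    by_contra hc
    push Not at hc
    obtain ⟨⟨h1, h2⟩, h3⟩ := hc
    have h4 : w.IsChain (· < ·) := by
      rw [← prs_chain]
      have h2' : (prs w).all (fun e => decide (e.1 < e.2)) = true := by
        rw [← Bool.not_eq_false]
        exact h2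
      intro e he
      have := List.all_eq_true.1 h2' e he
      simpa using this
    have h5 : w.Nodup := by
      have := List.isChain_iff_pairwise.1 h4
      exact this.imp fun h => ne_of_lt h
    have h6 := h z hz w.toFinset (fun v hv => by
      rw [List.mem_toFinset] at hv
      obtain ⟨h7, h8⟩ := h3 v hv
      refine ⟨hz, hw2 v hv, fun hh => h7 hh.symm, fun hh => h8.1 (mem_arcs.2 hh), fun hh =>
        h8.2 (mem_arcs.2 hh)⟩)
    rw [List.toFinset_card_of_nodup h5] at h6
    omega
  · intro h z hz F hF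
    by_contra hc
    push Not at hc
    have hl : (F.sort (· ≤ ·)).length = F.card := Finset.length_sort _
    have hch : ((F.sort (· ≤ ·)).take (d + 1)).IsChain (· < ·) := by
      have h1 : (F.sort (· ≤ ·)).Pairwise (· < ·) := Finset.sortedLT_sort F |>.pairwise
      exact (List.Pairwise.sublist (List.take_sublist _ _) h1).isChain
    have hmem : ∀ e ∈ (F.sort (· ≤ ·)).take (d + 1), e ∈ G.1 := by
      intro e he
      have heF : e ∈ F := by
        have := List.mem_of_mem_take he
        simpa using this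
      exact (hF e heF).2.1
    rcases h z ((F.sort (· ≤ ·)).take (d + 1)) ⟨hz, by simp, hmem⟩ with
      (h1 | h1) | ⟨v, hv, h1⟩
    · rw [List.length_take, hl] at h1
      omega
    · rw [← prs_chain] at hch
      rw [← Bool.not_eq_true, List.all_eq_true] at h1
      exact h1 fun e he => by simpa using hch e he
    · have hvF : v ∈ F := by
        have := List.mem_of_mem_take hv
        simpa using this
      obtain ⟨h2, h3, h4, h5, h6⟩ := hF v hvF
      rcases h1 with h1 | h1 | h1
      · exact h4 h1.symm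
      · exact h5 (mem_arcs.1 h1)
      · exact h6 (mem_arcs.1 h1)

/-- For digraphs with bounded numbers of non-neighbours, good pairs can be chosen to be short. -/
theorem short_of_coDeg {G : List ℕ × List (ℕ × ℕ)} (hα : AlphaTwo G) {d : ℕ} (hd : CoDeg G d) :
    (∃ s t X Y, GoodPair G s t X Y) ↔ ∃ s t X Y x y, GoodPair G s t X Y ∧ Nonadj G x y ∧
      Near X Y (d + 8) s t x ∧ Near X Y (d + 8) s t y := by
  constructor
  · rintro ⟨s, t, X, Y, hO, hI, hdj⟩
    obtain ⟨⟨p, hp, q, hq, hpq, hn⟩, hal⟩ := alB_iff'.1 (alphaTwo_iff.1 hα)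
    rw [mem_arcs, mem_arcs, not_or] at hn
    obtain ⟨f, a, g, b, hGP, -, -⟩ := gpair_of (G := G) (s := s) (t := t) (X := X) (Y := Y)
      hO.1 hI.1 (fun e he => (hO.2.1 e he).1) (fun e he => (hI.2.1 e he).1)
      (fun e he => Set.disjoint_left.1 hdj he) hO.2.2.2 hI.2.2.2
    obtain ⟨s', t', f', a', g', b', hGP', h1, h2, h3, h4⟩ := exists_short
      (S := {v | v ∈ G.1}) (D := Arc G) (x := p) (y := q) (d := d)
      (fun u v h => ⟨h.2.1, h.2.2.1⟩) (fun u hu v hv w hw n1 n2 n3 => by
        have := hal u hu v hv w hw n1 n2 n3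
        simp only [mem_arcs] at this
        tauto) (fun z hz F hF => hd z hz F (fun v hv => by
          obtain ⟨h1, h2, h3, h4⟩ := hF v hv
          exact ⟨hz, h1, fun hh => h2 hh.symm, h3, h4⟩)) hp hq ⟨s, t, f, a, g, b, hGP⟩
    obtain ⟨X', Y', hgood, hw⟩ := goodPair_of hGP'
    exact ⟨s', t', X', Y', p, q, hgood, ⟨hp, hq, hpq, hn.1, hn.2⟩,
      ⟨⟨a' p, h1, (hw p hp).1⟩, ⟨b' p, h3, (hw p hp).2⟩⟩,
      ⟨⟨a' q, h2, (hw q hq).1⟩, ⟨b' q, h4, (hw q hq).2⟩⟩⟩
  · rintro ⟨s, t, X, Y, x, y, h, -⟩
    exact ⟨s, t, X, Y, h⟩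

attribute [local irreducible] alB dcB arcs in
/-- For every constant `c`, it can be decided in polynomial time whether a digraph of independence
number two has a good pair in which two nonadjacent vertices are at distance at most `c` from both
roots. -/
theorem inPP_short (c : ℕ) : InPP (fun G : List ℕ × List (ℕ × ℕ) => AlphaTwo G ∧
    ∃ s t X Y x y, GoodPair G s t X Y ∧ Nonadj G x y ∧ Near X Y c s t x ∧ Near X Y c s t y) := by
  refine inPP_of (poly_main1 c) fun G => ?_
  rw [Bool.and_eq_true, ← alphaTwo_iff]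
  constructor
  · rintro ⟨h1, h2⟩
    exact ⟨h1, (dcB_iff h1 c).2 h2⟩
  · rintro ⟨h1, h2⟩
    exact ⟨h1, (dcB_iff h1 c).1 h2⟩

attribute [local irreducible] alB dcB arcs cdB in
/-- For every constant `d`, the good pair problem is in `P` for the digraphs of independence
number two in which every vertex has at most `d` non-neighbours. -/
theorem inPP_coDeg (d : ℕ) : InPP (fun G : List ℕ × List (ℕ × ℕ) => AlphaTwo G ∧ CoDeg G d ∧
    ∃ s t X Y, GoodPair G s t X Y) := by
  refine inPP_of (poly_main2 d) fun G => ?_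
  rw [Bool.and_eq_true, Bool.and_eq_true, ← alphaTwo_iff, ← cdB_iff]
  constructor
  · rintro ⟨h1, h2, h3⟩
    exact ⟨h2, h1, (dcB_iff h1 _).2 ((short_of_coDeg h1 h2).1 h3)⟩
  · rintro ⟨h1, h2, h3⟩
    exact ⟨h2, h1, (short_of_coDeg h2 h1).2 ((dcB_iff h2 _).1 h3)⟩

end Pool.Agent.H871.GP
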