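import Pool.Agent.H871_GP.Cert

/-!
# The certificates: completeness
-/

namespace Pool.Agent.H871.GP

open Relation

/-- the list of pairs of consecutive entries -/
def prs (l : List ℕ) : List (ℕ × ℕ) := l.zip l.tail

theorem prs_nil : prs [] = [] := rfl

theorem prs_cons_cons (u v : ℕ) (l : List ℕ) : prs (u :: v :: l) = (u, v) :: prs (v :: l) := rfl

theorem prs_single (u : ℕ) : prs [u] = [] := rfl

theorem mem_prs {l : List ℕ} {e : ℕ × ℕ} : e ∈ prs l ↔
    ∃ i, l[i]? = some e.1 ∧ l[i + 1]? = some e.2 := by
  unfold prs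
  rw [List.mem_iff_getElem?]
  constructor
  · rintro ⟨i, hi⟩
    rw [List.getElem?_zip_eq_some, List.getElem?_tail] at hi
    exact ⟨i, hi⟩
  · rintro ⟨i, hi⟩
    refine ⟨i, ?_⟩
    rw [List.getElem?_zip_eq_some, List.getElem?_tail]
    exact hi

theorem prs_mem {l : List ℕ} {e : ℕ × ℕ} (h : e ∈ prs l) : e.1 ∈ l ∧ e.2 ∈ l := by
  obtain ⟨i, h1, h2⟩ := mem_prs.1 h
  exact ⟨List.mem_of_getElem? h1, List.mem_of_getElem? h2⟩

theorem prs_reach_head {l : List ℕ} {s : ℕ} (hs : l.head? = some s) :
    ∀ v ∈ l, RT (· ∈ prs l) s v := by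
  intro v hv
  obtain ⟨i, hi⟩ := List.mem_iff_getElem?.1 hv
  induction i generalizing v with
  | zero =>
    rw [List.head?_eq_getElem?, hi] at hs
    obtain rfl : v = s := by simpa using hs
    exact ReflTransGen.refl
  | succ i ih =>
    obtain ⟨w, hw⟩ : ∃ w, l[i]? = some w := by
      have := (List.getElem?_eq_some_iff.1 hi).1
      exact ⟨l[i], List.getElem?_eq_getElem (by omega)⟩
    have h1 := ih w (List.mem_of_getElem? hw) hw
    exact ReflTransGen.tail h1 (mem_prs.2 ⟨i, hw, hi⟩)

theorem prs_reach_last {l : List ℕ} {t : ℕ} (ht : l.getLast? = some t) :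
    ∀ v ∈ l, RT (· ∈ prs l) v t := by
  induction l with
  | nil => simp
  | cons u l ih =>
    cases l with
    | nil =>
      simp only [List.getLast?_singleton, Option.some.injEq] at ht
      subst ht
      intro v hv
      simp only [List.mem_singleton] at hv
      subst hv
      exact ReflTransGen.refl
    | cons w l =>
      rw [List.getLast?_cons_cons] at ht
      have ih' := ih ht
      have hm : ∀ v, v ∈ w :: l → RT (· ∈ prs (u :: w :: l)) v t := by
        intro v hv
        exact (ih' v hv).mono fun e he => by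
          rw [prs_cons_cons]; exact List.mem_cons_of_mem _ he
      intro v hv
      rcases List.mem_cons.1 hv with rfl | hv
      · refine ReflTransGen.head ?_ (hm w List.mem_cons_self)
        rw [prs_cons_cons]; exact List.mem_cons_self
      · exact hm v hv

/-- The guess: four paths. -/
structure Guess (V : List ℕ) (E : List (ℕ × ℕ)) (s t x y : ℕ) (W1 W2 W3 W4 : List ℕ) : Prop where
  h1 : W1.head? = some s
  h2 : W2.head? = some s
  l1 : x ∈ W1
  l2 : y ∈ W2
  h3 : W3.getLast? = some t
  h4 : W4.getLast? = some t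
  l3 : x ∈ W3
  l4 : y ∈ W4
  eO : ∀ e ∈ prs W1 ++ prs W2, e ∈ E
  eI : ∀ e ∈ prs W3 ++ prs W4, e ∈ E
  dj : ∀ e ∈ prs W1 ++ prs W2, e ∉ prs W3 ++ prs W4

theorem inv_base {V : List ℕ} {E : List (ℕ × ℕ)} {s t x y : ℕ} {W1 W2 W3 W4 : List ℕ}
    (h : Guess V E s t x y W1 W2 W3 W4) :
    Inv E (prs W1 ++ prs W2) (prs W3 ++ prs W4) s t (W1 ++ W2) (W3 ++ W4)
      (· ∈ prs W1 ++ prs W2) (· ∈ prs W3 ++ prs W4) := by
  refine ⟨?_, ?_, h.dj, ?_, ?_, fun e he _ => he, fun e he _ => he, fun e he => he,
    fun e he => he⟩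
  · intro e he
    refine ⟨h.eO e he, ?_⟩
    rcases List.mem_append.1 he with h1 | h1
    · exact ⟨List.mem_append_left _ (prs_mem h1).1, List.mem_append_left _ (prs_mem h1).2⟩
    · exact ⟨List.mem_append_right _ (prs_mem h1).1, List.mem_append_right _ (prs_mem h1).2⟩
  · intro e he
    refine ⟨h.eI e he, ?_⟩
    rcases List.mem_append.1 he with h1 | h1
    · exact ⟨List.mem_append_left _ (prs_mem h1).1, List.mem_append_left _ (prs_mem h1).2⟩
    · exact ⟨List.mem_append_right _ (prs_mem h1).1, List.mem_append_right _ (prs_mem h1).2⟩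
  · intro v hv
    rcases List.mem_append.1 hv with hv | hv
    · exact (prs_reach_head h.h1 v hv).mono fun e he => List.mem_append_left _ he
    · exact (prs_reach_head h.h2 v hv).mono fun e he => List.mem_append_right _ he
  · intro v hv
    rcases List.mem_append.1 hv with hv | hv
    · exact (prs_reach_last h.h3 v hv).mono fun e he => List.mem_append_left _ he
    · exact (prs_reach_last h.h4 v hv).mono fun e he => List.mem_append_right _ he

/-! ### The closed state -/

/-- the number of vertices outside the lists -/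
def msr (V : List ℕ) (z : List ℕ × List ℕ) : ℕ :=
  V.countP (fun v => !decide (v ∈ z.1)) + V.countP (fun v => !decide (v ∈ z.2))

theorem countP_lt {V : List ℕ} {p q : ℕ → Bool} (h : ∀ v ∈ V, q v = true → p v = true)
    {w : ℕ} (hw : w ∈ V) (hp : p w = true) (hq : q w = false) : V.countP q < V.countP p := by
  induction V with
  | nil => simp at hw
  | cons a l ih =>
    have hle : l.countP q ≤ l.countP p :=
      List.countP_mono_left fun v hv hh => h v (List.mem_cons_of_mem _ hv) hh
    rcases List.mem_cons.1 hw with rfl | hw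
    · rw [List.countP_cons, List.countP_cons]
      simp only [hq, hp, if_true, Bool.false_eq_true, if_false]
      omega
    · have := ih (fun v hv => h v (List.mem_cons_of_mem _ hv)) hw
      rw [List.countP_cons, List.countP_cons]
      have h1 : (if q a = true then 1 else 0) ≤ (if p a = true then 1 else 0) := by
        split_ifs with h1 h2
        · omega
        · exact absurd (h a List.mem_cons_self h1) h2
        · omega
        · omega
      omega

theorem msr_stp {V : List ℕ} {E LO LI : List (ℕ × ℕ)} (z : List ℕ × List ℕ) :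
    stp V E LO LI z = z ∨ msr V (stp V E LO LI z) < msr V z := by
  by_cases h : newA V E LI z.1 z.2 = [] ∧ newB V E LO z.1 z.2 = []
  · left
    unfold stp
    rw [h.1, h.2]
    simp
  · right
    have hA : V.countP (fun v => !decide (v ∈ (stp V E LO LI z).1)) ≤
        V.countP (fun v => !decide (v ∈ z.1)) := by
      refine List.countP_mono_left fun v _ hh => ?_
      simp only [Bool.not_eq_true', decide_eq_false_iff_not, stp, List.mem_append, not_or] at hh ⊢
      exact hh.1
    have hB : V.countP (fun v => !decide (v ∈ (stp V E LO LI z).2)) ≤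
        V.countP (fun v => !decide (v ∈ z.2)) := by
      refine List.countP_mono_left fun v _ hh => ?_
      simp only [Bool.not_eq_true', decide_eq_false_iff_not, stp, List.mem_append, not_or] at hh ⊢
      exact hh.1
    rw [not_and_or] at h
    unfold msr
    rcases h with h | h
    · obtain ⟨v, hv⟩ := List.exists_mem_of_ne_nil _ h
      have := countP_lt (V := V) (p := fun v => !decide (v ∈ z.1))
        (q := fun v => !decide (v ∈ (stp V E LO LI z).1)) (fun v _ hh => by
          simp only [Bool.not_eq_true', decide_eq_false_iff_not, stp, List.mem_append,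
            not_or] at hh ⊢
          exact hh.1) (mem_newA.1 hv).1 (by simpa using (mem_newA.1 hv).2.1)
        (by simp [stp, hv])
      omega
    · obtain ⟨v, hv⟩ := List.exists_mem_of_ne_nil _ h
      have := countP_lt (V := V) (p := fun v => !decide (v ∈ z.2))
        (q := fun v => !decide (v ∈ (stp V E LO LI z).2)) (fun v _ hh => by
          simp only [Bool.not_eq_true', decide_eq_false_iff_not, stp, List.mem_append,
            not_or] at hh ⊢
          exact hh.1) (mem_newB.1 hv).1 (by simpa using (mem_newB.1 hv).2.1)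
        (by simp [stp, hv])
      omega

theorem stp_closed {V : List ℕ} {E LO LI : List (ℕ × ℕ)} (z : List ℕ × List ℕ) :
    stp V E LO LI ((stp V E LO LI)^[V.length + V.length] z) =
      (stp V E LO LI)^[V.length + V.length] z := by
  have key : ∀ n, stp V E LO LI ((stp V E LO LI)^[n] z) = (stp V E LO LI)^[n] z ∨
      msr V ((stp V E LO LI)^[n] z) + n ≤ msr V z := by
    intro n
    induction n with
    | zero => right; simp
    | succ n ih =>
      rw [Function.iterate_succ_apply']
      rcases ih with ih | ih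
      · left; rw [ih, ih]
      · rcases msr_stp (V := V) (E := E) (LO := LO) (LI := LI) ((stp V E LO LI)^[n] z) with h | h
        · left; rw [h, h]
        · right; omega
  have hz : msr V z ≤ V.length + V.length := Nat.add_le_add List.countP_le_length
    List.countP_le_length
  rcases key (V.length + V.length + 1) with h | h
  · rcases key (V.length + V.length) with h' | h'
    · exact h'
    · have h0 : msr V ((stp V E LO LI)^[V.length + V.length] z) = 0 := by omega
      rcases msr_stp (V := V) (E := E) (LO := LO) (LI := LI)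
        ((stp V E LO LI)^[V.length + V.length] z) with h2 | h2
      · exact h2
      · omega
  · omega

theorem closed_new {V : List ℕ} {E LO LI : List (ℕ × ℕ)} {z : List ℕ × List ℕ}
    (h : stp V E LO LI z = z) : newA V E LI z.1 z.2 = [] ∧ newB V E LO z.1 z.2 = [] := by
  unfold stp at h
  have h1 : z.1 ++ newA V E LI z.1 z.2 = z.1 := congrArg Prod.fst h
  have h2 : z.2 ++ newB V E LO z.1 z.2 = z.2 := congrArg Prod.snd h
  exact ⟨by simpa using h1, by simpa using h2⟩

/-! ### Choosing few exits -/

/-- Few exits suffice. -/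
theorem pick {R : ℕ → ℕ → Prop} {U : ℕ → Prop} {T : Finset ℕ}
    (h : ∀ u, U u → ∃ v ∈ T, ReflTransGen R u v) :
    ∃ T' ⊆ T, (∀ u, U u → ∃ v ∈ T', ReflTransGen R u v) ∧
      ∀ p ∈ T', ∀ q ∈ T', p ≠ q → ¬ R p q := by
  classical
  have hex : ∃ n, ∃ T' ⊆ T, (∀ u, U u → ∃ v ∈ T', ReflTransGen R u v) ∧ T'.card = n :=
    ⟨_, T, Finset.Subset.refl _, h, rfl⟩
  obtain ⟨T', h1, h2, h3⟩ := Nat.find_spec hex
  refine ⟨T', h1, h2, fun p hp q hq hpq hR => ?_⟩
  have h4 := Nat.find_min' hex ⟨T'.erase p, (Finset.erase_subset _ _).trans h1, fun u hu => by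
    obtain ⟨v, hv, hr⟩ := h2 u hu
    by_cases hvp : v = p
    · subst hvp
      exact ⟨q, Finset.mem_erase.2 ⟨fun hh => hpq hh.symm, hq⟩, hr.tail hR⟩
    · exact ⟨v, Finset.mem_erase.2 ⟨hvp, hv⟩, hr⟩, rfl⟩
  rw [← h3, Finset.card_erase_of_mem hp] at h4
  have := Finset.card_pos.2 ⟨p, hp⟩
  omega

/-- A set without three pairwise non-adjacent elements in which adjacent elements have different
parities has at most four elements. -/
theorem card_le_four {adj : ℕ → ℕ → Prop} {T : Finset ℕ} {k : ℕ → ℕ}
    (hα : ∀ p ∈ T, ∀ q ∈ T, ∀ r ∈ T, p ≠ q → p ≠ r → q ≠ r → adj p q ∨ adj p r ∨ adj q r)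
    (hk : ∀ p ∈ T, ∀ q ∈ T, p ≠ q → adj p q → k p % 2 ≠ k q % 2) : T.card ≤ 4 := by
  classical
  have h2 : ∀ c, (T.filter (fun p => k p % 2 = c)).card ≤ 2 := by
    intro c
    by_contra hc
    push Not at hc
    obtain ⟨p, q, r, hp, hq, hr, h1, h2, h3⟩ := Finset.two_lt_card_iff.1 hc
    obtain ⟨hp1, hp2⟩ := Finset.mem_filter.1 hp
    obtain ⟨hq1, hq2⟩ := Finset.mem_filter.1 hq
    obtain ⟨hr1, hr2⟩ := Finset.mem_filter.1 hr
    rcases hα p hp1 q hq1 r hr1 h1 h2 h3 with h | h | h
    · exact hk _ hp1 _ hq1 h1 h (hp2.trans hq2.symm)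
    · exact hk _ hp1 _ hr1 h2 h (hp2.trans hr2.symm)
    · exact hk _ hq1 _ hr1 h3 h (hq2.trans hr2.symm)
  have h3 : T = T.filter (fun p => k p % 2 = 0) ∪ T.filter (fun p => k p % 2 = 1) := by
    ext p
    simp only [Finset.mem_union, Finset.mem_filter]
    constructor
    · intro hp
      rcases Nat.mod_two_eq_zero_or_one (k p) with h | h
      · exact Or.inl ⟨hp, h⟩
      · exact Or.inr ⟨hp, h⟩
    · rintro (h | h) <;> exact h.1
  have h4 := Finset.card_union_le (T.filter (fun p => k p % 2 = 0))
    (T.filter (fun p => k p % 2 = 1))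
  rw [← h3] at h4
  have := h2 0
  have := h2 1
  omega

/-- all lists of length at most `n` with entries in `l` -/
def tup {α : Type} : ℕ → List α → List (List α)
  | 0, _ => [[]]
  | n + 1, l => [] :: l.flatMap (fun e => (tup n l).map (fun w => e :: w))

theorem mem_tup {α : Type} {n : ℕ} {l : List α} {w : List α} :
    w ∈ tup n l ↔ w.length ≤ n ∧ ∀ e ∈ w, e ∈ l := by
  induction n generalizing w with
  | zero =>
    simp only [tup, List.mem_singleton]
    constructor
    · rintro rfl; simp
    · rintro ⟨h, -⟩; exact List.length_eq_zero_iff.1 (by omega)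
  | succ n ih =>
    simp only [tup, List.mem_cons, List.mem_flatMap, List.mem_map]
    constructor
    · rintro (rfl | ⟨e, he, w, hw, rfl⟩)
      · simp
      · obtain ⟨h1, h2⟩ := ih.1 hw
        refine ⟨by simp only [List.length_cons]; omega, fun u hu => ?_⟩
        rcases List.mem_cons.1 hu with rfl | hu
        · exact he
        · exact h2 u hu
    · rintro ⟨h1, h2⟩
      cases w with
      | nil => exact Or.inl rfl
      | cons e w =>
        refine Or.inr ⟨e, h2 e List.mem_cons_self, w, ih.2 ⟨?_, fun u hu =>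
          h2 u (List.mem_cons_of_mem _ hu)⟩, rfl⟩
        simp only [List.length_cons] at h1
        omega

end Pool.Agent.H871.GP
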