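import Pool.Agent.H871_GP.Comp

/-!
# The certificates: completeness, continued
-/

namespace Pool.Agent.H871.GP

open Relation

section

variable {V : List ℕ} {E LO LI : List (ℕ × ℕ)} {s t : ℕ} {f : ℕ → ℕ} {a : ℕ → ℕ} {g : ℕ → ℕ}
  {b : ℕ → ℕ} {A B : List ℕ}

/-- no core vertex is the `g`-image of a vertex in `up` -/
theorem up_core (hG : GPair {v | v ∈ V} (fun u v => (u, v) ∈ E) s t f a g b)
    (hLO : ∀ e ∈ LO, e.2 ≠ s ∧ e.2 ∈ V ∧ f e.2 = e.1) (htB : t ∈ B)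
    (hA : newA V E LI A B = []) (hB : newB V E LO A B = []) {u : ℕ} (hu : u ∈ up V E A B) :
    ¬ (g u ∈ A ∧ g u ∈ B) := by
  rintro ⟨h1, h2⟩
  obtain ⟨h3, h4, h5⟩ := mem_up.1 hu
  have hut : u ≠ t := fun h => h4 (h ▸ htB)
  have harc : (u, g u) ∈ E := hG.ib.arc u h3 hut
  by_cases huA : u ∈ A
  · have : u ∈ newB V E LO A B := by
      refine mem_newB.2 ⟨h3, h4, Or.inr ⟨huA, g u, ⟨harc, fun hl => ?_⟩, h1, h2⟩⟩
      obtain ⟨e1, e2, e3⟩ := hLO _ hl
      simp only at e1 e2 e3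
      exact hG.dj (g u) e2 e1 (by rw [e3]; exact hut) (by rw [e3])
    rw [hB] at this
    exact absurd this List.not_mem_nil
  · have : u ∈ newA V E LI A B :=
      mem_newA.2 ⟨h3, huA, Or.inl ⟨h4, h5.resolve_left huA, g u, harc, h1, h2⟩⟩
    rw [hA] at this
    exact absurd this List.not_mem_nil

/-- no core vertex is the `f`-image of a vertex in `um` -/
theorem um_core (hG : GPair {v | v ∈ V} (fun u v => (u, v) ∈ E) s t f a g b)
    (hLI : ∀ e ∈ LI, e.1 ≠ t ∧ e.1 ∈ V ∧ g e.1 = e.2) (hsA : s ∈ A)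
    (hA : newA V E LI A B = []) {u : ℕ} (hu : u ∈ um V E A B) :
    ¬ (f u ∈ A ∧ f u ∈ B) := by
  rintro ⟨h1, h2⟩
  obtain ⟨h3, h4, h5⟩ := mem_um.1 hu
  have hus : u ≠ s := fun h => h4 (h ▸ hsA)
  have harc : (f u, u) ∈ E := hG.ob.arc u h3 hus
  by_cases huB : u ∈ B
  · have : u ∈ newA V E LI A B := by
      refine mem_newA.2 ⟨h3, h4, Or.inr ⟨huB, f u, ⟨harc, fun hl => ?_⟩, h1, h2⟩⟩
      obtain ⟨e1, e2, e3⟩ := hLI _ hl
      simp only at e1 e2 e3
      exact hG.dj u h3 hus e1 e3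
    rw [hA] at this
    exact absurd this List.not_mem_nil
  · exact (h5.resolve_left huB) ⟨f u, harc, h1, h2⟩

theorem up_or_um {v : ℕ} (hv : v ∈ V) (hc : ¬ (v ∈ A ∧ v ∈ B)) :
    v ∈ up V E A B ∨ v ∈ um V E A B := by
  rw [mem_up, mem_um]
  by_cases h1 : v ∈ A
  · exact Or.inl ⟨hv, fun h => hc ⟨h1, h⟩, Or.inl h1⟩
  · by_cases h2 : v ∈ B
    · exact Or.inr ⟨hv, h1, Or.inl h2⟩
    · by_cases h3 : ∃ c, (c, v) ∈ E ∧ c ∈ A ∧ c ∈ B
      · exact Or.inl ⟨hv, h2, Or.inr h3⟩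
      · exact Or.inr ⟨hv, h1, Or.inr h3⟩

/-- **Completeness.** -/
theorem complete (hE : ∀ e ∈ E, e.1 ∈ V ∧ e.2 ∈ V)
    (hα : ∀ p ∈ V, ∀ q ∈ V, ∀ r ∈ V, p ≠ q → p ≠ r → q ≠ r →
      ((p, q) ∈ E ∨ (q, p) ∈ E) ∨ ((p, r) ∈ E ∨ (r, p) ∈ E) ∨ ((q, r) ∈ E ∨ (r, q) ∈ E))
    (hG : GPair {v | v ∈ V} (fun u v => (u, v) ∈ E) s t f a g b)
    (hLO : ∀ e ∈ LO, e.2 ≠ s ∧ e.2 ∈ V ∧ f e.2 = e.1)
    (hLI : ∀ e ∈ LI, e.1 ≠ t ∧ e.1 ∈ V ∧ g e.1 = e.2)
    (hsA : s ∈ A) (htB : t ∈ B)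
    (hA : newA V E LI A B = []) (hB : newB V E LO A B = []) :
    ∃ FO ∈ tup 4 E, ∃ FI ∈ tup 4 E, fin V E LO LI A B FO FI = true := by
  classical
  have hD : ∀ u v, (u, v) ∈ E → u ∈ {v | v ∈ V} ∧ v ∈ {v | v ∈ V} := fun u v h => hE _ h
  have upne : ∀ u ∈ up V E A B, u ∈ V ∧ u ≠ t := fun u hu =>
    ⟨(mem_up.1 hu).1, fun h => (mem_up.1 hu).2.1 (h ▸ htB)⟩
  have umne : ∀ u ∈ um V E A B, u ∈ V ∧ u ≠ s := fun u hu =>
    ⟨(mem_um.1 hu).1, fun h => (mem_um.1 hu).2.1 (h ▸ hsA)⟩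
  -- exits of the in-branching
  have hI : ∀ n, ∀ u ∈ up V E A B, b u = n →
      ∃ v ∈ ((up V E A B).filter (fun v => decide (g v ∈ um V E A B))).toFinset,
        RT (· ∈ ins E LO (up V E A B)) u v := by
    intro n
    induction n with
    | zero =>
      intro u hu h0
      exact absurd (hG.ib.eq_root (upne u hu).1 h0) (upne u hu).2
    | succ n ih =>
      intro u hu hn
      obtain ⟨h1, h2⟩ := upne u hu
      have harc : (u, g u) ∈ E := hG.ib.arc u h1 h2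
      rcases up_or_um (E := E) (hE _ harc).2 (up_core hG hLO htB hA hB hu) with h3 | h3
      · have hd := hG.ib.dep u h1 h2
        obtain ⟨v, hv, hr⟩ := ih (g u) h3 (by omega)
        refine ⟨v, hv, ReflTransGen.head ?_ hr⟩
        refine mem_ins.2 ⟨harc, hu, h3, fun hl => ?_⟩
        obtain ⟨e1, e2, e3⟩ := hLO _ hl
        simp only at e1 e2 e3
        exact hG.dj (g u) e2 e1 (by rw [e3]; exact h2) (by rw [e3])
      · exact ⟨u, by simp [hu, h3], ReflTransGen.refl⟩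
  have hO : ∀ n, ∀ u ∈ um V E A B, a u = n →
      ∃ v ∈ ((um V E A B).filter (fun v => decide (f v ∈ up V E A B))).toFinset,
        ReflTransGen (fun u v => (v, u) ∈ ins E LI (um V E A B)) u v := by
    intro n
    induction n with
    | zero =>
      intro u hu h0
      exact absurd (hG.ob.eq_root (umne u hu).1 h0) (umne u hu).2
    | succ n ih =>
      intro u hu hn
      obtain ⟨h1, h2⟩ := umne u hu
      have harc : (f u, u) ∈ E := hG.ob.arc u h1 h2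
      rcases up_or_um (E := E) (hE _ harc).1 (um_core hG hLI hsA hA hu) with h3 | h3
      · exact ⟨u, by simp [hu, h3], ReflTransGen.refl⟩
      · have hd := hG.ob.dep u h1 h2
        obtain ⟨v, hv, hr⟩ := ih (f u) h3 (by omega)
        refine ⟨v, hv, ReflTransGen.head ?_ hr⟩
        refine mem_ins.2 ⟨harc, h3, hu, fun hl => ?_⟩
        obtain ⟨e1, e2, e3⟩ := hLI _ hl
        simp only at e1 e2 e3
        exact hG.dj u h1 h2 e1 e3
  obtain ⟨TI, hTI1, hTI2, hTI3⟩ := pick (U := fun u => u ∈ up V E A B)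
    (fun u hu => hI _ u hu rfl)
  obtain ⟨TO, hTO1, hTO2, hTO3⟩ := pick (U := fun u => u ∈ um V E A B)
    (fun u hu => hO _ u hu rfl)
  have mI : ∀ v ∈ TI, v ∈ up V E A B ∧ g v ∈ um V E A B := by
    intro v hv
    have := hTI1 hv
    simpa using this
  have mO : ∀ v ∈ TO, v ∈ um V E A B ∧ f v ∈ up V E A B := by
    intro v hv
    have := hTO1 hv
    simpa using this
  have cI : TI.card ≤ 4 := by
    refine card_le_four (adj := fun p q => (p, q) ∈ E ∨ (q, p) ∈ E) (k := a)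
      (fun p hp q hq r hr h1 h2 h3 => hα p (upne p (mI p hp).1).1 q (upne q (mI q hq).1).1 r
        (upne r (mI r hr).1).1 h1 h2 h3) ?_
    have key : ∀ p ∈ TI, ∀ q ∈ TI, p ≠ q → (p, q) ∈ E → a p % 2 ≠ a q % 2 := by
      intro p hp q hq hne hpq
      have hl : (p, q) ∈ LO := by
        by_contra hl
        exact hTI3 p hp q hq hne (mem_ins.2 ⟨hpq, (mI p hp).1, (mI q hq).1, hl⟩)
      obtain ⟨e1, e2, e3⟩ := hLO _ hl
      simp only at e1 e2 e3
      have := hG.ob.dep q e2 e1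
      rw [e3] at this
      omega
    intro p hp q hq hne h
    rcases h with h | h
    · exact key p hp q hq hne h
    · exact (key q hq p hp hne.symm h).symm
  have cO : TO.card ≤ 4 := by
    refine card_le_four (adj := fun p q => (p, q) ∈ E ∨ (q, p) ∈ E) (k := b)
      (fun p hp q hq r hr h1 h2 h3 => hα p (umne p (mO p hp).1).1 q (umne q (mO q hq).1).1 r
        (umne r (mO r hr).1).1 h1 h2 h3) ?_
    have key : ∀ p ∈ TO, ∀ q ∈ TO, p ≠ q → (p, q) ∈ E → b p % 2 ≠ b q % 2 := by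
      intro p hp q hq hne hpq
      have hl : (p, q) ∈ LI := by
        by_contra hl
        exact hTO3 q hq p hp hne.symm (mem_ins.2 ⟨hpq, (mO p hp).1, (mO q hq).1, hl⟩)
      obtain ⟨e1, e2, e3⟩ := hLI _ hl
      simp only at e1 e2 e3
      have := hG.ib.dep p e2 e1
      rw [e3] at this
      omega
    intro p hp q hq hne h
    rcases h with h | h
    · exact key p hp q hq hne h
    · exact (key q hq p hp hne.symm h).symm
  have eI : ∀ v ∈ TI, (v, g v) ∈ E := fun v hv =>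
    hG.ib.arc v (upne v (mI v hv).1).1 (upne v (mI v hv).1).2
  have eO : ∀ v ∈ TO, (f v, v) ∈ E := fun v hv =>
    hG.ob.arc v (umne v (mO v hv).1).1 (umne v (mO v hv).1).2
  refine ⟨TO.toList.map (fun v => (f v, v)), mem_tup.2 ⟨by simpa using cO, ?_⟩,
    TI.toList.map (fun v => (v, g v)), mem_tup.2 ⟨by simpa using cI, ?_⟩, ?_⟩
  · intro e he
    obtain ⟨v, hv, rfl⟩ := List.mem_map.1 he
    exact eO v (Finset.mem_toList.1 hv)
  · intro e he
    obtain ⟨v, hv, rfl⟩ := List.mem_map.1 he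
    exact eI v (Finset.mem_toList.1 hv)
  · unfold fin
    simp only [Bool.and_eq_true, List.all_eq_true, List.any_eq_true, Bool.not_eq_true',
      decide_eq_true_eq, decide_eq_false_iff_not, reachB_rt]
    refine ⟨⟨?_, ?_⟩, ?_, ?_⟩
    · intro e he
      obtain ⟨v, hv, rfl⟩ := List.mem_map.1 he
      have hv' := Finset.mem_toList.1 hv
      refine ⟨eO v hv', (mO v hv').2, (mO v hv').1, fun hh => ?_⟩
      obtain ⟨w, hw, hwe⟩ := List.mem_map.1 hh
      have hw' := Finset.mem_toList.1 hw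
      have h1 : w = f v := congrArg Prod.fst hwe
      have h2 : g w = v := congrArg Prod.snd hwe
      have h3 := umne v (mO v hv').1
      refine hG.dj v h3.1 h3.2 ?_ (h1 ▸ h2)
      rw [← h1]
      exact (upne w (mI w hw').1).2
    · intro e he
      obtain ⟨v, hv, rfl⟩ := List.mem_map.1 he
      have hv' := Finset.mem_toList.1 hv
      exact ⟨eI v hv', (mI v hv').1, (mI v hv').2⟩
    · intro u hu
      obtain ⟨v, hv, hr⟩ := hTI2 u hu
      exact ⟨(v, g v), List.mem_map.2 ⟨v, Finset.mem_toList.2 hv, rfl⟩, hr⟩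
    · intro u hu
      obtain ⟨v, hv, hr⟩ := hTO2 u hu
      refine ⟨(f v, v), List.mem_map.2 ⟨v, Finset.mem_toList.2 hv, rfl⟩, ?_⟩
      exact reflTransGen_swap.1 hr

end

end Pool.Agent.H871.GP
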