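import Pool.Agent.H871_GP.Lex

/-!
# Scores increase along the two paths
-/

namespace Pool.Agent.H871.GP

variable {V : Type*} {S : Set V} {D : V → V → Prop} {s t : V} {f : V → V} {a : V → ℕ} {g : V → V}
  {b : V → ℕ} {y1 y2 : V} {c : ℕ}

open Classical in
/-- the number of out-neighbours in `M` -/
noncomputable def scr (D : V → V → Prop) (M : Finset V) (v : V) : ℕ := (M.filter (fun z => D v z)).card

theorem card_diff (M : Finset V) (p q : V → Prop) [DecidablePred p] [DecidablePred q] :
    (M.filter p).card + (M.filter (fun z => q z ∧ ¬ p z)).card =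
      (M.filter q).card + (M.filter (fun z => p z ∧ ¬ q z)).card := by
  classical
  have h1 := Finset.card_filter_add_card_filter_not (s := M.filter p) q
  have h2 := Finset.card_filter_add_card_filter_not (s := M.filter q) p
  rw [Finset.filter_filter, Finset.filter_filter] at h1 h2
  have h3 : M.filter (fun z => q z ∧ p z) = M.filter (fun z => p z ∧ q z) := by
    congr 1
    funext z
    exact propext and_comm
  rw [h3] at h2
  omega

theorem lv_mem (hob : OB S D s f a) (hD : ∀ u v, D u v → u ∈ S ∧ v ∈ S) {y : V} (hy : y ∈ S)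
    {i : ℕ} (hi : i ≤ a y) : lv f a y i ∈ S ∧ a (lv f a y i) = i ∧ Sub f a (lv f a y i) y := by
  obtain ⟨h1, h2⟩ := hob.iter hD hy (a y - i) (by omega)
  exact ⟨h1, by unfold lv; omega, ⟨a y - i, by omega, rfl⟩⟩

theorem sub_lv (hob : OB S D s f a) (hD : ∀ u v, D u v → u ∈ S ∧ v ∈ S) {y v : V} (hy : y ∈ S)
    (hs : Sub f a v y) : v = lv f a y (a v) := sub_pt hob hD hy hs

theorem card_lt_of_inj {T : Finset V} {m : V → ℕ} {i j : ℕ} (hT : ∀ z ∈ T, i < m z ∧ m z < j)
    (hinj : Set.InjOn m T) : T.card + i + 1 ≤ j ∨ T.card = 0 := by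
  classical
  rcases Nat.eq_zero_or_pos T.card with h0 | h0
  · exact Or.inr h0
  left
  have h1 : (T.image m).card = T.card := Finset.card_image_of_injOn hinj
  have h2 : T.image m ⊆ Finset.Ioo i j := by
    intro k hk
    obtain ⟨z, hz, rfl⟩ := Finset.mem_image.1 hk
    exact Finset.mem_Ioo.2 (hT z hz)
  have h3 := Finset.card_le_card h2
  rw [Nat.card_Ioo] at h3
  omega

theorem card_ge_of_sub {T U X : Finset V} [DecidableEq V] (h : ∀ z ∈ T, z ∉ X → z ∈ U) :
    T.card ≤ U.card + X.card := by
  have h1 : T ⊆ U ∪ X := by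
    intro z hz
    by_cases hX : z ∈ X
    · exact Finset.mem_union_right _ hX
    · exact Finset.mem_union_left _ (h z hz hX)
  exact (Finset.card_le_card h1).trans (Finset.card_union_le _ _)

namespace Opt

variable (h : Opt S D s t f a g b y1 y2 c)

include h

/-- Scores increase along the path of the out-branching. -/
theorem fmP {M : Finset V} (hM : ∀ z ∈ M, IsM S D t y1 y2 z) {u v : V} (hu : u ∈ M) (hv : v ∈ M)
    (su : Sub f a u y2) (sv : Sub f a v y2) {T : Finset V} (hT : T ⊆ M)
    (hT' : ∀ z ∈ T, Sub f a z y2 ∧ a u < a z ∧ a z < a v) (hc : 9 ≤ T.card) :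
    scr D M u < scr D M v := by
  classical
  have hG := h.tight.pair
  have hinj : Set.InjOn a (T : Set V) := by
    intro z hz w hw hzw
    rw [sub_lv hG.ob h.hD h.n2.1 (hT' z hz).1, sub_lv hG.ob h.hD h.n2.1 (hT' w hw).1, hzw]
  have hlen : a u + 10 ≤ a v := by
    rcases card_lt_of_inj (m := a) (i := a u) (j := a v) (fun z hz => (hT' z hz).2) hinj with h1 | h1
    · omega
    · omega
  have hin : ∀ z ∈ M, D z v → a z + 2 ≤ a v → z = lv g b y1 (b v + 1) ∨
      z = lv g b y2 (b v + 1) := by
    intro z hz hd ha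
    have hzN := (hM z hz).1
    have hg : z ≠ t ∧ g z = v := by
      by_contra hc
      have := h.tight.bfsO h.hD hd (fun h1 h2 => hc ⟨h1, h2⟩)
      omega
    have hb := hG.ib.dep z hzN.1 hg.1
    rw [hg.2] at hb
    rcases h.x1 hzN (hM z hz).2.2.2.1 hg.2 ha sv with h1 | h1
    · left; rw [← hb]; exact sub_lv hG.ib h.hD' h.n1.1 h1
    · right; rw [← hb]; exact sub_lv hG.ib h.hD' h.n2.1 h1
  have hD1 : M.filter (fun z => D u z ∧ ¬ D v z) ⊆
      {g u, lv g b y1 (b v + 1), lv g b y2 (b v + 1)} := by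
    intro z hz
    obtain ⟨hzM, hd1, hd2⟩ := Finset.mem_filter.1 hz
    simp only [Finset.mem_insert, Finset.mem_singleton]
    by_cases hg : z = g u
    · exact Or.inl hg
    have ha := h.tight.bfsO h.hD hd1 (fun _ hh => hg hh.symm)
    have hzv : z ≠ v := by rintro rfl; omega
    have hd3 := (h.adj (hM z hzM).1 (hM v hv).1 hzv).resolve_right hd2
    exact Or.inr (hin z hzM hd3 (by omega))
  have hD2 : T.card ≤ (M.filter (fun z => D v z ∧ ¬ D u z)).card +
      ({g u, lv g b y1 (b v + 1), lv g b y2 (b v + 1), lv f a y2 (a u + 1),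
        lv f a y2 (a v - 1)} : Finset V).card := by
    refine card_ge_of_sub fun z hz hX => ?_
    simp only [Finset.mem_insert, Finset.mem_singleton, not_or] at hX
    obtain ⟨n1, n2, n3, n4, n5⟩ := hX
    obtain ⟨sz, hz1, hz2⟩ := hT' z hz
    have hzlv := sub_lv hG.ob h.hD h.n2.1 sz
    have h1 : a u + 2 ≤ a z := by
      by_contra hc
      have : a z = a u + 1 := by omega
      rw [this] at hzlv
      exact n4 hzlv
    have h2 : a z + 2 ≤ a v := by
      by_contra hc
      have : a z = a v - 1 := by omega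
      rw [this] at hzlv
      exact n5 hzlv
    refine Finset.mem_filter.2 ⟨hT hz, ?_, fun hd => ?_⟩
    · by_contra hd
      have hzv : z ≠ v := by rintro rfl; omega
      have hd3 := (h.adj (hM z (hT hz)).1 (hM v hv).1 hzv).resolve_right hd
      rcases hin z (hT hz) hd3 h2 with h3 | h3
      · exact n2 h3
      · exact n3 h3
    · have := h.tight.bfsO h.hD hd (fun _ hh => n1 hh.symm)
      omega
  have h3 := Finset.card_le_card hD1
  have h4 : ({g u, lv g b y1 (b v + 1), lv g b y2 (b v + 1)} : Finset V).card ≤ 3 :=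
    Finset.card_le_three
  have h5 : ({g u, lv g b y1 (b v + 1), lv g b y2 (b v + 1), lv f a y2 (a u + 1),
        lv f a y2 (a v - 1)} : Finset V).card ≤ 5 := Finset.card_le_five
  have h6 := card_diff M (fun z => D u z) (fun z => D v z)
  unfold scr
  omega

/-- Scores increase along the path of the in-branching. -/
theorem fmQ {M : Finset V} (hM : ∀ z ∈ M, IsM S D t y1 y2 z) {u v : V} (hu : u ∈ M) (hv : v ∈ M)
    (su : Sub g b u y1) (sv : Sub g b v y1) {T : Finset V} (hT : T ⊆ M)
    (hT' : ∀ z ∈ T, Sub g b z y1 ∧ b v < b z ∧ b z < b u) (hc : 9 ≤ T.card) :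
    scr D M u < scr D M v := by
  classical
  have hG := h.tight.pair
  have hinj : Set.InjOn b (T : Set V) := by
    intro z hz w hw hzw
    rw [sub_lv hG.ib h.hD' h.n1.1 (hT' z hz).1, sub_lv hG.ib h.hD' h.n1.1 (hT' w hw).1, hzw]
  have hlen : b v + 10 ≤ b u := by
    rcases card_lt_of_inj (m := b) (i := b v) (j := b u) (fun z hz => (hT' z hz).2) hinj with h1 | h1
    · omega
    · omega
  have hout : ∀ z ∈ M, D u z → b z + 2 ≤ b u → z = lv f a y2 (a u + 1) ∨
      z = lv f a t (a u + 1) := by
    intro z hz hd hb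
    have hzN := (hM z hz).1
    have hf : z ≠ s ∧ f z = u := by
      by_contra hc
      have := h.tight.bfsI h.hD hd (fun h1 h2 => hc ⟨h1, h2⟩)
      omega
    have ha := hG.ob.dep z hzN.1 hf.1
    rw [hf.2] at ha
    rcases h.x2 hzN (hM z hz).2.2.2.2 hf.1 hf.2 hb su with h1 | h1 | h1
    · left; rw [← ha]; exact sub_lv hG.ob h.hD h.n2.1 h1
    · exfalso
      have h2 := hG.ob.sub_le h.hD h.n1.1 h1
      have h3 := h.l1a (hM u hu).1
      omega
    · right; rw [← ha]; exact sub_lv hG.ob h.hD h.tS h1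
  have hin : ∀ z ∈ M, D z v → b v + 2 ≤ b z → z = f v := by
    intro z hz hd hb
    by_contra hc
    have := h.tight.bfsI h.hD hd (fun _ hh => hc hh.symm)
    omega
  have hD1 : M.filter (fun z => D u z ∧ ¬ D v z) ⊆
      {f v, lv f a y2 (a u + 1), lv f a t (a u + 1)} := by
    intro z hz
    obtain ⟨hzM, hd1, hd2⟩ := Finset.mem_filter.1 hz
    simp only [Finset.mem_insert, Finset.mem_singleton]
    by_cases hb : b z + 2 ≤ b u
    · exact Or.inr (hout z hzM hd1 hb)
    · left
      have hzv : z ≠ v := by rintro rfl; omega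
      have hd3 := (h.adj (hM z hzM).1 (hM v hv).1 hzv).resolve_right hd2
      exact hin z hzM hd3 (by omega)
  have hD2 : T.card ≤ (M.filter (fun z => D v z ∧ ¬ D u z)).card +
      ({f v, lv f a y2 (a u + 1), lv f a t (a u + 1), lv g b y1 (b v + 1),
        lv g b y1 (b u - 1)} : Finset V).card := by
    refine card_ge_of_sub fun z hz hX => ?_
    simp only [Finset.mem_insert, Finset.mem_singleton, not_or] at hX
    obtain ⟨n1, n2, n3, n4, n5⟩ := hX
    obtain ⟨sz, hz1, hz2⟩ := hT' z hz
    have hzlv := sub_lv hG.ib h.hD' h.n1.1 sz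
    have h1 : b v + 2 ≤ b z := by
      by_contra hc
      have : b z = b v + 1 := by omega
      rw [this] at hzlv
      exact n4 hzlv
    have h2 : b z + 2 ≤ b u := by
      by_contra hc
      have : b z = b u - 1 := by omega
      rw [this] at hzlv
      exact n5 hzlv
    refine Finset.mem_filter.2 ⟨hT hz, ?_, fun hd => ?_⟩
    · by_contra hd
      have hzv : z ≠ v := by rintro rfl; omega
      have hd3 := (h.adj (hM z (hT hz)).1 (hM v hv).1 hzv).resolve_right hd
      exact n1 (hin z (hT hz) hd3 h1)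
    · rcases hout z (hT hz) hd h2 with h3 | h3
      · exact n2 h3
      · exact n3 h3
  have h3 := Finset.card_le_card hD1
  have h4 : ({f v, lv f a y2 (a u + 1), lv f a t (a u + 1)} : Finset V).card ≤ 3 :=
    Finset.card_le_three
  have h5 : ({f v, lv f a y2 (a u + 1), lv f a t (a u + 1), lv g b y1 (b v + 1),
        lv g b y1 (b u - 1)} : Finset V).card ≤ 5 := Finset.card_le_five
  have h6 := card_diff M (fun z => D u z) (fun z => D v z)
  unfold scr
  omega

end Opt

end Pool.Agent.H871.GP
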