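import Pool.Agent.H871_GP.Alg2
import Pool.Agent.H871_GP.Score

/-!
# Completeness of the algorithm for the general case: a sufficient condition
-/

namespace Pool.Agent.H871.GP

open Relation

/-- free in-neighbours of the centre -/
def TyA (E LO : List (ℕ × ℕ)) (t v : ℕ) : Prop := ((v, t) ∈ E ∧ (v, t) ∉ LO) ∧ (t, v) ∉ E

/-- free out-neighbours of the centre -/
def TyB (E LI : List (ℕ × ℕ)) (t v : ℕ) : Prop := ((t, v) ∈ E ∧ (t, v) ∉ LI) ∧ (v, t) ∉ E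

/-- free vertices between the walls -/
def TyM (E LO LI : List (ℕ × ℕ)) (t y1 y2 v : ℕ) : Prop := ¬ ((v, t) ∈ E ∨ (t, v) ∈ E) ∧
  ((v, y1) ∈ E ∧ (v, y1) ∉ LO) ∧ (y2, v) ∈ E ∧ (y2, v) ∉ LI

/-- What is needed for a successful guess. -/
structure Setup (V : List ℕ) (E : List (ℕ × ℕ)) (s t : ℕ) (f a g b : ℕ → ℕ) (y1 y2 : ℕ)
    (X : List ℕ) (LO LI : List (ℕ × ℕ)) : Prop where
  nd : V.Nodup
  hE : ∀ e ∈ E, e.1 ∈ V ∧ e.2 ∈ V
  hα : Al2 V E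
  hG : GPair {v | v ∈ V} (fun u v => (u, v) ∈ E) s t f a g b
  XV : ∀ x ∈ X, x ∈ V
  sX : s ∈ X
  tX : t ∈ X
  y1X : y1 ∈ X
  y2X : y2 ∈ X
  mO : ∀ e, e ∈ LO ↔ (e.2 ≠ s ∧ e.2 ∈ V ∧ f e.2 = e.1) ∧
    (Sub f a e.2 y2 ∨ Sub f a e.2 y1 ∨ Sub f a e.2 t) ∧ (e.1 ∈ X ∨ e.2 ∈ X)
  mI : ∀ e, e ∈ LI ↔ (e.1 ≠ t ∧ e.1 ∈ V ∧ g e.1 = e.2) ∧
    (Sub g b e.1 y1 ∨ Sub g b e.1 y2) ∧ (e.1 ∈ X ∨ e.2 ∈ X)
  tP2 : ∀ v ∈ V, v ∉ X → Sub f a v y2 → TyA E LO t v ∨ TyM E LO LI t y1 y2 v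
  tP1 : ∀ v ∈ V, v ∉ X → (Sub f a v y1 ∨ Sub f a v t) → TyA E LO t v
  tQ1 : ∀ v ∈ V, v ∉ X → Sub g b v y1 → TyB E LI t v ∨ TyM E LO LI t y1 y2 v
  tQ2 : ∀ v ∈ V, v ∉ X → Sub g b v y2 → TyB E LI t v
  dom : ∀ v ∈ V, v ≠ t → v ≠ y1 → ((v, t) ∈ E ∨ (t, v) ∈ E) ∨ (v, y1) ∈ E ∨ (y1, v) ∈ E
  incO : ∀ M : List ℕ, M.Nodup → (∀ z ∈ M, z ∈ V ∧ z ∉ X ∧ TyM E LO LI t y1 y2 z) →
    Inc E M (lv f a y2) (a y2)
  incI : ∀ M : List ℕ, M.Nodup → (∀ z ∈ M, z ∈ V ∧ z ∉ X ∧ TyM E LO LI t y1 y2 z) →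
    Inc E M (fun j => lv g b y1 (b y1 - j)) (b y1)

theorem lv_parent {V : Type*} {f : V → V} {a : V → ℕ} {y : V} {i : ℕ} (hi : i < a y) :
    f (lv f a y (i + 1)) = lv f a y i := by
  unfold lv
  rw [← Function.iterate_succ_apply' f]
  congr 1
  omega

namespace Setup

variable {V : List ℕ} {E : List (ℕ × ℕ)} {s t : ℕ} {f a g b : ℕ → ℕ} {y1 y2 : ℕ}
    {X : List ℕ} {LO LI : List (ℕ × ℕ)} (h : Setup V E s t f a g b y1 y2 X LO LI)

include h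

theorem hD : ∀ u v, (u, v) ∈ E → u ∈ {v | v ∈ V} ∧ v ∈ {v | v ∈ V} := fun _ _ hh => h.hE _ hh

theorem hD' : ∀ u v, (v, u) ∈ E → u ∈ {v | v ∈ V} ∧ v ∈ {v | v ∈ V} := fun _ _ hh => (h.hE _ hh).symm

theorem dj' {e : ℕ × ℕ} (h1 : e.2 ≠ s ∧ e.2 ∈ V ∧ f e.2 = e.1)
    (h2 : e.1 ≠ t ∧ e.1 ∈ V ∧ g e.1 = e.2) : False := by
  refine h.hG.dj e.2 h1.2.1 h1.1 ?_ ?_
  · rw [h1.2.2]; exact h2.1
  · rw [h1.2.2]; exact h2.2.2

theorem gs : gs2 ((s, t), (y1, y2)) X (LO, LI) = true := by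
  have inO : ∀ y, y ∈ X → (Sub f a y y2 ∨ Sub f a y y1 ∨ Sub f a y t) → y ∈ s :: ends LO := by
    intro y hy hs
    by_cases hys : y = s
    · rw [hys]; exact List.mem_cons_self
    · refine List.mem_cons_of_mem _ (mem_ends.2 ⟨(f y, y), (h.mO _).2 ⟨⟨hys, h.XV y hy, rfl⟩, hs,
        Or.inr hy⟩, Or.inr rfl⟩)
  have inI : ∀ y, y ∈ X → (Sub g b y y1 ∨ Sub g b y y2) → y ∈ t :: ends LI := by
    intro y hy hs
    by_cases hys : y = t
    · rw [hys]; exact List.mem_cons_self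
    · refine List.mem_cons_of_mem _ (mem_ends.2 ⟨(y, g y), (h.mI _).2 ⟨⟨hys, h.XV y hy, rfl⟩, hs,
        Or.inl hy⟩, Or.inl rfl⟩)
  unfold gs2
  simp only [Bool.and_eq_true, Bool.or_eq_true, decide_eq_true_eq, Bool.not_eq_true',
    decide_eq_false_iff_not, List.all_eq_true]
  refine ⟨⟨⟨h.tX, h.y1X, h.y2X⟩, ?_, ?_⟩, ⟨inO t h.tX (Or.inr (Or.inr (OB.sub_refl _))),
    inO y1 h.y1X (Or.inr (Or.inl (OB.sub_refl _))), inO y2 h.y2X (Or.inl (OB.sub_refl _))⟩,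
    inI y1 h.y1X (Or.inl (OB.sub_refl _)), inI y2 h.y2X (Or.inr (OB.sub_refl _))⟩
  · intro e he
    rcases List.mem_append.1 he with he | he
    · exact ((h.mO e).1 he).2.2
    · exact ((h.mI e).1 he).2.2
  · intro e he he'
    exact h.dj' ((h.mO e).1 he).1 ((h.mI e).1 he').1

end Setup

/-- The parent of an ancestor is an ancestor. -/
theorem sub_parent {V : Type*} {S : Set V} {D : V → V → Prop} {s : V} {f : V → V} {a : V → ℕ}
    (hob : OB S D s f a) (hD : ∀ u v, D u v → u ∈ S ∧ v ∈ S) {y v : V} (hy : y ∈ S)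
    (hs : Sub f a v y) (hvs : v ≠ s) : Sub f a (f v) y := by
  obtain ⟨k, hk, rfl⟩ := hs
  obtain ⟨h1, h2⟩ := hob.iter hD hy k hk
  refine ⟨k + 1, ?_, Function.iterate_succ_apply' f k y⟩
  by_contra hc
  have : k = a y := by omega
  exact hvs (hob.eq_root h1 (by omega))

namespace Setup

variable {V : List ℕ} {E : List (ℕ × ℕ)} {s t : ℕ} {f a g b : ℕ → ℕ} {y1 y2 : ℕ}
    {X : List ℕ} {LO LI : List (ℕ × ℕ)} (h : Setup V E s t f a g b y1 y2 X LO LI)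
    {A B : List ℕ} (hA0 : ∀ v ∈ s :: ends LO, v ∈ A) (hB0 : ∀ v ∈ t :: ends LI, v ∈ B)
    (hnA : newA V E LI A B = []) (hnB : newB V E LO A B = [])

include h hA0 hB0

omit hA0 hB0 in
theorem arcO {v : ℕ} (hv : v ∈ V) (hvs : v ≠ s) : (f v, v) ∈ E := h.hG.ob.arc v hv hvs

omit hA0 hB0 in
theorem arcI {v : ℕ} (hv : v ∈ V) (hvt : v ≠ t) : (v, g v) ∈ E := h.hG.ib.arc v hv hvt

theorem tcore : t ∈ A ∧ t ∈ B := by
  have hgs := h.gs
  unfold gs2 at hgs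
  simp only [Bool.and_eq_true, Bool.or_eq_true, decide_eq_true_eq, Bool.not_eq_true',
    decide_eq_false_iff_not, List.all_eq_true] at hgs
  exact ⟨hA0 _ hgs.2.1.1, hB0 _ List.mem_cons_self⟩

theorem y1core : y1 ∈ A ∧ y1 ∈ B := by
  have hgs := h.gs
  unfold gs2 at hgs
  simp only [Bool.and_eq_true, Bool.or_eq_true, decide_eq_true_eq, Bool.not_eq_true',
    decide_eq_false_iff_not, List.all_eq_true] at hgs
  exact ⟨hA0 _ hgs.2.1.2.1, hB0 _ hgs.2.2.1⟩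

theorem y2core : y2 ∈ A ∧ y2 ∈ B := by
  have hgs := h.gs
  unfold gs2 at hgs
  simp only [Bool.and_eq_true, Bool.or_eq_true, decide_eq_true_eq, Bool.not_eq_true',
    decide_eq_false_iff_not, List.all_eq_true] at hgs
  exact ⟨hA0 _ hgs.2.1.2.2, hB0 _ hgs.2.2.2⟩

omit h hA0 hB0 in
include hnA in
theorem r1 {v : ℕ} (hv : v ∈ V) (h1 : v ∉ A) (h2 : v ∉ B) {c c' : ℕ} (h3 : (c, v) ∈ E)
    (hc : c ∈ A ∧ c ∈ B) (h4 : (v, c') ∈ E) (hc' : c' ∈ A ∧ c' ∈ B) : False := by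
  have : v ∈ newA V E LI A B := mem_newA.2 ⟨hv, h1, Or.inl ⟨h2, ⟨c, h3, hc⟩, c', h4, hc'⟩⟩
  rw [hnA] at this
  exact absurd this List.not_mem_nil

omit h hA0 hB0 in
include hnA in
theorem r2 {v : ℕ} (hv : v ∈ V) (h1 : v ∉ A) (h2 : v ∈ B) {c : ℕ} (h3 : (c, v) ∈ E)
    (h4 : (c, v) ∉ LI) (hc : c ∈ A ∧ c ∈ B) : False := by
  have : v ∈ newA V E LI A B := mem_newA.2 ⟨hv, h1, Or.inr ⟨h2, c, ⟨h3, h4⟩, hc⟩⟩
  rw [hnA] at this
  exact absurd this List.not_mem_nil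

omit h hA0 hB0 in
include hnB in
theorem r3 {v : ℕ} (hv : v ∈ V) (h1 : v ∈ A) (h2 : v ∉ B) {c : ℕ} (h3 : (v, c) ∈ E)
    (h4 : (v, c) ∉ LO) (hc : c ∈ A ∧ c ∈ B) : False := by
  have : v ∈ newB V E LO A B := mem_newB.2 ⟨hv, h2, Or.inr ⟨h1, c, ⟨h3, h4⟩, hc⟩⟩
  rw [hnB] at this
  exact absurd this List.not_mem_nil

include hnA hnB

theorem mcore {v : ℕ} (hv : v ∈ V) (hm : TyM E LO LI t y1 y2 v) : v ∈ A ∧ v ∈ B := by
  have c1 := h.y1core hA0 hB0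
  have c2 := h.y2core hA0 hB0
  obtain ⟨-, ⟨h1, h2⟩, h3, h4⟩ := hm
  by_cases hA : v ∈ A
  · by_cases hB : v ∈ B
    · exact ⟨hA, hB⟩
    · exact (r3 hnB hv hA hB h1 h2 c1).elim
  · by_cases hB : v ∈ B
    · exact (r2 hnA hv hA hB h3 h4 c2).elim
    · exact (r1 hnA hv hA hB h3 c2 h1 c1).elim

theorem strandO : ∀ n, ∀ v ∈ V, a v = n → (Sub f a v y2 ∨ Sub f a v y1 ∨ Sub f a v t) →
    v ∈ A ∧ (v ∉ X → v ∈ B) := by
  have ct := h.tcore hA0 hB0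
  intro n
  induction n with
  | zero =>
    intro v hv h0 _
    obtain rfl := h.hG.ob.eq_root hv h0
    exact ⟨hA0 _ List.mem_cons_self, fun hh => absurd h.sX hh⟩
  | succ n ih =>
    intro v hv hn hs
    have hvs : v ≠ s := by
      rintro rfl
      rw [h.hG.ob.root] at hn
      omega
    have hd := h.hG.ob.dep v hv hvs
    have harc := h.arcO hv hvs
    have hfv : f v ∈ V := (h.hE _ harc).1
    have hfs : Sub f a (f v) y2 ∨ Sub f a (f v) y1 ∨ Sub f a (f v) t := by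
      rcases hs with hs | hs | hs
      · exact Or.inl (sub_parent h.hG.ob h.hD (h.XV _ h.y2X) hs hvs)
      · exact Or.inr (Or.inl (sub_parent h.hG.ob h.hD (h.XV _ h.y1X) hs hvs))
      · exact Or.inr (Or.inr (sub_parent h.hG.ob h.hD (h.XV _ h.tX) hs hvs))
    obtain ⟨i1, i2⟩ := ih (f v) hfv (by omega) hfs
    by_cases hX : f v ∈ X ∨ v ∈ X
    · have hl : (f v, v) ∈ LO := (h.mO _).2 ⟨⟨hvs, hv, rfl⟩, hs, hX⟩
      have hvA : v ∈ A := hA0 _ (List.mem_cons_of_mem _ (mem_ends.2 ⟨_, hl, Or.inr rfl⟩))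
      refine ⟨hvA, fun hvX => ?_⟩
      have hty : TyA E LO t v ∨ TyM E LO LI t y1 y2 v := by
        rcases hs with hs | hs
        · exact h.tP2 v hv hvX hs
        · exact Or.inl (h.tP1 v hv hvX hs)
      rcases hty with hty | hty
      · by_contra hB
        exact r3 hnB hv hvA hB hty.1.1 hty.1.2 ct
      · exact (h.mcore hA0 hB0 hnA hnB hv hty).2
    · rw [not_or] at hX
      have hty : TyA E LO t v ∨ TyM E LO LI t y1 y2 v := by
        rcases hs with hs | hs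
        · exact h.tP2 v hv hX.2 hs
        · exact Or.inl (h.tP1 v hv hX.2 hs)
      rcases hty with hty | hty
      · have cf : f v ∈ A ∧ f v ∈ B := ⟨i1, i2 hX.1⟩
        have hvA : v ∈ A := by
          by_contra hA
          by_cases hB : v ∈ B
          · refine r2 hnA hv hA hB harc (fun hl => ?_) cf
            exact h.dj' ⟨hvs, hv, rfl⟩ ((h.mI _).1 hl).1
          · exact r1 hnA hv hA hB harc cf hty.1.1 ct
        refine ⟨hvA, fun _ => ?_⟩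
        by_contra hB
        exact r3 hnB hv hvA hB hty.1.1 hty.1.2 ct
      · have := h.mcore hA0 hB0 hnA hnB hv hty
        exact ⟨this.1, fun _ => this.2⟩

theorem strandI : ∀ n, ∀ v ∈ V, b v = n → (Sub g b v y1 ∨ Sub g b v y2) →
    v ∈ B ∧ (v ∉ X → v ∈ A) := by
  have ct := h.tcore hA0 hB0
  intro n
  induction n with
  | zero =>
    intro v hv h0 _
    obtain rfl := h.hG.ib.eq_root hv h0
    exact ⟨hB0 _ List.mem_cons_self, fun hh => absurd h.tX hh⟩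
  | succ n ih =>
    intro v hv hn hs
    have hvs : v ≠ t := by
      rintro rfl
      rw [h.hG.ib.root] at hn
      omega
    have hd := h.hG.ib.dep v hv hvs
    have harc := h.arcI hv hvs
    have hfv : g v ∈ V := (h.hE _ harc).2
    have hfs : Sub g b (g v) y1 ∨ Sub g b (g v) y2 := by
      rcases hs with hs | hs
      · exact Or.inl (sub_parent h.hG.ib h.hD' (h.XV _ h.y1X) hs hvs)
      · exact Or.inr (sub_parent h.hG.ib h.hD' (h.XV _ h.y2X) hs hvs)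
    obtain ⟨i1, i2⟩ := ih (g v) hfv (by omega) hfs
    by_cases hX : v ∈ X ∨ g v ∈ X
    · have hl : (v, g v) ∈ LI := (h.mI _).2 ⟨⟨hvs, hv, rfl⟩, hs, hX⟩
      have hvB : v ∈ B := hB0 _ (List.mem_cons_of_mem _ (mem_ends.2 ⟨_, hl, Or.inl rfl⟩))
      refine ⟨hvB, fun hvX => ?_⟩
      have hty : TyB E LI t v ∨ TyM E LO LI t y1 y2 v := by
        rcases hs with hs | hs
        · exact h.tQ1 v hv hvX hs
        · exact Or.inl (h.tQ2 v hv hvX hs)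
      rcases hty with hty | hty
      · by_contra hA
        exact r2 hnA hv hA hvB hty.1.1 hty.1.2 ct
      · exact (h.mcore hA0 hB0 hnA hnB hv hty).1
    · rw [not_or] at hX
      have hty : TyB E LI t v ∨ TyM E LO LI t y1 y2 v := by
        rcases hs with hs | hs
        · exact h.tQ1 v hv hX.1 hs
        · exact Or.inl (h.tQ2 v hv hX.1 hs)
      rcases hty with hty | hty
      · have cf : g v ∈ A ∧ g v ∈ B := ⟨i2 hX.2, i1⟩
        have hvB : v ∈ B := by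
          by_contra hB
          by_cases hA : v ∈ A
          · refine r3 hnB hv hA hB harc (fun hl => ?_) cf
            exact h.dj' ((h.mO _).1 hl).1 ⟨hvs, hv, rfl⟩
          · exact r1 hnA hv hA hB hty.1.1 ct harc cf
        refine ⟨hvB, fun _ => ?_⟩
        by_contra hA
        exact r2 hnA hv hA hvB hty.1.1 hty.1.2 ct
      · have := h.mcore hA0 hB0 hnA hnB hv hty
        exact ⟨this.2, fun _ => this.1⟩

end Setup

end Pool.Agent.H871.GP
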