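import Pool.Agent.H871_GP.Comp3

/-!
# Completeness of the algorithm for the general case: the successful guess
-/

namespace Pool.Agent.H871.GP

open Relation

theorem lv_root {V : Type*} {S : Set V} {D : V → V → Prop} {s : V} {f : V → V} {a : V → ℕ}
    (hob : OB S D s f a) (hD : ∀ u v, D u v → u ∈ S ∧ v ∈ S) {y : V} (hy : y ∈ S) :
    lv f a y 0 = s := by
  obtain ⟨h1, h2, -⟩ := lv_mem hob hD hy (Nat.zero_le _)
  exact hob.eq_root h1 h2

theorem lv_self {V : Type*} {f : V → V} {a : V → ℕ} {y : V} : lv f a y (a y) = y := by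
  unfold lv
  rw [Nat.sub_self]
  rfl

namespace Setup

variable {V : List ℕ} {E : List (ℕ × ℕ)} {s t : ℕ} {f a g b : ℕ → ℕ} {y1 y2 : ℕ}
    {X : List ℕ} {LO LI : List (ℕ × ℕ)}

/-- the static part of the strands of the out-branching -/
theorem statO (h : Setup V E s t f a g b y1 y2 X LO LI) {ZA : List ℕ}
    (hZ : ∀ v ∈ V, v ∉ X → (Sub f a v y1 ∨ Sub f a v t) → v ∈ ZA) :
    ∀ n, ∀ v ∈ V, a v = n → (Sub f a v y1 ∨ Sub f a v t) → RT (· ∈ LO ++ inr E ZA) s v := by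
  intro n
  induction n with
  | zero =>
    intro v hv h0 _
    obtain rfl := h.hG.ob.eq_root hv h0
    exact ReflTransGen.refl
  | succ n ih =>
    intro v hv hn hs
    have hvs : v ≠ s := by
      rintro rfl
      rw [h.hG.ob.root] at hn
      omega
    have hd := h.hG.ob.dep v hv hvs
    have harc := h.arcO hv hvs
    have hfv : f v ∈ V := (h.hE _ harc).1
    have hfs : Sub f a (f v) y1 ∨ Sub f a (f v) t := by
      rcases hs with hs | hs
      · exact Or.inl (sub_parent h.hG.ob h.hD (h.XV _ h.y1X) hs hvs)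
      · exact Or.inr (sub_parent h.hG.ob h.hD (h.XV _ h.tX) hs hvs)
    refine ReflTransGen.tail (ih (f v) hfv (by omega) hfs) ?_
    by_cases hX : f v ∈ X ∨ v ∈ X
    · exact List.mem_append_left _ ((h.mO _).2 ⟨⟨hvs, hv, rfl⟩, Or.inr hs, hX⟩)
    · rw [not_or] at hX
      exact List.mem_append_right _ (mem_inr.2 ⟨harc, hZ _ hfv hX.1 hfs, hZ _ hv hX.2 hs⟩)

/-- the static part of the strands of the in-branching -/
theorem statI (h : Setup V E s t f a g b y1 y2 X LO LI) {ZB : List ℕ}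
    (hZ : ∀ v ∈ V, v ∉ X → Sub g b v y2 → v ∈ ZB) :
    ∀ n, ∀ v ∈ V, b v = n → Sub g b v y2 → RT (· ∈ LI ++ inr E ZB) v t := by
  intro n
  induction n with
  | zero =>
    intro v hv h0 _
    obtain rfl := h.hG.ib.eq_root hv h0
    exact ReflTransGen.refl
  | succ n ih =>
    intro v hv hn hs
    have hvs : v ≠ t := by
      rintro rfl
      rw [h.hG.ib.root] at hn
      omega
    have hd := h.hG.ib.dep v hv hvs
    have harc := h.arcI hv hvs
    have hfv : g v ∈ V := (h.hE _ harc).2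
    have hfs : Sub g b (g v) y2 := sub_parent h.hG.ib h.hD' (h.XV _ h.y2X) hs hvs
    refine ReflTransGen.head ?_ (ih (g v) hfv (by omega) hfs)
    by_cases hX : v ∈ X ∨ g v ∈ X
    · exact List.mem_append_left _ ((h.mI _).2 ⟨⟨hvs, hv, rfl⟩, Or.inr hs, hX⟩)
    · rw [not_or] at hX
      exact List.mem_append_right _ (mem_inr.2 ⟨harc, hZ _ hv hX.1 hs, hZ _ hfv hX.2 hfs⟩)

/-- **Completeness.** -/
theorem alF_of (h : Setup V E s t f a g b y1 y2 X LO LI) {cX cL BB : ℕ}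
    (hcX : X.length ≤ cX) (hcO : LO.length ≤ cL) (hcI : LI.length ≤ cL) (hBB : cL + 20 ≤ BB) :
    alF cX cL BB V E (s, t) = true := by
  classical
  -- the closed state
  obtain ⟨A, B, hz⟩ : ∃ A B, cl2 V E ((s, t), (y1, y2)) (LO, LI) = (A, B) := ⟨_, _, rfl⟩
  have hcl := stp_closed (V := V) (E := E) (LO := LO) (LI := LI) (s :: ends LO, t :: ends LI)
  rw [← List.length_append] at hcl
  have hz' : (stp V E LO LI)^[(V ++ V).length] (s :: ends LO, t :: ends LI) = (A, B) := hz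
  rw [hz'] at hcl
  obtain ⟨hnA, hnB⟩ := closed_new hcl
  obtain ⟨hA0, hB0⟩ := sub_iter (V := V) (E := E) (LO := LO) (LI := LI)
    (z := (s :: ends LO, t :: ends LI)) (V ++ V).length
  rw [hz'] at hA0 hB0
  simp only at hnA hnB hA0 hB0
  have ct := h.tcore hA0 hB0
  have c1 := h.y1core hA0 hB0
  have sV := h.XV _ h.sX
  have tV := h.XV _ h.tX
  have y1V := h.XV _ h.y1X
  have y2V := h.XV _ h.y2X
  -- the classes
  obtain ⟨M, ZA, ZB, hcs, memM, memA, memB, hMnd, hMlen⟩ : ∃ M ZA ZB,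
      cs3 V E ((s, t), (y1, y2)) X (LO, LI) (A, B) = (M, (ZA, ZB)) ∧
      (∀ v, v ∈ M ↔ (v ∈ V ∧ v ∉ X ∧ v ∈ A ∧ v ∈ B) ∧ TyM E LO LI t y1 y2 v) ∧
      (∀ v, v ∈ ZA ↔ (v ∈ V ∧ v ∉ X ∧ v ∈ A ∧ v ∈ B) ∧ TyA E LO t v) ∧
      (∀ v, v ∈ ZB ↔ (v ∈ V ∧ v ∉ X ∧ v ∈ A ∧ v ∈ B) ∧ TyB E LI t v) ∧
      M.Nodup ∧ M.length ≤ V.length :=
    ⟨_, _, _, rfl, fun v => by rw [mem_mM, mem_frv]; exact Iff.rfl,
      fun v => by rw [mem_mA, mem_frv]; exact Iff.rfl,
      fun v => by rw [mem_mB, mem_frv]; exact Iff.rfl, (h.nd.filter _).filter _,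
      (List.length_filter_le _ _).trans (List.length_filter_le _ _)⟩
  have nAM : ∀ v ∈ ZA, v ∉ M := fun v h1 h2 =>
    ((memM v).1 h2).2.1 (Or.inl ((memA v).1 h1).2.1.1)
  have nBM : ∀ v ∈ ZB, v ∉ M := fun v h1 h2 =>
    ((memM v).1 h2).2.1 (Or.inr ((memB v).1 h1).2.1.1)
  have cls : ∀ v ∈ V, v ∉ X → (Sub f a v y2 ∨ Sub f a v y1 ∨ Sub f a v t) ∨
      (Sub g b v y1 ∨ Sub g b v y2) → v ∈ A ∧ v ∈ B := by
    rintro v hv hX (hs | hs)
    · obtain ⟨i1, i2⟩ := h.strandO hA0 hB0 hnA hnB _ v hv rfl hs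
      exact ⟨i1, i2 hX⟩
    · obtain ⟨i1, i2⟩ := h.strandI hA0 hB0 hnA hnB _ v hv rfl hs
      exact ⟨i2 hX, i1⟩
  have sP : ∀ v ∈ V, v ∉ X → Sub f a v y2 → v ∈ ZA ∨ v ∈ M := by
    intro v hv hX hs
    have hc := cls v hv hX (Or.inl (Or.inl hs))
    rcases h.tP2 v hv hX hs with h1 | h1
    · exact Or.inl ((memA v).2 ⟨⟨hv, hX, hc⟩, h1⟩)
    · exact Or.inr ((memM v).2 ⟨⟨hv, hX, hc⟩, h1⟩)
  have sP1 : ∀ v ∈ V, v ∉ X → (Sub f a v y1 ∨ Sub f a v t) → v ∈ ZA := fun v hv hX hs =>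
    (memA v).2 ⟨⟨hv, hX, cls v hv hX (Or.inl (Or.inr hs))⟩, h.tP1 v hv hX hs⟩
  have sQ : ∀ v ∈ V, v ∉ X → Sub g b v y1 → v ∈ ZB ∨ v ∈ M := by
    intro v hv hX hs
    have hc := cls v hv hX (Or.inr (Or.inl hs))
    rcases h.tQ1 v hv hX hs with h1 | h1
    · exact Or.inl ((memB v).2 ⟨⟨hv, hX, hc⟩, h1⟩)
    · exact Or.inr ((memM v).2 ⟨⟨hv, hX, hc⟩, h1⟩)
  have sQ2 : ∀ v ∈ V, v ∉ X → Sub g b v y2 → v ∈ ZB := fun v hv hX hs =>
    (memB v).2 ⟨⟨hv, hX, cls v hv hX (Or.inr (Or.inr hs))⟩, h.tQ2 v hv hX hs⟩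
  -- the two paths
  have hPm : ∀ i ≤ a y2, lv f a y2 i ∈ V ∧ a (lv f a y2 i) = i ∧ Sub f a (lv f a y2 i) y2 :=
    fun i hi => lv_mem h.hG.ob h.hD y2V hi
  have hQm : ∀ i ≤ b y1, lv g b y1 i ∈ V ∧ b (lv g b y1 i) = i ∧ Sub g b (lv g b y1 i) y1 :=
    fun i hi => lv_mem h.hG.ib h.hD' y1V hi
  have hPs : ∀ i < a y2, lv f a y2 (i + 1) ≠ s ∧ lv f a y2 (i + 1) ∈ V ∧
      f (lv f a y2 (i + 1)) = lv f a y2 i := by
    intro i hi
    obtain ⟨h1, h2, -⟩ := hPm (i + 1) (by omega)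
    refine ⟨fun hh => ?_, h1, lv_parent hi⟩
    rw [hh, h.hG.ob.root] at h2
    omega
  have hQs : ∀ i < b y1, lv g b y1 (i + 1) ≠ t ∧ lv g b y1 (i + 1) ∈ V ∧
      g (lv g b y1 (i + 1)) = lv g b y1 i := by
    intro i hi
    obtain ⟨h1, h2, -⟩ := hQm (i + 1) (by omega)
    refine ⟨fun hh => ?_, h1, lv_parent hi⟩
    rw [hh, h.hG.ib.root] at h2
    omega
  have eQ : ∀ j < b y1, ea (fun j => lv g b y1 (b y1 - j)) j =
      (lv g b y1 (b y1 - (j + 1) + 1), lv g b y1 (b y1 - (j + 1))) := by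
    intro j hj
    unfold ea
    simp only
    rw [show b y1 - (j + 1) + 1 = b y1 - j by omega]
  have hPa : ∀ i < a y2, ea (lv f a y2) i ∈ E := by
    intro i hi
    obtain ⟨h1, h2, h3⟩ := hPs i hi
    have := h.arcO h2 h1
    rw [h3] at this
    exact this
  have hQa : ∀ j < b y1, ea (fun j => lv g b y1 (b y1 - j)) j ∈ E := by
    intro j hj
    rw [eQ j hj]
    obtain ⟨h1, h2, h3⟩ := hQs (b y1 - (j + 1)) (by omega)
    have := h.arcI h2 h1
    rw [h3] at this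
    exact this
  have nX : ∀ v ∈ X, v ∉ M := fun v hv hm => ((memM v).1 hm).1.2.1 hv
  have nlO : ∀ θ, ∀ e ∈ LO, itl E M θ e = false := by
    intro θ e he
    rw [← Bool.not_eq_true, itl_iff]
    rintro ⟨⟨h1, -⟩, h2, -⟩
    rcases ((h.mO e).1 he).2.2 with h3 | h3
    · exact nX _ h3 h1
    · exact nX _ h3 h2
  have nlI : ∀ θ, ∀ e ∈ LI, itl E M θ e = false := by
    intro θ e he
    rw [← Bool.not_eq_true, itl_iff]
    rintro ⟨⟨h1, -⟩, h2, -⟩
    rcases ((h.mI e).1 he).2.2 with h3 | h3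
    · exact nX _ h3 h1
    · exact nX _ h3 h2
  have tyP : ∀ i < a y2, ea (lv f a y2) i ∈ LO ∨ mmB E M (ea (lv f a y2) i) = true ∨
      frB E M ZA (ea (lv f a y2) i) = true := by
    intro i hi
    by_cases hX : lv f a y2 i ∈ X ∨ lv f a y2 (i + 1) ∈ X
    · exact Or.inl ((h.mO _).2 ⟨hPs i hi, Or.inl (hPm (i + 1) (by omega)).2.2, hX⟩)
    · right
      rw [not_or] at hX
      have q1 := hPm i (by omega)
      have q2 := hPm (i + 1) (by omega)
      have harc := hPa i hi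
      rcases sP _ q1.1 hX.1 q1.2.2 with h1 | h1
      · exact Or.inr (frB_iff.2 ⟨harc, Or.inl ⟨h1, sP _ q2.1 hX.2 q2.2.2⟩⟩)
      · rcases sP _ q2.1 hX.2 q2.2.2 with h2 | h2
        · exact Or.inr (frB_iff.2 ⟨harc, Or.inr ⟨h1, h2⟩⟩)
        · exact Or.inl (mmB_iff.2 ⟨harc, h1, h2⟩)
  have tyQ : ∀ j < b y1, ea (fun j => lv g b y1 (b y1 - j)) j ∈ LI ∨
      mmB E M (ea (fun j => lv g b y1 (b y1 - j)) j) = true ∨
      frB E M ZB (ea (fun j => lv g b y1 (b y1 - j)) j) = true := by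
    intro j hj
    have harc := hQa j hj
    rw [eQ j hj] at harc ⊢
    generalize hi : b y1 - (j + 1) = i at harc ⊢
    have hi' : i < b y1 := by omega
    by_cases hX : lv g b y1 (i + 1) ∈ X ∨ lv g b y1 i ∈ X
    · exact Or.inl ((h.mI _).2 ⟨hQs i hi', Or.inl (hQm (i + 1) (by omega)).2.2, hX⟩)
    · right
      rw [not_or] at hX
      have q1 := hQm i (by omega)
      have q2 := hQm (i + 1) (by omega)
      rcases sQ _ q2.1 hX.1 q2.2.2 with h1 | h1
      · exact Or.inr (frB_iff.2 ⟨harc, Or.inl ⟨h1, sQ _ q1.1 hX.2 q1.2.2⟩⟩)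
      · rcases sQ _ q1.1 hX.2 q1.2.2 with h2 | h2
        · exact Or.inr (frB_iff.2 ⟨harc, Or.inr ⟨h1, h2⟩⟩)
        · exact Or.inl (mmB_iff.2 ⟨harc, h1, h2⟩)
  have dj : ∀ i < a y2, ∀ j < b y1, ea (lv f a y2) i ≠
      ea (fun j => lv g b y1 (b y1 - j)) j := by
    intro i hi j hj he
    have h1 := hPs i hi
    have h2 := hQs (b y1 - (j + 1)) (by omega)
    rw [eQ j hj] at he
    have e1 : lv f a y2 i = lv g b y1 (b y1 - (j + 1) + 1) := congrArg Prod.fst he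
    have e2 : lv f a y2 (i + 1) = lv g b y1 (b y1 - (j + 1)) := congrArg Prod.snd he
    rw [← e1, ← e2] at h2
    exact h.dj' (e := (lv f a y2 i, lv f a y2 (i + 1))) h1 h2
  have hN : ∀ θ i j, θ ≤ V.length + 1 → i ≤ a y2 → j ≤ b y1 →
      (FF E M LO (lv f a y2) θ i).length ≤ BB →
      (FF E M LI (fun j => lv g b y1 (b y1 - j)) θ j).length ≤ BB →
      cfg E M LO LI (lv f a y2) (fun j => lv g b y1 (b y1 - j)) θ i j ∈ cfs BB V E := by
    intro θ i j hθ hi hj hF hF'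
    unfold cfs cfg
    simp only [List.mem_product, List.mem_range, List.length_cons]
    refine ⟨by omega, ⟨(hPm i hi).1, (hQm _ (by omega)).1⟩, mem_tup.2 ⟨hF, ?_⟩,
      mem_tup.2 ⟨hF', ?_⟩⟩
    · intro e he
      obtain ⟨l, hl, rfl⟩ := mem_FF he
      exact hPa l (by omega)
    · intro e he
      obtain ⟨l, hl, rfl⟩ := mem_FF he
      exact hQa l (by omega)
  have hMty : ∀ z ∈ M, z ∈ V ∧ z ∉ X ∧ TyM E LO LI t y1 y2 z := fun z hz =>
    ⟨((memM z).1 hz).1.1, ((memM z).1 hz).1.2.1, ((memM z).1 hz).2⟩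
  have hreach := dp_complete (E := E) (M := M) (m := a y2) (P := lv f a y2) (ZA := ZA) (ZB := ZB)
    (Q := fun j => lv g b y1 (b y1 - j)) (k := b y1) (N := cfs BB V E) (Θ := V.length + 1)
    (B := BB) nlO nlI tyP tyQ nAM nBM dj hN
    (fun i hi j hj he => by
      have h1 := (hPm i hi).2.1
      have h2 := (hPm j hj).2.1
      rw [he] at h1
      omega) (h.incO M hMnd hMty)
    (fun i hi j hj he => by
      have h1 := (hQm (b y1 - i) (by omega)).2.1
      have h2 := (hQm (b y1 - j) (by omega)).2.1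
      rw [he] at h1
      omega) (h.incI M hMnd hMty)
    (fun v _ => by
      unfold sc
      have := List.length_filter_le (fun z => decide ((v, z) ∈ E)) M
      omega) (by omega) (by omega)
  have hmem := rnd_complete hreach
  have hst : cfg E M LO LI (lv f a y2) (fun j => lv g b y1 (b y1 - j)) 0 0 0 =
      (0, ((s, y1), ([], []))) := by
    unfold cfg
    simp only [FF_zero, Nat.sub_zero, lv_self]
    rw [lv_root h.hG.ob h.hD y2V]
  rw [hst] at hmem
  -- the final configuration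
  have hfinal : enB E (M, (ZA, ZB)) ((s, t), (y1, y2)) (LO, LI)
      (cfg E M LO LI (lv f a y2) (fun j => lv g b y1 (b y1 - j)) (V.length + 1) (a y2) (b y1)) =
      true := by
    unfold enB cfg
    simp only [Bool.and_eq_true, Bool.or_eq_true, decide_eq_true_eq, List.all_eq_true,
      reachB_rt, Nat.sub_self]
    refine ⟨lv_root h.hG.ib h.hD' y1V, ?_, ?_⟩
    · rintro ⟨u, v⟩ he
      obtain ⟨⟨h1, h2, h3⟩, h4, h5⟩ := (h.mO _).1 he
      simp only at h1 h2 h3 h4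
      rcases h4 with h4 | h4
      · left
        have h6 := sub_lv h.hG.ob h.hD y2V h4
        have h7 := h.hG.ob.sub_le h.hD y2V h4
        have h8 := h.hG.ob.dep v h2 h1
        have h9 : ea (lv f a y2) (a v - 1) = (u, v) := by
          unfold ea
          rw [show a v - 1 + 1 = a v by omega, ← h6, ← h3]
          congr 1
          have h10 := lv_parent (f := f) (a := a) (y := y2) (i := a v - 1) (by omega)
          rw [show a v - 1 + 1 = a v by omega, ← h6] at h10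
          exact h10.symm
        rw [← h9]
        exact mem_FF_of (by omega) (h9 ▸ he)
      · right
        have h6 : f v ∈ V := (h.hE _ (h.arcO h2 h1)).1
        rw [← h3]
        refine h.statO (ZA := ZA) sP1 _ _ h6 rfl ?_
        rcases h4 with h4 | h4
        · exact Or.inl (sub_parent h.hG.ob h.hD y1V h4 h1)
        · exact Or.inr (sub_parent h.hG.ob h.hD tV h4 h1)
    · rintro ⟨u, v⟩ he
      obtain ⟨⟨h1, h2, h3⟩, h4, h5⟩ := (h.mI _).1 he
      simp only at h1 h2 h3 h4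
      rcases h4 with h4 | h4
      · left
        have h6 := sub_lv h.hG.ib h.hD' y1V h4
        have h7 := h.hG.ib.sub_le h.hD' y1V h4
        have h8 := h.hG.ib.dep u h2 h1
        have h9 : ea (fun j => lv g b y1 (b y1 - j)) (b y1 - b u) = (u, v) := by
          rw [eQ _ (by omega)]
          rw [show b y1 - (b y1 - b u + 1) = b u - 1 by omega, show b u - 1 + 1 = b u by omega,
            ← h6, ← h3]
          congr 1
          have h10 := lv_parent (f := g) (a := b) (y := y1) (i := b u - 1) (by omega)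
          rw [show b u - 1 + 1 = b u by omega, ← h6] at h10
          exact h10.symm
        rw [← h9]
        exact mem_FF_of (by omega) (h9 ▸ he)
      · right
        have h6 : g u ∈ V := (h.hE _ (h.arcI h2 h1)).2
        rw [← h3]
        exact h.statI (ZB := ZB) sQ2 _ _ h6 rfl (sub_parent h.hG.ib h.hD' y2V h4 h1)
  -- the final test
  obtain ⟨FO, hFO, FI, hFI, hfin⟩ := complete h.hE h.hα h.hG (LO := LO) (LI := LI)
    (fun e he => ((h.mO e).1 he).1) (fun e he => ((h.mI e).1 he).1)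
    (hA0 s List.mem_cons_self) ct.2 hnA hnB
  unfold alF
  simp only [List.any_eq_true, List.mem_product, Prod.exists]
  refine ⟨y1, y2, ⟨y1V, y2V⟩, X, mem_tup.2 ⟨hcX, h.XV⟩, LO, LI,
    ⟨mem_tup.2 ⟨hcO, fun e he => ?_⟩, mem_tup.2 ⟨hcI, fun e he => ?_⟩⟩, ?_⟩
  · obtain ⟨⟨h1, h2, h3⟩, -⟩ := (h.mO e).1 he
    have := h.arcO h2 h1
    rw [h3] at this
    exact this
  · obtain ⟨⟨h1, h2, h3⟩, -⟩ := (h.mI e).1 he
    have := h.arcI h2 h1
    rw [h3] at this
    exact this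
  rw [hz]
  unfold ts2
  rw [hcs]
  simp only [Bool.and_eq_true]
  refine ⟨h.gs, ?_, ?_, ?_⟩
  · unfold dmB
    simp only [Bool.or_eq_true, decide_eq_true_eq, List.all_eq_true, inn_iff, outn_iff]
    intro v hv
    by_cases hvt : v = t
    · exact Or.inl (Or.inl (hvt ▸ ct.1))
    by_cases hvy : v = y1
    · exact Or.inl (Or.inl (hvy ▸ c1.1))
    rcases h.dom v hv hvt hvy with (h1 | h1) | h1 | h1
    · exact Or.inr (Or.inr ⟨t, h1, ct⟩)
    · exact Or.inr (Or.inl ⟨t, h1, ct⟩)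
    · exact Or.inr (Or.inr ⟨y1, h1, c1⟩)
    · exact Or.inr (Or.inl ⟨y1, h1, c1⟩)
  · rw [List.any_eq_true]
    exact ⟨_, hmem, hfinal⟩
  · rw [List.any_eq_true]
    exact ⟨(FO, FI), List.mem_product.2 ⟨hFO, hFI⟩, hfin⟩

end Setup

end Pool.Agent.H871.GP
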