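import Pool.Agent.H871_GP.Comp4

/-!
# Completeness of the algorithm for the general case: guesses from optimal good pairs
-/

namespace Pool.Agent.H871.GP

open Relation

/-- the heads of the relevant arcs -/
noncomputable def hds (V : List ℕ) (s : ℕ) (f a : ℕ → ℕ) (Y X : List ℕ) : List ℕ :=
  (X ++ Y.flatMap (fun y => X.map (fun x => lv f a y (a x + 1)))).filter
    (fun v => @decide (v ∈ V ∧ v ≠ s ∧ (∃ y ∈ Y, Sub f a v y) ∧ (f v ∈ X ∨ v ∈ X))
      (Classical.propDecidable _))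

theorem mem_hds {V : List ℕ} {D : ℕ → ℕ → Prop} {s : ℕ} {f a : ℕ → ℕ} {Y X : List ℕ}
    (hob : OB {v | v ∈ V} D s f a) (hD : ∀ u v, D u v → u ∈ {v | v ∈ V} ∧ v ∈ {v | v ∈ V})
    (hY : ∀ y ∈ Y, y ∈ V) {v : ℕ} : v ∈ hds V s f a Y X ↔
      v ∈ V ∧ v ≠ s ∧ (∃ y ∈ Y, Sub f a v y) ∧ (f v ∈ X ∨ v ∈ X) := by
  unfold hds
  simp only [List.mem_filter, decide_eq_true_eq, List.mem_append, List.mem_flatMap]
  refine ⟨fun h => h.2, fun h => ⟨?_, h⟩⟩
  obtain ⟨hv, hvs, ⟨y, hy, hs⟩, hX | hX⟩ := h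
  · right
    refine ⟨y, hy, List.mem_map.2 ⟨f v, hX, ?_⟩⟩
    rw [← hob.dep v hv hvs]
    exact (sub_lv hob hD (hY y hy) hs).symm
  · exact Or.inl hX

theorem length_hds {V : List ℕ} {s : ℕ} {f a : ℕ → ℕ} {Y X : List ℕ} :
    (hds V s f a Y X).length ≤ X.length + Y.length * X.length := by
  unfold hds
  refine (List.length_filter_le _ _).trans ?_
  rw [List.length_append, List.length_flatMap]
  simp

theorem scr_eq {E : List (ℕ × ℕ)} {M : List ℕ} (hM : M.Nodup) (v : ℕ) :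
    scr (fun u v => (u, v) ∈ E) M.toFinset v = sc E M v := by
  classical
  unfold scr sc
  rw [← List.toFinset_card_of_nodup (hM.filter _), List.toFinset_filter]
  congr 1
  ext z
  simp

/-- The common part of the two constructions. -/
theorem setup_mem {V : List ℕ} {E : List (ℕ × ℕ)} {s t y1 y2 : ℕ} {f a g b : ℕ → ℕ}
    {X : List ℕ} (hE : ∀ e ∈ E, e.1 ∈ V ∧ e.2 ∈ V)
    (hG : GPair {v | v ∈ V} (fun u v => (u, v) ∈ E) s t f a g b) (h1 : y1 ∈ V) (h2 : y2 ∈ V) :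
    ∃ LO LI : List (ℕ × ℕ), LO.length ≤ 4 * X.length ∧ LI.length ≤ 4 * X.length ∧
      (∀ e, e ∈ LO ↔ (e.2 ≠ s ∧ e.2 ∈ V ∧ f e.2 = e.1) ∧
        (Sub f a e.2 y2 ∨ Sub f a e.2 y1 ∨ Sub f a e.2 t) ∧ (e.1 ∈ X ∨ e.2 ∈ X)) ∧
      ∀ e, e ∈ LI ↔ (e.1 ≠ t ∧ e.1 ∈ V ∧ g e.1 = e.2) ∧
        (Sub g b e.1 y1 ∨ Sub g b e.1 y2) ∧ (e.1 ∈ X ∨ e.2 ∈ X) := by
  have tV : t ∈ V := hG.ib.mem
  refine ⟨(hds V s f a [y2, y1, t] X).map (fun v => (f v, v)),
    (hds V t g b [y1, y2] X).map (fun v => (v, g v)), ?_, ?_, fun e => ?_, fun e => ?_⟩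
  · rw [List.length_map]
    refine length_hds.trans ?_
    simp only [List.length_cons, List.length_nil]
    omega
  · rw [List.length_map]
    refine length_hds.trans ?_
    simp only [List.length_cons, List.length_nil]
    omega
  · rw [List.mem_map]
    constructor
    · rintro ⟨v, hv, rfl⟩
      rw [mem_hds hG.ob (fun u v hh => hE _ hh) (by simp [h1, h2, tV])] at hv
      simp only [List.mem_cons, List.not_mem_nil, or_false, exists_eq_or_imp,
        exists_eq_left] at hv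
      simp only
      tauto
    · rintro ⟨⟨e1, e2, e3⟩, e4, e5⟩
      refine ⟨e.2, ?_, by rw [e3]⟩
      rw [mem_hds hG.ob (fun u v hh => hE _ hh) (by simp [h1, h2, tV])]
      simp only [List.mem_cons, List.not_mem_nil, or_false, exists_eq_or_imp,
        exists_eq_left, e3]
      tauto
  · rw [List.mem_map]
    constructor
    · rintro ⟨v, hv, rfl⟩
      rw [mem_hds (D := fun u v => (v, u) ∈ E) hG.ib (fun u v hh => (hE _ hh).symm)
        (by simp [h1, h2])] at hv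
      simp only [List.mem_cons, List.not_mem_nil, or_false, exists_eq_or_imp,
        exists_eq_left] at hv
      simp only
      tauto
    · rintro ⟨⟨e1, e2, e3⟩, e4, e5⟩
      refine ⟨e.1, ?_, by rw [e3]⟩
      rw [mem_hds (D := fun u v => (v, u) ∈ E) hG.ib (fun u v hh => (hE _ hh).symm)
        (by simp [h1, h2])]
      simp only [List.mem_cons, List.not_mem_nil, or_false, exists_eq_or_imp,
        exists_eq_left, e3]
      tauto

/-- The case in which all vertices are adjacent to `t`. -/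
theorem alF_caseA {V : List ℕ} {E : List (ℕ × ℕ)} {s t : ℕ} {f a g b : ℕ → ℕ} (nd : V.Nodup)
    (hE : ∀ e ∈ E, e.1 ∈ V ∧ e.2 ∈ V) (hα : Al2 V E)
    (hG : GPair {v | v ∈ V} (fun u v => (u, v) ∈ E) s t f a g b) (hat : a t ≤ 9)
    (hN : ∀ v, ¬ NA {v | v ∈ V} (fun u v => (u, v) ∈ E) t v) :
    alF 51 204 224 V E (s, t) = true := by
  classical
  have hD : ∀ u v, (u, v) ∈ E → u ∈ {v | v ∈ V} ∧ v ∈ {v | v ∈ V} := fun _ _ hh => hE _ hh
  have hD' : ∀ u v, (v, u) ∈ E → u ∈ {v | v ∈ V} ∧ v ∈ {v | v ∈ V} :=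
    fun _ _ hh => (hE _ hh).symm
  have tV : t ∈ V := hG.ib.mem
  have sV : s ∈ V := hG.ob.mem
  obtain ⟨X, hX, hXV, hXl⟩ : ∃ X : List ℕ, (∀ v, v ∈ X ↔ v ∈ V ∧ (v = s ∨ v = t ∨
      ∃ i < 10, lv f a t i = v)) ∧ (∀ x ∈ X, x ∈ V) ∧ X.length ≤ 12 := by
    refine ⟨(s :: t :: (List.range 10).map (lv f a t)).filter (fun v => decide (v ∈ V)), ?_, ?_, ?_⟩
    · intro v
      simp only [List.mem_filter, List.mem_cons, List.mem_map, List.mem_range, decide_eq_true_eq]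
      tauto
    · intro x hx
      exact of_decide_eq_true (List.mem_filter.1 hx).2
    · exact (List.length_filter_le _ _).trans (by simp)
  obtain ⟨LO, LI, l1, l2, mO, mI⟩ := setup_mem (X := X) (y1 := t) (y2 := t) hE hG tV tV
  have hpath : ∀ v ∈ V, Sub f a v t → v ∈ X := by
    intro v hv hs
    have h1 := sub_lv hG.ob hD tV hs
    have h2 := hG.ob.sub_le hD tV hs
    exact (hX v).2 ⟨hv, Or.inr (Or.inr ⟨a v, by omega, h1.symm⟩)⟩
  have hpath' : ∀ v ∈ V, Sub g b v t → v = t := fun v _ hs => hG.ib.sub_root.1 hs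
  have tX : t ∈ X := (hX t).2 ⟨tV, Or.inr (Or.inl rfl)⟩
  have sX : s ∈ X := (hX s).2 ⟨sV, Or.inl rfl⟩
  have hS : Setup V E s t f a g b t t X LO LI := by
    refine ⟨nd, hE, hα, hG, hXV, sX, tX, tX, tX, mO, mI, ?_, ?_, ?_, ?_, ?_, ?_, ?_⟩
    · exact fun v hv hvX hs => absurd (hpath v hv hs) hvX
    · exact fun v hv hvX hs => absurd (hpath v hv (hs.elim id id)) hvX
    · exact fun v hv hvX hs => absurd (hpath' v hv hs ▸ tX) hvX
    · exact fun v hv hvX hs => absurd (hpath' v hv hs ▸ tX) hvX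
    · intro v hv hvt _
      by_contra hc
      exact hN v ⟨hv, hvt, fun hh => hc (Or.inl (Or.inr hh)), fun hh => hc (Or.inl (Or.inl hh))⟩
    · intro M _ hM i j hij hj hi _ _
      obtain ⟨h1, -, h3⟩ := lv_mem hG.ob hD tV (i := i) (by omega)
      exact absurd (hpath _ h1 h3) (hM _ hi).2.1
    · intro M _ hM i j hij hj
      rw [hG.ib.root] at hj
      omega
  exact hS.alF_of (by omega) (by omega) (by omega) (by omega)

end Pool.Agent.H871.GP
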