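import Pool.Agent.H871_GP.Comp5

/-!
# Completeness of the algorithm for the general case: the main case
-/

namespace Pool.Agent.H871.GP

open Relation

/-- The special vertices. -/
def spc (s t y1 y2 : ℕ) (f a g b : ℕ → ℕ) : List ℕ :=
  ([s, t, y1, y2, g y1, f y2, f t] ++ ((List.range 11).map (lv f a y2) ++
    ((List.range 11).map (lv f a y1) ++ (List.range 11).map (lv f a t)))) ++
  [lv f a y2 (a y1), lv f a y2 (a y1 + 1), lv f a y2 (a y2 - 1), lv f a t (a y1 + 1),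
    lv g b y1 (b y2), lv g b y1 (b y2 + 1), lv g b y1 (b y1 - 1), lv g b y1 0, lv g b y1 1,
    lv g b y2 0, lv g b y2 1]

theorem length_spc {s t y1 y2 : ℕ} {f a g b : ℕ → ℕ} : (spc s t y1 y2 f a g b).length = 51 := by
  unfold spc
  simp

theorem mem_spc {s t y1 y2 : ℕ} {f a g b : ℕ → ℕ} {v : ℕ} : v ∈ spc s t y1 y2 f a g b ↔
    ((v = s ∨ v = t ∨ v = y1 ∨ v = y2 ∨ v = g y1 ∨ v = f y2 ∨ v = f t) ∨
      (∃ i < 11, lv f a y2 i = v) ∨ (∃ i < 11, lv f a y1 i = v) ∨ ∃ i < 11, lv f a t i = v) ∨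
      (v = lv f a y2 (a y1) ∨ v = lv f a y2 (a y1 + 1) ∨ v = lv f a y2 (a y2 - 1) ∨
        v = lv f a t (a y1 + 1) ∨ v = lv g b y1 (b y2) ∨ v = lv g b y1 (b y2 + 1) ∨
        v = lv g b y1 (b y1 - 1) ∨ v = lv g b y1 0 ∨ v = lv g b y1 1 ∨ v = lv g b y2 0 ∨
        v = lv g b y2 1) := by
  unfold spc
  simp only [List.mem_append, List.mem_cons, List.not_mem_nil, or_false, List.mem_map,
    List.mem_range]

theorem card_filter_toFinset_image {P : ℕ → ℕ} {S : Finset ℕ}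
    (hinj : ∀ i ∈ S, ∀ j ∈ S, P i = P j → i = j) : (S.image P).card = S.card :=
  Finset.card_image_of_injOn fun i hi j hj he => hinj i hi j hj he

/-- The main case. -/
theorem alF_caseB {V : List ℕ} {E : List (ℕ × ℕ)} {s t y1 y2 : ℕ} {f a g b : ℕ → ℕ}
    (nd : V.Nodup) (hE : ∀ e ∈ E, e.1 ∈ V ∧ e.2 ∈ V) (hα : Al2 V E)
    (h : Opt {v | v ∈ V} (fun u v => (u, v) ∈ E) s t f a g b y1 y2 9) :
    alF 51 204 224 V E (s, t) = true := by
  classical
  have hD : ∀ u v, (u, v) ∈ E → u ∈ {v | v ∈ V} ∧ v ∈ {v | v ∈ V} := fun _ _ hh => hE _ hh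
  have hD' : ∀ u v, (v, u) ∈ E → u ∈ {v | v ∈ V} ∧ v ∈ {v | v ∈ V} :=
    fun _ _ hh => (hE _ hh).symm
  have hG := h.tight.pair
  have tV : t ∈ V := hG.ib.mem
  have sV : s ∈ V := hG.ob.mem
  have y1V : y1 ∈ V := h.n1.1
  have y2V : y2 ∈ V := h.n2.1
  have hat := h.tc
  obtain ⟨X, hX, hXl⟩ : ∃ X : List ℕ, (∀ v, v ∈ X ↔ v ∈ V ∧ v ∈ spc s t y1 y2 f a g b) ∧
      X.length ≤ 51 := by
    refine ⟨(spc s t y1 y2 f a g b).filter (fun v => decide (v ∈ V)), ?_, ?_⟩
    · intro v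
      simp only [List.mem_filter, decide_eq_true_eq]
      tauto
    · exact (List.length_filter_le _ _).trans length_spc.le
  simp only [mem_spc] at hX
  obtain ⟨LO, LI, l1, l2, mO, mI⟩ := setup_mem (X := X) (y1 := y1) (y2 := y2) hE hG y1V y2V
  have sX : s ∈ X := (hX s).2 ⟨sV, by simp⟩
  have tX : t ∈ X := (hX t).2 ⟨tV, by simp⟩
  have y1X : y1 ∈ X := (hX y1).2 ⟨y1V, by simp⟩
  have y2X : y2 ∈ X := (hX y2).2 ⟨y2V, by simp⟩
  have tyA : ∀ v, (v, t) ∈ E → (t, v) ∉ E → a t + 2 ≤ a v → TyA E LO t v := by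
    intro v h1 h2 h3
    refine ⟨⟨h1, fun hl => ?_⟩, h2⟩
    obtain ⟨⟨e1, e2, e3⟩, -⟩ := (mO _).1 hl
    simp only at e1 e2 e3
    have := hG.ob.dep t tV e1
    rw [e3] at this
    omega
  have tyB : ∀ v, (t, v) ∈ E → (v, t) ∉ E → TyB E LI t v := by
    intro v h1 h2
    refine ⟨⟨h1, fun hl => ?_⟩, h2⟩
    exact ((mI _).1 hl).1.1 rfl
  have tyM : ∀ v, IsM {v | v ∈ V} (fun u v => (u, v) ∈ E) t y1 y2 v →
      TyM E LO LI t y1 y2 v := by
    rintro v ⟨hN, h1, h2, h3, h4⟩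
    refine ⟨fun hh => hh.elim hN.2.2.2 hN.2.2.1, ⟨h3, fun hl => ?_⟩, h4, fun hl => ?_⟩
    · obtain ⟨⟨e1, e2, e3⟩, -⟩ := (mO _).1 hl
      simp only at e1 e2 e3
      have h5 := hG.ob.dep y1 y1V e1
      have h6 := h.l1a hN
      rw [e3] at h5
      omega
    · obtain ⟨⟨e1, e2, e3⟩, -⟩ := (mI _).1 hl
      simp only at e1 e2 e3
      have h5 := hG.ib.dep y2 y2V e1
      have h6 := h.l1b hN
      rw [e3] at h5
      omega
  have isM : ∀ z, z ∈ V ∧ z ∉ X ∧ TyM E LO LI t y1 y2 z →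
      IsM {v | v ∈ V} (fun u v => (u, v) ∈ E) t y1 y2 z := by
    rintro z ⟨h1, h2, h3, ⟨h4, -⟩, h5, -⟩
    exact ⟨⟨h1, fun hh => h2 (hh ▸ tX), fun hh => h3 (Or.inr hh), fun hh => h3 (Or.inl hh)⟩,
      fun hh => h2 (hh ▸ y1X), fun hh => h2 (hh ▸ y2X), h4, h5⟩
  have hS : Setup V E s t f a g b y1 y2 X LO LI := by
    refine ⟨nd, hE, hα, hG, fun x hx => ((hX x).1 hx).1, sX, tX, y1X, y2X, mO, mI, ?_, ?_, ?_, ?_,
      ?_, ?_, ?_⟩
    · intro v hv hvX hs
      have hl := sub_lv hG.ob hD y2V hs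
      rcases h.clsP hs hv with c | c | c | c | c | c | c | c | c | c
      · exact Or.inl (tyA v c.1 c.2.1 c.2.2)
      · exact Or.inr (tyM v c)
      · exact absurd ((hX v).2 ⟨hv, Or.inl (Or.inr (Or.inl ⟨a v, by omega, hl.symm⟩))⟩) hvX
      · exact absurd (c ▸ y1X) hvX
      · exact absurd (c ▸ y2X) hvX
      · rw [c] at hl
        exact absurd ((hX v).2 ⟨hv, Or.inr (Or.inl hl)⟩) hvX
      · rw [c] at hl
        exact absurd ((hX v).2 ⟨hv, Or.inr (Or.inr (Or.inl hl))⟩) hvX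
      · exact absurd ((hX v).2 ⟨hv,
        Or.inl (Or.inl (Or.inr (Or.inr (Or.inr (Or.inr (Or.inl c))))))⟩) hvX
      · rw [show a v = a y2 - 1 by omega] at hl
        exact absurd ((hX v).2 ⟨hv, Or.inr (Or.inr (Or.inr (Or.inl hl)))⟩) hvX
      · have hl' := sub_lv hG.ib hD' y1V c.1
        rw [c.2] at hl'
        exact absurd ((hX v).2 ⟨hv,
          Or.inr (Or.inr (Or.inr (Or.inr (Or.inr (Or.inr (Or.inl hl'))))))⟩) hvX
    · intro v hv hvX hs
      rcases hs with hs | hs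
      · have hl := sub_lv hG.ob hD y1V hs
        rcases h.clsP1 hs hv with c | c | c
        · exact tyA v c.1 c.2.1 c.2.2
        · exact absurd ((hX v).2 ⟨hv, Or.inl (Or.inr (Or.inr (Or.inl
            ⟨a v, by omega, hl.symm⟩)))⟩) hvX
        · exact absurd (c ▸ y1X) hvX
      · have hl := sub_lv hG.ob hD tV hs
        have hle := hG.ob.sub_le hD tV hs
        exact absurd ((hX v).2 ⟨hv, Or.inl (Or.inr (Or.inr (Or.inr
            ⟨a v, by omega, hl.symm⟩)))⟩) hvX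
    · intro v hv hvX hs
      have hl := sub_lv hG.ib hD' y1V hs
      rcases h.clsQ hs hv with c | c | c | c | c | c | c | c | c | c | c | c
      · exact Or.inl (tyB v c.1 c.2.1)
      · exact Or.inr (tyM v c)
      · rcases Nat.eq_zero_or_pos (b v) with h0 | h0
        · rw [h0] at hl
          exact absurd ((hX v).2 ⟨hv,
            Or.inr (Or.inr (Or.inr (Or.inr (Or.inr (Or.inr (Or.inr (Or.inr (Or.inl hl))))))))⟩) hvX
        · rw [show b v = 1 by omega] at hl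
          exact absurd ((hX v).2 ⟨hv,
            Or.inr (Or.inr (Or.inr (Or.inr (Or.inr (Or.inr (Or.inr (Or.inr (Or.inr (Or.inl hl)))))))))⟩) hvX
      · exact absurd ((hX v).2 ⟨hv,
        Or.inl (Or.inl (Or.inr (Or.inr (Or.inr (Or.inr (Or.inr (Or.inr c)))))))⟩) hvX
      · exact absurd (c ▸ y1X) hvX
      · exact absurd (c ▸ y2X) hvX
      · exact absurd ((hX v).2 ⟨hv,
        Or.inl (Or.inl (Or.inr (Or.inr (Or.inr (Or.inr (Or.inr (Or.inl c)))))))⟩) hvX
      · rw [show b v = b y1 - 1 by omega] at hl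
        exact absurd ((hX v).2 ⟨hv,
          Or.inr (Or.inr (Or.inr (Or.inr (Or.inr (Or.inr (Or.inr (Or.inl hl)))))))⟩) hvX
      · rw [c] at hl
        exact absurd ((hX v).2 ⟨hv, Or.inr (Or.inr (Or.inr (Or.inr (Or.inr (Or.inl hl)))))⟩) hvX
      · rw [c] at hl
        exact absurd ((hX v).2 ⟨hv,
          Or.inr (Or.inr (Or.inr (Or.inr (Or.inr (Or.inr (Or.inl hl))))))⟩) hvX
      · have hl' := sub_lv hG.ob hD y2V c.1
        rw [c.2] at hl'
        exact absurd ((hX v).2 ⟨hv, Or.inr (Or.inr (Or.inl hl'))⟩) hvX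
      · have hl' := sub_lv hG.ob hD tV c.1
        rw [c.2] at hl'
        exact absurd ((hX v).2 ⟨hv, Or.inr (Or.inr (Or.inr (Or.inr (Or.inl hl'))))⟩) hvX
    · intro v hv hvX hs
      have hl := sub_lv hG.ib hD' y2V hs
      rcases h.clsQ2 hs hv with c | c | c | c
      · exact tyB v c.1 c.2.1
      · rcases Nat.eq_zero_or_pos (b v) with h0 | h0
        · rw [h0] at hl
          exact absurd ((hX v).2 ⟨hv,
            Or.inr (Or.inr (Or.inr (Or.inr (Or.inr (Or.inr (Or.inr (Or.inr (Or.inr (Or.inr (Or.inl hl))))))))))⟩) hvX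
        · rw [show b v = 1 by omega] at hl
          exact absurd ((hX v).2 ⟨hv,
            Or.inr (Or.inr (Or.inr (Or.inr (Or.inr (Or.inr (Or.inr (Or.inr (Or.inr (Or.inr (Or.inr hl))))))))))⟩) hvX
      · exact absurd ((hX v).2 ⟨hv,
        Or.inl (Or.inl (Or.inr (Or.inr (Or.inr (Or.inr (Or.inr (Or.inr c)))))))⟩) hvX
      · exact absurd (c ▸ y2X) hvX
    · intro v hv hvt hvy
      rcases hα v hv t tV y1 y1V hvt hvy h.n1.2.1.symm with h1 | h1 | h1
      · exact Or.inl h1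
      · exact Or.inr h1
      · exact absurd h1 (not_or.2 h.n1.2.2)
    · intro M hMnd hM i j hij hj hi hj' hc
      have hlv : ∀ i ≤ a y2, lv f a y2 i ∈ V ∧ a (lv f a y2 i) = i ∧
          Sub f a (lv f a y2 i) y2 := fun i hi => lv_mem hG.ob hD y2V hi
      rw [← scr_eq hMnd, ← scr_eq hMnd]
      refine h.fmP (fun z hz => isM z (hM z (List.mem_toFinset.1 hz))) (List.mem_toFinset.2 hi)
        (List.mem_toFinset.2 hj') (hlv i (by omega)).2.2 (hlv j hj).2.2
        (T := ((Finset.Ioo i j).filter (fun l => lv f a y2 l ∈ M)).image (lv f a y2)) ?_ ?_ ?_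
      · intro z hz
        obtain ⟨l, hl, rfl⟩ := Finset.mem_image.1 hz
        exact List.mem_toFinset.2 (Finset.mem_filter.1 hl).2
      · intro z hz
        obtain ⟨l, hl, rfl⟩ := Finset.mem_image.1 hz
        have h1 := Finset.mem_Ioo.1 (Finset.mem_filter.1 hl).1
        obtain ⟨-, h2, h3⟩ := hlv l (by omega)
        rw [h2, (hlv i (by omega)).2.1, (hlv j hj).2.1]
        exact ⟨h3, h1.1, h1.2⟩
      · rw [card_filter_toFinset_image]
        · exact hc
        · intro p hp q hq he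
          have h1 := Finset.mem_Ioo.1 (Finset.mem_filter.1 hp).1
          have h2 := Finset.mem_Ioo.1 (Finset.mem_filter.1 hq).1
          have h3 := (hlv p (by omega)).2.1
          have h4 := (hlv q (by omega)).2.1
          rw [he] at h3
          omega
    · intro M hMnd hM i j hij hj hi hj' hc
      have hlv : ∀ i ≤ b y1, lv g b y1 i ∈ V ∧ b (lv g b y1 i) = i ∧
          Sub g b (lv g b y1 i) y1 := fun i hi => lv_mem hG.ib hD' y1V hi
      simp only at hi hj' hc ⊢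
      rw [← scr_eq hMnd, ← scr_eq hMnd]
      refine h.fmQ (fun z hz => isM z (hM z (List.mem_toFinset.1 hz))) (List.mem_toFinset.2 hi)
        (List.mem_toFinset.2 hj') (hlv _ (by omega)).2.2 (hlv _ (by omega)).2.2
        (T := ((Finset.Ioo i j).filter (fun l => lv g b y1 (b y1 - l) ∈ M)).image
          (fun l => lv g b y1 (b y1 - l))) ?_ ?_ ?_
      · intro z hz
        obtain ⟨l, hl, rfl⟩ := Finset.mem_image.1 hz
        exact List.mem_toFinset.2 (Finset.mem_filter.1 hl).2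
      · intro z hz
        obtain ⟨l, hl, rfl⟩ := Finset.mem_image.1 hz
        have h1 := Finset.mem_Ioo.1 (Finset.mem_filter.1 hl).1
        obtain ⟨-, h2, h3⟩ := hlv (b y1 - l) (by omega)
        rw [h2, (hlv (b y1 - i) (by omega)).2.1, (hlv (b y1 - j) (by omega)).2.1]
        exact ⟨h3, by omega, by omega⟩
      · rw [card_filter_toFinset_image]
        · exact hc
        · intro p hp q hq he
          have h1 := Finset.mem_Ioo.1 (Finset.mem_filter.1 hp).1
          have h2 := Finset.mem_Ioo.1 (Finset.mem_filter.1 hq).1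
          have h3 := (hlv (b y1 - p) (by omega)).2.1
          have h4 := (hlv (b y1 - q) (by omega)).2.1
          rw [he] at h3
          omega
  exact hS.alF_of (by omega) (by omega) (by omega) (by omega)

end Pool.Agent.H871.GP
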