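import Pool.Agent.H871_GP.Ops

/-!
# The root of one of the two branchings can be chosen close to the root of the other one
-/

namespace Pool.Agent.H871.GP

variable {V : Type*} {S : Set V} {D : V → V → Prop} {s t : V} {f : V → V} {a : V → ℕ} {g : V → V}
  {b : V → ℕ}

/-- three propositions of which at least one holds at each of three places -/
theorem three_places {A B C : ℕ → Prop} {x y z : ℕ} (hx : A x ∨ B x ∨ C x) (hy : A y ∨ B y ∨ C y)
    (hz : A z ∨ B z ∨ C z) (b1 : ¬ (B x ∧ B y)) (b2 : ¬ (B x ∧ B z)) (b3 : ¬ (B y ∧ B z))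
    (c1 : ¬ (C x ∧ C y)) (c2 : ¬ (C x ∧ C z)) (c3 : ¬ (C y ∧ C z)) : A x ∨ A y ∨ A z := by
  tauto

/-- Minimality of the sum of the two distances between the roots. -/
def LamMin (S : Set V) (D : V → V → Prop) (s t : V) (a b : V → ℕ) : Prop :=
  ∀ s' t' f' a' g' b', GPair S D s' t' f' a' g' b' → a t + b s ≤ a' t' + b' s'

/-- The path from `s` to `t` in the out-branching is short. -/
theorem lam_short (hD : ∀ u v, D u v → u ∈ S ∧ v ∈ S) (h : Tight S D s t f a g b)
    (hm : LamMin S D s t a b)
    (hα : ∀ p ∈ S, ∀ q ∈ S, ∀ r ∈ S, p ≠ q → p ≠ r → q ≠ r →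
      (D p q ∨ D q p) ∨ (D p r ∨ D r p) ∨ (D q r ∨ D r q)) : a t ≤ 9 ∨ b s ≤ 1 := by
  classical
  by_contra hcon
  rw [not_or] at hcon
  obtain ⟨ht9, hs1⟩ := hcon
  push Not at ht9 hs1
  have hD' : ∀ u v, D v u → u ∈ S ∧ v ∈ S := fun u v h => (hD v u h).symm
  have hG := h.pair
  have hsS : s ∈ S := hG.ob.mem
  have htS : t ∈ S := hG.ib.mem
  have hst : s ≠ t := by
    rintro rfl
    rw [hG.ob.root] at ht9
    omega
  -- no arc from `t` to `s`
  have nts : ¬ D t s := by
    intro hd
    obtain ⟨f', a', h1, -, -, h4, -⟩ := hG.shO hD hst.symm hd (fun hh => absurd rfl hh)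
    have h2 := hm _ _ _ _ _ _ h1
    rw [h4 t (OB.sub_refl t), hG.ib.root] at h2
    omega
  have nst : ¬ D s t := by
    intro hd
    by_cases hg : s ≠ t → g s ≠ t
    · have := h.bfsO hD hd hg
      rw [hG.ob.root] at this
      omega
    · push Not at hg
      have := hG.ib.dep s hsS hst
      rw [hg.2, hG.ib.root] at this
      omega
  -- the path
  let p : ℕ → V := fun i => f^[a t - i] t
  have hp : ∀ i ≤ a t, p i ∈ S ∧ a (p i) = i := by
    intro i hi
    obtain ⟨h1, h2⟩ := hG.ob.iter hD htS (a t - i) (by omega)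
    exact ⟨h1, by simp only [p]; omega⟩
  have hps : ∀ i ≤ a t, 0 < i → p i ≠ s := by
    intro i hi h0 he
    have := (hp i hi).2
    rw [he, hG.ob.root] at this
    omega
  have hpt : ∀ i < a t, p i ≠ t := by
    intro i hi he
    have := (hp i hi.le).2
    rw [he] at this
    omega
  have hpinj : ∀ i ≤ a t, ∀ j ≤ a t, p i = p j → i = j := by
    intro i hi j hj he
    have h1 := (hp i hi).2
    have h2 := (hp j hj).2
    rw [he] at h1
    omega
  have hsub : ∀ i ≤ a t, Sub f a (p i) t := fun i hi => ⟨a t - i, by omega, rfl⟩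
  -- arcs between the root and the path
  have e1 : ∀ i, 2 ≤ i → i ≤ a t → D s (p i) → g s = p i := by
    intro i h2 hi hd
    by_contra hg
    have := h.bfsO hD hd (fun _ => hg)
    rw [hG.ob.root, (hp i hi).2] at this
    omega
  have e2 : ∀ i, 2 ≤ i → i < a t → D (p i) s → g (p i) = s := by
    intro i h2 hi hd
    by_contra hg
    have hb := h.bfsI hD hd (fun hh => absurd rfl hh)
    obtain ⟨f', a', h1, -, -, h4, -⟩ := hG.shO hD (hps i hi.le (by omega)) hd (fun _ => hg)
    have h3 := hm _ _ _ _ _ _ h1
    rw [h4 t (hsub i hi.le), (hp i hi.le).2] at h3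
    omega
  have e3 : ∀ i, 2 ≤ i → i + 2 ≤ a t → D (p i) t → g (p i) = t := by
    intro i h2 hi hd
    by_contra hg
    have := h.bfsO hD hd (fun _ => hg)
    rw [(hp i (by omega)).2] at this
    omega
  have e4 : ∀ i, 2 ≤ i → i + 2 ≤ a t → ¬ D t (p i) := by
    intro i h2 hi hd
    have hO : p i ≠ s → f (p i) ≠ t := by
      intro hne he
      have := hG.ob.dep (p i) (hp i (by omega)).1 hne
      rw [he, (hp i (by omega)).2] at this
      omega
    obtain ⟨g', b', h1, -, -, h4, h5⟩ := hG.shI hD (hpt i (by omega)) hd hO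
    have h3 := hm _ _ _ _ _ _ h1
    have h6 : b' s ≤ b s + 1 := by
      by_cases hs : Sub g b (p i) s
      · rw [h4 s hs]; omega
      · rw [h5 s hs]
    rw [(hp i (by omega)).2] at h3
    omega
  -- the three cases
  have hcase : ∀ i, 2 ≤ i → i + 3 ≤ a t → g s = p i ∨ g (p i) = s ∨ (g (p i) = t ∧ g s ≠ p i) := by
    intro i h2 hi
    have h1 := hα s hsS t htS (p i) (hp i (by omega)).1 hst (hps i (by omega) (by omega)).symm
      (hpt i (by omega)).symm
    rcases h1 with (h1 | h1) | (h1 | h1) | (h1 | h1)
    · exact absurd h1 nst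
    · exact absurd h1 nts
    · exact Or.inl (e1 i h2 (by omega) h1)
    · exact Or.inr (Or.inl (e2 i h2 (by omega) h1))
    · exact absurd h1 (e4 i h2 (by omega))
    · by_cases hg : g s = p i
      · exact Or.inl hg
      · exact Or.inr (Or.inr ⟨e3 i h2 (by omega) h1, hg⟩)
  -- no two vertices of the second kind
  have hB : ∀ i j, 2 ≤ i → i + 2 ≤ j → j + 3 ≤ a t → ¬ (g (p i) = s ∧ g (p j) = s) := by
    rintro i j h2 hij hj ⟨gi, gj⟩
    obtain ⟨hiS, hia⟩ := hp i (by omega)
    obtain ⟨hjS, hja⟩ := hp j (by omega)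
    have hit := hpt i (by omega)
    have hjt := hpt j (by omega)
    have nadj : ∀ k, 2 ≤ k → k + 3 ≤ a t → g (p k) = s → ¬ (D t (p k) ∨ D (p k) t) := by
      rintro k hk2 hk hg (hd | hd)
      · exact e4 k hk2 (by omega) hd
      · have := e3 k hk2 (by omega) hd
        rw [hg] at this
        exact hst this
    have hpij : p i ≠ p j := fun he => by
      have := hpinj i (by omega) j (by omega) he
      omega
    have h1 := hα t htS (p i) hiS (p j) hjS hit.symm hjt.symm hpij
    rcases h1 with h1 | h1 | h1
    · exact nadj i h2 (by omega) gi h1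
    · exact nadj j (by omega) (by omega) gj h1
    · have hbi := hG.ib.dep (p i) hiS hit
      have hbj := hG.ib.dep (p j) hjS hjt
      rw [gi] at hbi
      rw [gj] at hbj
      rcases h1 with hd | hd
      · have := h.bfsO hD hd (fun _ he => by
          rw [gi] at he
          exact hps j (by omega) (by omega) he.symm)
        omega
      · -- first redirect `p j` to `p i`, then shift the root to `p j`
        have hn : ¬ Sub g b (p j) (p i) := by
          intro hs
          rcases (hG.ib.sub_step hiS hit).1 hs with he | he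
          · exact hpij he
          · rw [gi] at he
            have := hG.ib.sub_le hD' hsS he
            omega
        obtain ⟨g', b', q1, q2, q3, q4, q5⟩ := hG.reI hD hjt hd hn (fun _ he => by
          have := hG.ob.dep (p i) hiS (hps i (by omega) (by omega))
          rw [he] at this
          omega)
        obtain ⟨f', a', r1, -, -, r4, -⟩ := q1.shO hD (hps j (by omega) (by omega))
          (show D (p j) s by rw [← gj]; exact hG.ib.arc (p j) hjS hjt)
          (fun _ he => by
            rw [q2] at he
            exact hps i (by omega) (by omega) he)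
        have h3 := hm _ _ _ _ _ _ r1
        rw [r4 t (hsub j (by omega)), q4 (p j) (OB.sub_refl _)] at h3
        omega
  -- no two vertices of the third kind
  have hC : ∀ i j, 2 ≤ i → i + 2 ≤ j → j + 3 ≤ a t →
      ¬ ((g (p i) = t ∧ g s ≠ p i) ∧ (g (p j) = t ∧ g s ≠ p j)) := by
    rintro i j h2 hij hj ⟨⟨gi, ni⟩, gj, nj⟩
    obtain ⟨hiS, hia⟩ := hp i (by omega)
    obtain ⟨hjS, hja⟩ := hp j (by omega)
    have hit := hpt i (by omega)
    have hjt := hpt j (by omega)
    have nadj : ∀ k, 2 ≤ k → k + 3 ≤ a t → g (p k) = t → g s ≠ p k →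
        ¬ (D s (p k) ∨ D (p k) s) := by
      rintro k hk2 hk hg hn (hd | hd)
      · exact hn (e1 k hk2 (by omega) hd)
      · have := e2 k hk2 (by omega) hd
        rw [hg] at this
        exact hst this.symm
    have hpij : p i ≠ p j := fun he => by
      have := hpinj i (by omega) j (by omega) he
      omega
    have h1 := hα s hsS (p i) hiS (p j) hjS (hps i (by omega) (by omega)).symm
      (hps j (by omega) (by omega)).symm hpij
    rcases h1 with h1 | h1 | h1
    · exact nadj i h2 (by omega) gi ni h1
    · exact nadj j (by omega) (by omega) gj nj h1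
    · have hbi := hG.ib.dep (p i) hiS hit
      have hbj := hG.ib.dep (p j) hjS hjt
      rw [gi, hG.ib.root] at hbi
      rw [gj, hG.ib.root] at hbj
      rcases h1 with hd | hd
      · have := h.bfsO hD hd (fun _ he => by
          rw [gi] at he
          exact hjt he.symm)
        omega
      · have hn : ¬ Sub g b (p j) (p i) := by
          intro hs
          rcases (hG.ib.sub_step hiS hit).1 hs with he | he
          · exact hpij he
          · rw [gi] at he
            exact hjt (hG.ib.sub_root.1 he)
        obtain ⟨g', b', q1, q2, q3, q4, q5⟩ := hG.reI hD hjt hd hn (fun _ he => by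
          have := hG.ob.dep (p i) hiS (hps i (by omega) (by omega))
          rw [he] at this
          omega)
        have hns : ¬ Sub f a t (p j) := by
          intro hs
          have := hG.ob.sub_le hD hjS hs
          omega
        obtain ⟨f', a', r1, -, -, r4, -⟩ := q1.reO hD (u := p j) (v := t) hst.symm
          (show D (p j) t by rw [← gj]; exact hG.ib.arc (p j) hjS hjt) hns
          (fun _ he => by
            rw [q2] at he
            exact hit he)
        have h3 := hm _ _ _ _ _ _ r1
        have h6 : b' s ≤ b s + 1 := by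
          by_cases hs : Sub g b (p j) s
          · rw [q4 s hs]
            have := hG.ib.sub_le hD' hsS hs
            omega
          · rw [q5 s hs]; omega
        rw [r4 t (OB.sub_refl _)] at h3
        omega
  -- counting
  have hA : ∀ i j, 2 ≤ i → i < j → j + 3 ≤ a t → ¬ (g s = p i ∧ g s = p j) := by
    rintro i j h2 hij hj ⟨h1, h3⟩
    have := hpinj i (by omega) j (by omega) (h1.symm.trans h3)
    omega
  have t1 := three_places (A := fun i => g s = p i) (B := fun i => g (p i) = s)
    (C := fun i => g (p i) = t ∧ g s ≠ p i) (hcase 2 (by omega) (by omega))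
    (hcase 4 (by omega) (by omega)) (hcase 6 (by omega) (by omega))
    (hB 2 4 (by omega) (by omega) (by omega)) (hB 2 6 (by omega) (by omega) (by omega))
    (hB 4 6 (by omega) (by omega) (by omega)) (hC 2 4 (by omega) (by omega) (by omega))
    (hC 2 6 (by omega) (by omega) (by omega)) (hC 4 6 (by omega) (by omega) (by omega))
  have t2 := three_places (A := fun i => g s = p i) (B := fun i => g (p i) = s)
    (C := fun i => g (p i) = t ∧ g s ≠ p i) (hcase 3 (by omega) (by omega))
    (hcase 5 (by omega) (by omega)) (hcase 7 (by omega) (by omega))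
    (hB 3 5 (by omega) (by omega) (by omega)) (hB 3 7 (by omega) (by omega) (by omega))
    (hB 5 7 (by omega) (by omega) (by omega)) (hC 3 5 (by omega) (by omega) (by omega))
    (hC 3 7 (by omega) (by omega) (by omega)) (hC 5 7 (by omega) (by omega) (by omega))
  rcases t1 with t1 | t1 | t1 <;> rcases t2 with t2 | t2 | t2
  · exact hA 2 3 (by omega) (by omega) (by omega) ⟨t1, t2⟩
  · exact hA 2 5 (by omega) (by omega) (by omega) ⟨t1, t2⟩
  · exact hA 2 7 (by omega) (by omega) (by omega) ⟨t1, t2⟩
  · exact hA 3 4 (by omega) (by omega) (by omega) ⟨t2, t1⟩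
  · exact hA 4 5 (by omega) (by omega) (by omega) ⟨t1, t2⟩
  · exact hA 4 7 (by omega) (by omega) (by omega) ⟨t1, t2⟩
  · exact hA 3 6 (by omega) (by omega) (by omega) ⟨t2, t1⟩
  · exact hA 5 6 (by omega) (by omega) (by omega) ⟨t2, t1⟩
  · exact hA 6 7 (by omega) (by omega) (by omega) ⟨t1, t2⟩

end Pool.Agent.H871.GP
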