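import Pool.Agent.H871_GP.Comp6
import Pool.Agent.H871_GP.Lam

/-!
# Completeness of the algorithm for the general case: optimal good pairs exist
-/

namespace Pool.Agent.H871.GP

open Relation

/-- the sum of all depths -/
def phi (V : List ℕ) (a b : ℕ → ℕ) : ℕ := ∑ w ∈ V.toFinset, (a w + b w)

theorem phi_le {V : List ℕ} {a b a' b' : ℕ → ℕ} (h : phi V a b ≤ phi V a' b')
    (ha : ∀ w ∈ V, a' w ≤ a w) (hb : ∀ w ∈ V, b' w ≤ b w) :
    ∀ w ∈ V, a' w = a w ∧ b' w = b w := by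
  by_contra hc
  push Not at hc
  obtain ⟨w, hw, hne⟩ := hc
  have h1 : ∑ w ∈ V.toFinset, (a' w + b' w) < ∑ w ∈ V.toFinset, (a w + b w) := by
    refine Finset.sum_lt_sum (fun i hi => ?_) ⟨w, List.mem_toFinset.2 hw, ?_⟩
    · have h2 := ha i (List.mem_toFinset.1 hi)
      have h3 := hb i (List.mem_toFinset.1 hi)
      omega
    · have h2 := ha w hw
      have h3 := hb w hw
      by_cases h4 : a' w = a w
      · have := hne h4
        omega
      · omega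
  unfold phi at h
  omega

/-- a candidate -/
abbrev Cnd := ((ℕ → ℕ) × (ℕ → ℕ)) × (((ℕ → ℕ) × (ℕ → ℕ)) × (ℕ × ℕ))

/-- **Completeness** if the root of the in-branching is close to the root of the
out-branching. -/
theorem alF_complete {V : List ℕ} {E : List (ℕ × ℕ)} (nd : V.Nodup)
    (hE : ∀ e ∈ E, e.1 ∈ V ∧ e.2 ∈ V) (hα : Al2 V E) {s t : ℕ} {f a g b : ℕ → ℕ}
    (hG : GPair {v | v ∈ V} (fun u v => (u, v) ∈ E) s t f a g b) (hat : a t ≤ 9) :
    alF 51 204 224 V E (s, t) = true := by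
  by_cases hN : ∃ v, NA {v | v ∈ V} (fun u v => (u, v) ∈ E) t v
  swap
  · push Not at hN
    exact alF_caseA nd hE hα hG hat hN
  obtain ⟨v0, hv0⟩ := hN
  obtain ⟨⟨⟨f', a'⟩, ⟨g', b'⟩, y1, y2⟩, ⟨p1, p2, p3, p4⟩, hm⟩ := exists_lexmin (α := Cnd)
    (P := fun x => GPair {v | v ∈ V} (fun u v => (u, v) ∈ E) s t x.1.1 x.1.2 x.2.1.1 x.2.1.2 ∧
      x.1.2 t ≤ 9 ∧ NA {v | v ∈ V} (fun u v => (u, v) ∈ E) t x.2.2.1 ∧
      NA {v | v ∈ V} (fun u v => (u, v) ∈ E) t x.2.2.2)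
    (fun x => x.1.2 x.2.2.1 + x.2.1.2 x.2.2.2) (fun x => x.1.2 x.2.2.2 + x.2.1.2 x.2.2.1)
    (fun x => phi V x.1.2 x.2.1.2) ⟨((f, a), ((g, b), (v0, v0))), hG, hat, hv0, hv0⟩
  simp only at p1 p2 p3 p4 hm
  refine alF_caseB (s := s) (t := t) (y1 := y1) (y2 := y2) (f := f') (a := a') (g := g')
    (b := b') nd hE hα ⟨fun u v hh => hE _ hh, hα, ⟨p1, ?_, ?_⟩, p3, p4, p2, ?_⟩
  · intro f'' a'' hG'' hle w hw
    have h1 := hm ((f'', a''), ((g', b'), (y1, y2))) ⟨hG'', (hle t hG''.ib.mem).trans p2, p3, p4⟩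
    simp only at h1
    have h2 := hle y1 p3.1
    have h3 := hle y2 p4.1
    exact (phi_le ((h1.2 (by omega)).2 (by omega)) hle (fun w _ => le_rfl) w hw).1
  · intro g'' b'' hG'' hle w hw
    have h1 := hm ((f', a'), ((g'', b''), (y1, y2))) ⟨hG'', p2, p3, p4⟩
    simp only at h1
    have h2 := hle y1 p3.1
    have h3 := hle y2 p4.1
    exact (phi_le ((h1.2 (by omega)).2 (by omega)) (fun w _ => le_rfl) hle w hw).2
  · intro f'' a'' g'' b'' z1 z2 hG'' ht'' hz1 hz2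
    have h1 := hm ((f'', a''), ((g'', b''), (z1, z2))) ⟨hG'', ht'', hz1, hz2⟩
    simp only at h1
    exact ⟨h1.1, fun h2 => (h1.2 h2).1⟩

/-- the reversed arcs -/
def rvE (E : List (ℕ × ℕ)) : List (ℕ × ℕ) := E.map (fun e => (e.2, e.1))

theorem mem_rvE {E : List (ℕ × ℕ)} {u v : ℕ} : (u, v) ∈ rvE E ↔ (v, u) ∈ E := by
  unfold rvE
  rw [List.mem_map]
  constructor
  · rintro ⟨⟨p, q⟩, h, he⟩
    simp only [Prod.mk.injEq] at he
    obtain ⟨rfl, rfl⟩ := he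
    exact h
  · intro h
    exact ⟨(v, u), h, rfl⟩

theorem al2_rv {V : List ℕ} {E : List (ℕ × ℕ)} (h : Al2 V E) : Al2 V (rvE E) := by
  intro p hp q hq r hr n1 n2 n3
  have := h p hp q hq r hr n1 n2 n3
  simp only [mem_rvE]
  tauto

/-- a candidate, with roots -/
abbrev Cnd2 := (ℕ × ℕ) × (((ℕ → ℕ) × (ℕ → ℕ)) × ((ℕ → ℕ) × (ℕ → ℕ)))

/-- **Completeness.** -/
theorem al2_main {V : List ℕ} {E : List (ℕ × ℕ)} (nd : V.Nodup)
    (hE : ∀ e ∈ E, e.1 ∈ V ∧ e.2 ∈ V) (hα : Al2 V E) {s t : ℕ} {f a g b : ℕ → ℕ}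
    (hG : GPair {v | v ∈ V} (fun u v => (u, v) ∈ E) s t f a g b) :
    al2 51 204 224 V E = true ∨ al2 51 204 224 V (rvE E) = true := by
  have hD : ∀ u v, (u, v) ∈ E → u ∈ {v | v ∈ V} ∧ v ∈ {v | v ∈ V} := fun _ _ hh => hE _ hh
  obtain ⟨⟨⟨s', t'⟩, ⟨f', a'⟩, g', b'⟩, p1, hm⟩ := exists_lexmin (α := Cnd2)
    (P := fun x => GPair {v | v ∈ V} (fun u v => (u, v) ∈ E) x.1.1 x.1.2 x.2.1.1 x.2.1.2
      x.2.2.1 x.2.2.2)
    (fun x => x.2.1.2 x.1.2 + x.2.2.2 x.1.1) (fun x => phi V x.2.1.2 x.2.2.2)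
    (fun _ => 0) ⟨((s, t), ((f, a), (g, b))), hG⟩
  simp only at p1 hm
  have ht : Tight {v | v ∈ V} (fun u v => (u, v) ∈ E) s' t' f' a' g' b' := by
    refine ⟨p1, ?_, ?_⟩
    · intro f'' a'' hG'' hle w hw
      have h1 := hm ((s', t'), ((f'', a''), (g', b'))) hG''
      simp only at h1
      have h2 := hle t' hG''.ib.mem
      exact (phi_le (h1.2 (by omega)).1 hle (fun w _ => le_rfl) w hw).1
    · intro g'' b'' hG'' hle w hw
      have h1 := hm ((s', t'), ((f', a'), (g'', b''))) hG''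
      simp only at h1
      have h2 := hle s' hG''.ob.mem
      exact (phi_le (h1.2 (by omega)).1 (fun w _ => le_rfl) hle w hw).2
  have hlam : LamMin {v | v ∈ V} (fun u v => (u, v) ∈ E) s' t' a' b' := by
    intro s'' t'' f'' a'' g'' b'' hG''
    exact (hm ((s'', t''), ((f'', a''), (g'', b''))) hG'').1
  rcases lam_short hD ht hlam hα with h1 | h1
  · exact Or.inl (al2_of_alF p1.ob.mem p1.ib.mem (alF_complete nd hE hα p1 h1))
  · right
    have hrev := p1.rev hD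
    have heq : (fun u v => (u, v) ∈ rvE E) = fun u v => (v, u) ∈ E := by
      funext u v
      exact propext mem_rvE
    rw [← heq] at hrev
    refine al2_of_alF hrev.ob.mem hrev.ib.mem (alF_complete nd ?_ (al2_rv hα) hrev (by omega))
    rintro ⟨u, v⟩ he
    exact (hE _ (mem_rvE.1 he)).symm

end Pool.Agent.H871.GP
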