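import Pool.Agent.H871_GP.Corr

/-!
# Correctness of the algorithm, continued
-/

namespace Pool.Agent.H871.GP

open Relation Pool.Agent.NPC

theorem prs_walk_head {l : List ℕ} {s : ℕ} (hs : l.head? = some s) {X : Set (ℕ × ℕ)}
    (hX : ∀ e ∈ prs l, e ∈ X) : ∀ x ∈ l, ∃ n, n + 1 ≤ l.length ∧ Walk X n s x := by
  intro v hv
  obtain ⟨i, hi⟩ := List.mem_iff_getElem?.1 hv
  have hlen := (List.getElem?_eq_some_iff.1 hi).1
  refine ⟨i, by omega, ?_⟩
  clear hv
  induction i generalizing v with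
  | zero =>
    rw [List.head?_eq_getElem?, hi] at hs
    obtain rfl : v = s := by simpa using hs
    exact rfl
  | succ i ih =>
    obtain ⟨w, hw⟩ : ∃ w, l[i]? = some w := ⟨l[i], List.getElem?_eq_getElem (by omega)⟩
    exact ⟨w, ih w hw (by omega), hX _ (mem_prs.2 ⟨i, hw, hi⟩)⟩

theorem prs_walk_last {l : List ℕ} {t : ℕ} (ht : l.getLast? = some t) {X : Set (ℕ × ℕ)}
    (hX : ∀ e ∈ prs l, e ∈ X) : ∀ x ∈ l, ∃ n, n + 1 ≤ l.length ∧ Walk X n x t := by
  induction l with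
  | nil => simp
  | cons u l ih =>
    cases l with
    | nil =>
      simp only [List.getLast?_singleton, Option.some.injEq] at ht
      subst ht
      intro v hv
      simp only [List.mem_singleton] at hv
      subst hv
      exact ⟨0, by simp, rfl⟩
    | cons w l =>
      rw [List.getLast?_cons_cons] at ht
      have ih' := ih ht (fun e he => hX e (by
        rw [prs_cons_cons]; exact List.mem_cons_of_mem _ he))
      intro v hv
      rcases List.mem_cons.1 hv with rfl | hv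
      · obtain ⟨n, h1, h2⟩ := ih' w List.mem_cons_self
        refine ⟨n + 1, by simp only [List.length_cons] at h1 ⊢; omega, walk_head.2 ⟨w, hX _ ?_, h2⟩⟩
        rw [prs_cons_cons]; exact List.mem_cons_self
      · obtain ⟨n, h1, h2⟩ := ih' v hv
        exact ⟨n, by simp only [List.length_cons] at h1 ⊢; omega, h2⟩

theorem gsB_guess {V : List ℕ} {E : List (ℕ × ℕ)} {r : (ℕ × ℕ) × (ℕ × ℕ)}
    {W : (List ℕ × List ℕ) × (List ℕ × List ℕ)} (h : gsB E r W = true) :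
    Guess V E r.1.1 r.1.2 r.2.1 r.2.2 W.1.1 W.1.2 W.2.1 W.2.2 ∧ r.2.1 ≠ r.2.2 ∧
      ¬ ((r.2.1, r.2.2) ∈ E ∨ (r.2.2, r.2.1) ∈ E) := by
  unfold gsB at h
  simp only [Bool.and_eq_true, List.all_eq_true, decide_eq_true_eq, Bool.not_eq_true',
    decide_eq_false_iff_not, List.head?_reverse] at h
  obtain ⟨⟨⟨⟨h1, h2⟩, h3, h4⟩, ⟨h5, h6⟩, h7, h8⟩, ⟨⟨h9, h10⟩, h11⟩, h12, h13⟩ := h
  exact ⟨⟨h1, h2, h3, h4, h5, h6, h7, h8, h9, h10, h11⟩, h12, adB_false.1 h13⟩

theorem guess_gsB {V : List ℕ} {E : List (ℕ × ℕ)} {s t x y : ℕ} {W1 W2 W3 W4 : List ℕ}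
    (h : Guess V E s t x y W1 W2 W3 W4) (hxy : x ≠ y) (hn : ¬ ((x, y) ∈ E ∨ (y, x) ∈ E)) :
    gsB E ((s, t), (x, y)) ((W1, W2), (W3, W4)) = true := by
  unfold gsB
  simp only [Bool.and_eq_true, List.all_eq_true, decide_eq_true_eq, Bool.not_eq_true',
    decide_eq_false_iff_not, List.head?_reverse]
  exact ⟨⟨⟨⟨h.h1, h.h2⟩, h.l1, h.l2⟩, ⟨h.h3, h.h4⟩, h.l3, h.l4⟩, ⟨⟨h.eO, h.eI⟩, h.dj⟩, hxy,
    adB_false.2 hn⟩

/-- the path from the root to `x` -/
def pthO (f : ℕ → ℕ) (n x : ℕ) : List ℕ := (List.range (n + 1)).map (fun i => f^[n - i] x)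

/-- the path from `x` to the root -/
def pthI (g : ℕ → ℕ) (n x : ℕ) : List ℕ := (List.range (n + 1)).map (fun i => g^[i] x)

theorem mem_prs_pthO {f : ℕ → ℕ} {n x : ℕ} {e : ℕ × ℕ} (h : e ∈ prs (pthO f n x)) :
    ∃ i < n, e.2 = f^[i] x ∧ e.1 = f e.2 := by
  obtain ⟨i, h1, h2⟩ := mem_prs.1 h
  unfold pthO at h1 h2
  rw [List.getElem?_map] at h1 h2
  obtain ⟨j, hj, h1⟩ := Option.map_eq_some_iff.1 h1
  obtain ⟨k, hk, h2⟩ := Option.map_eq_some_iff.1 h2
  rw [List.getElem?_eq_some_iff] at hj hk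
  obtain ⟨hj1, hj2⟩ := hj
  obtain ⟨hk1, hk2⟩ := hk
  simp only [List.length_range] at hj1 hk1
  simp only [List.getElem_range] at hj2 hk2
  subst hj2
  subst hk2
  refine ⟨n - (i + 1), by omega, h2.symm, ?_⟩
  rw [← h2, ← h1, ← Function.iterate_succ_apply' f]
  congr 1
  omega

theorem mem_prs_pthI {g : ℕ → ℕ} {n x : ℕ} {e : ℕ × ℕ} (h : e ∈ prs (pthI g n x)) :
    ∃ i < n, e.1 = g^[i] x ∧ e.2 = g e.1 := by
  obtain ⟨i, h1, h2⟩ := mem_prs.1 h
  unfold pthI at h1 h2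
  rw [List.getElem?_map] at h1 h2
  obtain ⟨j, hj, h1⟩ := Option.map_eq_some_iff.1 h1
  obtain ⟨k, hk, h2⟩ := Option.map_eq_some_iff.1 h2
  rw [List.getElem?_eq_some_iff] at hj hk
  obtain ⟨hj1, hj2⟩ := hj
  obtain ⟨hk1, hk2⟩ := hk
  simp only [List.length_range] at hj1 hk1
  simp only [List.getElem_range] at hj2 hk2
  subst hj2
  subst hk2
  refine ⟨i, by omega, h1.symm, ?_⟩
  rw [← h2, ← h1, ← Function.iterate_succ_apply' g]

/-- **Correctness.** -/
theorem dcB_iff {G : List ℕ × List (ℕ × ℕ)} (hα : AlphaTwo G) (c : ℕ) :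
    dcB c G.1 (arcs G) = true ↔ ∃ s t X Y x y, GoodPair G s t X Y ∧ Nonadj G x y ∧
      Near X Y c s t x ∧ Near X Y c s t y := by
  classical
  have hal := (alB_iff'.1 (alphaTwo_iff.1 hα)).2
  have hE : ∀ e ∈ arcs G, e.1 ∈ G.1 ∧ e.2 ∈ G.1 := by
    rintro ⟨u, v⟩ he
    have := mem_arcs.1 he
    exact ⟨this.2.1, this.2.2.1⟩
  unfold dcB
  simp only [List.any_eq_true, Bool.and_eq_true, List.mem_product, Prod.exists]
  constructor
  · rintro ⟨s, t, x, y, ⟨⟨⟨hs, ht⟩, hx, hy⟩, W1, W2, W3, W4, ⟨⟨hW1, hW2⟩, hW3, hW4⟩, hgs, FO, FI,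
      ⟨-, -⟩, hfin⟩⟩
    obtain ⟨hg, hxy, hnadj⟩ := gsB_guess (V := G.1) hgs
    simp only at hg hxy hnadj
    obtain ⟨X0, Y0, hinv⟩ := inv_iter (V := G.1) (z := (W1 ++ W2, W3 ++ W4)) (inv_base hg)
      (G.1 ++ G.1).length
    obtain ⟨hsub1, hsub2⟩ := sub_iter (V := G.1) (E := arcs G) (LO := prs W1 ++ prs W2)
      (LI := prs W3 ++ prs W4) (z := (W1 ++ W2, W3 ++ W4)) (G.1 ++ G.1).length
    have hdom : ∀ v ∈ G.1, v ≠ x → v ≠ y → (v, x) ∈ arcs G ∨ (x, v) ∈ arcs G ∨ (v, y) ∈ arcs G ∨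
        (y, v) ∈ arcs G := by
      intro v hv hvx hvy
      rcases hal v hv x hx y hy hvx hvy hxy with h | h | h
      · tauto
      · tauto
      · exact absurd h hnadj
    obtain ⟨X', Y', p1, p2, p3, p4, p5, p6, p7⟩ := sound hinv
      (hsub1 x (List.mem_append_left _ hg.l1)) (hsub2 x (List.mem_append_left _ hg.l3))
      (hsub1 y (List.mem_append_right _ hg.l2)) (hsub2 y (List.mem_append_right _ hg.l4))
      hdom hfin
    obtain ⟨f, a, g, b, hGP, ha, hb⟩ := gpair_of (G := G) (s := s) (t := t) (X := {e | X' e})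
      (Y := {e | Y' e}) hs ht (fun e he => mem_arcs.1 (p1 e he)) (fun e he => mem_arcs.1 (p2 e he))
      (fun e he => p3 e he) (fun v hv => rt_walk.1 (p4 v hv)) (fun v hv => rt_walk.1 (p5 v hv))
    obtain ⟨X, Y, hgood, hw⟩ := goodPair_of hGP
    have l1 := (mem_tup.1 hW1).1
    have l2 := (mem_tup.1 hW2).1
    have l3 := (mem_tup.1 hW3).1
    have l4 := (mem_tup.1 hW4).1
    have nearx : Near X Y c s t x := by
      obtain ⟨n, h1, h2⟩ := prs_walk_head hg.h1 (X := {e | X' e})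
        (fun e he => p6 e (List.mem_append_left _ he)) x hg.l1
      obtain ⟨m, h3, h4⟩ := prs_walk_last hg.h3 (X := {e | Y' e})
        (fun e he => p7 e (List.mem_append_left _ he)) x hg.l3
      have h5 := ha x hx n h2
      have h6 := hb x hx m h4
      exact ⟨⟨a x, by omega, (hw x hx).1⟩, ⟨b x, by omega, (hw x hx).2⟩⟩
    have neary : Near X Y c s t y := by
      obtain ⟨n, h1, h2⟩ := prs_walk_head hg.h2 (X := {e | X' e})
        (fun e he => p6 e (List.mem_append_right _ he)) y hg.l2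
      obtain ⟨m, h3, h4⟩ := prs_walk_last hg.h4 (X := {e | Y' e})
        (fun e he => p7 e (List.mem_append_right _ he)) y hg.l4
      have h5 := ha y hy n h2
      have h6 := hb y hy m h4
      exact ⟨⟨a y, by omega, (hw y hy).1⟩, ⟨b y, by omega, (hw y hy).2⟩⟩
    rw [mem_arcs, mem_arcs, not_or] at hnadj
    exact ⟨s, t, X, Y, x, y, hgood, ⟨hx, hy, hxy, hnadj.1, hnadj.2⟩, nearx, neary⟩
  · rintro ⟨s, t, X, Y, x, y, ⟨hO, hI, hdj⟩, ⟨hx, hy, hxy, hn1, hn2⟩, ⟨⟨n1, hn1c, w1⟩, n3, hn3c, w3⟩,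
      ⟨n2, hn2c, w2⟩, n4, hn4c, w4⟩
    obtain ⟨f, a, g, b, hGP, ha, hb⟩ := gpair_of (G := G) (s := s) (t := t) (X := X) (Y := Y)
      hO.1 hI.1 (fun e he => (hO.2.1 e he).1) (fun e he => (hI.2.1 e he).1)
      (fun e he => Set.disjoint_left.1 hdj he) hO.2.2.2 hI.2.2.2
    have ax := ha x hx n1 w1
    have ay := ha y hy n2 w2
    have bx := hb x hx n3 w3
    have bY := hb y hy n4 w4
    have hD : ∀ u v, Arc G u v → u ∈ {v | v ∈ G.1} ∧ v ∈ {v | v ∈ G.1} :=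
      fun u v h => ⟨h.2.1, h.2.2.1⟩
    have hD' : ∀ u v, Arc G v u → u ∈ {v | v ∈ G.1} ∧ v ∈ {v | v ∈ G.1} :=
      fun u v h => ⟨h.2.2.1, h.2.1⟩
    have hGP' : GPair {v | v ∈ G.1} (fun u v => (u, v) ∈ arcs G) s t f a g b := by
      have : (fun u v => (u, v) ∈ arcs G) = Arc G := by
        funext u v
        exact propext mem_arcs
      rw [this]
      exact hGP
    -- iterates
    have itO : ∀ z ∈ G.1, ∀ i < a z, f^[i] z ∈ G.1 ∧ f^[i] z ≠ s := by
      intro z hz i hi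
      obtain ⟨h1, h2⟩ := hGP.ob.iter hD (v := z) hz i (by omega)
      refine ⟨h1, fun hh => ?_⟩
      rw [hh, hGP.ob.root] at h2
      omega
    have itI : ∀ z ∈ G.1, ∀ i < b z, g^[i] z ∈ G.1 ∧ g^[i] z ≠ t := by
      intro z hz i hi
      obtain ⟨h1, h2⟩ := hGP.ib.iter hD' (v := z) hz i (by omega)
      refine ⟨h1, fun hh => ?_⟩
      rw [hh, hGP.ib.root] at h2
      omega
    have rtO : ∀ z ∈ G.1, f^[a z] z = s := by
      intro z hz
      obtain ⟨h1, h2⟩ := hGP.ob.iter hD (v := z) hz (a z) le_rfl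
      exact hGP.ob.eq_root h1 (by omega)
    have rtI : ∀ z ∈ G.1, g^[b z] z = t := by
      intro z hz
      obtain ⟨h1, h2⟩ := hGP.ib.iter hD' (v := z) hz (b z) le_rfl
      exact hGP.ib.eq_root h1 (by omega)
    have prO : ∀ z ∈ G.1, ∀ e ∈ prs (pthO f (a z) z), e.2 ≠ s ∧ e.2 ∈ G.1 ∧ f e.2 = e.1 := by
      intro z hz e he
      obtain ⟨i, h1, h2, h3⟩ := mem_prs_pthO he
      obtain ⟨h4, h5⟩ := itO z hz i h1
      rw [← h2] at h4 h5
      exact ⟨h5, h4, h3.symm⟩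
    have prI : ∀ z ∈ G.1, ∀ e ∈ prs (pthI g (b z) z), e.1 ≠ t ∧ e.1 ∈ G.1 ∧ g e.1 = e.2 := by
      intro z hz e he
      obtain ⟨i, h1, h2, h3⟩ := mem_prs_pthI he
      obtain ⟨h4, h5⟩ := itI z hz i h1
      rw [← h2] at h4 h5
      exact ⟨h5, h4, h3.symm⟩
    have hLO : ∀ e ∈ prs (pthO f (a x) x) ++ prs (pthO f (a y) y),
        e.2 ≠ s ∧ e.2 ∈ G.1 ∧ f e.2 = e.1 := by
      intro e he
      rcases List.mem_append.1 he with he | he
      · exact prO x hx e he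
      · exact prO y hy e he
    have hLI : ∀ e ∈ prs (pthI g (b x) x) ++ prs (pthI g (b y) y),
        e.1 ≠ t ∧ e.1 ∈ G.1 ∧ g e.1 = e.2 := by
      intro e he
      rcases List.mem_append.1 he with he | he
      · exact prI x hx e he
      · exact prI y hy e he
    have hdO : ∀ z ∈ G.1, (pthO f (a z) z).head? = some s ∧ z ∈ pthO f (a z) z ∧
        pthO f (a z) z ∈ tup (a z + 1) G.1 := by
      intro z hz
      refine ⟨?_, ?_, mem_tup.2 ⟨by simp [pthO], ?_⟩⟩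
      · simp [pthO, List.head?_eq_getElem?, rtO z hz]
      · exact List.mem_map.2 ⟨a z, by simp, by simp⟩
      · intro v hv
        obtain ⟨i, hi, rfl⟩ := List.mem_map.1 hv
        exact (hGP.ob.iter hD (v := z) hz (a z - i) (by omega)).1
    have hdI : ∀ z ∈ G.1, (pthI g (b z) z).getLast? = some t ∧ z ∈ pthI g (b z) z ∧
        pthI g (b z) z ∈ tup (b z + 1) G.1 := by
      intro z hz
      refine ⟨?_, ?_, mem_tup.2 ⟨by simp [pthI], ?_⟩⟩
      · rw [pthI, List.range_succ, List.map_append, List.map_singleton, rtI z hz,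
          List.getLast?_append]
        simp
      · exact List.mem_map.2 ⟨0, by simp, by simp⟩
      · intro v hv
        obtain ⟨i, hi, rfl⟩ := List.mem_map.1 hv
        simp only [List.mem_range] at hi
        exact (hGP.ib.iter hD' (v := z) hz i (by omega)).1
    have tmono : ∀ {m n : ℕ} {w : List ℕ}, m ≤ n → w ∈ tup m G.1 → w ∈ tup n G.1 := by
      intro m n w hmn hw
      obtain ⟨h1, h2⟩ := mem_tup.1 hw
      exact mem_tup.2 ⟨h1.trans hmn, h2⟩
    have hguess : Guess G.1 (arcs G) s t x y (pthO f (a x) x) (pthO f (a y) y) (pthI g (b x) x)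
        (pthI g (b y) y) := by
      refine ⟨(hdO x hx).1, (hdO y hy).1, (hdO x hx).2.1, (hdO y hy).2.1, (hdI x hx).1,
        (hdI y hy).1, (hdI x hx).2.1, (hdI y hy).2.1, ?_, ?_, ?_⟩
      · rintro ⟨u, v⟩ he
        obtain ⟨h1, h2, h3⟩ := hLO _ he
        simp only at h1 h2 h3
        rw [mem_arcs, ← h3]
        exact hGP.ob.arc v h2 h1
      · rintro ⟨u, v⟩ he
        obtain ⟨h1, h2, h3⟩ := hLI _ he
        simp only at h1 h2 h3
        rw [mem_arcs, ← h3]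
        exact hGP.ib.arc u h2 h1
      · rintro ⟨u, v⟩ he he'
        obtain ⟨h1, h2, h3⟩ := hLO _ he
        obtain ⟨h4, h5, h6⟩ := hLI _ he'
        simp only at h1 h2 h3 h4 h5 h6
        exact hGP.dj v h2 h1 (by rw [h3]; exact h4) (by rw [h3]; exact h6)
    have hcl := stp_closed (V := G.1) (E := arcs G)
      (LO := prs (pthO f (a x) x) ++ prs (pthO f (a y) y))
      (LI := prs (pthI g (b x) x) ++ prs (pthI g (b y) y))
      (pthO f (a x) x ++ pthO f (a y) y, pthI g (b x) x ++ pthI g (b y) y)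
    rw [← List.length_append] at hcl
    obtain ⟨hnA, hnB⟩ := closed_new hcl
    obtain ⟨hsub1, hsub2⟩ := sub_iter (V := G.1) (E := arcs G)
      (LO := prs (pthO f (a x) x) ++ prs (pthO f (a y) y))
      (LI := prs (pthI g (b x) x) ++ prs (pthI g (b y) y))
      (z := (pthO f (a x) x ++ pthO f (a y) y, pthI g (b x) x ++ pthI g (b y) y))
      (G.1 ++ G.1).length
    obtain ⟨FO, hFO, FI, hFI, hfin⟩ := complete hE hal hGP' hLO hLI
      (hsub1 s (List.mem_append_left _ (List.mem_of_mem_head? (hdO x hx).1)))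
      (hsub2 t (List.mem_append_left _ (List.mem_of_getLast? (hdI x hx).1))) hnA hnB
    refine ⟨s, t, x, y, ⟨⟨hO.1, hI.1⟩, hx, hy⟩, _, _, _, _,
      ⟨⟨tmono (by omega) (hdO x hx).2.2, tmono (by omega) (hdO y hy).2.2⟩,
        tmono (by omega) (hdI x hx).2.2, tmono (by omega) (hdI y hy).2.2⟩,
      guess_gsB hguess hxy (by rw [mem_arcs, mem_arcs, not_or]; exact ⟨hn1, hn2⟩), FO, FI,
      ⟨hFO, hFI⟩, ?_⟩
    unfold cls
    exact hfin

end Pool.Agent.H871.GP
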