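import Pool.Agent.H871_GP.Comp2

/-!
# The dynamic programming part: definitions and soundness
-/

namespace Pool.Agent.H871.GP

open Relation

/-- the score -/
def sc (E : List (ℕ × ℕ)) (M : List ℕ) (v : ℕ) : ℕ := (M.filter (fun z => decide ((v, z) ∈ E))).length

/-- membership in the set of vertices with small score -/
def inS (E : List (ℕ × ℕ)) (M : List ℕ) (θ v : ℕ) : Bool := decide (v ∈ M) && decide (sc E M v < θ)

/-- both ends have small score -/
def itl (E : List (ℕ × ℕ)) (M : List ℕ) (θ : ℕ) (e : ℕ × ℕ) : Bool :=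
  inS E M θ e.1 && inS E M θ e.2

/-- arcs inside `M` -/
def mmB (E : List (ℕ × ℕ)) (M : List ℕ) (e : ℕ × ℕ) : Bool :=
  decide (e ∈ E) && (decide (e.1 ∈ M) && decide (e.2 ∈ M))

/-- arcs inside `Z` or between `Z` and `M` -/
def frB (E : List (ℕ × ℕ)) (M Z : List ℕ) (e : ℕ × ℕ) : Bool :=
  decide (e ∈ E) && ((decide (e.1 ∈ Z) && (decide (e.2 ∈ Z) || decide (e.2 ∈ M))) ||
    (decide (e.1 ∈ M) && decide (e.2 ∈ Z)))

/-- the configurations: threshold, two heads, two lists of arcs -/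
abbrev Cf := ℕ × ((ℕ × ℕ) × (List (ℕ × ℕ) × List (ℕ × ℕ)))

/-- the move along the arc `e`, where the list `F` of recorded arcs becomes `G`, and `F'` is the
other list -/
def mvB (E : List (ℕ × ℕ)) (M Z : List ℕ) (L : List (ℕ × ℕ)) (θ : ℕ) (e : ℕ × ℕ)
    (F G F' : List (ℕ × ℕ)) : Bool :=
  ((mmB E M e && (!itl E M θ e && !decide (e ∈ F'))) && decide (G = F ++ [e])) ||
  ((decide (e ∈ L) && decide (G = F ++ [e])) || (frB E M Z e && decide (G = F)))

/-- the steps -/
def stB (E : List (ℕ × ℕ)) (M ZA ZB : List ℕ) (LO LI : List (ℕ × ℕ)) (c c' : Cf) : Bool :=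
  ((decide (c'.1 = c.1) && (decide (c'.2.1.2 = c.2.1.2) && decide (c'.2.2.2 = c.2.2.2))) &&
    mvB E M ZA LO c.1 (c.2.1.1, c'.2.1.1) c.2.2.1 c'.2.2.1 c.2.2.2) ||
  (((decide (c'.1 = c.1) && (decide (c'.2.1.1 = c.2.1.1) && decide (c'.2.2.1 = c.2.2.1))) &&
    mvB E M ZB LI c.1 (c.2.1.2, c'.2.1.2) c.2.2.2 c'.2.2.2 c.2.2.1) ||
  (decide (c'.1 = c.1 + 1) && (decide (c'.2.1 = c.2.1) &&
    (decide (c'.2.2.1 = c.2.2.1.filter (fun e => !itl E M (c.1 + 1) e)) &&
      decide (c'.2.2.2 = c.2.2.2.filter (fun e => !itl E M (c.1 + 1) e))))))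

theorem inS_iff {E : List (ℕ × ℕ)} {M : List ℕ} {θ v : ℕ} :
    inS E M θ v = true ↔ v ∈ M ∧ sc E M v < θ := by
  unfold inS
  simp only [Bool.and_eq_true, decide_eq_true_eq]

theorem itl_iff {E : List (ℕ × ℕ)} {M : List ℕ} {θ : ℕ} {e : ℕ × ℕ} :
    itl E M θ e = true ↔ (e.1 ∈ M ∧ sc E M e.1 < θ) ∧ (e.2 ∈ M ∧ sc E M e.2 < θ) := by
  unfold itl
  simp only [Bool.and_eq_true, inS_iff]

theorem itl_mono {E : List (ℕ × ℕ)} {M : List ℕ} {θ θ' : ℕ} (h : θ ≤ θ') {e : ℕ × ℕ}
    (hi : itl E M θ e = true) : itl E M θ' e = true := by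
  rw [itl_iff] at hi ⊢
  exact ⟨⟨hi.1.1, hi.1.2.trans_le h⟩, hi.2.1, hi.2.2.trans_le h⟩

theorem mmB_iff {E : List (ℕ × ℕ)} {M : List ℕ} {e : ℕ × ℕ} :
    mmB E M e = true ↔ e ∈ E ∧ e.1 ∈ M ∧ e.2 ∈ M := by
  unfold mmB
  simp only [Bool.and_eq_true, decide_eq_true_eq]

theorem frB_iff {E : List (ℕ × ℕ)} {M Z : List ℕ} {e : ℕ × ℕ} :
    frB E M Z e = true ↔ e ∈ E ∧ ((e.1 ∈ Z ∧ (e.2 ∈ Z ∨ e.2 ∈ M)) ∨ (e.1 ∈ M ∧ e.2 ∈ Z)) := by
  unfold frB
  simp only [Bool.and_eq_true, Bool.or_eq_true, decide_eq_true_eq]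

theorem mvB_iff {E : List (ℕ × ℕ)} {M Z : List ℕ} {L : List (ℕ × ℕ)} {θ : ℕ} {e : ℕ × ℕ}
    {F G F' : List (ℕ × ℕ)} : mvB E M Z L θ e F G F' = true ↔
      (mmB E M e = true ∧ itl E M θ e = false ∧ e ∉ F' ∧ G = F ++ [e]) ∨
      (e ∈ L ∧ G = F ++ [e]) ∨ (frB E M Z e = true ∧ G = F) := by
  unfold mvB
  simp only [Bool.and_eq_true, Bool.or_eq_true, decide_eq_true_eq, Bool.not_eq_true',
    decide_eq_false_iff_not]
  tauto

/-- The invariant of the dynamic program. -/
structure DI (E : List (ℕ × ℕ)) (M ZA ZB : List ℕ) (LO LI : List (ℕ × ℕ)) (s y1 : ℕ) (c : Cf)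
    (P Q : ℕ × ℕ → Prop) : Prop where
  subP : ∀ e, P e → e ∈ LO ∨ mmB E M e = true ∨ frB E M ZA e = true
  subQ : ∀ e, Q e → e ∈ LI ∨ mmB E M e = true ∨ frB E M ZB e = true
  trP : ∀ e, P e → mmB E M e = true → e ∈ c.2.2.1 ∨ itl E M c.1 e = true
  trQ : ∀ e, Q e → mmB E M e = true → e ∈ c.2.2.2 ∨ itl E M c.1 e = true
  dj : ∀ e, P e → Q e → mmB E M e = true → False
  rP : ∀ e, P e → RT P s e.1
  hP : RT P s c.2.1.1
  rQ : ∀ e, Q e → RT Q e.2 c.2.1.2
  hQ : RT Q y1 c.2.1.2
  fP : ∀ e ∈ c.2.2.1, P e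
  fQ : ∀ e ∈ c.2.2.2, Q e

theorem RT.add {R : ℕ × ℕ → Prop} {e : ℕ × ℕ} {u v : ℕ} (h : RT R u v) :
    RT (fun x => R x ∨ x = e) u v := h.mono fun _ hx => Or.inl hx

theorem di_step {E : List (ℕ × ℕ)} {M ZA ZB : List ℕ} {LO LI : List (ℕ × ℕ)} {s y1 : ℕ}
    (hA : ∀ v ∈ ZA, v ∉ M) (hB : ∀ v ∈ ZB, v ∉ M)
    (hLO : ∀ e ∈ LO, mmB E M e = false) (hLI : ∀ e ∈ LI, mmB E M e = false)
    {c c' : Cf} {P Q : ℕ × ℕ → Prop} (h : DI E M ZA ZB LO LI s y1 c P Q)
    (hst : stB E M ZA ZB LO LI c c' = true) : ∃ P' Q', DI E M ZA ZB LO LI s y1 c' P' Q' := by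
  obtain ⟨θ, ⟨x, y⟩, F, F'⟩ := c
  obtain ⟨θ', ⟨x', y'⟩, G, G'⟩ := c'
  have nfr : ∀ Z : List ℕ, (∀ v ∈ Z, v ∉ M) → ∀ e, frB E M Z e = true → mmB E M e = true → False := by
    intro Z hZ e h1 h2
    rw [frB_iff] at h1
    rw [mmB_iff] at h2
    obtain ⟨-, h1 | h1⟩ := h1
    · exact hZ _ h1.1 h2.2.1
    · exact hZ _ h1.2 h2.2.2
  unfold stB at hst
  simp only [Bool.and_eq_true, Bool.or_eq_true, decide_eq_true_eq] at hst
  rcases hst with ⟨⟨rfl, rfl, rfl⟩, hmv⟩ | ⟨⟨rfl, rfl, rfl⟩, hmv⟩ | ⟨rfl, h1, rfl, rfl⟩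
  · rw [mvB_iff] at hmv
    have hsub : (x, x') ∈ LO ∨ mmB E M (x, x') = true ∨ frB E M ZA (x, x') = true := by tauto
    have hG : ∀ e ∈ G, e ∈ F ∨ e = (x, x') := by
      intro e he
      rcases hmv with ⟨-, -, -, rfl⟩ | ⟨-, rfl⟩ | ⟨-, rfl⟩
      · simpa using he
      · simpa using he
      · exact Or.inl he
    have hFG : ∀ e ∈ F, e ∈ G := by
      intro e he
      rcases hmv with ⟨-, -, -, rfl⟩ | ⟨-, rfl⟩ | ⟨-, rfl⟩
      · exact List.mem_append_left _ he
      · exact List.mem_append_left _ he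
      · exact he
    refine ⟨fun e => P e ∨ e = (x, x'), Q, ⟨?_, h.subQ, ?_, h.trQ, ?_, ?_, ?_, h.rQ, h.hQ, ?_,
      h.fQ⟩⟩
    · rintro e (he | rfl)
      · exact h.subP e he
      · exact hsub
    · rintro e (he | rfl) hm
      · rcases h.trP e he hm with h2 | h2
        · exact Or.inl (hFG e h2)
        · exact Or.inr h2
      · left
        rcases hmv with ⟨-, -, -, rfl⟩ | ⟨-, rfl⟩ | ⟨h2, -⟩
        · simp
        · simp
        · exact (nfr ZA hA _ h2 hm).elim
    · rintro e (he | rfl) hq hm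
      · exact h.dj e he hq hm
      · rcases hmv with ⟨-, h2, h3, -⟩ | ⟨h2, -⟩ | ⟨h2, -⟩
        · rcases h.trQ _ hq hm with h4 | h4
          · exact h3 h4
          · rw [h4] at h2; exact absurd h2 (by simp)
        · rw [hLO _ h2] at hm; exact absurd hm (by simp)
        · exact nfr ZA hA _ h2 hm
    · rintro e (he | rfl)
      · exact (h.rP e he).add
      · exact RT.add h.hP
    · exact ReflTransGen.tail (RT.add h.hP) (Or.inr rfl)
    · intro e he
      rcases hG e he with h2 | h2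
      · exact Or.inl (h.fP e h2)
      · exact Or.inr h2
  · rw [mvB_iff] at hmv
    have hsub : (y, y') ∈ LI ∨ mmB E M (y, y') = true ∨ frB E M ZB (y, y') = true := by tauto
    have hG : ∀ e ∈ G', e ∈ F' ∨ e = (y, y') := by
      intro e he
      rcases hmv with ⟨-, -, -, rfl⟩ | ⟨-, rfl⟩ | ⟨-, rfl⟩
      · simpa using he
      · simpa using he
      · exact Or.inl he
    have hFG : ∀ e ∈ F', e ∈ G' := by
      intro e he
      rcases hmv with ⟨-, -, -, rfl⟩ | ⟨-, rfl⟩ | ⟨-, rfl⟩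
      · exact List.mem_append_left _ he
      · exact List.mem_append_left _ he
      · exact he
    refine ⟨P, fun e => Q e ∨ e = (y, y'), ⟨h.subP, ?_, h.trP, ?_, ?_, h.rP, h.hP, ?_, ?_, h.fP,
      ?_⟩⟩
    · rintro e (he | rfl)
      · exact h.subQ e he
      · exact hsub
    · rintro e (he | rfl) hm
      · rcases h.trQ e he hm with h2 | h2
        · exact Or.inl (hFG e h2)
        · exact Or.inr h2
      · left
        rcases hmv with ⟨-, -, -, rfl⟩ | ⟨-, rfl⟩ | ⟨h2, -⟩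
        · simp
        · simp
        · exact (nfr ZB hB _ h2 hm).elim
    · rintro e hp (he | rfl) hm
      · exact h.dj e hp he hm
      · rcases hmv with ⟨-, h2, h3, -⟩ | ⟨h2, -⟩ | ⟨h2, -⟩
        · rcases h.trP _ hp hm with h4 | h4
          · exact h3 h4
          · rw [h4] at h2; exact absurd h2 (by simp)
        · rw [hLI _ h2] at hm; exact absurd hm (by simp)
        · exact nfr ZB hB _ h2 hm
    · rintro e (he | rfl)
      · exact ReflTransGen.tail (RT.add (h.rQ e he)) (Or.inr rfl)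
      · exact ReflTransGen.refl
    · exact ReflTransGen.tail (RT.add h.hQ) (Or.inr rfl)
    · intro e he
      rcases hG e he with h2 | h2
      · exact Or.inl (h.fQ e h2)
      · exact Or.inr h2
  · simp only [Prod.mk.injEq] at h1
    obtain ⟨rfl, rfl⟩ := h1
    have key : ∀ (L : List (ℕ × ℕ)) e, e ∈ L ∨ itl E M θ e = true →
        e ∈ L.filter (fun e => !itl E M (θ + 1) e) ∨ itl E M (θ + 1) e = true := by
      rintro L e (he | he)
      · by_cases hi : itl E M (θ + 1) e = true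
        · exact Or.inr hi
        · left
          rw [List.mem_filter]
          exact ⟨he, by simpa using hi⟩
      · exact Or.inr (itl_mono (Nat.le_succ θ) he)
    refine ⟨P, Q, ⟨h.subP, h.subQ, fun e he hm => key _ e (h.trP e he hm), fun e he hm =>
      key _ e (h.trQ e he hm), h.dj, h.rP, h.hP, h.rQ, h.hQ, fun e he =>
        h.fP e (List.mem_filter.1 he).1, fun e he => h.fQ e (List.mem_filter.1 he).1⟩⟩

/-! ### Reachability in a list of configurations -/

section

variable {σ : Type} [DecidableEq σ]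

/-- one round of the search -/
def rnd (N : List σ) (st : σ → σ → Bool) (R : List σ) : List σ :=
  R ++ N.filter (fun c' => !decide (c' ∈ R) && R.any (fun c => st c c'))

theorem mem_rnd {N : List σ} {st : σ → σ → Bool} {R : List σ} {c' : σ} :
    c' ∈ rnd N st R ↔ c' ∈ R ∨ (c' ∈ N ∧ c' ∉ R ∧ ∃ c ∈ R, st c c' = true) := by
  unfold rnd
  simp only [List.mem_append, List.mem_filter, Bool.and_eq_true, Bool.not_eq_true',
    decide_eq_false_iff_not, List.any_eq_true]

theorem rnd_inv {N : List σ} {st : σ → σ → Bool} {I : σ → Prop}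
    (hI : ∀ c c', I c → st c c' = true → I c') {R : List σ} (hR : ∀ c ∈ R, I c) (n : ℕ) :
    ∀ c ∈ (rnd N st)^[n] R, I c := by
  induction n with
  | zero => exact hR
  | succ n ih =>
    rw [Function.iterate_succ_apply']
    intro c hc
    rcases mem_rnd.1 hc with h | ⟨-, -, c0, h1, h2⟩
    · exact ih c h
    · exact hI c0 c (ih c0 h1) h2

omit [DecidableEq σ] in
theorem countP_lt' {V : List σ} {p q : σ → Bool} (h : ∀ v ∈ V, q v = true → p v = true)
    {w : σ} (hw : w ∈ V) (hp : p w = true) (hq : q w = false) : V.countP q < V.countP p := by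
  induction V with
  | nil => simp at hw
  | cons a l ih =>
    have hle : l.countP q ≤ l.countP p :=
      List.countP_mono_left fun v hv hh => h v (List.mem_cons_of_mem _ hv) hh
    rcases List.mem_cons.1 hw with rfl | hw
    · rw [List.countP_cons, List.countP_cons]
      simp only [hq, hp, if_true, Bool.false_eq_true, if_false]
      omega
    · have := ih (fun v hv => h v (List.mem_cons_of_mem _ hv)) hw
      rw [List.countP_cons, List.countP_cons]
      have h1 : (if q a = true then 1 else 0) ≤ (if p a = true then 1 else 0) := by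
        split_ifs with h1 h2
        · omega
        · exact absurd (h a List.mem_cons_self h1) h2
        · omega
        · omega
      omega

theorem rnd_cases (N : List σ) (st : σ → σ → Bool) (R : List σ) :
    rnd N st R = R ∨ N.countP (fun c => !decide (c ∈ rnd N st R)) <
      N.countP (fun c => !decide (c ∈ R)) := by
  by_cases h : N.filter (fun c' => !decide (c' ∈ R) && R.any (fun c => st c c')) = []
  · left; unfold rnd; rw [h]; simp
  · right
    obtain ⟨v, hv⟩ := List.exists_mem_of_ne_nil _ h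
    rw [List.mem_filter, Bool.and_eq_true, Bool.not_eq_true', decide_eq_false_iff_not] at hv
    refine countP_lt' (fun c _ hc => ?_) hv.1 (by simpa using hv.2.1) ?_
    · simp only [Bool.not_eq_true', decide_eq_false_iff_not, mem_rnd, not_or] at hc ⊢
      exact hc.1
    · have : v ∈ rnd N st R := mem_rnd.2 (Or.inr ⟨hv.1, hv.2.1, List.any_eq_true.1 hv.2.2⟩)
      simpa using this

theorem rnd_closed (N : List σ) (st : σ → σ → Bool) (R : List σ) :
    rnd N st ((rnd N st)^[N.length] R) = (rnd N st)^[N.length] R := by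
  have key : ∀ n, rnd N st ((rnd N st)^[n] R) = (rnd N st)^[n] R ∨
      N.countP (fun c => !decide (c ∈ (rnd N st)^[n] R)) + n ≤
        N.countP (fun c => !decide (c ∈ R)) := by
    intro n
    induction n with
    | zero => right; exact Nat.le_refl _
    | succ n ih =>
      rw [Function.iterate_succ_apply']
      rcases ih with ih | ih
      · left; rw [ih, ih]
      · rcases rnd_cases N st ((rnd N st)^[n] R) with h | h
        · left; rw [h, h]
        · right; omega
  have hz : N.countP (fun c => !decide (c ∈ R)) ≤ N.length := List.countP_le_length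
  rcases key N.length with h | h
  · exact h
  · have h0 : N.countP (fun c => !decide (c ∈ (rnd N st)^[N.length] R)) = 0 := by omega
    rcases rnd_cases N st ((rnd N st)^[N.length] R) with h2 | h2
    · exact h2
    · omega

theorem rnd_sub (N : List σ) (st : σ → σ → Bool) (R : List σ) (n : ℕ) :
    ∀ c ∈ R, c ∈ (rnd N st)^[n] R := by
  induction n with
  | zero => exact fun c hc => hc
  | succ n ih =>
    rw [Function.iterate_succ_apply']
    exact fun c hc => mem_rnd.2 (Or.inl (ih c hc))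

/-- Everything reachable is found. -/
theorem rnd_complete {N : List σ} {st : σ → σ → Bool} {c0 c1 : σ}
    (h : ReflTransGen (fun c c' => c' ∈ N ∧ st c c' = true) c0 c1) :
    c1 ∈ (rnd N st)^[N.length] [c0] := by
  induction h with
  | refl => exact rnd_sub N st [c0] _ _ (by simp)
  | @tail c c' _ h2 ih =>
    rw [← rnd_closed]
    by_cases hc : c' ∈ (rnd N st)^[N.length] [c0]
    · exact mem_rnd.2 (Or.inl hc)
    · exact mem_rnd.2 (Or.inr ⟨h2.1, hc, c, ih, h2.2⟩)

end

end Pool.Agent.H871.GP
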