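import Pool.Agent.H871_GP.Dp

/-!
# The dynamic programming part: completeness
-/

namespace Pool.Agent.H871.GP

open Relation

/-- the `i`-th arc of a path -/
def ea (P : ℕ → ℕ) (i : ℕ) : ℕ × ℕ := (P i, P (i + 1))

/-- the arcs which are recorded -/
def rcd (E : List (ℕ × ℕ)) (M : List ℕ) (L : List (ℕ × ℕ)) (θ : ℕ) (e : ℕ × ℕ) : Bool :=
  decide (e ∈ L) || (mmB E M e && !itl E M θ e)

/-- the recorded arcs among the first `i` arcs -/
def FF (E : List (ℕ × ℕ)) (M : List ℕ) (L : List (ℕ × ℕ)) (P : ℕ → ℕ) (θ i : ℕ) : List (ℕ × ℕ) :=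
  ((List.range i).map (ea P)).filter (rcd E M L θ)

variable {E : List (ℕ × ℕ)} {M : List ℕ} {L : List (ℕ × ℕ)} {P : ℕ → ℕ} {m θ : ℕ}

theorem FF_succ (i : ℕ) : FF E M L P θ (i + 1) =
    if rcd E M L θ (ea P i) then FF E M L P θ i ++ [ea P i] else FF E M L P θ i := by
  unfold FF
  rw [List.range_succ, List.map_append, List.filter_append]
  by_cases h : rcd E M L θ (ea P i) = true
  · rw [if_pos h]
    simp [h]
  · rw [if_neg h]
    simp [h]

theorem FF_zero : FF E M L P θ 0 = [] := rfl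

theorem FF_theta (hL : ∀ θ, ∀ e ∈ L, itl E M θ e = false) (i : ℕ) :
    (FF E M L P θ i).filter (fun e => !itl E M (θ + 1) e) = FF E M L P (θ + 1) i := by
  unfold FF
  rw [List.filter_filter]
  congr 1
  funext e
  unfold rcd
  by_cases h1 : e ∈ L
  · have := hL (θ + 1) e h1
    simp [h1, this]
  · by_cases h2 : itl E M (θ + 1) e = true
    · simp [h1, h2]
    · have h3 : itl E M θ e = false := by
        rw [← Bool.not_eq_true]
        exact fun hh => h2 (itl_mono (Nat.le_succ θ) hh)
      rw [Bool.not_eq_true] at h2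
      simp [h1, h2, h3]

theorem mem_FF {i : ℕ} {e : ℕ × ℕ} (h : e ∈ FF E M L P θ i) : ∃ l < i, e = ea P l := by
  unfold FF at h
  obtain ⟨h1, -⟩ := List.mem_filter.1 h
  obtain ⟨l, hl, rfl⟩ := List.mem_map.1 h1
  exact ⟨l, List.mem_range.1 hl, rfl⟩

theorem mem_FF_of {i l : ℕ} (hl : l < i) (hL : ea P l ∈ L) : ea P l ∈ FF E M L P θ i := by
  unfold FF
  refine List.mem_filter.2 ⟨List.mem_map.2 ⟨l, List.mem_range.2 hl, rfl⟩, ?_⟩
  unfold rcd
  simp [hL]

/-- scores increase along the path -/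
def Inc (E : List (ℕ × ℕ)) (M : List ℕ) (P : ℕ → ℕ) (m : ℕ) : Prop :=
  ∀ i j, i < j → j ≤ m → P i ∈ M → P j ∈ M →
    9 ≤ ((Finset.Ioo i j).filter (fun l => P l ∈ M)).card → sc E M (P i) < sc E M (P j)

/-- Few arcs are recorded. -/
theorem FF_len (hinj : ∀ i ≤ m, ∀ j ≤ m, P i = P j → i = j) (hI : Inc E M P m) {i K : ℕ}
    (hi : i ≤ K) (hK : K ≤ m)
    (hv : K = 0 ∨ (P K ∈ M ∧ sc E M (P K) ≤ θ) ∨ ∀ v ∈ M, sc E M v < θ) :
    (FF E M L P θ i).length ≤ L.length + 20 := by
  classical
  rcases Nat.eq_zero_or_pos K with h0 | h0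
  · obtain rfl : i = 0 := by omega
    rw [FF_zero]
    simp
  let J := (Finset.range (K + 1)).filter (fun l => P l ∈ M ∧ θ ≤ sc E M (P l))
  have hJ : J.card ≤ 10 := by
    by_contra hc
    push Not at hc
    rcases hv with hv | hv | hv
    · omega
    · have hne : J.Nonempty := Finset.card_pos.1 (by omega)
      have hmem := J.min'_mem hne
      set i0 := J.min' hne with hi0
      obtain ⟨m1, m2, m3⟩ : i0 < K + 1 ∧ P i0 ∈ M ∧ θ ≤ sc E M (P i0) := by
        have := Finset.mem_filter.1 hmem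
        exact ⟨Finset.mem_range.1 this.1, this.2⟩
      have hsub : (J.erase i0).erase K ⊆ (Finset.Ioo i0 K).filter (fun l => P l ∈ M) := by
        intro l hl
        obtain ⟨l1, hl⟩ := Finset.mem_erase.1 hl
        obtain ⟨l2, hl⟩ := Finset.mem_erase.1 hl
        have l3 := J.min'_le l hl
        obtain ⟨l4, l5, l6⟩ : l < K + 1 ∧ P l ∈ M ∧ θ ≤ sc E M (P l) := by
          have := Finset.mem_filter.1 hl
          exact ⟨Finset.mem_range.1 this.1, this.2⟩
        rw [← hi0] at l3
        exact Finset.mem_filter.2 ⟨Finset.mem_Ioo.2 ⟨by omega, by omega⟩, l5⟩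
      have hcard := Finset.card_le_card hsub
      have h1 : (J.erase i0).card = J.card - 1 := Finset.card_erase_of_mem hmem
      have h2 := Finset.pred_card_le_card_erase (s := J.erase i0) (a := K)
      have hlt : i0 < K := by
        rcases Nat.lt_or_ge i0 K with h3 | h3
        · exact h3
        · have h4 : i0 = K := by omega
          have : (Finset.Ioo i0 K).filter (fun l => P l ∈ M) = ∅ := by
            rw [h4]; simp
          rw [this] at hcard
          simp only [Finset.card_empty] at hcard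
          omega
      have := hI i0 K hlt hK m2 hv.1 (by omega)
      omega
    · have hne : J.Nonempty := Finset.card_pos.1 (by omega)
      obtain ⟨l, hl⟩ := hne
      have h1 := (Finset.mem_filter.1 hl).2
      have := hv _ h1.1
      omega
  let A1 := (Finset.range m).filter (fun l => ea P l ∈ L)
  have hA1 : A1.card ≤ L.length := by
    have h1 : (A1.image (ea P)).card = A1.card := by
      refine Finset.card_image_of_injOn ?_
      intro x hx y hy hxy
      have hx' := Finset.mem_range.1 (Finset.mem_filter.1 hx).1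
      have hy' := Finset.mem_range.1 (Finset.mem_filter.1 hy).1
      exact hinj x (by omega) y (by omega) (congrArg Prod.fst hxy)
    have h2 : A1.image (ea P) ⊆ L.toFinset := by
      intro e he
      obtain ⟨l, hl, rfl⟩ := Finset.mem_image.1 he
      exact List.mem_toFinset.2 (Finset.mem_filter.1 hl).2
    have h3 := Finset.card_le_card h2
    have h4 := List.toFinset_card_le L
    omega
  have hlen : (FF E M L P θ i).length =
      ((List.range i).filter (fun l => rcd E M L θ (ea P l))).length := by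
    unfold FF
    rw [List.filter_map, List.length_map]
    rfl
  have hnd : ((List.range i).filter (fun l => rcd E M L θ (ea P l))).Nodup :=
    List.Nodup.filter _ List.nodup_range
  rw [hlen, ← List.toFinset_card_of_nodup hnd]
  have hsub : ((List.range i).filter (fun l => rcd E M L θ (ea P l))).toFinset ⊆
      A1 ∪ (J ∪ J.image (fun l => l - 1)) := by
    intro l hl
    rw [List.mem_toFinset, List.mem_filter, List.mem_range] at hl
    obtain ⟨hl1, hl2⟩ := hl
    unfold rcd at hl2
    rw [Bool.or_eq_true, decide_eq_true_eq, Bool.and_eq_true, mmB_iff, Bool.not_eq_true'] at hl2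
    rcases hl2 with h2 | ⟨⟨-, h2, h3⟩, h4⟩
    · exact Finset.mem_union_left _ (Finset.mem_filter.2 ⟨Finset.mem_range.2 (by omega), h2⟩)
    · refine Finset.mem_union_right _ ?_
      have h5 : ¬ itl E M θ (ea P l) = true := by rw [h4]; simp
      rw [itl_iff] at h5
      by_cases h6 : θ ≤ sc E M (P l)
      · exact Finset.mem_union_left _ (Finset.mem_filter.2 ⟨Finset.mem_range.2 (by omega), h2, h6⟩)
      · refine Finset.mem_union_right _ (Finset.mem_image.2 ⟨l + 1, Finset.mem_filter.2
          ⟨Finset.mem_range.2 (by omega), h3, ?_⟩, rfl⟩)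
        by_contra h7
        push Not at h6 h7
        exact h5 ⟨⟨h2, h6⟩, h3, h7⟩
  have h1 := Finset.card_le_card hsub
  have h2 := Finset.card_union_le A1 (J ∪ J.image (fun l => l - 1))
  have h3 := Finset.card_union_le J (J.image (fun l => l - 1))
  have h4 : (J.image (fun l => l - 1)).card ≤ J.card := Finset.card_image_le
  omega

/-- one more than the last internal arc -/
def lst (E : List (ℕ × ℕ)) (M : List ℕ) (P : ℕ → ℕ) (m θ : ℕ) : ℕ :=
  Nat.findGreatest (fun i => 0 < i ∧ itl E M θ (ea P (i - 1)) = true) m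

theorem lst_le : lst E M P m θ ≤ m := Nat.findGreatest_le m

theorem lst_spec : lst E M P m θ = 0 ∨ (0 < lst E M P m θ ∧
    itl E M θ (ea P (lst E M P m θ - 1)) = true) := by
  rcases Nat.eq_zero_or_pos (lst E M P m θ) with h | h
  · exact Or.inl h
  · exact Or.inr (Nat.findGreatest_of_ne_zero (m := lst E M P m θ) rfl (by omega))

theorem lst_after {l : ℕ} (h1 : lst E M P m θ ≤ l) (h2 : l < m) : itl E M θ (ea P l) = false := by
  rw [← Bool.not_eq_true]
  intro h
  have := Nat.findGreatest_is_greatest (P := fun i => 0 < i ∧ itl E M θ (ea P (i - 1)) = true)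
    (n := m) (k := l + 1) (by unfold lst at h1; omega) (by omega)
  exact this ⟨by omega, h⟩

theorem lst_mono : lst E M P m θ ≤ lst E M P m (θ + 1) :=
  Nat.findGreatest_mono_left (fun _ hi => ⟨hi.1, itl_mono (Nat.le_succ θ) hi.2⟩) m

theorem lst_zero : lst E M P m 0 = 0 := by
  rcases lst_spec (E := E) (M := M) (P := P) (m := m) (θ := 0) with h | ⟨-, h⟩
  · exact h
  · rw [itl_iff] at h
    omega

theorem lst_head : lst E M P m (θ + 1) = 0 ∨
    (P (lst E M P m (θ + 1)) ∈ M ∧ sc E M (P (lst E M P m (θ + 1))) ≤ θ) := by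
  rcases lst_spec (E := E) (M := M) (P := P) (m := m) (θ := θ + 1) with h | ⟨h1, h2⟩
  · exact Or.inl h
  · right
    rw [itl_iff] at h2
    obtain ⟨-, h3, h4⟩ := h2
    unfold ea at h3 h4
    simp only at h3 h4
    rw [show lst E M P m (θ + 1) - 1 + 1 = lst E M P m (θ + 1) by omega] at h3 h4
    exact ⟨h3, by omega⟩

section

variable {ZA ZB : List ℕ} {LO LI : List (ℕ × ℕ)} {Q : ℕ → ℕ} {k : ℕ} {N : List Cf} {Θ B : ℕ}

/-- the configuration in which the heads are `P i` and `Q j` -/
def cfg (E : List (ℕ × ℕ)) (M : List ℕ) (LO LI : List (ℕ × ℕ)) (P Q : ℕ → ℕ) (θ i j : ℕ) : Cf :=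
  (θ, ((P i, Q j), (FF E M LO P θ i, FF E M LI Q θ j)))

variable
  (hLO : ∀ θ, ∀ e ∈ LO, itl E M θ e = false) (hLI : ∀ θ, ∀ e ∈ LI, itl E M θ e = false)
  (hP : ∀ i < m, ea P i ∈ LO ∨ mmB E M (ea P i) = true ∨ frB E M ZA (ea P i) = true)
  (hQ : ∀ j < k, ea Q j ∈ LI ∨ mmB E M (ea Q j) = true ∨ frB E M ZB (ea Q j) = true)
  (hA : ∀ v ∈ ZA, v ∉ M) (hB : ∀ v ∈ ZB, v ∉ M)
  (hdj : ∀ i < m, ∀ j < k, ea P i ≠ ea Q j)
  (hN : ∀ θ i j, θ ≤ Θ → i ≤ m → j ≤ k → (FF E M LO P θ i).length ≤ B →
    (FF E M LI Q θ j).length ≤ B → cfg E M LO LI P Q θ i j ∈ N)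

theorem frB_not_mmB {Z : List ℕ} (hZ : ∀ v ∈ Z, v ∉ M) {e : ℕ × ℕ} (h1 : frB E M Z e = true) :
    mmB E M e = false := by
  rw [← Bool.not_eq_true]
  intro h2
  rw [frB_iff] at h1
  rw [mmB_iff] at h2
  obtain ⟨-, h1 | h1⟩ := h1
  · exact hZ _ h1.1 h2.2.1
  · exact hZ _ h1.2 h2.2.2

include hP hA hdj in
theorem stepO {i j : ℕ} (hi : i < m) (hj : j ≤ k) (hl : lst E M P m θ ≤ i) :
    stB E M ZA ZB LO LI (cfg E M LO LI P Q θ i j) (cfg E M LO LI P Q θ (i + 1) j) = true := by
  have hmv : mvB E M ZA LO θ (ea P i) (FF E M LO P θ i) (FF E M LO P θ (i + 1))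
      (FF E M LI Q θ j) = true := by
    rw [mvB_iff, FF_succ]
    have hitl := lst_after hl hi
    by_cases h1 : ea P i ∈ LO
    · right; left
      have : rcd E M LO θ (ea P i) = true := by unfold rcd; simp [h1]
      exact ⟨h1, by rw [if_pos this]⟩
    · rcases (hP i hi).resolve_left h1 with h2 | h2
      · left
        have : rcd E M LO θ (ea P i) = true := by unfold rcd; simp [h2, hitl]
        refine ⟨h2, hitl, fun hmem => ?_, by rw [if_pos this]⟩
        obtain ⟨l, hl', he⟩ := mem_FF hmem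
        exact hdj i hi l (by omega) he
      · right; right
        have : ¬ rcd E M LO θ (ea P i) = true := by
          unfold rcd; simp [h1, frB_not_mmB hA h2]
        exact ⟨h2, by rw [if_neg this]⟩
  unfold stB cfg
  simp only [Bool.or_eq_true, Bool.and_eq_true, decide_eq_true_eq]
  exact Or.inl ⟨⟨trivial, trivial, trivial⟩, hmv⟩

include hQ hB hdj in
theorem stepI {i j : ℕ} (hi : i ≤ m) (hj : j < k) (hl : lst E M Q k θ ≤ j) :
    stB E M ZA ZB LO LI (cfg E M LO LI P Q θ i j) (cfg E M LO LI P Q θ i (j + 1)) = true := by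
  have hmv : mvB E M ZB LI θ (ea Q j) (FF E M LI Q θ j) (FF E M LI Q θ (j + 1))
      (FF E M LO P θ i) = true := by
    rw [mvB_iff, FF_succ]
    have hitl := lst_after hl hj
    by_cases h1 : ea Q j ∈ LI
    · right; left
      have : rcd E M LI θ (ea Q j) = true := by unfold rcd; simp [h1]
      exact ⟨h1, by rw [if_pos this]⟩
    · rcases (hQ j hj).resolve_left h1 with h2 | h2
      · left
        have : rcd E M LI θ (ea Q j) = true := by unfold rcd; simp [h2, hitl]
        refine ⟨h2, hitl, fun hmem => ?_, by rw [if_pos this]⟩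
        obtain ⟨l, hl', he⟩ := mem_FF hmem
        exact hdj l (by omega) j hj he.symm
      · right; right
        have : ¬ rcd E M LI θ (ea Q j) = true := by
          unfold rcd; simp [h1, frB_not_mmB hB h2]
        exact ⟨h2, by rw [if_neg this]⟩
  unfold stB cfg
  simp only [Bool.or_eq_true, Bool.and_eq_true, decide_eq_true_eq]
  exact Or.inr (Or.inl ⟨⟨trivial, trivial, trivial⟩, hmv⟩)

include hLO hLI in
theorem stepT (i j : ℕ) :
    stB E M ZA ZB LO LI (cfg E M LO LI P Q θ i j) (cfg E M LO LI P Q (θ + 1) i j) = true := by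
  unfold stB cfg
  simp only [FF_theta hLO, FF_theta hLI, decide_true, Bool.true_and, Bool.and_true, Bool.or_true]

include hLO hLI hP hQ hA hB hdj hN in
/-- **Completeness of the dynamic program.** -/
theorem dp_complete (hinjP : ∀ i ≤ m, ∀ j ≤ m, P i = P j → i = j) (hIP : Inc E M P m)
    (hinjQ : ∀ i ≤ k, ∀ j ≤ k, Q i = Q j → i = j) (hIQ : Inc E M Q k)
    (hΘ : ∀ v ∈ M, sc E M v < Θ) (hBO : LO.length + 20 ≤ B) (hBI : LI.length + 20 ≤ B) :
    ReflTransGen (fun c c' => c' ∈ N ∧ stB E M ZA ZB LO LI c c' = true)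
      (cfg E M LO LI P Q 0 0 0) (cfg E M LO LI P Q Θ m k) := by
  -- moving both heads
  have adv : ∀ θ K K', θ ≤ Θ → lst E M P m θ ≤ K → K ≤ m → lst E M Q k θ ≤ K' → K' ≤ k →
      (K = 0 ∨ (P K ∈ M ∧ sc E M (P K) ≤ θ) ∨ ∀ v ∈ M, sc E M v < θ) →
      (K' = 0 ∨ (Q K' ∈ M ∧ sc E M (Q K') ≤ θ) ∨ ∀ v ∈ M, sc E M v < θ) →
      ReflTransGen (fun c c' => c' ∈ N ∧ stB E M ZA ZB LO LI c c' = true)
        (cfg E M LO LI P Q θ (lst E M P m θ) (lst E M Q k θ)) (cfg E M LO LI P Q θ K K') := by
    intro θ K K' hθ h1 h2 h3 h4 h5 h6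
    have hmem : ∀ i ≤ K, ∀ j ≤ K', cfg E M LO LI P Q θ i j ∈ N := fun i hi j hj =>
      hN θ i j hθ (by omega) (by omega) ((FF_len hinjP hIP hi h2 h5).trans hBO)
        ((FF_len hinjQ hIQ hj h4 h6).trans hBI)
    have a1 : ∀ d, lst E M P m θ + d ≤ K →
        ReflTransGen (fun c c' => c' ∈ N ∧ stB E M ZA ZB LO LI c c' = true)
        (cfg E M LO LI P Q θ (lst E M P m θ) (lst E M Q k θ))
        (cfg E M LO LI P Q θ (lst E M P m θ + d) (lst E M Q k θ)) := by
      intro d
      induction d with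
      | zero => intro _; exact ReflTransGen.refl
      | succ d ih =>
        intro hd
        exact ReflTransGen.tail (ih (by omega)) ⟨hmem _ hd _ h3,
          stepO hP hA hdj (by omega) (by omega) (by omega)⟩
    have a2 : ∀ d, lst E M Q k θ + d ≤ K' →
        ReflTransGen (fun c c' => c' ∈ N ∧ stB E M ZA ZB LO LI c c' = true)
        (cfg E M LO LI P Q θ K (lst E M Q k θ))
        (cfg E M LO LI P Q θ K (lst E M Q k θ + d)) := by
      intro d
      induction d with
      | zero => intro _; exact ReflTransGen.refl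
      | succ d ih =>
        intro hd
        exact ReflTransGen.tail (ih (by omega)) ⟨hmem _ le_rfl _ hd,
          stepI hQ hB hdj (by omega) (by omega) (by omega)⟩
    have b1 := a1 (K - lst E M P m θ) (by omega)
    have b2 := a2 (K' - lst E M Q k θ) (by omega)
    rw [show lst E M P m θ + (K - lst E M P m θ) = K by omega] at b1
    rw [show lst E M Q k θ + (K' - lst E M Q k θ) = K' by omega] at b2
    exact b1.trans b2
  have main : ∀ θ ≤ Θ, ReflTransGen (fun c c' => c' ∈ N ∧ stB E M ZA ZB LO LI c c' = true)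
      (cfg E M LO LI P Q 0 0 0) (cfg E M LO LI P Q θ (lst E M P m θ) (lst E M Q k θ)) := by
    intro θ
    induction θ with
    | zero => intro _; rw [lst_zero, lst_zero]
    | succ θ ih =>
      intro hθ
      have h1 := ih (by omega)
      have h5 : lst E M P m (θ + 1) = 0 ∨ (P (lst E M P m (θ + 1)) ∈ M ∧
          sc E M (P (lst E M P m (θ + 1))) ≤ θ) ∨ ∀ v ∈ M, sc E M v < θ := by
        rcases lst_head (E := E) (M := M) (P := P) (m := m) (θ := θ) with h | h
        · exact Or.inl h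
        · exact Or.inr (Or.inl h)
      have h6 : lst E M Q k (θ + 1) = 0 ∨ (Q (lst E M Q k (θ + 1)) ∈ M ∧
          sc E M (Q (lst E M Q k (θ + 1))) ≤ θ) ∨ ∀ v ∈ M, sc E M v < θ := by
        rcases lst_head (E := E) (M := M) (P := Q) (m := k) (θ := θ) with h | h
        · exact Or.inl h
        · exact Or.inr (Or.inl h)
      have h2 := adv θ (lst E M P m (θ + 1)) (lst E M Q k (θ + 1)) (by omega) lst_mono lst_le
        lst_mono lst_le h5 h6
      refine ReflTransGen.tail (h1.trans h2) ⟨?_, stepT hLO hLI _ _⟩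
      -- the lists can only get shorter
      have hsh : ∀ (L : List (ℕ × ℕ)) (R : ℕ → ℕ) (i : ℕ), (∀ θ, ∀ e ∈ L, itl E M θ e = false) →
          (FF E M L R (θ + 1) i).length ≤ (FF E M L R θ i).length := by
        intro L R i hL
        rw [← FF_theta hL]
        exact List.length_filter_le _ _
      exact hN _ _ _ hθ lst_le lst_le
        ((hsh LO P _ hLO).trans ((FF_len hinjP hIP le_rfl lst_le h5).trans hBO))
        ((hsh LI Q _ hLI).trans ((FF_len hinjQ hIQ le_rfl lst_le h6).trans hBI))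
  exact (main Θ le_rfl).trans (adv Θ m k le_rfl lst_le le_rfl lst_le le_rfl (Or.inr (Or.inr hΘ))
    (Or.inr (Or.inr hΘ)))

end

end Pool.Agent.H871.GP
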