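import Pool.Agent.H871_GP.Tree

/-!
# The exchange argument: in a shortest good pair, a long root path forces many non-neighbours of
the root
-/

namespace Pool.Agent.H871.GP

variable {V : Type*} {S : Set V} {D : V → V → Prop} {s t : V} {f : V → V} {a : V → ℕ} {g : V → V}
  {b : V → ℕ} {x y : V}

/-- the sum of the four distances -/
def cost (a b : V → ℕ) (x y : V) : ℕ := a x + a y + b x + b y

/-- among all good pairs, with arbitrary roots, this one minimises the sum of the four distances. -/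
def Mini (S : Set V) (D : V → V → Prop) (a b : V → ℕ) (x y : V) : Prop :=
  ∀ s' t' f' a' g' b', GPair S D s' t' f' a' g' b' → cost a b x y ≤ cost a' b' x y

/-- the `i`-th vertex of the path from the root to `x` -/
def pt (f : V → V) (a : V → ℕ) (x : V) (i : ℕ) : V := f^[a x - i] x

section

variable (hD : ∀ u v, D u v → u ∈ S ∧ v ∈ S) (hG : GPair S D s t f a g b) (hx : x ∈ S)
  (hy : y ∈ S)

include hD hG hx

theorem pt_mem {i : ℕ} (hi : i ≤ a x) : pt f a x i ∈ S ∧ a (pt f a x i) = i := by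
  obtain ⟨h1, h2⟩ := hG.ob.iter hD hx (a x - i) (by omega)
  exact ⟨h1, by unfold pt; omega⟩

theorem pt_zero : pt f a x 0 = s := by
  obtain ⟨h1, h2⟩ := pt_mem hD hG hx (Nat.zero_le _)
  exact hG.ob.eq_root h1 h2

theorem pt_sub {i : ℕ} (hi : i ≤ a x) : Sub f a (pt f a x i) x := ⟨a x - i, by omega, rfl⟩

theorem pt_inj {i j : ℕ} (hi : i ≤ a x) (hj : j ≤ a x) (h : pt f a x i = pt f a x j) : i = j := by
  have h1 := (pt_mem hD hG hx hi).2
  have h2 := (pt_mem hD hG hx hj).2
  rw [h] at h1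
  omega

theorem pt_nsub {i j : ℕ} (hij : i < j) (hj : j ≤ a x) : ¬ Sub f a (pt f a x j) (pt f a x i) := by
  intro hs
  obtain ⟨h1, h2⟩ := pt_mem hD hG hx (le_trans hij.le hj)
  obtain ⟨_, h3⟩ := pt_mem hD hG hx hj
  have := hG.ob.sub_le hD h1 hs
  omega

theorem pt_ne {i : ℕ} (h0 : 0 < i) (hi : i ≤ a x) : pt f a x i ≠ s := by
  intro h
  have := (pt_mem hD hG hx hi).2
  rw [h, hG.ob.root] at this
  omega

include hy

/-- Forward chords of the path from the root to `x` are used by the in-branching. -/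
theorem factA (hm : Mini S D a b x y) {i j : ℕ} (hij : i + 2 ≤ j) (hj : j ≤ a x)
    (hd : D (pt f a x i) (pt f a x j)) : pt f a x i ≠ t ∧ g (pt f a x i) = pt f a x j := by
  classical
  by_contra hcon
  have hcon' : pt f a x i ≠ t → g (pt f a x i) ≠ pt f a x j := fun h1 h2 => hcon ⟨h1, h2⟩
  obtain ⟨hjS, hja⟩ := pt_mem hD hG hx hj
  obtain ⟨hiS, hia⟩ := pt_mem hD hG hx (show i ≤ a x by omega)
  have hjs := pt_ne hD hG hx (show 0 < j by omega) hj
  have hns := pt_nsub hD hG hx (show i < j by omega) hj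
  have hob := hG.ob.reparent hD hjs hd hns
  have hnew : GPair S D s t _ _ g b := ⟨hob, hG.ib, fun v hv hvs hft => by
    by_cases hvj : v = pt f a x j
    · subst hvj
      rw [Function.update_self] at hft ⊢
      exact hcon' hft
    · rw [Function.update_of_ne hvj] at hft ⊢
      exact hG.dj v hv hvs hft⟩
  have hmin := hm _ _ _ _ _ _ hnew
  have hsx := pt_sub hD hG hx hj
  unfold cost at hmin
  simp only [hsx, if_true, hja, hia] at hmin
  by_cases hsy : Sub f a (pt f a x j) y
  · have := hG.ob.sub_le hD hy hsy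
    simp only [hsy, if_true] at hmin
    omega
  · simp only [hsy, if_false] at hmin
    omega

/-- Arcs from the path to the root are used by the in-branching. -/
theorem factB (hm : Mini S D a b x y) {i : ℕ} (hi2 : 2 ≤ i) (hi : i ≤ a x)
    (hd : D (pt f a x i) s) : pt f a x i ≠ t ∧ g (pt f a x i) = s := by
  classical
  by_contra hcon
  have hcon' : pt f a x i ≠ t → g (pt f a x i) ≠ s := fun h1 h2 => hcon ⟨h1, h2⟩
  obtain ⟨hiS, hia⟩ := pt_mem hD hG hx hi
  have his := pt_ne hD hG hx (show 0 < i by omega) hi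
  have hob := hG.ob.shift hD his hd
  have hnew : GPair S D (pt f a x i) t _ _ g b := ⟨hob, hG.ib, fun v hv hvs hft => by
    by_cases hvj : v = s
    · subst hvj
      rw [Function.update_self] at hft ⊢
      exact hcon' hft
    · rw [Function.update_of_ne hvj] at hft ⊢
      exact hG.dj v hv hvj hft⟩
  have hmin := hm _ _ _ _ _ _ hnew
  have hsx := pt_sub hD hG hx hi
  unfold cost at hmin
  simp only [hsx, if_true, hia] at hmin
  by_cases hsy : Sub f a (pt f a x i) y
  · simp only [hsy, if_true] at hmin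
    omega
  · simp only [hsy, if_false] at hmin
    omega

theorem factC (hm : Mini S D a b x y) {i j : ℕ} (hi4 : 4 ≤ i) (hij : i + 2 ≤ j) (hj : j ≤ a x)
    (hdi : D (pt f a x i) s) (hdj : D (pt f a x j) s) :
    ¬ D (pt f a x i) (pt f a x j) ∧ ¬ D (pt f a x j) (pt f a x i) := by
  classical
  have hD' : ∀ u v, D v u → u ∈ S ∧ v ∈ S := fun u v h => (hD v u h).symm
  obtain ⟨hit, hig⟩ := factB hD hG hx hy hm (show 2 ≤ i by omega) (by omega) hdi
  obtain ⟨hjt, hjg⟩ := factB hD hG hx hy hm (show 2 ≤ j by omega) hj hdj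
  obtain ⟨hjS, hja⟩ := pt_mem hD hG hx hj
  obtain ⟨hiS, hia⟩ := pt_mem hD hG hx (show i ≤ a x by omega)
  have hjs := pt_ne hD hG hx (show 0 < j by omega) hj
  have his := pt_ne hD hG hx (show 0 < i by omega) (show i ≤ a x by omega)
  refine ⟨fun hd => ?_, fun hd => ?_⟩
  · obtain ⟨-, h1⟩ := factA hD hG hx hy hm hij hj hd
    exact hjs (h1.symm.trans hig)
  · have hbj := hG.ib.dep _ hjS hjt
    have hbi := hG.ib.dep _ hiS hit
    rw [hjg] at hbj
    rw [hig] at hbi
    -- redirect the in-branching at the `j`-th vertex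
    have hns : ¬ Sub g b (pt f a x j) (pt f a x i) := by
      intro hs
      rcases (hG.ib.sub_step hiS hit).1 hs with h | h
      · have := pt_inj hD hG hx (show i ≤ a x by omega) hj h
        omega
      · rw [hig] at h
        have := hG.ib.sub_le hD' hG.ob.mem h
        omega
    have hib := hG.ib.reparent hD' (u := pt f a x i) (v := pt f a x j) hjt hd hns
    have hg' : ∀ v ∈ S, v ≠ s → f v ≠ t →
        Function.update g (pt f a x j) (pt f a x i) (f v) ≠ v := by
      intro v hv hvs hft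
      by_cases hfv : f v = pt f a x j
      · rw [hfv, Function.update_self]
        rintro rfl
        have h1 := hG.ob.dep _ hiS his
        rw [hfv] at h1
        omega
      · rw [Function.update_of_ne hfv]
        exact hG.dj v hv hvs hft
    have hob := hG.ob.shift hD hjs hdj
    have hnew : GPair S D (pt f a x j) t _ _ _ _ := ⟨hob, hib, fun v hv hvs hft => by
      by_cases hvs' : v = s
      · subst hvs'
        rw [Function.update_self] at hft ⊢
        rw [Function.update_self]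
        exact his
      · rw [Function.update_of_ne hvs'] at hft ⊢
        exact hg' v hv hvs' hft⟩
    have hmin := hm _ _ _ _ _ _ hnew
    have hsx := pt_sub hD hG hx hj
    unfold cost at hmin
    simp only [hsx, if_true, hja] at hmin
    have h1 : (if Sub f a (pt f a x j) y then a y - j else a y + 1) ≤ a y + 1 := by
      split_ifs <;> omega
    have h2 : ∀ w ∈ S, (if Sub g b (pt f a x j) w then (b w - b (pt f a x j)) +
        (b (pt f a x i) + 1) else b w) ≤ b w + 1 := by
      intro w hw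
      split_ifs with h
      · have := hG.ib.sub_le hD' hw h
        omega
      · omega
    have h3 := h2 x hx
    have h4 := h2 y hy
    omega

/-- **The exchange lemma.**  In a good pair minimising the sum of the four distances, the distance
from the root `s` to `x` is at most the number of non-neighbours of `s`, plus `8`. -/
theorem dist_le (hm : Mini S D a b x y)
    (hα : ∀ p ∈ S, ∀ q ∈ S, ∀ r ∈ S, p ≠ q → p ≠ r → q ≠ r →
      D p q ∨ D q p ∨ D p r ∨ D r p ∨ D q r ∨ D r q) {d : ℕ}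
    (hd : ∀ F : Finset V, (∀ v ∈ F, v ∈ S ∧ v ≠ s ∧ ¬ D s v ∧ ¬ D v s) → F.card ≤ d) :
    a x ≤ d + 8 := by
  classical
  by_contra hcon
  push Not at hcon
  set p := pt f a x with hp
  let I := Finset.Icc 4 (a x)
  let G := I.filter (fun i => D (p i) s)
  let H := I.filter (fun i => D s (p i))
  have hHc : H.card ≤ 1 := by
    refine Finset.card_le_one.2 fun i hi j hj => ?_
    obtain ⟨hi1, hi2⟩ := Finset.mem_filter.1 hi
    obtain ⟨hj1, hj2⟩ := Finset.mem_filter.1 hj
    obtain ⟨hi3, hi4⟩ := Finset.mem_Icc.1 hi1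
    obtain ⟨hj3, hj4⟩ := Finset.mem_Icc.1 hj1
    have e0 : p 0 = s := pt_zero hD hG hx
    have h1 := (factA hD hG hx hy hm (i := 0) (j := i) (by omega) hi4
      (by rw [← hp, e0]; exact hi2)).2
    have h2 := (factA hD hG hx hy hm (i := 0) (j := j) (by omega) hj4
      (by rw [← hp, e0]; exact hj2)).2
    exact pt_inj hD hG hx hi4 hj4 (h1.symm.trans h2)
  have hGc : G.card ≤ 4 := by
    by_contra hc
    let e := G.orderEmbOfCardLe (k := 5) (by omega)
    have he : ∀ k, e k ∈ G := fun k => Finset.orderEmbOfCardLe_mem G _ k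
    have hlt : ∀ k l : Fin 5, k < l → e k < e l := fun k l h => e.strictMono h
    have h01 := hlt 0 1 (by decide)
    have h12 := hlt 1 2 (by decide)
    have h23 := hlt 2 3 (by decide)
    have h34 := hlt 3 4 (by decide)
    have hmem : ∀ k, 4 ≤ e k ∧ e k ≤ a x ∧ D (p (e k)) s := by
      intro k
      obtain ⟨h1, h2⟩ := Finset.mem_filter.1 (he k)
      obtain ⟨h3, h4⟩ := Finset.mem_Icc.1 h1
      exact ⟨h3, h4, h2⟩
    obtain ⟨a0, a1, a2⟩ := hmem 0
    obtain ⟨b0, b1, b2⟩ := hmem 2
    obtain ⟨c0, c1, c2⟩ := hmem 4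
    obtain ⟨n1, n2⟩ := factC hD hG hx hy hm a0 (show e 0 + 2 ≤ e 2 by omega) b1 a2 b2
    obtain ⟨n3, n4⟩ := factC hD hG hx hy hm a0 (show e 0 + 2 ≤ e 4 by omega) c1 a2 c2
    obtain ⟨n5, n6⟩ := factC hD hG hx hy hm b0 (show e 2 + 2 ≤ e 4 by omega) c1 b2 c2
    have m0 := (pt_mem hD hG hx a1).1
    have m2 := (pt_mem hD hG hx b1).1
    have m4 := (pt_mem hD hG hx c1).1
    have d1 : pt f a x (e 0) ≠ pt f a x (e 2) := fun h => by
      have := pt_inj hD hG hx a1 b1 h; omega
    have d2 : pt f a x (e 0) ≠ pt f a x (e 4) := fun h => by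
      have := pt_inj hD hG hx a1 c1 h; omega
    have d3 : pt f a x (e 2) ≠ pt f a x (e 4) := fun h => by
      have := pt_inj hD hG hx b1 c1 h; omega
    have := hα _ m0 _ m2 _ m4 d1 d2 d3
    tauto
  have hF := hd (((I \ G) \ H).image p) (by
    intro v hv
    obtain ⟨i, hi, rfl⟩ := Finset.mem_image.1 hv
    simp only [Finset.mem_sdiff, I, G, H, Finset.mem_filter, Finset.mem_Icc, not_and] at hi
    obtain ⟨⟨hi1, hi2⟩, hi3⟩ := hi
    exact ⟨(pt_mem hD hG hx hi1.2).1, pt_ne hD hG hx (by omega) hi1.2, hi3 hi1, hi2 hi1⟩)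
  rw [Finset.card_image_of_injOn (by
    intro i hi j hj hij
    simp only [Finset.coe_sdiff, Set.mem_diff, Finset.mem_coe, I, Finset.mem_Icc] at hi hj
    exact pt_inj hD hG hx hi.1.1.2 hj.1.1.2 hij)] at hF
  have c1 : I.card = a x - 3 := by simp [I]
  have c2 : (I \ G).card ≥ I.card - G.card := by
    have := Finset.le_card_sdiff G I
    omega
  have c3 : ((I \ G) \ H).card ≥ (I \ G).card - H.card := by
    have := Finset.le_card_sdiff H (I \ G)
    omega
  omega

end

/-- The reversed pair is minimal as well. -/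
theorem Mini.rev (hD : ∀ u v, D u v → u ∈ S ∧ v ∈ S) (hm : Mini S D a b x y) :
    Mini S (fun u v => D v u) b a x y := by
  intro s' t' f' a' g' b' h
  have h1 := h.rev (fun u v h => (hD v u h).symm)
  have h2 := hm _ _ _ _ _ _ h1
  unfold cost at h2 ⊢
  omega

theorem Mini.swap (hm : Mini S D a b x y) : Mini S D a b y x := by
  intro s' t' f' a' g' b' h
  have h2 := hm _ _ _ _ _ _ h
  unfold cost at h2 ⊢
  omega

/-- **Short good pairs.**  If `D` has no three pairwise non-adjacent vertices, every vertex has at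
most `d` non-neighbours, and `D` has a good pair, then for all vertices `x`, `y` it has a good pair
in which `x`, `y` are at distance at most `d + 8` from the root of the out-branching and from the
root of the in-branching. -/
theorem exists_short (hD : ∀ u v, D u v → u ∈ S ∧ v ∈ S)
    (hα : ∀ p ∈ S, ∀ q ∈ S, ∀ r ∈ S, p ≠ q → p ≠ r → q ≠ r →
      D p q ∨ D q p ∨ D p r ∨ D r p ∨ D q r ∨ D r q) {d : ℕ}
    (hd : ∀ z ∈ S, ∀ F : Finset V, (∀ v ∈ F, v ∈ S ∧ v ≠ z ∧ ¬ D z v ∧ ¬ D v z) → F.card ≤ d)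
    (hx : x ∈ S) (hy : y ∈ S) (hG : ∃ s t f a g b, GPair S D s t f a g b) :
    ∃ s t f a g b, GPair S D s t f a g b ∧ a x ≤ d + 8 ∧ a y ≤ d + 8 ∧ b x ≤ d + 8 ∧
      b y ≤ d + 8 := by
  classical
  have hex : ∃ n, ∃ s t f a g b, GPair S D s t f a g b ∧ cost a b x y = n := by
    obtain ⟨s, t, f, a, g, b, h⟩ := hG
    exact ⟨_, s, t, f, a, g, b, h, rfl⟩
  obtain ⟨s, t, f, a, g, b, h, hc⟩ := Nat.find_spec hex
  have hm : Mini S D a b x y := by
    intro s' t' f' a' g' b' h'
    rw [hc]
    exact Nat.find_min' hex ⟨s', t', f', a', g', b', h', rfl⟩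
  have hD' : ∀ u v, D v u → u ∈ S ∧ v ∈ S := fun u v h => (hD v u h).symm
  have hα' : ∀ p ∈ S, ∀ q ∈ S, ∀ r ∈ S, p ≠ q → p ≠ r → q ≠ r →
      D q p ∨ D p q ∨ D r p ∨ D p r ∨ D r q ∨ D q r := by
    intro p hp q hq r hr h1 h2 h3
    have := hα p hp q hq r hr h1 h2 h3
    tauto
  have hd' : ∀ z ∈ S, ∀ F : Finset V, (∀ v ∈ F, v ∈ S ∧ v ≠ z ∧ ¬ D v z ∧ ¬ D z v) →
      F.card ≤ d := by
    intro z hz F hF
    exact hd z hz F fun v hv => ⟨(hF v hv).1, (hF v hv).2.1, (hF v hv).2.2.2, (hF v hv).2.2.1⟩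
  refine ⟨s, t, f, a, g, b, h, ?_, ?_, ?_, ?_⟩
  · exact dist_le hD h hx hy hm hα (hd s h.ob.mem)
  · exact dist_le hD h hy hx hm.swap hα (hd s h.ob.mem)
  · exact dist_le (D := fun u v => D v u) hD' (h.rev hD) hx hy (hm.rev hD) hα'
      (hd' t h.ib.mem)
  · exact dist_le (D := fun u v => D v u) hD' (h.rev hD) hy hx (hm.rev hD).swap hα'
      (hd' t h.ib.mem)

end Pool.Agent.H871.GP
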