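import Pool.Agent.H871_GP.General

/-!
# Good pairs with prescribed roots
-/

namespace Pool.Agent.H871.GP

open Relation Pool.Agent.NPC

/-- a digraph with two vertices -/
abbrev Gst := (List ℕ × List (ℕ × ℕ)) × (ℕ × ℕ)

/-- the algorithm -/
def al4 (x : Gst) : Bool :=
  alF 51 204 224 (ndl x.1.1) (arcs x.1) (x.2.1, x.2.2) ||
    alF 51 204 224 (ndl x.1.1) (rvE (arcs x.1)) (x.2.2, x.2.1)

theorem goodPair_of_rt' {G : List ℕ × List (ℕ × ℕ)} {s t : ℕ} (hs : s ∈ G.1) (ht : t ∈ G.1)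
    {X' Y' : ℕ × ℕ → Prop} (p1 : ∀ e, X' e → e ∈ arcs G) (p2 : ∀ e, Y' e → e ∈ arcs G)
    (p3 : ∀ e, X' e → ¬ Y' e) (p4 : ∀ v ∈ G.1, RT X' s v) (p5 : ∀ v ∈ G.1, RT Y' v t) :
    ∃ X Y, GoodPair G s t X Y := by
  obtain ⟨f, a, g, b, hGP, -, -⟩ := gpair_of (G := G) (s := s) (t := t) (X := {e | X' e})
    (Y := {e | Y' e}) hs ht (fun e he => mem_arcs.1 (p1 e he)) (fun e he => mem_arcs.1 (p2 e he))
    (fun e he => p3 e he) (fun v hv => rt_walk.1 (p4 v hv)) (fun v hv => rt_walk.1 (p5 v hv))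
  obtain ⟨X, Y, hgood, -⟩ := goodPair_of hGP
  exact ⟨X, Y, hgood⟩

/-- **Soundness.** -/
theorem al4_sound {G : List ℕ × List (ℕ × ℕ)} {s t : ℕ} (hs : s ∈ G.1) (ht : t ∈ G.1)
    (h : al4 (G, (s, t)) = true) : ∃ X Y, GoodPair G s t X Y := by
  unfold al4 at h
  rw [Bool.or_eq_true] at h
  rcases h with h | h
  · obtain ⟨X', Y', p1, p2, p3, p4, p5⟩ := alF_sound h
    exact goodPair_of_rt' hs ht p1 p2 p3
      (fun v hv => p4 v (mem_ndl.2 hv)) (fun v hv => p5 v (mem_ndl.2 hv))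
  · obtain ⟨X', Y', p1, p2, p3, p4, p5⟩ := alF_sound h
    exact goodPair_of_rt' (s := s) (t := t) (X' := fun e => Y' (e.2, e.1))
      (Y' := fun e => X' (e.2, e.1)) hs ht
      (fun e he => mem_rvE.1 (p2 _ he)) (fun e he => mem_rvE.1 (p1 _ he))
      (fun e h1 h2 => p3 _ h2 h1) (fun v hv => rt_swap (p5 v (mem_ndl.2 hv)))
      (fun v hv => rt_swap (p4 v (mem_ndl.2 hv)))

theorem gpair_ndl {G : List ℕ × List (ℕ × ℕ)} {s t : ℕ} {f a g b : ℕ → ℕ}
    (hGP : GPair {v | v ∈ G.1} (Arc G) s t f a g b) :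
    GPair {v | v ∈ ndl G.1} (fun u v => (u, v) ∈ arcs G) s t f a g b := by
  have h1 : (fun u v => (u, v) ∈ arcs G) = Arc G := by
    funext u v
    exact propext mem_arcs
  have h2 : {v | v ∈ ndl G.1} = {v | v ∈ G.1} := by
    ext v
    exact mem_ndl
  rw [h1, h2]
  exact hGP

/-- **Completeness** if one of the two branchings has a short path from `s` to `t`. -/
theorem al4_complete {G : List ℕ × List (ℕ × ℕ)} (hα : AlphaTwo G) {s t : ℕ} {f a g b : ℕ → ℕ}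
    (hGP : GPair {v | v ∈ G.1} (Arc G) s t f a g b) (h : a t ≤ 9 ∨ b s ≤ 9) :
    al4 (G, (s, t)) = true := by
  have hal := (alB_iff'.1 (alphaTwo_iff.1 hα)).2
  have hE : ∀ e ∈ arcs G, e.1 ∈ G.1 ∧ e.2 ∈ G.1 := by
    rintro ⟨u, v⟩ he
    have := mem_arcs.1 he
    exact ⟨this.2.1, this.2.2.1⟩
  have hal' : Al2 (ndl G.1) (arcs G) := by
    intro p hp q hq r hr
    exact hal p (mem_ndl.1 hp) q (mem_ndl.1 hq) r (mem_ndl.1 hr)
  have hGP' := gpair_ndl hGP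
  unfold al4
  rw [Bool.or_eq_true]
  rcases h with h1 | h1
  · exact Or.inl (alF_complete (ndl_nodup _)
      (fun e he => ⟨mem_ndl.2 (hE e he).1, mem_ndl.2 (hE e he).2⟩) hal' hGP' h1)
  · right
    have hD : ∀ u v, (u, v) ∈ arcs G → u ∈ {v | v ∈ ndl G.1} ∧ v ∈ {v | v ∈ ndl G.1} :=
      fun u v he => ⟨mem_ndl.2 (hE _ he).1, mem_ndl.2 (hE _ he).2⟩
    have hrev := hGP'.rev hD
    have heq : (fun u v => (u, v) ∈ rvE (arcs G)) = fun u v => (v, u) ∈ arcs G := by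
      funext u v
      exact propext mem_rvE
    rw [← heq] at hrev
    refine alF_complete (ndl_nodup _) ?_ (al2_rv hal') hrev h1
    rintro ⟨u, v⟩ he
    exact ⟨(hD _ _ (mem_rvE.1 he)).2, (hD _ _ (mem_rvE.1 he)).1⟩

/-- If there is an arc from `s` to `t`, then some good pair has a short path from `s` to `t` in
one of the branchings. -/
theorem exists_near {S : Finset ℕ} {D : ℕ → ℕ → Prop}
    (hD : ∀ u v, D u v → u ∈ S ∧ v ∈ S) {s t : ℕ}
    {f a g b : ℕ → ℕ} (hG : GPair {v | v ∈ S} D s t f a g b) (hst : D s t) :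
    ∃ f a g b, GPair {v | v ∈ S} D s t f a g b ∧ (a t ≤ 1 ∨ b s ≤ 1) := by
  obtain ⟨⟨⟨f', a'⟩, g', b'⟩, p1, hm⟩ := exists_lexmin
    (α := ((ℕ → ℕ) × (ℕ → ℕ)) × ((ℕ → ℕ) × (ℕ → ℕ)))
    (P := fun x => GPair {v | v ∈ S} D s t x.1.1 x.1.2 x.2.1 x.2.2)
    (fun x => x.1.2 t) (fun _ => 0) (fun _ => 0) ⟨((f, a), (g, b)), hG⟩
  simp only at p1 hm
  refine ⟨f', a', g', b', p1, ?_⟩
  by_cases hs : s = t
  · left
    rw [← hs, p1.ob.root]
    omega
  by_cases hg : g' s = t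
  · right
    have := p1.ib.dep s (hD _ _ hst).1 hs
    rw [hg, p1.ib.root] at this
    omega
  · left
    have hn : ¬ Sub f' a' t s := fun hh => hs (p1.ob.sub_root.1 hh).symm
    obtain ⟨f'', a'', h1, -, -, h4, -⟩ := p1.reO (fun u v h => hD u v h) (Ne.symm hs) hst hn
      (fun _ => hg)
    have h5 := (hm ((f'', a''), (g', b')) h1).1
    simp only at h5
    rw [h4 t (OB.sub_refl t), p1.ob.root] at h5
    omega

attribute [local irreducible] ts2 cfs cl2 tup in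
theorem poly_alF (cX cL B : ℕ) : NPC.Poly (fun x : (List ℕ × List (ℕ × ℕ)) × (ℕ × ℕ) =>
    alF cX cL B x.1.1 x.1.2 x.2) := by
  unfold alF
  have hX : NPC.Poly (fun x : Gst × (ℕ × ℕ) => tup cX x.1.1.1) :=
    (poly_tup cX).comp (f := fun x : Gst × (ℕ × ℕ) => x.1.1.1) (by fun_prop)
  have hL : NPC.Poly (fun x : (Gst × (ℕ × ℕ)) × List ℕ => tup cL x.1.1.1.2) :=
    (poly_tup cL).comp (f := fun x : (Gst × (ℕ × ℕ)) × List ℕ => x.1.1.1.2)
      (by fun_prop)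
  refine NPC.Poly.any (p := fun (x : Gst) (y : ℕ × ℕ) =>
    (tup cX x.1.1).any (fun X => (tup cL x.1.2 ×ˢ tup cL x.1.2).any (fun L =>
      ts2 (cfs B x.1.1 x.1.2) x.1.1 x.1.2 (x.2, y) X L (cl2 x.1.1 x.1.2 (x.2, y) L))))
    (by fun_prop) ?_
  refine NPC.Poly.any (p := fun (x : Gst × (ℕ × ℕ)) (X : List ℕ) =>
    (tup cL x.1.1.2 ×ˢ tup cL x.1.1.2).any (fun L =>
      ts2 (cfs B x.1.1.1 x.1.1.2) x.1.1.1 x.1.1.2 (x.1.2, x.2) X L
        (cl2 x.1.1.1 x.1.1.2 (x.1.2, x.2) L))) hX ?_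
  refine NPC.Poly.any (p := fun (x : (Gst × (ℕ × ℕ)) × List ℕ) (L : Lst) =>
    ts2 (cfs B x.1.1.1.1 x.1.1.1.2) x.1.1.1.1 x.1.1.1.2 (x.1.1.2, x.1.2) x.2 L
      (cl2 x.1.1.1.1 x.1.1.1.2 (x.1.1.2, x.1.2) L))
    (R671.poly_product hL hL) ?_
  exact poly_ts2.comp (f := fun p : ((Gst × (ℕ × ℕ)) × List ℕ) × Lst =>
    (cfs B p.1.1.1.1.1 p.1.1.1.1.2, (p.1.1.1.1, ((p.1.1.1.2, p.1.1.2), (p.1.2, (p.2,
      cl2 p.1.1.1.1.1 p.1.1.1.1.2 (p.1.1.1.2, p.1.1.2) p.2)))))) (NPC.Poly.pair ((poly_cfs B).comp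
        (f := fun p : ((Gst × (ℕ × ℕ)) × List ℕ) × Lst => p.1.1.1.1)
        (by fun_prop)) (NPC.Poly.pair (by fun_prop) (NPC.Poly.pair (by fun_prop)
          (NPC.Poly.pair (by fun_prop) (NPC.Poly.pair (by fun_prop) (poly_cl2.comp
            (f := fun p : ((Gst × (ℕ × ℕ)) × List ℕ) × Lst =>
              (p.1.1.1.1, ((p.1.1.1.2, p.1.1.2), p.2))) (by fun_prop)))))))

attribute [local irreducible] alF arcs ndl rvE in
theorem poly_al4 : NPC.Poly (fun x : Gst => al4 x) := by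
  unfold al4
  have h1 : NPC.Poly (fun x : Gst => ndl x.1.1) :=
    poly_ndl.comp (f := fun x : Gst => x.1.1) (by fun_prop)
  have h2 : NPC.Poly (fun x : Gst => arcs x.1) :=
    poly_arcs.comp (f := fun x : Gst => x.1) (by fun_prop)
  refine NPC.Poly.or ?_ ?_
  · exact (poly_alF 51 204 224).comp (f := fun x : Gst =>
      ((ndl x.1.1, arcs x.1), (x.2.1, x.2.2))) (NPC.Poly.pair (NPC.Poly.pair h1 h2) (by fun_prop))
  · exact (poly_alF 51 204 224).comp (f := fun x : Gst =>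
      ((ndl x.1.1, rvE (arcs x.1)), (x.2.2, x.2.1))) (NPC.Poly.pair (NPC.Poly.pair h1
        (poly_rvE.comp h2)) (by fun_prop))

/-- the test for the input -/
def pre (x : Gst) : Bool :=
  alB x.1.1 (arcs x.1) && (decide (x.2.1 ∈ x.1.1) && decide (x.2.2 ∈ x.1.1))

attribute [local irreducible] alB arcs in
theorem poly_pre : NPC.Poly (fun x : Gst => pre x) := by
  unfold pre
  exact NPC.Poly.and (poly_alB.comp (f := fun x : Gst =>
    (x.1.1, arcs x.1)) (NPC.Poly.pair (by fun_prop) (poly_arcs.comp (f := fun x : Gst => x.1)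
      (by fun_prop)))) (by fun_prop)

theorem pre_iff {x : Gst} : pre x = true ↔ AlphaTwo x.1 ∧ x.2.1 ∈ x.1.1 ∧ x.2.2 ∈ x.1.1 := by
  unfold pre
  rw [Bool.and_eq_true, Bool.and_eq_true, ← alphaTwo_iff, decide_eq_true_eq, decide_eq_true_eq]

attribute [local irreducible] al4 pre in
theorem inPP_al4 : InPP (fun x : Gst => (AlphaTwo x.1 ∧ x.2.1 ∈ x.1.1 ∧ x.2.2 ∈ x.1.1) ∧
    al4 x = true) := by
  refine inPP_of (NPC.Poly.and poly_pre poly_al4) fun x => ?_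
  rw [Bool.and_eq_true, pre_iff]

/-- the test for equality or for an arc -/
def eqArc (y : List (ℕ × ℕ) × (ℕ × ℕ)) : Bool := decide (y.2.1 = y.2.2) || decide (y.2 ∈ y.1)

theorem poly_eqArc : NPC.Poly (fun y : List (ℕ × ℕ) × (ℕ × ℕ) => eqArc y) := by
  unfold eqArc
  fun_prop

/-- The prescribed roots are equal, or joined by an arc from `s` to `t`. -/
theorem goodPair_near {G : List ℕ × List (ℕ × ℕ)} (hα : AlphaTwo G) {s t : ℕ}
    (hst : s = t ∨ Arc G s t) {X Y : Set (ℕ × ℕ)} (h : GoodPair G s t X Y) :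
    al4 (G, (s, t)) = true := by
  obtain ⟨hO, hI, hdj⟩ := h
  obtain ⟨f, a, g, b, hGP, -, -⟩ := gpair_of (G := G) (s := s) (t := t) (X := X) (Y := Y)
    hO.1 hI.1 (fun e he => (hO.2.1 e he).1) (fun e he => (hI.2.1 e he).1)
    (fun e he => Set.disjoint_left.1 hdj he) hO.2.2.2 hI.2.2.2
  rcases hst with rfl | hst
  · refine al4_complete hα hGP (Or.inl ?_)
    rw [hGP.ob.root]
    omega
  · have heq : {v | v ∈ G.1} = {v | v ∈ G.1.toFinset} := by
      ext v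
      simp only [Set.mem_ofPred_eq, List.mem_toFinset]
    have hGP' : GPair {v | v ∈ G.1.toFinset} (Arc G) s t f a g b := by
      rw [← heq]
      exact hGP
    obtain ⟨f', a', g', b', hG', hc⟩ := exists_near (S := G.1.toFinset) (D := Arc G)
      (fun u v hh => ⟨List.mem_toFinset.2 hh.2.1, List.mem_toFinset.2 hh.2.2.1⟩) hGP' hst
    rw [← heq] at hG'
    exact al4_complete hα hG' (by omega)

attribute [local irreducible] al4 pre arcs eqArc in
/-- The good pair problem with prescribed roots `s` and `t` for digraphs of independence number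
two is in `P` if restricted to inputs with `s = t` or with an arc from `s` to `t`. -/
theorem inPP_near : InPP (fun x : Gst => AlphaTwo x.1 ∧
    (x.2.1 = x.2.2 ∨ Arc x.1 x.2.1 x.2.2) ∧ ∃ X Y, GoodPair x.1 x.2.1 x.2.2 X Y) := by
  refine inPP_of (NPC.Poly.and (NPC.Poly.and poly_pre poly_al4) (poly_eqArc.comp
    (f := fun x : Gst => (arcs x.1, x.2)) (NPC.Poly.pair (poly_arcs.comp
      (f := fun x : Gst => x.1) (by fun_prop)) (by fun_prop)))) fun x => ?_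
  obtain ⟨G, s, t⟩ := x
  rw [Bool.and_eq_true, Bool.and_eq_true, pre_iff]
  have he : eqArc (arcs G, (s, t)) = true ↔ (s = t ∨ Arc G s t) := by
    unfold eqArc
    rw [Bool.or_eq_true, decide_eq_true_eq, decide_eq_true_eq]
    exact or_congr Iff.rfl mem_arcs
  change (AlphaTwo G ∧ (s = t ∨ Arc G s t) ∧ ∃ X Y, GoodPair G s t X Y) ↔
    ((AlphaTwo G ∧ s ∈ G.1 ∧ t ∈ G.1) ∧ al4 (G, (s, t)) = true) ∧ eqArc (arcs G, (s, t)) = true
  rw [he]
  constructor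
  · rintro ⟨h1, h2, X, Y, h3⟩
    exact ⟨⟨⟨h1, h3.1.1, h3.2.1.1⟩, goodPair_near h1 h2 h3⟩, h2⟩
  · rintro ⟨⟨⟨h1, h2, h3⟩, h4⟩, h5⟩
    exact ⟨h1, h5, al4_sound h2 h3 h4⟩

/-- Good pairs with prescribed roots, a path of length at most nine from `s` to `t` in one of the
two branchings being promised. -/
theorem inPP_promise : ∃ L : Gst → Prop, InPP L ∧
    (∀ G s t, L (G, (s, t)) → AlphaTwo G ∧ ∃ X Y, GoodPair G s t X Y) ∧
    ∀ G s t X Y n, AlphaTwo G → GoodPair G s t X Y → n ≤ 9 → (Walk X n s t ∨ Walk Y n s t) →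
      L (G, (s, t)) := by
  refine ⟨_, inPP_al4, fun G s t h => ⟨h.1.1, al4_sound h.1.2.1 h.1.2.2 h.2⟩, ?_⟩
  intro G s t X Y n hα h hn hw
  refine ⟨⟨hα, h.1.1, h.2.1.1⟩, ?_⟩
  obtain ⟨hO, hI, hdj⟩ := h
  obtain ⟨f, a, g, b, hGP, h1, h2⟩ := gpair_of (G := G) (s := s) (t := t) (X := X) (Y := Y)
    hO.1 hI.1 (fun e he => (hO.2.1 e he).1) (fun e he => (hI.2.1 e he).1)
    (fun e he => Set.disjoint_left.1 hdj he) hO.2.2.2 hI.2.2.2
  refine al4_complete hα hGP ?_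
  rcases hw with hw | hw
  · exact Or.inl ((h1 t hI.1 n hw).trans hn)
  · exact Or.inr ((h2 s hO.1 n hw).trans hn)

end Pool.Agent.H871.GP
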