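import Pool.Agent.H871_GP.Time4
import Pool.Agent.H871_GP.Corr2

/-!
# The good pair problem for digraphs of independence number two is in P
-/

namespace Pool.Agent.H871.GP

open Relation Pool.Agent.NPC

/-- the algorithm -/
def al3 (G : List ℕ × List (ℕ × ℕ)) : Bool :=
  al2 51 204 224 (ndl G.1) (arcs G) || al2 51 204 224 (ndl G.1) (rvE (arcs G))

theorem goodPair_of_rt {G : List ℕ × List (ℕ × ℕ)} {s t : ℕ} (hs : s ∈ G.1) (ht : t ∈ G.1)
    {X' Y' : ℕ × ℕ → Prop} (p1 : ∀ e, X' e → e ∈ arcs G) (p2 : ∀ e, Y' e → e ∈ arcs G)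
    (p3 : ∀ e, X' e → ¬ Y' e) (p4 : ∀ v ∈ G.1, RT X' s v) (p5 : ∀ v ∈ G.1, RT Y' v t) :
    ∃ s t X Y, GoodPair G s t X Y := by
  obtain ⟨f, a, g, b, hGP, -, -⟩ := gpair_of (G := G) (s := s) (t := t) (X := {e | X' e})
    (Y := {e | Y' e}) hs ht (fun e he => mem_arcs.1 (p1 e he)) (fun e he => mem_arcs.1 (p2 e he))
    (fun e he => p3 e he) (fun v hv => rt_walk.1 (p4 v hv)) (fun v hv => rt_walk.1 (p5 v hv))
  obtain ⟨X, Y, hgood, -⟩ := goodPair_of hGP
  exact ⟨s, t, X, Y, hgood⟩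

theorem rt_swap {R : ℕ × ℕ → Prop} {u v : ℕ} (h : RT R u v) : RT (fun e => R (e.2, e.1)) v u := by
  induction h with
  | refl => exact ReflTransGen.refl
  | tail _ h2 ih => exact ReflTransGen.head h2 ih

/-- **Correctness.** -/
theorem al3_iff {G : List ℕ × List (ℕ × ℕ)} (hα : AlphaTwo G) :
    al3 G = true ↔ ∃ s t X Y, GoodPair G s t X Y := by
  have hal := (alB_iff'.1 (alphaTwo_iff.1 hα)).2
  have hE : ∀ e ∈ arcs G, e.1 ∈ G.1 ∧ e.2 ∈ G.1 := by
    rintro ⟨u, v⟩ he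
    have := mem_arcs.1 he
    exact ⟨this.2.1, this.2.2.1⟩
  unfold al3
  rw [Bool.or_eq_true]
  constructor
  · rintro (h | h)
    · obtain ⟨s, hs, t, ht, X', Y', p1, p2, p3, p4, p5⟩ := al2_sound h
      exact goodPair_of_rt (mem_ndl.1 hs) (mem_ndl.1 ht) p1 p2 p3
        (fun v hv => p4 v (mem_ndl.2 hv)) (fun v hv => p5 v (mem_ndl.2 hv))
    · obtain ⟨s, hs, t, ht, X', Y', p1, p2, p3, p4, p5⟩ := al2_sound h
      refine goodPair_of_rt (s := t) (t := s) (X' := fun e => Y' (e.2, e.1))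
        (Y' := fun e => X' (e.2, e.1)) (mem_ndl.1 ht) (mem_ndl.1 hs)
        (fun e he => mem_rvE.1 (p2 _ he)) (fun e he => mem_rvE.1 (p1 _ he))
        (fun e h1 h2 => p3 _ h2 h1) (fun v hv => rt_swap (p5 v (mem_ndl.2 hv)))
        (fun v hv => rt_swap (p4 v (mem_ndl.2 hv)))
  · rintro ⟨s, t, X, Y, hO, hI, hdj⟩
    obtain ⟨f, a, g, b, hGP, -, -⟩ := gpair_of (G := G) (s := s) (t := t) (X := X) (Y := Y)
      hO.1 hI.1 (fun e he => (hO.2.1 e he).1) (fun e he => (hI.2.1 e he).1)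
      (fun e he => Set.disjoint_left.1 hdj he) hO.2.2.2 hI.2.2.2
    have hGP' : GPair {v | v ∈ ndl G.1} (fun u v => (u, v) ∈ arcs G) s t f a g b := by
      have h1 : (fun u v => (u, v) ∈ arcs G) = Arc G := by
        funext u v
        exact propext mem_arcs
      have h2 : {v | v ∈ ndl G.1} = {v | v ∈ G.1} := by
        ext v
        exact mem_ndl
      rw [h1, h2]
      exact hGP
    refine al2_main (ndl_nodup _) (fun e he => ⟨mem_ndl.2 (hE e he).1, mem_ndl.2 (hE e he).2⟩)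
      ?_ hGP'
    intro p hp q hq r hr
    exact hal p (mem_ndl.1 hp) q (mem_ndl.1 hq) r (mem_ndl.1 hr)

attribute [local irreducible] al2 arcs ndl rvE in
theorem poly_al3 : NPC.Poly (fun G : List ℕ × List (ℕ × ℕ) => al3 G) := by
  unfold al3
  have h1 : NPC.Poly (fun G : List ℕ × List (ℕ × ℕ) => ndl G.1) :=
    poly_ndl.comp (f := fun G : List ℕ × List (ℕ × ℕ) => G.1) (by fun_prop)
  refine NPC.Poly.or ?_ ?_
  · exact (poly_al2 51 204 224).comp (f := fun G : List ℕ × List (ℕ × ℕ) =>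
      (ndl G.1, arcs G)) (NPC.Poly.pair h1 poly_arcs)
  · exact (poly_al2 51 204 224).comp (f := fun G : List ℕ × List (ℕ × ℕ) =>
      (ndl G.1, rvE (arcs G))) (NPC.Poly.pair h1 (poly_rvE.comp poly_arcs))

attribute [local irreducible] al3 alB arcs in
/-- The good pair problem for digraphs of independence number two is in `P`. -/
theorem inPP_goodPair : InPP (fun G : List ℕ × List (ℕ × ℕ) => AlphaTwo G ∧
    ∃ s t X Y, GoodPair G s t X Y) := by
  refine inPP_of (NPC.Poly.and (poly_alB.comp (f := fun G : List ℕ × List (ℕ × ℕ) =>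
    (G.1, arcs G)) (NPC.Poly.pair (by fun_prop) poly_arcs)) poly_al3) fun G => ?_
  rw [Bool.and_eq_true]
  change (AlphaTwo G ∧ ∃ s t X Y, GoodPair G s t X Y) ↔ alB G.1 (arcs G) = true ∧ al3 G = true
  rw [← alphaTwo_iff]
  constructor
  · rintro ⟨h1, h2⟩
    exact ⟨h1, (al3_iff h1).2 h2⟩
  · rintro ⟨h1, h2⟩
    exact ⟨h1, (al3_iff h1).1 h2⟩

end Pool.Agent.H871.GP
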