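import Pool.Agent.H871_GP.Ops

/-!
# Optimal good pairs with a fixed centre
-/

namespace Pool.Agent.H871.GP

variable {V : Type*} {S : Set V} {D : V → V → Prop} {s t : V} {f : V → V} {a : V → ℕ} {g : V → V}
  {b : V → ℕ} {y1 y2 : V} {c : ℕ}

/-- `v` is a vertex different from `t` and not adjacent to `t`. -/
def NA (S : Set V) (D : V → V → Prop) (t v : V) : Prop := v ∈ S ∧ v ≠ t ∧ ¬ D t v ∧ ¬ D v t

/-- An optimal good pair with respect to the non-neighbours of the root `t` of the in-branching. -/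
structure Opt (S : Set V) (D : V → V → Prop) (s t : V) (f : V → V) (a : V → ℕ) (g : V → V)
    (b : V → ℕ) (y1 y2 : V) (c : ℕ) : Prop where
  hD : ∀ u v, D u v → u ∈ S ∧ v ∈ S
  hα : ∀ p ∈ S, ∀ q ∈ S, ∀ r ∈ S, p ≠ q → p ≠ r → q ≠ r →
      (D p q ∨ D q p) ∨ (D p r ∨ D r p) ∨ (D q r ∨ D r q)
  tight : Tight S D s t f a g b
  n1 : NA S D t y1
  n2 : NA S D t y2
  tc : a t ≤ c
  mn : ∀ f' a' g' b' z1 z2, GPair S D s t f' a' g' b' → a' t ≤ c → NA S D t z1 → NA S D t z2 →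
    a y1 + b y2 ≤ a' z1 + b' z2 ∧ (a' z1 + b' z2 ≤ a y1 + b y2 → a y2 + b y1 ≤ a' z2 + b' z1)

namespace Opt

variable (h : Opt S D s t f a g b y1 y2 c)

include h

theorem hD' : ∀ u v, D v u → u ∈ S ∧ v ∈ S := fun u v hh => (h.hD v u hh).symm

theorem tS : t ∈ S := h.tight.pair.ib.mem

theorem adj {u v : V} (hu : NA S D t u) (hv : NA S D t v) (huv : u ≠ v) : D u v ∨ D v u := by
  rcases h.hα t h.tS u hu.1 v hv.1 hu.2.1.symm hv.2.1.symm huv with h1 | h1 | h1
  · exact absurd h1 (not_or.2 hu.2.2)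
  · exact absurd h1 (not_or.2 hv.2.2)
  · exact h1

theorem l1a {w : V} (hw : NA S D t w) : a y1 ≤ a w := by
  have := (h.mn f a g b w y2 h.tight.pair h.tc hw h.n2).1
  omega

theorem l1b {w : V} (hw : NA S D t w) : b y2 ≤ b w := by
  have := (h.mn f a g b y1 w h.tight.pair h.tc h.n1 hw).1
  omega

theorem f1 {w : V} (hw : NA S D t w) (hne : w ≠ y1) (ha : a y1 + 2 ≤ a w) (hg : g y1 ≠ w) :
    D w y1 ∧ ¬ D y1 w := by
  have h1 : ¬ D y1 w := fun hd => by
    have := h.tight.bfsO h.hD hd (fun _ => hg)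
    omega
  exact ⟨(h.adj hw h.n1 hne).resolve_right h1, h1⟩

theorem f2 {w : V} (hw : NA S D t w) (hne : w ≠ y2) (hb : b y2 + 2 ≤ b w) (hf : f y2 ≠ w) :
    D y2 w ∧ ¬ D w y2 := by
  have h1 : ¬ D w y2 := fun hd => by
    have := h.tight.bfsI h.hD hd (fun _ => hf)
    omega
  exact ⟨(h.adj hw h.n2 hne).resolve_left h1, h1⟩

/-- The first exchange. -/
theorem x1 {z v : V} (hz : NA S D t z) (hzy : D z y1) (hgz : g z = v) (hav : a z + 2 ≤ a v)
    (hsub : Sub f a v y2) : Sub g b z y1 ∨ Sub g b z y2 := by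
  by_contra hcon
  rw [not_or] at hcon
  have hG := h.tight.pair
  have hzt : z ≠ t := hz.2.1
  have hdz : D z v := hgz ▸ hG.ib.arc z hz.1 hzt
  obtain ⟨g', b', q1, q2, q3, q4, q5⟩ := hG.reI h.hD hzt hzy hcon.1 (fun hy1s he => by
    have h1 := hG.ob.dep y1 h.n1.1 hy1s
    have h2 := h.l1a hz
    rw [he] at h1
    omega)
  have hvs : v ≠ s := by
    rintro rfl
    rw [hG.ob.root] at hav
    omega
  have hns : ¬ Sub f a v z := fun hs => by
    have := hG.ob.sub_le h.hD hz.1 hs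
    omega
  obtain ⟨f', a', r1, r2, r3, r4, r5⟩ := q1.reO h.hD hvs hdz hns (fun _ he => by
    rw [q2] at he
    have := h.l1a hz
    rw [he] at this
    omega)
  have hle : ∀ w ∈ S, a' w ≤ a w := by
    intro w hw
    by_cases hs : Sub f a v w
    · have := hG.ob.sub_le h.hD hw hs
      rw [r4 w hs]
      omega
    · rw [r5 w hs]
  have m := h.mn f' a' g' b' y1 y2 r1 ((hle t h.tS).trans h.tc) h.n1 h.n2
  have h1 := hle y1 h.n1.1
  have h2 := hG.ob.sub_le h.hD h.n2.1 hsub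
  rw [q5 y1 hcon.1, q5 y2 hcon.2, r4 y2 hsub] at m
  have := m.2 (by omega)
  omega

/-- The second exchange. -/
theorem x2 {z u : V} (hz : NA S D t z) (hyz : D y2 z) (hzs : z ≠ s) (hfz : f z = u)
    (hbu : b z + 2 ≤ b u) (hsub : Sub g b u y1) :
    Sub f a z y2 ∨ Sub f a z y1 ∨ Sub f a z t := by
  by_contra hcon
  rw [not_or, not_or] at hcon
  have hG := h.tight.pair
  have hdz : D u z := hfz ▸ hG.ob.arc z hz.1 hzs
  obtain ⟨f', a', q1, q2, q3, q4, q5⟩ := hG.reO h.hD hzs hyz hcon.1 (fun hy2t he => by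
    have h1 := hG.ib.dep y2 h.n2.1 hy2t
    have h2 := h.l1b hz
    rw [he] at h1
    omega)
  have hut : u ≠ t := by
    rintro rfl
    rw [hG.ib.root] at hbu
    omega
  have hns : ¬ Sub g b u z := fun hs => by
    have := hG.ib.sub_le h.hD' hz.1 hs
    omega
  obtain ⟨g', b', r1, r2, r3, r4, r5⟩ := q1.reI h.hD hut hdz hns (fun _ he => by
    rw [q2] at he
    have := h.l1b hz
    rw [he] at this
    omega)
  have hle : ∀ w ∈ S, b' w ≤ b w := by
    intro w hw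
    by_cases hs : Sub g b u w
    · have := hG.ib.sub_le h.hD' hw hs
      rw [r4 w hs]
      omega
    · rw [r5 w hs]
  have m := h.mn f' a' g' b' y1 y2 r1 (by rw [q5 t hcon.2.2]; exact h.tc) h.n1 h.n2
  have h1 := hle y2 h.n2.1
  have h2 := hG.ib.sub_le h.hD' h.n1.1 hsub
  rw [q5 y1 hcon.2.1, q5 y2 hcon.1, r4 y1 hsub] at m
  have := m.2 (by omega)
  omega

end Opt

/-- good vertices inside -/
def IsM (S : Set V) (D : V → V → Prop) (t y1 y2 v : V) : Prop :=
  NA S D t v ∧ v ≠ y1 ∧ v ≠ y2 ∧ D v y1 ∧ D y2 v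

/-- A vertex on the path to `y` is determined by its depth. -/
theorem sub_pt {y v : V} (hob : OB S D s f a) (hD : ∀ u v, D u v → u ∈ S ∧ v ∈ S) (hy : y ∈ S)
    (hs : Sub f a v y) : v = f^[a y - a v] y := by
  obtain ⟨k, hk, rfl⟩ := hs
  have h1 := (hob.iter hD hy k hk).2
  rw [h1]
  congr 1
  omega

/-- the vertex at depth `i` on the path to `y` -/
def lv (f : V → V) (a : V → ℕ) (y : V) (i : ℕ) : V := f^[a y - i] y

namespace Opt

variable (h : Opt S D s t f a g b y1 y2 c)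

include h

/-- the vertices with large depth -/
theorem typeA {v : V} (hv : v ∈ S) (hav : a t + 2 ≤ a v) : NA S D t v ∨ (D v t ∧ ¬ D t v) := by
  have h1 : ¬ D t v := fun hd => by
    have := h.tight.bfsO h.hD hd (fun hh => absurd rfl hh)
    omega
  have h2 : v ≠ t := by rintro rfl; omega
  by_cases h3 : D v t
  · exact Or.inr ⟨h3, h1⟩
  · exact Or.inl ⟨hv, h2, h1, h3⟩

/-- the vertices far from the root of the in-branching -/
theorem typeB {v : V} (hv : v ∈ S) (hbv : 2 ≤ b v) (hf : t ≠ s → f t ≠ v) :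
    NA S D t v ∨ (D t v ∧ ¬ D v t) := by
  have h1 : ¬ D v t := fun hd => by
    have := h.tight.bfsI h.hD hd hf
    rw [h.tight.pair.ib.root] at this
    omega
  have h2 : v ≠ t := by
    rintro rfl
    rw [h.tight.pair.ib.root] at hbv
    omega
  by_cases h3 : D t v
  · exact Or.inr ⟨h3, h1⟩
  · exact Or.inl ⟨hv, h2, h3, h1⟩

/-- Vertices on the path of the out-branching to `y2`. -/
theorem clsP {v : V} (hs : Sub f a v y2) (hv : v ∈ S) :
    (D v t ∧ ¬ D t v ∧ a t + 2 ≤ a v) ∨ IsM S D t y1 y2 v ∨ a v ≤ a t + 1 ∨ v = y1 ∨ v = y2 ∨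
      a v = a y1 ∨ a v = a y1 + 1 ∨ v = g y1 ∨ a v + 1 = a y2 ∨
      (Sub g b v y1 ∧ b v = b y2 + 1) := by
  by_cases c1 : a v ≤ a t + 1
  · tauto
  rcases h.typeA hv (by omega) with hN | hN
  swap
  · exact Or.inl ⟨hN.1, hN.2, by omega⟩
  by_cases c2 : v = y1
  · tauto
  by_cases c3 : v = y2
  · tauto
  by_cases c4 : a v = a y1 ∨ a v = a y1 + 1
  · tauto
  by_cases c5 : v = g y1
  · tauto
  by_cases c6 : a v + 1 = a y2
  · tauto
  have h1 := h.l1a hN
  obtain ⟨d1, -⟩ := h.f1 hN c2 (by omega) (fun hh => c5 hh.symm)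
  have hlt : a v < a y2 := by
    have h2 := h.tight.pair.ob.sub_le h.hD h.n2.1 hs
    rcases Nat.lt_or_ge (a v) (a y2) with h3 | h3
    · exact h3
    · exfalso
      have h4 := sub_pt h.tight.pair.ob h.hD h.n2.1 hs
      rw [show a y2 - a v = 0 by omega] at h4
      exact c3 h4
  by_cases d2 : D y2 v
  · exact Or.inr (Or.inl ⟨hN, c2, c3, d1, d2⟩)
  · have d3 := (h.adj hN h.n2 c3).resolve_right d2
    by_cases hg : g v = y2
    · have hb := h.tight.pair.ib.dep v hv hN.2.1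
      rw [hg] at hb
      rcases h.x1 hN d1 hg (by omega) (OB.sub_refl _) with h5 | h5
      · tauto
      · have := h.tight.pair.ib.sub_le h.hD' h.n2.1 h5
        omega
    · have := h.tight.bfsO h.hD d3 (fun _ => hg)
      omega

/-- Vertices on the path of the out-branching to `y1`. -/
theorem clsP1 {v : V} (hs : Sub f a v y1) (hv : v ∈ S) :
    (D v t ∧ ¬ D t v ∧ a t + 2 ≤ a v) ∨ a v ≤ a t + 1 ∨ v = y1 := by
  by_cases c1 : a v ≤ a t + 1
  · tauto
  rcases h.typeA hv (by omega) with hN | hN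
  swap
  · exact Or.inl ⟨hN.1, hN.2, by omega⟩
  have h1 := h.l1a hN
  have h2 := h.tight.pair.ob.sub_le h.hD h.n1.1 hs
  have h4 := sub_pt h.tight.pair.ob h.hD h.n1.1 hs
  rw [show a y1 - a v = 0 by omega] at h4
  exact Or.inr (Or.inr h4)

/-- Vertices on the path of the in-branching from `y1`. -/
theorem clsQ {v : V} (hs : Sub g b v y1) (hv : v ∈ S) :
    (D t v ∧ ¬ D v t ∧ 2 ≤ b v) ∨ IsM S D t y1 y2 v ∨ b v ≤ 1 ∨ v = f t ∨ v = y1 ∨ v = y2 ∨
      v = f y2 ∨ b v + 1 = b y1 ∨ b v = b y2 ∨ b v = b y2 + 1 ∨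
      (Sub f a v y2 ∧ a v = a y1 + 1) ∨ (Sub f a v t ∧ a v = a y1 + 1) := by
  by_cases c1 : b v ≤ 1
  · tauto
  by_cases c0 : v = f t
  · tauto
  rcases h.typeB hv (by omega) (fun _ hh => c0 hh.symm) with hN | hN
  swap
  · exact Or.inl ⟨hN.1, hN.2, by omega⟩
  by_cases c2 : v = y1
  · tauto
  by_cases c3 : v = y2
  · tauto
  by_cases c4 : b v = b y2 ∨ b v = b y2 + 1
  · tauto
  by_cases c5 : v = f y2
  · tauto
  by_cases c6 : b v + 1 = b y1
  · tauto
  have h1 := h.l1b hN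
  obtain ⟨d1, -⟩ := h.f2 hN c3 (by omega) (fun hh => c5 hh.symm)
  have hlt : b v < b y1 := by
    have h2 := h.tight.pair.ib.sub_le h.hD' h.n1.1 hs
    rcases Nat.lt_or_ge (b v) (b y1) with h3 | h3
    · exact h3
    · exfalso
      have h4 := sub_pt h.tight.pair.ib h.hD' h.n1.1 hs
      rw [show b y1 - b v = 0 by omega] at h4
      exact c2 h4
  by_cases d2 : D v y1
  · exact Or.inr (Or.inl ⟨hN, c2, c3, d2, d1⟩)
  · have d3 := (h.adj hN h.n1 c2).resolve_left d2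
    by_cases hg : v ≠ s ∧ f v = y1
    · have ha := h.tight.pair.ob.dep v hv hg.1
      rw [hg.2] at ha
      rcases h.x2 hN d1 hg.1 hg.2 (by omega) (OB.sub_refl _) with h5 | h5 | h5
      · tauto
      · have := h.tight.pair.ob.sub_le h.hD h.n1.1 h5
        omega
      · tauto
    · have := h.tight.bfsI h.hD d3 (fun hh he => hg ⟨hh, he⟩)
      omega

/-- Vertices on the path of the in-branching from `y2`. -/
theorem clsQ2 {v : V} (hs : Sub g b v y2) (hv : v ∈ S) :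
    (D t v ∧ ¬ D v t ∧ 2 ≤ b v) ∨ b v ≤ 1 ∨ v = f t ∨ v = y2 := by
  by_cases c1 : b v ≤ 1
  · tauto
  by_cases c0 : v = f t
  · tauto
  rcases h.typeB hv (by omega) (fun _ hh => c0 hh.symm) with hN | hN
  swap
  · exact Or.inl ⟨hN.1, hN.2, by omega⟩
  have h1 := h.l1b hN
  have h2 := h.tight.pair.ib.sub_le h.hD' h.n2.1 hs
  have h4 := sub_pt h.tight.pair.ib h.hD' h.n2.1 hs
  rw [show b y2 - b v = 0 by omega] at h4
  exact Or.inr (Or.inr (Or.inr h4))

end Opt

end Pool.Agent.H871.GP
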