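import Pool.Agent.H871_GP.Tree

/-!
# Exchange operations on good pairs, and tight good pairs
-/

namespace Pool.Agent.H871.GP

variable {V : Type*} {S : Set V} {D : V → V → Prop} {s t : V} {f : V → V} {a : V → ℕ} {g : V → V}
  {b : V → ℕ}

/-- Changing the parent of `v` in the out-branching to `u`. -/
theorem GPair.reO (hD : ∀ u v, D u v → u ∈ S ∧ v ∈ S) (h : GPair S D s t f a g b) {u v : V}
    (hvs : v ≠ s) (huv : D u v) (hn : ¬ Sub f a v u) (hI : u ≠ t → g u ≠ v) :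
    ∃ f' a', GPair S D s t f' a' g b ∧ f' v = u ∧ (∀ w, w ≠ v → f' w = f w) ∧
      (∀ w, Sub f a v w → a' w = (a w - a v) + (a u + 1)) ∧ ∀ w, ¬ Sub f a v w → a' w = a w := by
  classical
  have hob := h.ob.reparent hD hvs huv hn
  refine ⟨_, _, ⟨hob, h.ib, fun w hw hws hft => ?_⟩, Function.update_self _ _ _,
    fun w hw => Function.update_of_ne hw _ _, fun w hw => if_pos hw, fun w hw => if_neg hw⟩
  by_cases hwv : w = v
  · subst hwv
    rw [Function.update_self] at hft ⊢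
    exact hI hft
  · rw [Function.update_of_ne hwv] at hft ⊢
    exact h.dj w hw hws hft

/-- Changing the parent of `u` in the in-branching to `v`. -/
theorem GPair.reI (hD : ∀ u v, D u v → u ∈ S ∧ v ∈ S) (h : GPair S D s t f a g b) {u v : V}
    (hut : u ≠ t) (huv : D u v) (hn : ¬ Sub g b u v) (hO : v ≠ s → f v ≠ u) :
    ∃ g' b', GPair S D s t f a g' b' ∧ g' u = v ∧ (∀ w, w ≠ u → g' w = g w) ∧
      (∀ w, Sub g b u w → b' w = (b w - b u) + (b v + 1)) ∧ ∀ w, ¬ Sub g b u w → b' w = b w := by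
  have hD' : ∀ u v, D v u → u ∈ S ∧ v ∈ S := fun u v h => (hD v u h).symm
  obtain ⟨g', b', h1, h2⟩ := GPair.reO (D := fun u v => D v u) hD' (h.rev hD) hut huv hn hO
  exact ⟨g', b', h1.rev hD', h2⟩

/-- Moving the root of the out-branching to `v`. -/
theorem GPair.shO (hD : ∀ u v, D u v → u ∈ S ∧ v ∈ S) (h : GPair S D s t f a g b) {v : V}
    (hvs : v ≠ s) (hv : D v s) (hI : v ≠ t → g v ≠ s) :
    ∃ f' a', GPair S D v t f' a' g b ∧ f' s = v ∧ (∀ w, w ≠ s → f' w = f w) ∧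
      (∀ w, Sub f a v w → a' w = a w - a v) ∧ ∀ w, ¬ Sub f a v w → a' w = a w + 1 := by
  classical
  have hob := h.ob.shift hD hvs hv
  refine ⟨_, _, ⟨hob, h.ib, fun w hw hws hft => ?_⟩, Function.update_self _ _ _,
    fun w hw => Function.update_of_ne hw _ _, fun w hw => if_pos hw, fun w hw => if_neg hw⟩
  by_cases hwv : w = s
  · subst hwv
    rw [Function.update_self] at hft ⊢
    exact hI hft
  · rw [Function.update_of_ne hwv] at hft ⊢
    exact h.dj w hw hwv hft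

/-- Moving the root of the in-branching to `v`. -/
theorem GPair.shI (hD : ∀ u v, D u v → u ∈ S ∧ v ∈ S) (h : GPair S D s t f a g b) {v : V}
    (hvt : v ≠ t) (hv : D t v) (hO : v ≠ s → f v ≠ t) :
    ∃ g' b', GPair S D s v f a g' b' ∧ g' t = v ∧ (∀ w, w ≠ t → g' w = g w) ∧
      (∀ w, Sub g b v w → b' w = b w - b v) ∧ ∀ w, ¬ Sub g b v w → b' w = b w + 1 := by
  have hD' : ∀ u v, D v u → u ∈ S ∧ v ∈ S := fun u v h => (hD v u h).symm
  obtain ⟨g', b', h1, h2⟩ := GPair.shO (D := fun u v => D v u) hD' (h.rev hD) hvt hv hO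
  exact ⟨g', b', h1.rev hD', h2⟩

/-- No improvement of one of the two branchings is possible. -/
structure Tight (S : Set V) (D : V → V → Prop) (s t : V) (f : V → V) (a : V → ℕ) (g : V → V)
    (b : V → ℕ) : Prop where
  pair : GPair S D s t f a g b
  tO : ∀ f' a', GPair S D s t f' a' g b → (∀ w ∈ S, a' w ≤ a w) → ∀ w ∈ S, a' w = a w
  tI : ∀ g' b', GPair S D s t f a g' b' → (∀ w ∈ S, b' w ≤ b w) → ∀ w ∈ S, b' w = b w

theorem Tight.rev (hD : ∀ u v, D u v → u ∈ S ∧ v ∈ S) (h : Tight S D s t f a g b) :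
    Tight S (fun u v => D v u) t s g b f a := by
  have hD' : ∀ u v, D v u → u ∈ S ∧ v ∈ S := fun u v h => (hD v u h).symm
  exact ⟨h.pair.rev hD, fun f' a' hg => h.tI f' a' (hg.rev hD'),
    fun g' b' hg => h.tO g' b' (hg.rev hD')⟩

theorem Tight.bfsO (hD : ∀ u v, D u v → u ∈ S ∧ v ∈ S) (h : Tight S D s t f a g b) {u v : V}
    (huv : D u v) (hI : u ≠ t → g u ≠ v) : a v ≤ a u + 1 := by
  by_contra hcon
  push Not at hcon
  have hvs : v ≠ s := by
    rintro rfl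
    rw [h.pair.ob.root] at hcon
    omega
  have hn : ¬ Sub f a v u := fun hs => by
    have := h.pair.ob.sub_le hD (hD _ _ huv).1 hs
    omega
  obtain ⟨f', a', h1, -, -, h4, h5⟩ := h.pair.reO hD hvs huv hn hI
  have h6 := h.tO f' a' h1 (fun w hw => by
    by_cases hs : Sub f a v w
    · have := h.pair.ob.sub_le hD hw hs
      rw [h4 w hs]
      omega
    · rw [h5 w hs]) v (hD _ _ huv).2
  rw [h4 v (OB.sub_refl v)] at h6
  omega

theorem Tight.bfsI (hD : ∀ u v, D u v → u ∈ S ∧ v ∈ S) (h : Tight S D s t f a g b) {u v : V}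
    (huv : D u v) (hO : v ≠ s → f v ≠ u) : b u ≤ b v + 1 :=
  Tight.bfsO (D := fun u v => D v u) (fun u v h => (hD v u h).symm) (h.rev hD) huv hO

/-- Lexicographic minimisation. -/
theorem exists_lexmin {α : Type*} {P : α → Prop} (m1 m2 m3 : α → ℕ) (h : ∃ x, P x) :
    ∃ x, P x ∧ ∀ y, P y → m1 x ≤ m1 y ∧ (m1 y ≤ m1 x → m2 x ≤ m2 y ∧
      (m2 y ≤ m2 x → m3 x ≤ m3 y)) := by
  classical
  have key : ∀ (m : α → ℕ) (Q : α → Prop), (∃ x, Q x) → ∃ x, Q x ∧ ∀ y, Q y → m x ≤ m y := by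
    intro m Q hQ
    have hex : ∃ n, ∃ x, Q x ∧ m x = n := by
      obtain ⟨x, hx⟩ := hQ
      exact ⟨_, x, hx, rfl⟩
    obtain ⟨x, hx, hn⟩ := Nat.find_spec hex
    exact ⟨x, hx, fun y hy => by rw [hn]; exact Nat.find_min' hex ⟨y, hy, rfl⟩⟩
  obtain ⟨x1, p1, q1⟩ := key m1 P h
  obtain ⟨x2, p2, q2⟩ := key m2 (fun x => P x ∧ m1 x = m1 x1) ⟨x1, p1, rfl⟩
  obtain ⟨x3, p3, q3⟩ := key m3 (fun x => (P x ∧ m1 x = m1 x1) ∧ m2 x = m2 x2) ⟨x2, p2, rfl⟩
  refine ⟨x3, p3.1.1, fun y hy => ⟨?_, fun h1 => ?_⟩⟩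
  · rw [p3.1.2]; exact q1 y hy
  · have h2 : m1 y = m1 x1 := le_antisymm (h1.trans p3.1.2.le) (q1 y hy)
    refine ⟨?_, fun h3 => ?_⟩
    · rw [p3.2]; exact q2 y ⟨hy, h2⟩
    · have h4 : m2 y = m2 x2 := le_antisymm (h3.trans p3.2.le) (q2 y ⟨hy, h2⟩)
      exact q3 y ⟨⟨hy, h2⟩, h4⟩

end Pool.Agent.H871.GP
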