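import Pool.Agent.H871_GP.DpC

/-!
# Soundness of the algorithm for the general case
-/

namespace Pool.Agent.H871.GP

open Relation

/-- The invariant of the absorption process, with predicates. -/
structure InvS (E LO LI : List (ℕ × ℕ)) (s t : ℕ) (A B : ℕ → Prop) (X Y : ℕ × ℕ → Prop) :
    Prop where
  subO : ∀ e, X e → e ∈ E ∧ A e.1 ∧ A e.2
  subI : ∀ e, Y e → e ∈ E ∧ B e.1 ∧ B e.2
  dj : ∀ e, X e → ¬ Y e
  rO : ∀ v, A v → RT X s v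
  rI : ∀ v, B v → RT Y v t
  oldO : ∀ e, X e → ¬ B e.1 → e ∈ LO
  oldI : ∀ e, Y e → ¬ A e.2 → e ∈ LI
  inO : ∀ e ∈ LO, X e
  inI : ∀ e ∈ LI, Y e

theorem InvS.congr {E LO LI : List (ℕ × ℕ)} {s t : ℕ} {A B A' B' : ℕ → Prop}
    {X Y : ℕ × ℕ → Prop} (h : InvS E LO LI s t A B X Y) (hA : ∀ v, A v ↔ A' v)
    (hB : ∀ v, B v ↔ B' v) : InvS E LO LI s t A' B' X Y := by
  have h1 : A = A' := funext fun v => propext (hA v)
  have h2 : B = B' := funext fun v => propext (hB v)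
  subst h1
  subst h2
  exact h

/-- One round of absorption preserves the invariant. -/
theorem invS_step {E LO LI : List (ℕ × ℕ)} {s t : ℕ} {A B NA NB : ℕ → Prop}
    {X Y : ℕ × ℕ → Prop} (h : InvS E LO LI s t A B X Y)
    (hNA : ∀ v, NA v → ¬ A v ∧ ∃ c, (c, v) ∈ E ∧ A c ∧ B c ∧ (B v → (c, v) ∉ LI))
    (hNB : ∀ v, NB v → ¬ B v ∧ ∃ c, (v, c) ∈ E ∧ A c ∧ B c ∧ (A v → (v, c) ∉ LO)) :
    ∃ X' Y', InvS E LO LI s t (fun v => A v ∨ NA v) (fun v => B v ∨ NB v) X' Y' := by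
  classical
  have hA : ∀ v, NA v → ∃ c, (c, v) ∈ E ∧ A c ∧ B c ∧ ¬ Y (c, v) := by
    intro v hv
    obtain ⟨h1, c, h3, h4, h5, h6⟩ := hNA v hv
    exact ⟨c, h3, h4, h5, fun hY => h6 (h.subI _ hY).2.2 (h.oldI _ hY h1)⟩
  have hB : ∀ v, NB v → ∃ c, (v, c) ∈ E ∧ A c ∧ B c ∧ ¬ X (v, c) := by
    intro v hv
    obtain ⟨h1, c, h3, h4, h5, h6⟩ := hNB v hv
    exact ⟨c, h3, h4, h5, fun hX => h6 (h.subO _ hX).2.1 (h.oldO _ hX h1)⟩
  have nB : ∀ v, NB v → ¬ B v := fun v hv => (hNB v hv).1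
  choose! p hp using hA
  choose! q hq using hB
  let X' : ℕ × ℕ → Prop := fun e => X e ∨ (NA e.2 ∧ e.1 = p e.2)
  let Y' : ℕ × ℕ → Prop := fun e => Y e ∨ (NB e.1 ∧ e.2 = q e.1)
  have hX : ∀ u v, RT X u v → RT X' u v := fun u v hh => hh.mono fun e he => Or.inl he
  have hY : ∀ u v, RT Y u v → RT Y' u v := fun u v hh => hh.mono fun e he => Or.inl he
  refine ⟨X', Y', ⟨?_, ?_, ?_, ?_, ?_, ?_, ?_, ?_, ?_⟩⟩
  · rintro ⟨u, v⟩ (h1 | ⟨h1, h2⟩)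
    · obtain ⟨h3, h4, h5⟩ := h.subO _ h1
      exact ⟨h3, Or.inl h4, Or.inl h5⟩
    · simp only at h1 h2
      subst h2
      obtain ⟨h3, h4, -⟩ := hp v h1
      exact ⟨h3, Or.inl h4, Or.inr h1⟩
  · rintro ⟨u, v⟩ (h1 | ⟨h1, h2⟩)
    · obtain ⟨h3, h4, h5⟩ := h.subI _ h1
      exact ⟨h3, Or.inl h4, Or.inl h5⟩
    · simp only at h1 h2
      subst h2
      obtain ⟨h3, -, h4, -⟩ := hq u h1
      exact ⟨h3, Or.inr h1, Or.inl h4⟩
  · rintro ⟨u, v⟩ (h1 | ⟨h1, h2⟩) (h3 | ⟨h3, h4⟩)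
    · exact h.dj _ h1 h3
    · simp only at h3 h4
      subst h4
      exact (hq u h3).2.2.2 h1
    · simp only at h1 h2
      subst h2
      exact (hp v h1).2.2.2 h3
    · simp only at h1 h2 h3 h4
      subst h2
      exact nB _ h3 (hp v h1).2.2.1
  · rintro v (hv | hv)
    · exact hX _ _ (h.rO v hv)
    · obtain ⟨h1, h2, h3, h4⟩ := hp v hv
      have h5 : X' (p v, v) := Or.inr ⟨hv, rfl⟩
      exact ReflTransGen.tail (hX _ _ (h.rO _ h2)) h5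
  · rintro v (hv | hv)
    · exact hY _ _ (h.rI v hv)
    · obtain ⟨h1, h2, h3, h4⟩ := hq v hv
      have h5 : Y' (v, q v) := Or.inr ⟨hv, rfl⟩
      exact ReflTransGen.head h5 (hY _ _ (h.rI _ h3))
  · rintro ⟨u, v⟩ (h1 | ⟨h1, h2⟩) h3
    · exact h.oldO _ h1 fun h4 => h3 (Or.inl h4)
    · simp only at h1 h2 h3
      subst h2
      exact absurd (Or.inl (hp v h1).2.2.1) h3
  · rintro ⟨u, v⟩ (h1 | ⟨h1, h2⟩) h3
    · exact h.oldI _ h1 fun h4 => h3 (Or.inl h4)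
    · simp only at h1 h2 h3
      subst h2
      exact absurd (Or.inl (hq u h1).2.1) h3
  · exact fun e he => Or.inl (h.inO e he)
  · exact fun e he => Or.inl (h.inI e he)

/-- The process, started with some additional vertices. -/
theorem invS_iter {V : List ℕ} {E LO LI : List (ℕ × ℕ)} {s t : ℕ} {z : List ℕ × List ℕ}
    {S1 : ℕ → Prop} {X Y : ℕ × ℕ → Prop}
    (h : InvS E LO LI s t (fun v => v ∈ z.1 ∨ S1 v) (fun v => v ∈ z.2 ∨ S1 v) X Y) (n : ℕ) :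
    ∃ X' Y', InvS E LO LI s t (fun v => v ∈ ((stp V E LO LI)^[n] z).1 ∨ S1 v)
      (fun v => v ∈ ((stp V E LO LI)^[n] z).2 ∨ S1 v) X' Y' := by
  induction n with
  | zero => exact ⟨X, Y, h⟩
  | succ n ih =>
    obtain ⟨X', Y', h'⟩ := ih
    rw [Function.iterate_succ_apply']
    generalize (stp V E LO LI)^[n] z = w at h'
    obtain ⟨A, B⟩ := w
    simp only at h'
    obtain ⟨X2, Y2, h2⟩ := invS_step (NA := fun v => v ∈ newA V E LI A B ∧ ¬ S1 v)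
      (NB := fun v => v ∈ newB V E LO A B ∧ ¬ S1 v) h' (by
        rintro v ⟨hv, hS⟩
        obtain ⟨-, h1, h2⟩ := mem_newA.1 hv
        refine ⟨not_or.2 ⟨h1, hS⟩, ?_⟩
        rcases h2 with ⟨h2, ⟨c, h3, h4, h5⟩, -⟩ | ⟨h2, c, ⟨h3, h6⟩, h4, h5⟩
        · exact ⟨c, h3, Or.inl h4, Or.inl h5, fun h6 => absurd h6 (not_or.2 ⟨h2, hS⟩)⟩
        · exact ⟨c, h3, Or.inl h4, Or.inl h5, fun _ => h6⟩) (by
        rintro v ⟨hv, hS⟩
        obtain ⟨-, h1, h2⟩ := mem_newB.1 hv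
        refine ⟨not_or.2 ⟨h1, hS⟩, ?_⟩
        rcases h2 with ⟨h2, -, c, h3, h4, h5⟩ | ⟨h2, c, ⟨h3, h6⟩, h4, h5⟩
        · exact ⟨c, h3, Or.inl h4, Or.inl h5, fun h6 => absurd h6 (not_or.2 ⟨h2, hS⟩)⟩
        · exact ⟨c, h3, Or.inl h4, Or.inl h5, fun _ => h6⟩)
    refine ⟨X2, Y2, h2.congr (fun v => ?_) (fun v => ?_)⟩
    · unfold stp
      simp only [List.mem_append]
      tauto
    · unfold stp
      simp only [List.mem_append]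
      tauto

/-- **Soundness** of the final test. -/
theorem sound2 {V : List ℕ} {E LO LI : List (ℕ × ℕ)} {s t : ℕ} {A B : List ℕ}
    {X Y : ℕ × ℕ → Prop} (h : InvS E LO LI s t (fun v => v ∈ A) (fun v => v ∈ B) X Y)
    (hout : ∀ v ∈ V, v ∉ A → v ∉ B → (¬ ∃ c, (c, v) ∈ E ∧ c ∈ A ∧ c ∈ B) →
      ∃ c, (v, c) ∈ E ∧ c ∈ A ∧ c ∈ B)
    {FO FI : List (ℕ × ℕ)} (hf : fin V E LO LI A B FO FI = true) :
    ∃ X' Y' : ℕ × ℕ → Prop, (∀ e, X' e → e ∈ E) ∧ (∀ e, Y' e → e ∈ E) ∧ (∀ e, X' e → ¬ Y' e) ∧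
      (∀ v ∈ V, RT X' s v) ∧ (∀ v ∈ V, RT Y' v t) := by
  classical
  unfold fin at hf
  simp only [Bool.and_eq_true, List.all_eq_true, List.any_eq_true, Bool.not_eq_true',
    decide_eq_true_eq, decide_eq_false_iff_not, reachB_rt] at hf
  obtain ⟨⟨hFO, hFI⟩, hup, hum⟩ := hf
  set P := up V E A B with hP
  set M := um V E A B with hM
  have memP : ∀ {v}, v ∈ P ↔ v ∈ V ∧ v ∉ B ∧ (v ∈ A ∨ ∃ c, (c, v) ∈ E ∧ c ∈ A ∧ c ∈ B) := by
    intro v; rw [hP]; exact mem_up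
  have memM : ∀ {v}, v ∈ M ↔ v ∈ V ∧ v ∉ A ∧ (v ∈ B ∨ ¬ ∃ c, (c, v) ∈ E ∧ c ∈ A ∧ c ∈ B) := by
    intro v; rw [hM]; exact mem_um
  have hPM : ∀ v ∈ P, v ∉ M := by
    intro v h1 h2
    obtain ⟨-, h3, h4⟩ := memP.1 h1
    obtain ⟨-, h5, h6⟩ := memM.1 h2
    rcases h4 with h4 | h4
    · exact h5 h4
    · exact (h6.resolve_left h3) h4
  let X' : ℕ × ℕ → Prop := fun e => X e ∨ (e ∈ E ∧ e.1 ∈ A ∧ e.1 ∈ B ∧ e.2 ∉ A ∧ e.2 ∉ B) ∨
    e ∈ FO ∨ e ∈ ins E LI M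
  let Y' : ℕ × ℕ → Prop := fun e => Y e ∨ (e ∈ E ∧ e.2 ∈ A ∧ e.2 ∈ B ∧ e.1 ∉ A ∧ e.1 ∉ B) ∨
    e ∈ FI ∨ e ∈ ins E LO P
  have hX : ∀ u v, RT X u v → RT X' u v := fun u v hh => hh.mono fun e he => Or.inl he
  have hY : ∀ u v, RT Y u v → RT Y' u v := fun u v hh => hh.mono fun e he => Or.inl he
  have hX2 : ∀ u v, RT (· ∈ ins E LI M) u v → RT X' u v := fun u v hh =>
    hh.mono fun e he => Or.inr (Or.inr (Or.inr he))
  have hY2 : ∀ u v, RT (· ∈ ins E LO P) u v → RT Y' u v := fun u v hh =>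
    hh.mono fun e he => Or.inr (Or.inr (Or.inr he))
  refine ⟨X', Y', ?_, ?_, ?_, ?_, ?_⟩
  · rintro e (h1 | h1 | h1 | h1)
    · exact (h.subO e h1).1
    · exact h1.1
    · exact (hFO e h1).1
    · exact (mem_ins.1 h1).1
  · rintro e (h1 | h1 | h1 | h1)
    · exact (h.subI e h1).1
    · exact h1.1
    · exact (hFI e h1).1
    · exact (mem_ins.1 h1).1
  · rintro e (h1 | h1 | h1 | h1) (h2 | h2 | h2 | h2)
    · exact h.dj e h1 h2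
    · exact h2.2.2.2.1 (h.subO e h1).2.1
    · exact (memM.1 (hFI e h2).2.2).2.1 (h.subO e h1).2.2
    · obtain ⟨-, h3, -, h4⟩ := mem_ins.1 h2
      exact h4 (h.oldO e h1 (memP.1 h3).2.1)
    · exact h1.2.2.2.2 (h.subI e h2).2.2
    · exact h2.2.2.2.1 h1.2.1
    · exact (memP.1 (hFI e h2).2.1).2.1 h1.2.2.1
    · exact (memP.1 (mem_ins.1 h2).2.1).2.1 h1.2.2.1
    · exact (memP.1 (hFO e h1).2.1).2.1 (h.subI e h2).2.1
    · exact (memM.1 (hFO e h1).2.2.1).2.1 h2.2.1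
    · exact (hFO e h1).2.2.2 h2
    · exact hPM _ (mem_ins.1 h2).2.2.1 (hFO e h1).2.2.1
    · obtain ⟨-, -, h3, h4⟩ := mem_ins.1 h1
      exact h4 (h.oldI e h2 (memM.1 h3).2.1)
    · exact (memM.1 (mem_ins.1 h1).2.2.1).2.1 h2.2.1
    · exact hPM _ (hFI e h2).2.1 (mem_ins.1 h1).2.1
    · exact hPM _ (mem_ins.1 h2).2.1 (mem_ins.1 h1).2.1
  · -- reachability from `s`
    have hPs : ∀ v ∈ P, RT X' s v := by
      intro v hv
      obtain ⟨h1, h2, h3⟩ := memP.1 hv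
      by_cases hvA : v ∈ A
      · exact hX _ _ (h.rO v hvA)
      · obtain ⟨c, hc, hcA, hcB⟩ := h3.resolve_left hvA
        have h5 : X' (c, v) := Or.inr (Or.inl ⟨hc, hcA, hcB, hvA, h2⟩)
        exact ReflTransGen.tail (hX _ _ (h.rO c hcA)) h5
    intro v hv
    by_cases hvA : v ∈ A
    · exact hX _ _ (h.rO v hvA)
    by_cases hvP : v ∈ P
    · exact hPs v hvP
    have hvM : v ∈ M := by
      rw [memM]
      refine ⟨hv, hvA, ?_⟩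
      by_contra hc
      rw [not_or, not_not] at hc
      exact hvP (memP.2 ⟨hv, hc.1, Or.inr hc.2⟩)
    obtain ⟨e, he, hr⟩ := hum v hvM
    have h1 := hPs e.1 (hFO e he).2.1
    have h5 : X' (e.1, e.2) := Or.inr (Or.inr (Or.inl he))
    exact (ReflTransGen.tail h1 h5).trans (hX2 _ _ hr)
  · -- reachability of `t`
    have hMt : ∀ v ∈ M, RT Y' v t := by
      intro v hv
      obtain ⟨h1, h2, h3⟩ := memM.1 hv
      by_cases hvB : v ∈ B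
      · exact hY _ _ (h.rI v hvB)
      · obtain ⟨c, hc, hcA, hcB⟩ := hout v h1 h2 hvB (h3.resolve_left hvB)
        have h5 : Y' (v, c) := Or.inr (Or.inl ⟨hc, hcA, hcB, h2, hvB⟩)
        exact ReflTransGen.head h5 (hY _ _ (h.rI c hcB))
    intro v hv
    by_cases hvB : v ∈ B
    · exact hY _ _ (h.rI v hvB)
    by_cases hvM : v ∈ M
    · exact hMt v hvM
    have hvP : v ∈ P := by
      rw [memP]
      refine ⟨hv, hvB, ?_⟩
      by_contra hc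
      rw [not_or] at hc
      exact hvM (memM.2 ⟨hv, hc.1, Or.inr hc.2⟩)
    obtain ⟨e, he, hr⟩ := hup v hvP
    have h1 := hMt e.2 (hFI e he).2.2
    have h5 : Y' (e.1, e.2) := Or.inr (Or.inr (Or.inl he))
    exact (hY2 _ _ hr).trans (ReflTransGen.head h5 h1)

/-- the ends of the arcs -/
def ends (L : List (ℕ × ℕ)) : List ℕ := L.map (fun e => e.1) ++ L.map (fun e => e.2)

theorem mem_ends {L : List (ℕ × ℕ)} {v : ℕ} : v ∈ ends L ↔ ∃ e ∈ L, v = e.1 ∨ v = e.2 := by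
  unfold ends
  simp only [List.mem_append, List.mem_map]
  constructor
  · rintro (⟨e, he, rfl⟩ | ⟨e, he, rfl⟩)
    · exact ⟨e, he, Or.inl rfl⟩
    · exact ⟨e, he, Or.inr rfl⟩
  · rintro ⟨e, he, rfl | rfl⟩
    · exact Or.inl ⟨e, he, rfl⟩
    · exact Or.inr ⟨e, he, rfl⟩

/-- Arcs with a reachable tail suffice. -/
theorem rt_self {R : ℕ × ℕ → Prop} {s v : ℕ} (h : RT R s v) :
    RT (fun e => R e ∧ RT R s e.1) s v := by
  induction h with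
  | refl => exact ReflTransGen.refl
  | tail h1 h2 ih => exact ReflTransGen.tail ih ⟨h2, h1⟩

theorem rt_self' {R : ℕ × ℕ → Prop} {v t : ℕ} (h : RT R v t) :
    RT (fun e => R e ∧ RT R e.2 t) v t := by
  induction h using ReflTransGen.head_induction_on with
  | refl => exact ReflTransGen.refl
  | head h1 h2 ih => exact ReflTransGen.head ⟨h1, h2⟩ ih

/-- The start of the absorption process in the general case. -/
theorem invS_base {E LO LI : List (ℕ × ℕ)} {s t y1 y2 : ℕ} {X M ZA ZB : List ℕ}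
    {GO GI : ℕ × ℕ → Prop}
    (hLOE : ∀ e ∈ LO, e ∈ E) (hLIE : ∀ e ∈ LI, e ∈ E)
    (hX : t ∈ X ∧ y1 ∈ X ∧ y2 ∈ X) (hdj : ∀ e, GO e → ¬ GI e)
    (hAe : t ∈ s :: ends LO ∧ y1 ∈ s :: ends LO ∧ y2 ∈ s :: ends LO)
    (hBe : y1 ∈ t :: ends LI ∧ y2 ∈ t :: ends LI)
    (hM : ∀ v ∈ M, v ∉ X ∧ ((v, y1) ∈ E ∧ (v, y1) ∉ LO) ∧ (y2, v) ∈ E ∧ (y2, v) ∉ LI)
    (hZA : ∀ v ∈ ZA, v ∉ X ∧ (v, t) ∈ E ∧ (v, t) ∉ LO)
    (hZB : ∀ v ∈ ZB, v ∉ X ∧ (t, v) ∈ E ∧ (t, v) ∉ LI)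
    (hGO : ∀ e, GO e → e ∈ LO ∨ (e ∈ E ∧ (e.1 ∈ M ∨ e.1 ∈ ZA) ∧ (e.2 ∈ M ∨ e.2 ∈ ZA)))
    (hGI : ∀ e, GI e → e ∈ LI ∨ (e ∈ E ∧ (e.1 ∈ M ∨ e.1 ∈ ZB) ∧ (e.2 ∈ M ∨ e.2 ∈ ZB)))
    (hLOr : ∀ e ∈ LO, GO e ∧ RT GO s e.1) (hLIr : ∀ e ∈ LI, GI e ∧ RT GI e.2 t) :
    ∃ X1 Y1, InvS E LO LI s t
      (fun v => v ∈ s :: ends LO ∨ (v ∈ M ∨ (v ∈ ZA ∧ RT GO s v) ∨ (v ∈ ZB ∧ RT GI v t)))
      (fun v => v ∈ t :: ends LI ∨ (v ∈ M ∨ (v ∈ ZA ∧ RT GO s v) ∨ (v ∈ ZB ∧ RT GI v t)))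
      X1 Y1 := by
  obtain ⟨tX, y1X, y2X⟩ := hX
  let S1 : ℕ → Prop := fun v => v ∈ M ∨ (v ∈ ZA ∧ RT GO s v) ∨ (v ∈ ZB ∧ RT GI v t)
  let X1 : ℕ × ℕ → Prop := fun e => (GO e ∧ RT GO s e.1) ∨ (e.1 = y2 ∧ e.2 ∈ M) ∨
    (e.1 = t ∧ e.2 ∈ ZB ∧ RT GI e.2 t)
  let Y1 : ℕ × ℕ → Prop := fun e => (GI e ∧ RT GI e.2 t) ∨ (e.2 = y1 ∧ e.1 ∈ M) ∨
    (e.2 = t ∧ e.1 ∈ ZA ∧ RT GO s e.1)
  have rX : ∀ v, RT GO s v → RT X1 s v := fun v hv => (rt_self hv).mono fun e he => Or.inl he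
  have rY : ∀ v, RT GI v t → RT Y1 v t := fun v hv => (rt_self' hv).mono fun e he => Or.inl he
  have rA : ∀ v ∈ s :: ends LO, RT X1 s v := by
    intro v hv
    rcases List.mem_cons.1 hv with rfl | hv
    · exact ReflTransGen.refl
    · obtain ⟨e, he, rfl | rfl⟩ := mem_ends.1 hv
      · exact rX _ (hLOr e he).2
      · exact rX _ (ReflTransGen.tail (hLOr e he).2 (hLOr e he).1)
  have rB : ∀ v ∈ t :: ends LI, RT Y1 v t := by
    intro v hv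
    rcases List.mem_cons.1 hv with rfl | hv
    · exact ReflTransGen.refl
    · obtain ⟨e, he, rfl | rfl⟩ := mem_ends.1 hv
      · exact rY _ (ReflTransGen.head (hLIr e he).1 (hLIr e he).2)
      · exact rY _ (hLIr e he).2
  -- arcs of the first kind at a vertex of `X` are in the list
  have GOX : ∀ e, GO e → e ∉ LO → e.1 ∉ X ∧ e.2 ∉ X := by
    intro e he hl
    obtain ⟨-, h1, h2⟩ := (hGO e he).resolve_left hl
    refine ⟨?_, ?_⟩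
    · rcases h1 with h1 | h1
      · exact (hM _ h1).1
      · exact (hZA _ h1).1
    · rcases h2 with h2 | h2
      · exact (hM _ h2).1
      · exact (hZA _ h2).1
  have GIX : ∀ e, GI e → e ∉ LI → e.1 ∉ X ∧ e.2 ∉ X := by
    intro e he hl
    obtain ⟨-, h1, h2⟩ := (hGI e he).resolve_left hl
    refine ⟨?_, ?_⟩
    · rcases h1 with h1 | h1
      · exact (hM _ h1).1
      · exact (hZB _ h1).1
    · rcases h2 with h2 | h2
      · exact (hM _ h2).1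
      · exact (hZB _ h2).1
  have S1O : ∀ v, (v ∈ M ∨ v ∈ ZA) → RT GO s v → S1 v := by
    rintro v (hv | hv) hr
    · exact Or.inl hv
    · exact Or.inr (Or.inl ⟨hv, hr⟩)
  have S1I : ∀ v, (v ∈ M ∨ v ∈ ZB) → RT GI v t → S1 v := by
    rintro v (hv | hv) hr
    · exact Or.inl hv
    · exact Or.inr (Or.inr ⟨hv, hr⟩)
  refine ⟨X1, Y1, ⟨?_, ?_, ?_, ?_, ?_, ?_, ?_, ?_, ?_⟩⟩
  · rintro ⟨u, v⟩ (⟨h1, h2⟩ | ⟨h1, h2⟩ | ⟨h1, h2, h3⟩)
    · rcases hGO _ h1 with h3 | ⟨h3, h4, h5⟩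
      · exact ⟨hLOE _ h3, Or.inl (List.mem_cons_of_mem _ (mem_ends.2 ⟨_, h3, Or.inl rfl⟩)),
          Or.inl (List.mem_cons_of_mem _ (mem_ends.2 ⟨_, h3, Or.inr rfl⟩))⟩
      · exact ⟨h3, Or.inr (S1O _ h4 h2), Or.inr (S1O _ h5 (ReflTransGen.tail h2 h1))⟩
    · simp only at h1 h2
      subst h1
      exact ⟨(hM v h2).2.2.1, Or.inl hAe.2.2, Or.inr (Or.inl h2)⟩
    · simp only at h1 h2 h3
      subst h1
      exact ⟨(hZB v h2).2.1, Or.inl hAe.1, Or.inr (Or.inr (Or.inr ⟨h2, h3⟩))⟩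
  · rintro ⟨u, v⟩ (⟨h1, h2⟩ | ⟨h1, h2⟩ | ⟨h1, h2, h3⟩)
    · rcases hGI _ h1 with h3 | ⟨h3, h4, h5⟩
      · exact ⟨hLIE _ h3, Or.inl (List.mem_cons_of_mem _ (mem_ends.2 ⟨_, h3, Or.inl rfl⟩)),
          Or.inl (List.mem_cons_of_mem _ (mem_ends.2 ⟨_, h3, Or.inr rfl⟩))⟩
      · exact ⟨h3, Or.inr (S1I _ h4 (ReflTransGen.head h1 h2)), Or.inr (S1I _ h5 h2)⟩
    · simp only at h1 h2
      subst h1
      exact ⟨(hM u h2).2.1.1, Or.inr (Or.inl h2), Or.inl hBe.1⟩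
    · simp only at h1 h2 h3
      subst h1
      exact ⟨(hZA u h2).2.1, Or.inr (Or.inr (Or.inl ⟨h2, h3⟩)), Or.inl List.mem_cons_self⟩
  · rintro ⟨u, v⟩ (⟨h1, h2⟩ | ⟨h1, h2⟩ | ⟨h1, h2, h2'⟩) (⟨h3, h4⟩ | ⟨h3, h4⟩ | ⟨h3, h4, h4'⟩)
    · exact hdj _ h1 h3
    · simp only at h3 h4
      subst h3
      exact (GOX _ h1 (hM u h4).2.1.2).2 y1X
    · simp only at h3 h4
      subst h3
      exact (GOX _ h1 (hZA u h4).2.2).2 tX
    · simp only at h1 h2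
      subst h1
      exact (GIX _ h3 (hM v h2).2.2.2).1 y2X
    · simp only at h1 h2 h3 h4
      subst h1
      exact (hM _ h4).1 y2X
    · simp only at h1 h2 h3 h4
      subst h1
      exact (hZA _ h4).1 y2X
    · simp only at h1 h2
      subst h1
      exact (GIX _ h3 (hZB v h2).2.2).1 tX
    · simp only at h1 h2 h3 h4
      subst h1
      exact (hM _ h4).1 tX
    · simp only at h1 h2 h3 h4
      subst h1
      exact (hZA _ h4).1 tX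
  · rintro v (hv | hv | ⟨hv, hr⟩ | ⟨hv, hr⟩)
    · exact rA v hv
    · have h5 : X1 (y2, v) := Or.inr (Or.inl ⟨rfl, hv⟩)
      exact ReflTransGen.tail (rA _ hAe.2.2) h5
    · exact rX v hr
    · have h5 : X1 (t, v) := Or.inr (Or.inr ⟨rfl, hv, hr⟩)
      exact ReflTransGen.tail (rA _ hAe.1) h5
  · rintro v (hv | hv | ⟨hv, hr⟩ | ⟨hv, hr⟩)
    · exact rB v hv
    · have h5 : Y1 (v, y1) := Or.inr (Or.inl ⟨rfl, hv⟩)
      exact ReflTransGen.head h5 (rB _ hBe.1)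
    · have h5 : Y1 (v, t) := Or.inr (Or.inr ⟨rfl, hv, hr⟩)
      exact ReflTransGen.single h5
    · exact rY v hr
  · rintro ⟨u, v⟩ (⟨h1, h2⟩ | ⟨h1, h2⟩ | ⟨h1, h2, h2'⟩) h3
    · rcases hGO _ h1 with h4 | ⟨-, h4, -⟩
      · exact h4
      · exact absurd (Or.inr (S1O _ h4 h2)) h3
    · simp only at h1 h3
      subst h1
      exact absurd (Or.inl hBe.2) h3
    · simp only at h1 h3
      subst h1
      exact absurd (Or.inl List.mem_cons_self) h3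
  · rintro ⟨u, v⟩ (⟨h1, h2⟩ | ⟨h1, h2⟩ | ⟨h1, h2, h2'⟩) h3
    · rcases hGI _ h1 with h4 | ⟨-, -, h4⟩
      · exact h4
      · exact absurd (Or.inr (S1I _ h4 h2)) h3
    · simp only at h1 h3
      subst h1
      exact absurd (Or.inl hAe.2.1) h3
    · simp only at h1 h3
      subst h1
      exact absurd (Or.inl hAe.1) h3
  · exact fun e he => Or.inl (hLOr e he)
  · exact fun e he => Or.inl (hLIr e he)

end Pool.Agent.H871.GP
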