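import Pool.Agent.H871_GP.Comp2

/-!
# The algorithm, and its running time
-/

namespace Pool.Agent.H871.GP

open Pool.Agent.NPC

/-- the valid arcs -/
def arcs (G : List ℕ × List (ℕ × ℕ)) : List (ℕ × ℕ) :=
  G.2.filter (fun e => decide (e.1 ∈ G.1) && (decide (e.2 ∈ G.1) && !decide (e.1 = e.2)))

/-- adjacency -/
def adB (E : List (ℕ × ℕ)) (p : ℕ × ℕ) : Bool := decide (p ∈ E) || decide ((p.2, p.1) ∈ E)

/-- the independence number is two -/
def alB (V : List ℕ) (E : List (ℕ × ℕ)) : Bool :=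
  (V ×ˢ V).any (fun p => !decide (p.1 = p.2) && !adB E p) &&
  (V ×ˢ (V ×ˢ V)).all (fun p => (decide (p.1 = p.2.1) || (decide (p.1 = p.2.2) ||
    decide (p.2.1 = p.2.2))) || (adB E (p.1, p.2.1) || (adB E (p.1, p.2.2) || adB E p.2)))

/-- every vertex has at most `d` non-neighbours -/
def cdB (d : ℕ) (V : List ℕ) (E : List (ℕ × ℕ)) : Bool :=
  (V ×ˢ tup (d + 1) V).all (fun p => (!decide (p.2.length = d + 1) ||
    !((prs p.2).all (fun e => decide (e.1 < e.2)))) ||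
    p.2.any (fun v => decide (v = p.1) || adB E (p.1, v)))

/-- the guess is correct -/
def gsB (E : List (ℕ × ℕ)) (r : (ℕ × ℕ) × (ℕ × ℕ))
    (W : (List ℕ × List ℕ) × (List ℕ × List ℕ)) : Bool :=
  (((decide (W.1.1.head? = some r.1.1) && decide (W.1.2.head? = some r.1.1)) &&
  (decide (r.2.1 ∈ W.1.1) && decide (r.2.2 ∈ W.1.2))) &&
  ((decide (W.2.1.reverse.head? = some r.1.2) && decide (W.2.2.reverse.head? = some r.1.2)) &&
  (decide (r.2.1 ∈ W.2.1) && decide (r.2.2 ∈ W.2.2)))) &&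
  ((((prs W.1.1 ++ prs W.1.2).all (fun e => decide (e ∈ E)) &&
  (prs W.2.1 ++ prs W.2.2).all (fun e => decide (e ∈ E))) &&
  (prs W.1.1 ++ prs W.1.2).all (fun e => !decide (e ∈ prs W.2.1 ++ prs W.2.2))) &&
  (!decide (r.2.1 = r.2.2) && !adB E r.2))

/-- the state after all rounds of absorption -/
def cls (V : List ℕ) (E : List (ℕ × ℕ)) (W : (List ℕ × List ℕ) × (List ℕ × List ℕ)) :
    List ℕ × List ℕ :=
  (stp V E (prs W.1.1 ++ prs W.1.2) (prs W.2.1 ++ prs W.2.2))^[(V ++ V).length]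
    (W.1.1 ++ W.1.2, W.2.1 ++ W.2.2)

/-- the algorithm -/
def dcB (c : ℕ) (V : List ℕ) (E : List (ℕ × ℕ)) : Bool :=
  ((V ×ˢ V) ×ˢ (V ×ˢ V)).any (fun r =>
    ((tup (c + 1) V ×ˢ tup (c + 1) V) ×ˢ (tup (c + 1) V ×ˢ tup (c + 1) V)).any (fun W =>
      gsB E r W && (tup 4 E ×ˢ tup 4 E).any (fun F =>
        fin V E (prs W.1.1 ++ prs W.1.2) (prs W.2.1 ++ prs W.2.2) (cls V E W).1 (cls V E W).2
          F.1 F.2)))

theorem poly_tup {α : Type} [TEnc α] (n : ℕ) : NPC.Poly (fun l : List α => tup n l) := by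
  induction n with
  | zero => exact NPC.Poly.const _
  | succ n ih =>
    simp only [tup]
    refine NPC.Poly.cons (NPC.Poly.const _) (NPC.Poly.flatMap
      (F := fun (l : List α) (e : α) => (tup n l).map (fun w => e :: w)) NPC.Poly.id
      (NPC.Poly.map (F := fun (p : List α × α) (w : List α) => p.2 :: w)
        (ih.comp (f := fun p : List α × α => p.1) (NPC.Poly.fst NPC.Poly.id)) ?_))
    fun_prop

theorem poly_prs : NPC.Poly (fun l : List ℕ => prs l) := by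
  unfold prs
  fun_prop

theorem poly_arcs : NPC.Poly (fun G : List ℕ × List (ℕ × ℕ) => arcs G) := by
  unfold arcs
  fun_prop

theorem poly_adB : NPC.Poly (fun x : List (ℕ × ℕ) × (ℕ × ℕ) => adB x.1 x.2) := by
  unfold adB
  fun_prop

attribute [local irreducible] adB in
theorem poly_alB : NPC.Poly (fun x : List ℕ × List (ℕ × ℕ) => alB x.1 x.2) := by
  unfold alB
  refine NPC.Poly.and ?_ ?_
  · refine NPC.Poly.any (p := fun (x : List ℕ × List (ℕ × ℕ)) (p : ℕ × ℕ) =>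
      !decide (p.1 = p.2) && !adB x.2 p) (by fun_prop) (NPC.Poly.and (by fun_prop)
      (NPC.Poly.not (poly_adB.comp (f := fun q : (List ℕ × List (ℕ × ℕ)) × (ℕ × ℕ) =>
        (q.1.2, q.2)) (by fun_prop))))
  · refine NPC.Poly.all (p := fun (x : List ℕ × List (ℕ × ℕ)) (p : ℕ × (ℕ × ℕ)) =>
      (decide (p.1 = p.2.1) || (decide (p.1 = p.2.2) ||
        decide (p.2.1 = p.2.2))) || (adB x.2 (p.1, p.2.1) || (adB x.2 (p.1, p.2.2) ||
          adB x.2 p.2))) (by fun_prop) (NPC.Poly.or (by fun_prop) (NPC.Poly.or ?_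
            (NPC.Poly.or ?_ ?_)))
    · exact poly_adB.comp (f := fun q : (List ℕ × List (ℕ × ℕ)) × (ℕ × (ℕ × ℕ)) =>
        (q.1.2, (q.2.1, q.2.2.1))) (by fun_prop)
    · exact poly_adB.comp (f := fun q : (List ℕ × List (ℕ × ℕ)) × (ℕ × (ℕ × ℕ)) =>
        (q.1.2, (q.2.1, q.2.2.2))) (by fun_prop)
    · exact poly_adB.comp (f := fun q : (List ℕ × List (ℕ × ℕ)) × (ℕ × (ℕ × ℕ)) =>
        (q.1.2, q.2.2)) (by fun_prop)

attribute [local irreducible] adB tup prs in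
theorem poly_cdB (d : ℕ) : NPC.Poly (fun x : List ℕ × List (ℕ × ℕ) => cdB d x.1 x.2) := by
  unfold cdB
  refine NPC.Poly.all (p := fun (x : List ℕ × List (ℕ × ℕ)) (p : ℕ × List ℕ) =>
    (!decide (p.2.length = d + 1) ||
    !((prs p.2).all (fun e => decide (e.1 < e.2)))) ||
    p.2.any (fun v => decide (v = p.1) || adB x.2 (p.1, v))) ?_ (NPC.Poly.or (NPC.Poly.or ?_ ?_) ?_)
  · exact R671.poly_product (by fun_prop) ((poly_tup (d + 1)).comp
      (f := fun x : List ℕ × List (ℕ × ℕ) => x.1) (by fun_prop))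
  · fun_prop
  · exact NPC.Poly.not (NPC.Poly.all (p := fun (q : (List ℕ × List (ℕ × ℕ)) × (ℕ × List ℕ))
      (e : ℕ × ℕ) => decide (e.1 < e.2)) (poly_prs.comp
      (f := fun q : (List ℕ × List (ℕ × ℕ)) × (ℕ × List ℕ) => q.2.2) (by fun_prop)) (by fun_prop))
  · exact NPC.Poly.any (p := fun (q : (List ℕ × List (ℕ × ℕ)) × (ℕ × List ℕ)) (v : ℕ) =>
      decide (v = q.2.1) || adB q.1.2 (q.2.1, v)) (by fun_prop) (NPC.Poly.or (by fun_prop)
      (poly_adB.comp (f := fun q : ((List ℕ × List (ℕ × ℕ)) × (ℕ × List ℕ)) × ℕ =>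
        (q.1.1.2, (q.1.2.1, q.2))) (by fun_prop)))

/-- the type of the data in the inner computations: vertices, arcs, and four paths -/
abbrev Dat := (List ℕ × List (ℕ × ℕ)) × ((List ℕ × List ℕ) × (List ℕ × List ℕ))

attribute [local irreducible] adB prs in
theorem poly_gsB : NPC.Poly (fun x : List (ℕ × ℕ) × (((ℕ × ℕ) × (ℕ × ℕ)) ×
    ((List ℕ × List ℕ) × (List ℕ × List ℕ))) => gsB x.1 x.2.1 x.2.2) := by
  unfold gsB
  have h1 : NPC.Poly (fun x : List (ℕ × ℕ) × (((ℕ × ℕ) × (ℕ × ℕ)) ×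
    ((List ℕ × List ℕ) × (List ℕ × List ℕ))) => prs x.2.2.1.1 ++ prs x.2.2.1.2) :=
    NPC.Poly.append (poly_prs.comp (f := fun x : List (ℕ × ℕ) × (((ℕ × ℕ) × (ℕ × ℕ)) ×
    ((List ℕ × List ℕ) × (List ℕ × List ℕ))) => x.2.2.1.1) (by fun_prop)) (poly_prs.comp
      (f := fun x : List (ℕ × ℕ) × (((ℕ × ℕ) × (ℕ × ℕ)) ×
    ((List ℕ × List ℕ) × (List ℕ × List ℕ))) => x.2.2.1.2) (by fun_prop))
  have h2 : NPC.Poly (fun x : List (ℕ × ℕ) × (((ℕ × ℕ) × (ℕ × ℕ)) ×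
    ((List ℕ × List ℕ) × (List ℕ × List ℕ))) => prs x.2.2.2.1 ++ prs x.2.2.2.2) :=
    NPC.Poly.append (poly_prs.comp (f := fun x : List (ℕ × ℕ) × (((ℕ × ℕ) × (ℕ × ℕ)) ×
    ((List ℕ × List ℕ) × (List ℕ × List ℕ))) => x.2.2.2.1) (by fun_prop)) (poly_prs.comp
      (f := fun x : List (ℕ × ℕ) × (((ℕ × ℕ) × (ℕ × ℕ)) ×
    ((List ℕ × List ℕ) × (List ℕ × List ℕ))) => x.2.2.2.2) (by fun_prop))
  refine NPC.Poly.and (by fun_prop) (NPC.Poly.and (NPC.Poly.and (NPC.Poly.and ?_ ?_) ?_)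
    (NPC.Poly.and (by fun_prop) (NPC.Poly.not (poly_adB.comp
      (f := fun x : List (ℕ × ℕ) × (((ℕ × ℕ) × (ℕ × ℕ)) ×
    ((List ℕ × List ℕ) × (List ℕ × List ℕ))) => (x.1, x.2.1.2)) (by fun_prop)))))
  · exact NPC.Poly.all (p := fun x e => decide (e ∈ x.1)) h1 (by fun_prop)
  · exact NPC.Poly.all (p := fun x e => decide (e ∈ x.1)) h2 (by fun_prop)
  · exact NPC.Poly.all (p := fun x e => !decide (e ∈ prs x.2.2.2.1 ++ prs x.2.2.2.2)) h1
      (NPC.Poly.not (NPC.Poly.dec_mem (by fun_prop) (h2.comp (by fun_prop))))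

theorem poly_inn : NPC.Poly (fun x : List (ℕ × ℕ) × ((List ℕ × List ℕ) × ℕ) =>
    inn x.1 x.2.1.1 x.2.1.2 x.2.2) := by
  unfold inn
  fun_prop

theorem poly_outn : NPC.Poly (fun x : List (ℕ × ℕ) × ((List ℕ × List ℕ) × ℕ) =>
    outn x.1 x.2.1.1 x.2.1.2 x.2.2) := by
  unfold outn
  fun_prop

/-- input of one step: `(V, E)`, `(LO, LI)`, `(A, B)` -/
abbrev SIn := (List ℕ × List (ℕ × ℕ)) × ((List (ℕ × ℕ) × List (ℕ × ℕ)) × (List ℕ × List ℕ))

attribute [local irreducible] inn outn in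
theorem poly_newA : NPC.Poly (fun x : SIn => newA x.1.1 x.1.2 x.2.1.2 x.2.2.1 x.2.2.2) := by
  unfold newA
  refine NPC.Poly.filter (p := fun (x : SIn) (v : ℕ) => !decide (v ∈ x.2.2.1) &&
    ((!decide (v ∈ x.2.2.2) && (inn x.1.2 x.2.2.1 x.2.2.2 v && outn x.1.2 x.2.2.1 x.2.2.2 v)) ||
    (decide (v ∈ x.2.2.2) && inn (x.1.2.filter (fun e => !decide (e ∈ x.2.1.2)))
      x.2.2.1 x.2.2.2 v))) (by fun_prop) (NPC.Poly.and (by fun_prop) (NPC.Poly.or
        (NPC.Poly.and (by fun_prop) (NPC.Poly.and ?_ ?_)) (NPC.Poly.and (by fun_prop) ?_)))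
  · exact poly_inn.comp (f := fun p : SIn × ℕ => (p.1.1.2, (p.1.2.2, p.2))) (by fun_prop)
  · exact poly_outn.comp (f := fun p : SIn × ℕ => (p.1.1.2, (p.1.2.2, p.2))) (by fun_prop)
  · exact poly_inn.comp (f := fun p : SIn × ℕ =>
      (p.1.1.2.filter (fun e => !decide (e ∈ p.1.2.1.2)), (p.1.2.2, p.2))) (by fun_prop)

attribute [local irreducible] inn outn in
theorem poly_newB : NPC.Poly (fun x : SIn => newB x.1.1 x.1.2 x.2.1.1 x.2.2.1 x.2.2.2) := by
  unfold newB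
  refine NPC.Poly.filter (p := fun (x : SIn) (v : ℕ) => !decide (v ∈ x.2.2.2) &&
    ((!decide (v ∈ x.2.2.1) && (inn x.1.2 x.2.2.1 x.2.2.2 v && outn x.1.2 x.2.2.1 x.2.2.2 v)) ||
    (decide (v ∈ x.2.2.1) && outn (x.1.2.filter (fun e => !decide (e ∈ x.2.1.1)))
      x.2.2.1 x.2.2.2 v))) (by fun_prop) (NPC.Poly.and (by fun_prop) (NPC.Poly.or
        (NPC.Poly.and (by fun_prop) (NPC.Poly.and ?_ ?_)) (NPC.Poly.and (by fun_prop) ?_)))
  · exact poly_inn.comp (f := fun p : SIn × ℕ => (p.1.1.2, (p.1.2.2, p.2))) (by fun_prop)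
  · exact poly_outn.comp (f := fun p : SIn × ℕ => (p.1.1.2, (p.1.2.2, p.2))) (by fun_prop)
  · exact poly_outn.comp (f := fun p : SIn × ℕ =>
      (p.1.1.2.filter (fun e => !decide (e ∈ p.1.2.1.1)), (p.1.2.2, p.2))) (by fun_prop)

attribute [local irreducible] newA newB in
theorem poly_stp : NPC.Poly (fun x : SIn => stp x.1.1 x.1.2 x.2.1.1 x.2.1.2 x.2.2) := by
  unfold stp
  exact NPC.Poly.pair (NPC.Poly.append (by fun_prop) poly_newA)
    (NPC.Poly.append (by fun_prop) poly_newB)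

attribute [local irreducible] inn in
theorem poly_up : NPC.Poly (fun x : (List ℕ × List (ℕ × ℕ)) × (List ℕ × List ℕ) =>
    up x.1.1 x.1.2 x.2.1 x.2.2) := by
  unfold up
  refine NPC.Poly.filter (p := fun (x : (List ℕ × List (ℕ × ℕ)) × (List ℕ × List ℕ)) (v : ℕ) =>
    !decide (v ∈ x.2.2) && (decide (v ∈ x.2.1) || inn x.1.2 x.2.1 x.2.2 v)) (by fun_prop)
    (NPC.Poly.and (by fun_prop) (NPC.Poly.or (by fun_prop) (poly_inn.comp
      (f := fun p : ((List ℕ × List (ℕ × ℕ)) × (List ℕ × List ℕ)) × ℕ =>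
        (p.1.1.2, (p.1.2, p.2))) (by fun_prop))))

attribute [local irreducible] inn in
theorem poly_um : NPC.Poly (fun x : (List ℕ × List (ℕ × ℕ)) × (List ℕ × List ℕ) =>
    um x.1.1 x.1.2 x.2.1 x.2.2) := by
  unfold um
  refine NPC.Poly.filter (p := fun (x : (List ℕ × List (ℕ × ℕ)) × (List ℕ × List ℕ)) (v : ℕ) =>
    !decide (v ∈ x.2.1) && (decide (v ∈ x.2.2) || !inn x.1.2 x.2.1 x.2.2 v)) (by fun_prop)
    (NPC.Poly.and (by fun_prop) (NPC.Poly.or (by fun_prop) (NPC.Poly.not (poly_inn.comp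
      (f := fun p : ((List ℕ × List (ℕ × ℕ)) × (List ℕ × List ℕ)) × ℕ =>
        (p.1.1.2, (p.1.2, p.2))) (by fun_prop)))))

theorem poly_ins : NPC.Poly (fun x : (List (ℕ × ℕ) × List (ℕ × ℕ)) × List ℕ =>
    ins x.1.1 x.1.2 x.2) := by
  unfold ins
  fun_prop

/-- the two tests, once `up` and `um` are known -/
def fn2 (E LO LI : List (ℕ × ℕ)) (P M : List ℕ) (FO FI : List (ℕ × ℕ)) : Bool :=
  (FO.all (fun e => decide (e ∈ E) && (decide (e.1 ∈ P) &&
    (decide (e.2 ∈ M) && !decide (e ∈ FI)))) &&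
  FI.all (fun e => decide (e ∈ E) && (decide (e.1 ∈ P) &&
    decide (e.2 ∈ M)))) &&
  (P.all (fun u => FI.any (fun e =>
    H654R4.MO.reachB (ins E LO P) u e.1)) &&
  M.all (fun v => FO.any (fun e =>
    H654R4.MO.reachB (ins E LI M) e.2 v)))

theorem fin_eq (V : List ℕ) (E LO LI : List (ℕ × ℕ)) (A B : List ℕ) (FO FI : List (ℕ × ℕ)) :
    fin V E LO LI A B FO FI = fn2 E LO LI (up V E A B) (um V E A B) FO FI := rfl

/-- input of the final test: `E`, `(LO, LI)`, `(P, M)`, `(FO, FI)` -/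
abbrev FIn := List (ℕ × ℕ) × ((List (ℕ × ℕ) × List (ℕ × ℕ)) × ((List ℕ × List ℕ) ×
  (List (ℕ × ℕ) × List (ℕ × ℕ))))

attribute [local irreducible] ins H654R4.MO.reachB in
theorem poly_fn2 : NPC.Poly (fun x : FIn => fn2 x.1 x.2.1.1 x.2.1.2 x.2.2.1.1 x.2.2.1.2
    x.2.2.2.1 x.2.2.2.2) := by
  unfold fn2
  refine NPC.Poly.and (by fun_prop) (NPC.Poly.and ?_ ?_)
  · refine NPC.Poly.all (p := fun (x : FIn) (u : ℕ) => x.2.2.2.2.any (fun e =>
      H654R4.MO.reachB (ins x.1 x.2.1.1 x.2.2.1.1) u e.1)) (by fun_prop) ?_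
    refine NPC.Poly.any (p := fun (q : FIn × ℕ) (e : ℕ × ℕ) =>
      H654R4.MO.reachB (ins q.1.1 q.1.2.1.1 q.1.2.2.1.1) q.2 e.1) (by fun_prop) ?_
    exact H654R4.MO.poly_reachB.comp (f := fun q : (FIn × ℕ) × (ℕ × ℕ) =>
      (ins q.1.1.1 q.1.1.2.1.1 q.1.1.2.2.1.1, q.1.2, q.2.1)) (NPC.Poly.pair (poly_ins.comp
        (f := fun q : (FIn × ℕ) × (ℕ × ℕ) => ((q.1.1.1, q.1.1.2.1.1), q.1.1.2.2.1.1))
        (by fun_prop)) (by fun_prop))
  · refine NPC.Poly.all (p := fun (x : FIn) (u : ℕ) => x.2.2.2.1.any (fun e =>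
      H654R4.MO.reachB (ins x.1 x.2.1.2 x.2.2.1.2) e.2 u)) (by fun_prop) ?_
    refine NPC.Poly.any (p := fun (q : FIn × ℕ) (e : ℕ × ℕ) =>
      H654R4.MO.reachB (ins q.1.1 q.1.2.1.2 q.1.2.2.1.2) e.2 q.2) (by fun_prop) ?_
    exact H654R4.MO.poly_reachB.comp (f := fun q : (FIn × ℕ) × (ℕ × ℕ) =>
      (ins q.1.1.1 q.1.1.2.1.2 q.1.1.2.2.1.2, q.2.2, q.1.2)) (NPC.Poly.pair (poly_ins.comp
        (f := fun q : (FIn × ℕ) × (ℕ × ℕ) => ((q.1.1.1, q.1.1.2.1.2), q.1.1.2.2.1.2))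
        (by fun_prop)) (by fun_prop))

theorem sz_filter_le {α : Type} [TEnc α] (p : α → Bool) (l : List α) : sz (l.filter p) ≤ sz l := by
  induction l with
  | nil => simp
  | cons a l ih =>
    rw [List.filter_cons]
    split_ifs
    · simp only [sz_list_cons]; omega
    · simp only [sz_list_cons]; omega

theorem sz_stp (V : List ℕ) (E LO LI : List (ℕ × ℕ)) (z : List ℕ × List ℕ) :
    sz (stp V E LO LI z) ≤ sz z + 2 * sz V := by
  unfold stp newA newB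
  simp only [sz_pair]
  obtain ⟨A, B⟩ := z
  simp only [sz_pair]
  have h1 := sz_append A (V.filter (fun v => !decide (v ∈ A) && ((!decide (v ∈ B) &&
    (inn E A B v && outn E A B v)) ||
    (decide (v ∈ B) && inn (E.filter (fun e => !decide (e ∈ LI))) A B v))))
  have h2 := sz_append B (V.filter (fun v => !decide (v ∈ B) && ((!decide (v ∈ A) &&
    (inn E A B v && outn E A B v)) ||
    (decide (v ∈ A) && outn (E.filter (fun e => !decide (e ∈ LO))) A B v))))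
  have h3 := sz_filter_le (fun v => !decide (v ∈ A) && ((!decide (v ∈ B) &&
    (inn E A B v && outn E A B v)) ||
    (decide (v ∈ B) && inn (E.filter (fun e => !decide (e ∈ LI))) A B v))) V
  have h4 := sz_filter_le (fun v => !decide (v ∈ B) && ((!decide (v ∈ A) &&
    (inn E A B v && outn E A B v)) ||
    (decide (v ∈ A) && outn (E.filter (fun e => !decide (e ∈ LO))) A B v))) V
  omega

theorem sz_iter_stp (V : List ℕ) (E LO LI : List (ℕ × ℕ)) (z : List ℕ × List ℕ) (k : ℕ) :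
    sz ((stp V E LO LI)^[k] z) ≤ sz z + k * (2 * sz V) := by
  induction k with
  | zero => simp
  | succ k ih =>
    rw [Function.iterate_succ_apply']
    have := sz_stp V E LO LI ((stp V E LO LI)^[k] z)
    rw [Nat.succ_mul]
    omega

attribute [local irreducible] stp prs in
theorem poly_cls : NPC.Poly (fun x : Dat => cls x.1.1 x.1.2 x.2) := by
  unfold cls
  have hp : ∀ F : Dat → List ℕ, NPC.Poly F → NPC.Poly (fun x => prs (F x)) := fun F hF =>
    poly_prs.comp hF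
  have h1 : NPC.Poly (fun x : Dat => prs x.2.1.1 ++ prs x.2.1.2) :=
    NPC.Poly.append (hp _ (by fun_prop)) (hp _ (by fun_prop))
  have h2 : NPC.Poly (fun x : Dat => prs x.2.2.1 ++ prs x.2.2.2) :=
    NPC.Poly.append (hp _ (by fun_prop)) (hp _ (by fun_prop))
  refine NPC.Poly.iterLen (l := fun x : Dat => x.1.1 ++ x.1.1)
    (s := fun x : Dat => (x.2.1.1 ++ x.2.1.2, x.2.2.1 ++ x.2.2.2))
    (F := fun x z => stp x.1.1 x.1.2 (prs x.2.1.1 ++ prs x.2.1.2) (prs x.2.2.1 ++ prs x.2.2.2) z)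
    (by fun_prop) (by fun_prop) ?_
    (2 * Polynomial.X + 2 * Polynomial.X * (2 * Polynomial.X)) ?_
  · exact poly_stp.comp (f := fun p : Dat × (List ℕ × List ℕ) =>
      (p.1.1, ((prs p.1.2.1.1 ++ prs p.1.2.1.2, prs p.1.2.2.1 ++ prs p.1.2.2.2), p.2)))
      (NPC.Poly.pair (by fun_prop) (NPC.Poly.pair (NPC.Poly.pair
        (h1.comp (f := fun p : Dat × (List ℕ × List ℕ) => p.1) (by fun_prop))
        (h2.comp (f := fun p : Dat × (List ℕ × List ℕ) => p.1) (by fun_prop))) (by fun_prop)))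
  · rintro ⟨⟨V, E⟩, ⟨W1, W2⟩, W3, W4⟩ k hk
    have h1 := sz_iter_stp V E (prs W1 ++ prs W2) (prs W3 ++ prs W4) (W1 ++ W2, W3 ++ W4) k
    have h2 : k ≤ 2 * sz (((V, E), ((W1, W2), (W3, W4))) : Dat) := by
      have := length_lt_sz V
      simp only [List.length_append] at hk
      simp only [sz_pair]
      omega
    have h3 : 2 * sz V ≤ 2 * sz (((V, E), ((W1, W2), (W3, W4))) : Dat) := by
      simp only [sz_pair]
      omega
    have h4 : sz (W1 ++ W2, W3 ++ W4) ≤ 2 * sz (((V, E), ((W1, W2), (W3, W4))) : Dat) := by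
      have := sz_append W1 W2
      have := sz_append W3 W4
      simp only [sz_pair]
      omega
    have h5 := Nat.mul_le_mul h2 h3
    simp only [Polynomial.eval_add, Polynomial.eval_mul, Polynomial.eval_X,
      Polynomial.eval_ofNat]
    exact h1.trans (Nat.add_le_add h4 h5)

end Pool.Agent.H871.GP
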