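import Pool.Agent.H871_GP.Time

/-!
# The running time, continued
-/

namespace Pool.Agent.H871.GP

open Pool.Agent.NPC

/-- the final test, from the data and the two lists of arcs -/
def tst (x : Dat) (F : List (ℕ × ℕ) × List (ℕ × ℕ)) : Bool :=
  fin x.1.1 x.1.2 (prs x.2.1.1 ++ prs x.2.1.2) (prs x.2.2.1 ++ prs x.2.2.2) (cls x.1.1 x.1.2 x.2).1
    (cls x.1.1 x.1.2 x.2).2 F.1 F.2

attribute [local irreducible] fn2 up um cls prs in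
theorem poly_tst' : NPC.Poly (fun x : Dat × (List (ℕ × ℕ) × List (ℕ × ℕ)) =>
    fn2 x.1.1.2 (prs x.1.2.1.1 ++ prs x.1.2.1.2) (prs x.1.2.2.1 ++ prs x.1.2.2.2)
      (up x.1.1.1 x.1.1.2 (cls x.1.1.1 x.1.1.2 x.1.2).1 (cls x.1.1.1 x.1.1.2 x.1.2).2)
      (um x.1.1.1 x.1.1.2 (cls x.1.1.1 x.1.1.2 x.1.2).1 (cls x.1.1.1 x.1.1.2 x.1.2).2)
      x.2.1 x.2.2) := by
  have hc : NPC.Poly (fun x : Dat × (List (ℕ × ℕ) × List (ℕ × ℕ)) =>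
      cls x.1.1.1 x.1.1.2 x.1.2) :=
    poly_cls.comp (f := fun x : Dat × (List (ℕ × ℕ) × List (ℕ × ℕ)) => x.1) (by fun_prop)
  have hp : ∀ F : Dat × (List (ℕ × ℕ) × List (ℕ × ℕ)) → List ℕ, NPC.Poly F →
      NPC.Poly (fun x => prs (F x)) := fun F hF => poly_prs.comp hF
  have h1 : NPC.Poly (fun x : Dat × (List (ℕ × ℕ) × List (ℕ × ℕ)) =>
      prs x.1.2.1.1 ++ prs x.1.2.1.2) :=
    NPC.Poly.append (hp _ (by fun_prop)) (hp _ (by fun_prop))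
  have h2 : NPC.Poly (fun x : Dat × (List (ℕ × ℕ) × List (ℕ × ℕ)) =>
      prs x.1.2.2.1 ++ prs x.1.2.2.2) :=
    NPC.Poly.append (hp _ (by fun_prop)) (hp _ (by fun_prop))
  have hup : NPC.Poly (fun x : Dat × (List (ℕ × ℕ) × List (ℕ × ℕ)) =>
      up x.1.1.1 x.1.1.2 (cls x.1.1.1 x.1.1.2 x.1.2).1 (cls x.1.1.1 x.1.1.2 x.1.2).2) :=
    poly_up.comp (f := fun x : Dat × (List (ℕ × ℕ) × List (ℕ × ℕ)) =>
      (x.1.1, cls x.1.1.1 x.1.1.2 x.1.2)) (NPC.Poly.pair (by fun_prop) hc)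
  have hum : NPC.Poly (fun x : Dat × (List (ℕ × ℕ) × List (ℕ × ℕ)) =>
      um x.1.1.1 x.1.1.2 (cls x.1.1.1 x.1.1.2 x.1.2).1 (cls x.1.1.1 x.1.1.2 x.1.2).2) :=
    poly_um.comp (f := fun x : Dat × (List (ℕ × ℕ) × List (ℕ × ℕ)) =>
      (x.1.1, cls x.1.1.1 x.1.1.2 x.1.2)) (NPC.Poly.pair (by fun_prop) hc)
  have := poly_fn2.comp (f := fun x : Dat × (List (ℕ × ℕ) × List (ℕ × ℕ)) =>
    (x.1.1.2, ((prs x.1.2.1.1 ++ prs x.1.2.1.2, prs x.1.2.2.1 ++ prs x.1.2.2.2),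
      ((up x.1.1.1 x.1.1.2 (cls x.1.1.1 x.1.1.2 x.1.2).1 (cls x.1.1.1 x.1.1.2 x.1.2).2,
        um x.1.1.1 x.1.1.2 (cls x.1.1.1 x.1.1.2 x.1.2).1 (cls x.1.1.1 x.1.1.2 x.1.2).2), x.2))))
    (NPC.Poly.pair (by fun_prop) (NPC.Poly.pair (NPC.Poly.pair h1 h2)
      (NPC.Poly.pair (NPC.Poly.pair hup hum) (by fun_prop))))
  exact this

theorem poly_tst : NPC.Poly (fun x : Dat × (List (ℕ × ℕ) × List (ℕ × ℕ)) => tst x.1 x.2) :=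
  poly_tst'

attribute [local irreducible] tst gsB tup in
theorem poly_dcB' (c : ℕ) : NPC.Poly (fun x : List ℕ × List (ℕ × ℕ) =>
    ((x.1 ×ˢ x.1) ×ˢ (x.1 ×ˢ x.1)).any (fun r =>
    ((tup (c + 1) x.1 ×ˢ tup (c + 1) x.1) ×ˢ (tup (c + 1) x.1 ×ˢ tup (c + 1) x.1)).any (fun W =>
      gsB x.2 r W && (tup 4 x.2 ×ˢ tup 4 x.2).any (fun F => tst (x, W) F)))) := by
  have ht : NPC.Poly (fun x : (List ℕ × List (ℕ × ℕ)) × ((ℕ × ℕ) × (ℕ × ℕ)) =>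
      tup (c + 1) x.1.1) :=
    (poly_tup (c + 1)).comp (f := fun x : (List ℕ × List (ℕ × ℕ)) × ((ℕ × ℕ) × (ℕ × ℕ)) =>
      x.1.1) (by fun_prop)
  have h4 : NPC.Poly (fun x : ((List ℕ × List (ℕ × ℕ)) × ((ℕ × ℕ) × (ℕ × ℕ))) ×
      ((List ℕ × List ℕ) × (List ℕ × List ℕ)) => tup 4 x.1.1.2) :=
    (poly_tup 4).comp (f := fun x : ((List ℕ × List (ℕ × ℕ)) × ((ℕ × ℕ) × (ℕ × ℕ))) ×
      ((List ℕ × List ℕ) × (List ℕ × List ℕ)) => x.1.1.2) (by fun_prop)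
  refine NPC.Poly.any (p := fun (x : List ℕ × List (ℕ × ℕ)) (r : (ℕ × ℕ) × (ℕ × ℕ)) =>
    ((tup (c + 1) x.1 ×ˢ tup (c + 1) x.1) ×ˢ (tup (c + 1) x.1 ×ˢ tup (c + 1) x.1)).any (fun W =>
      gsB x.2 r W && (tup 4 x.2 ×ˢ tup 4 x.2).any (fun F => tst (x, W) F))) (by fun_prop) ?_
  refine NPC.Poly.any (p := fun (x : (List ℕ × List (ℕ × ℕ)) × ((ℕ × ℕ) × (ℕ × ℕ)))
      (W : (List ℕ × List ℕ) × (List ℕ × List ℕ)) =>
      gsB x.1.2 x.2 W && (tup 4 x.1.2 ×ˢ tup 4 x.1.2).any (fun F => tst (x.1, W) F))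
    (R671.poly_product (R671.poly_product ht ht) (R671.poly_product ht ht)) ?_
  refine NPC.Poly.and ?_ ?_
  · exact poly_gsB.comp (f := fun x : ((List ℕ × List (ℕ × ℕ)) × ((ℕ × ℕ) × (ℕ × ℕ))) ×
      ((List ℕ × List ℕ) × (List ℕ × List ℕ)) => (x.1.1.2, (x.1.2, x.2))) (by fun_prop)
  · refine NPC.Poly.any (p := fun (x : ((List ℕ × List (ℕ × ℕ)) × ((ℕ × ℕ) × (ℕ × ℕ))) ×
      ((List ℕ × List ℕ) × (List ℕ × List ℕ))) (F : List (ℕ × ℕ) × List (ℕ × ℕ)) =>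
        tst (x.1.1, x.2) F) (R671.poly_product h4 h4) ?_
    exact poly_tst.comp (f := fun x : (((List ℕ × List (ℕ × ℕ)) × ((ℕ × ℕ) × (ℕ × ℕ))) ×
      ((List ℕ × List ℕ) × (List ℕ × List ℕ))) × (List (ℕ × ℕ) × List (ℕ × ℕ)) =>
        ((x.1.1.1, x.1.2), x.2)) (by fun_prop)

theorem poly_dcB (c : ℕ) : NPC.Poly (fun x : List ℕ × List (ℕ × ℕ) => dcB c x.1 x.2) :=
  poly_dcB' c

attribute [local irreducible] dcB alB arcs in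
theorem poly_main1 (c : ℕ) : NPC.Poly (fun G : List ℕ × List (ℕ × ℕ) =>
    alB G.1 (arcs G) && dcB c G.1 (arcs G)) := by
  refine NPC.Poly.and ?_ ?_
  · exact poly_alB.comp (f := fun G : List ℕ × List (ℕ × ℕ) => (G.1, arcs G))
      (NPC.Poly.pair (by fun_prop) poly_arcs)
  · exact (poly_dcB c).comp (f := fun G : List ℕ × List (ℕ × ℕ) => (G.1, arcs G))
      (NPC.Poly.pair (by fun_prop) poly_arcs)

attribute [local irreducible] dcB alB arcs cdB in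
theorem poly_main2 (d : ℕ) : NPC.Poly (fun G : List ℕ × List (ℕ × ℕ) =>
    cdB d G.1 (arcs G) && (alB G.1 (arcs G) && dcB (d + 8) G.1 (arcs G))) := by
  refine NPC.Poly.and ?_ (poly_main1 _)
  exact (poly_cdB d).comp (f := fun G : List ℕ × List (ℕ × ℕ) => (G.1, arcs G))
      (NPC.Poly.pair (by fun_prop) poly_arcs)

end Pool.Agent.H871.GP
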