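import Pool.Agent.H871_GP.Alg2
import Pool.Agent.H871_GP.Time2

/-!
# The running time of the algorithm for the general case
-/

namespace Pool.Agent.H871.GP

open Pool.Agent.NPC

theorem poly_ends : NPC.Poly (fun L : List (ℕ × ℕ) => ends L) := by
  unfold ends
  fun_prop

attribute [local irreducible] ends in
theorem poly_gs2 : NPC.Poly (fun x : Rts × (List ℕ × Lst) => gs2 x.1 x.2.1 x.2.2) := by
  unfold gs2
  have h1 : NPC.Poly (fun x : Rts × (List ℕ × Lst) => x.1.1.1 :: ends x.2.2.1) :=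
    NPC.Poly.cons (by fun_prop) (poly_ends.comp (f := fun x : Rts × (List ℕ × Lst) => x.2.2.1)
      (by fun_prop))
  have h2 : NPC.Poly (fun x : Rts × (List ℕ × Lst) => x.1.1.2 :: ends x.2.2.2) :=
    NPC.Poly.cons (by fun_prop) (poly_ends.comp (f := fun x : Rts × (List ℕ × Lst) => x.2.2.2)
      (by fun_prop))
  refine NPC.Poly.and (by fun_prop) (NPC.Poly.and (NPC.Poly.and ?_ (NPC.Poly.and ?_ ?_))
    (NPC.Poly.and ?_ ?_))
  · exact NPC.Poly.dec_mem (by fun_prop) h1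
  · exact NPC.Poly.dec_mem (by fun_prop) h1
  · exact NPC.Poly.dec_mem (by fun_prop) h1
  · exact NPC.Poly.dec_mem (by fun_prop) h2
  · exact NPC.Poly.dec_mem (by fun_prop) h2

/-- input: vertices and arcs, roots, and two lists of arcs -/
abbrev CIn := (List ℕ × List (ℕ × ℕ)) × (Rts × Lst)

theorem sz_ends (L : List (ℕ × ℕ)) : sz (ends L) ≤ 2 * sz L := by
  have h1 : ∀ L : List (ℕ × ℕ), sz (L.map (fun e => e.1)) ≤ sz L := by
    intro L
    induction L with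
    | nil => simp
    | cons e L ih =>
      obtain ⟨p, q⟩ := e
      simp only [List.map_cons, sz_list_cons, sz_pair]
      omega
  have h2 : ∀ L : List (ℕ × ℕ), sz (L.map (fun e => e.2)) ≤ sz L := by
    intro L
    induction L with
    | nil => simp
    | cons e L ih =>
      obtain ⟨p, q⟩ := e
      simp only [List.map_cons, sz_list_cons, sz_pair]
      omega
  unfold ends
  have := sz_append (L.map (fun e => e.1)) (L.map (fun e => e.2))
  have := h1 L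
  have := h2 L
  omega

attribute [local irreducible] stp ends in
theorem poly_cl2 : NPC.Poly (fun x : CIn => cl2 x.1.1 x.1.2 x.2.1 x.2.2) := by
  unfold cl2
  have he1 : NPC.Poly (fun x : CIn => ends x.2.2.1) :=
    poly_ends.comp (f := fun x : CIn => x.2.2.1) (by fun_prop)
  have he2 : NPC.Poly (fun x : CIn => ends x.2.2.2) :=
    poly_ends.comp (f := fun x : CIn => x.2.2.2) (by fun_prop)
  refine NPC.Poly.iterLen (l := fun x : CIn => x.1.1 ++ x.1.1)
    (s := fun x : CIn => (x.2.1.1.1 :: ends x.2.2.1, x.2.1.1.2 :: ends x.2.2.2))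
    (F := fun x z => stp x.1.1 x.1.2 x.2.2.1 x.2.2.2 z)
    (by fun_prop) (NPC.Poly.pair (NPC.Poly.cons (by fun_prop) he1)
      (NPC.Poly.cons (by fun_prop) he2)) ?_
    (4 * Polynomial.X + 2 * Polynomial.X * (2 * Polynomial.X)) ?_
  · exact poly_stp.comp (f := fun p : CIn × (List ℕ × List ℕ) =>
      (p.1.1, (p.1.2.2, p.2))) (by fun_prop)
  · rintro ⟨⟨V, E⟩, ⟨⟨s, t⟩, y1, y2⟩, LO, LI⟩ k hk
    have h1 := sz_iter_stp V E LO LI (s :: ends LO, t :: ends LI) k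
    have h2 : k ≤ 2 * sz (((V, E), (((s, t), (y1, y2)), (LO, LI))) : CIn) := by
      have := length_lt_sz V
      simp only [List.length_append] at hk
      simp only [sz_pair]
      omega
    have h3 : 2 * sz V ≤ 2 * sz (((V, E), (((s, t), (y1, y2)), (LO, LI))) : CIn) := by
      simp only [sz_pair]
      omega
    have h4 : sz (s :: ends LO, t :: ends LI) ≤
        4 * sz (((V, E), (((s, t), (y1, y2)), (LO, LI))) : CIn) := by
      have := sz_ends LO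
      have := sz_ends LI
      simp only [sz_pair, sz_list_cons]
      omega
    have h5 := Nat.mul_le_mul h2 h3
    simp only [Polynomial.eval_add, Polynomial.eval_mul, Polynomial.eval_X,
      Polynomial.eval_ofNat]
    exact h1.trans (Nat.add_le_add h4 h5)

attribute [local irreducible] inn outn in
theorem poly_dmB : NPC.Poly (fun x : (List ℕ × List (ℕ × ℕ)) × (List ℕ × List ℕ) =>
    dmB x.1.1 x.1.2 x.2) := by
  unfold dmB
  refine NPC.Poly.all (p := fun (x : (List ℕ × List (ℕ × ℕ)) × (List ℕ × List ℕ)) (v : ℕ) =>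
    (decide (v ∈ x.2.1) || decide (v ∈ x.2.2)) || (inn x.1.2 x.2.1 x.2.2 v ||
      outn x.1.2 x.2.1 x.2.2 v)) (by fun_prop)
    (NPC.Poly.or (by fun_prop) (NPC.Poly.or ?_ ?_))
  · exact poly_inn.comp (f := fun p : ((List ℕ × List (ℕ × ℕ)) × (List ℕ × List ℕ)) × ℕ =>
      (p.1.1.2, (p.1.2, p.2))) (by fun_prop)
  · exact poly_outn.comp (f := fun p : ((List ℕ × List (ℕ × ℕ)) × (List ℕ × List ℕ)) × ℕ =>
      (p.1.1.2, (p.1.2, p.2))) (by fun_prop)

theorem poly_frv : NPC.Poly (fun x : (List ℕ × List ℕ) × (List ℕ × List ℕ) =>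
    frv x.1.1 x.1.2 x.2) := by
  unfold frv
  fun_prop

/-- input: arcs, roots, two lists of arcs, and a list of vertices -/
abbrev MIn := List (ℕ × ℕ) × (Rts × (Lst × List ℕ))

attribute [local irreducible] adB in
theorem poly_mM : NPC.Poly (fun x : MIn => mM x.1 x.2.1 x.2.2.1 x.2.2.2) := by
  unfold mM
  refine NPC.Poly.filter (p := fun (x : MIn) (v : ℕ) => !adB x.1 (v, x.2.1.1.2) &&
    ((decide ((v, x.2.1.2.1) ∈ x.1) && !decide ((v, x.2.1.2.1) ∈ x.2.2.1.1)) &&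
    (decide ((x.2.1.2.2, v) ∈ x.1) && !decide ((x.2.1.2.2, v) ∈ x.2.2.1.2)))) (by fun_prop)
    (NPC.Poly.and (NPC.Poly.not ?_) (by fun_prop))
  exact poly_adB.comp (f := fun p : MIn × ℕ => (p.1.1, (p.2, p.1.2.1.1.2))) (by fun_prop)

theorem poly_mA : NPC.Poly (fun x : MIn => mA x.1 x.2.1 x.2.2.1 x.2.2.2) := by
  unfold mA
  fun_prop

theorem poly_mB : NPC.Poly (fun x : MIn => mB x.1 x.2.1 x.2.2.1 x.2.2.2) := by
  unfold mB
  fun_prop

/-- the guess and the state -/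
abbrev GIn := (List ℕ × List (ℕ × ℕ)) × (Rts × (List ℕ × (Lst × (List ℕ × List ℕ))))

attribute [local irreducible] mM mA mB frv in
theorem poly_cs3 : NPC.Poly (fun x : GIn =>
    cs3 x.1.1 x.1.2 x.2.1 x.2.2.1 x.2.2.2.1 x.2.2.2.2) := by
  unfold cs3
  have hf : NPC.Poly (fun x : GIn => frv x.1.1 x.2.2.1 x.2.2.2.2) :=
    poly_frv.comp (f := fun x : GIn => ((x.1.1, x.2.2.1), x.2.2.2.2)) (by fun_prop)
  have hi : NPC.Poly (fun x : GIn => ((x.1.2, (x.2.1, (x.2.2.2.1,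
      frv x.1.1 x.2.2.1 x.2.2.2.2))) : MIn)) :=
    NPC.Poly.pair (by fun_prop) (NPC.Poly.pair (by fun_prop) (NPC.Poly.pair (by fun_prop) hf))
  exact NPC.Poly.pair (poly_mM.comp hi) (NPC.Poly.pair (poly_mA.comp hi) (poly_mB.comp hi))

/-! ### The dynamic program -/

theorem poly_sc : NPC.Poly (fun x : List (ℕ × ℕ) × (List ℕ × ℕ) => sc x.1 x.2.1 x.2.2) := by
  unfold sc
  fun_prop

attribute [local irreducible] sc in
theorem poly_inS : NPC.Poly (fun x : (List (ℕ × ℕ) × List ℕ) × (ℕ × ℕ) =>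
    inS x.1.1 x.1.2 x.2.1 x.2.2) := by
  unfold inS
  refine NPC.Poly.and (by fun_prop) (NPC.Poly.decide_lt ?_ (by fun_prop))
  exact poly_sc.comp (f := fun x : (List (ℕ × ℕ) × List ℕ) × (ℕ × ℕ) => (x.1.1, (x.1.2, x.2.2)))
    (by fun_prop)

attribute [local irreducible] inS in
theorem poly_itl : NPC.Poly (fun x : (List (ℕ × ℕ) × List ℕ) × (ℕ × (ℕ × ℕ)) =>
    itl x.1.1 x.1.2 x.2.1 x.2.2) := by
  unfold itl
  refine NPC.Poly.and ?_ ?_
  · exact poly_inS.comp (f := fun x : (List (ℕ × ℕ) × List ℕ) × (ℕ × (ℕ × ℕ)) =>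
      (x.1, (x.2.1, x.2.2.1))) (by fun_prop)
  · exact poly_inS.comp (f := fun x : (List (ℕ × ℕ) × List ℕ) × (ℕ × (ℕ × ℕ)) =>
      (x.1, (x.2.1, x.2.2.2))) (by fun_prop)

theorem poly_mmB : NPC.Poly (fun x : (List (ℕ × ℕ) × List ℕ) × (ℕ × ℕ) =>
    mmB x.1.1 x.1.2 x.2) := by
  unfold mmB
  fun_prop

theorem poly_frB : NPC.Poly (fun x : (List (ℕ × ℕ) × (List ℕ × List ℕ)) × (ℕ × ℕ) =>
    frB x.1.1 x.1.2.1 x.1.2.2 x.2) := by
  unfold frB
  fun_prop

/-- input of a move: `E`, `M`, `Z`, `L`; `θ`, `e`; `F`, `G`, `F'` -/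
abbrev VIn := (List (ℕ × ℕ) × ((List ℕ × List ℕ) × List (ℕ × ℕ))) ×
  ((ℕ × (ℕ × ℕ)) × ((List (ℕ × ℕ) × List (ℕ × ℕ)) × List (ℕ × ℕ)))

attribute [local irreducible] itl mmB frB in
theorem poly_mvB : NPC.Poly (fun x : VIn => mvB x.1.1 x.1.2.1.1 x.1.2.1.2 x.1.2.2 x.2.1.1 x.2.1.2
    x.2.2.1.1 x.2.2.1.2 x.2.2.2) := by
  unfold mvB
  refine NPC.Poly.or (NPC.Poly.and (NPC.Poly.and ?_ (NPC.Poly.and (NPC.Poly.not ?_) (by fun_prop)))
    (by fun_prop)) (NPC.Poly.or (by fun_prop) (NPC.Poly.and ?_ (by fun_prop)))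
  · exact poly_mmB.comp (f := fun x : VIn => ((x.1.1, x.1.2.1.1), x.2.1.2)) (by fun_prop)
  · exact poly_itl.comp (f := fun x : VIn => ((x.1.1, x.1.2.1.1), x.2.1)) (by fun_prop)
  · exact poly_frB.comp (f := fun x : VIn => ((x.1.1, x.1.2.1), x.2.1.2)) (by fun_prop)

/-- the data of the dynamic program -/
abbrev DIn := List (ℕ × ℕ) × (Cls × Lst)

attribute [local irreducible] itl mvB in
theorem poly_stB : NPC.Poly (fun x : DIn × (Cf × Cf) => stB x.1.1 x.1.2.1.1 x.1.2.1.2.1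
    x.1.2.1.2.2 x.1.2.2.1 x.1.2.2.2 x.2.1 x.2.2) := by
  unfold stB
  have hf : ∀ F : DIn × (Cf × Cf) → List (ℕ × ℕ), NPC.Poly F → NPC.Poly
      (fun x : DIn × (Cf × Cf) => (F x).filter
        (fun e => !itl x.1.1 x.1.2.1.1 (x.2.1.1 + 1) e)) := by
    intro F hF
    refine NPC.Poly.filter (p := fun (x : DIn × (Cf × Cf)) (e : ℕ × ℕ) =>
      !itl x.1.1 x.1.2.1.1 (x.2.1.1 + 1) e) hF (NPC.Poly.not ?_)
    exact poly_itl.comp (f := fun p : (DIn × (Cf × Cf)) × (ℕ × ℕ) =>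
      ((p.1.1.1, p.1.1.2.1.1), (p.1.2.1.1 + 1, p.2))) (by fun_prop)
  refine NPC.Poly.or (NPC.Poly.and (by fun_prop) ?_) (NPC.Poly.or (NPC.Poly.and (by fun_prop) ?_)
    (NPC.Poly.and (by fun_prop) (NPC.Poly.and (by fun_prop) (NPC.Poly.and ?_ ?_))))
  · exact poly_mvB.comp (f := fun x : DIn × (Cf × Cf) =>
      ((x.1.1, ((x.1.2.1.1, x.1.2.1.2.1), x.1.2.2.1)),
        ((x.2.1.1, (x.2.1.2.1.1, x.2.2.2.1.1)), ((x.2.1.2.2.1, x.2.2.2.2.1), x.2.1.2.2.2))))
      (by fun_prop)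
  · exact poly_mvB.comp (f := fun x : DIn × (Cf × Cf) =>
      ((x.1.1, ((x.1.2.1.1, x.1.2.1.2.2), x.1.2.2.2)),
        ((x.2.1.1, (x.2.1.2.1.2, x.2.2.2.1.2)), ((x.2.1.2.2.2, x.2.2.2.2.2), x.2.1.2.2.1))))
      (by fun_prop)
  · exact NPC.Poly.dec_eq (f := fun x : DIn × (Cf × Cf) => x.2.2.2.2.1) (by fun_prop)
      (hf (fun x => x.2.1.2.2.1) (by fun_prop))
  · exact NPC.Poly.dec_eq (f := fun x : DIn × (Cf × Cf) => x.2.2.2.2.2) (by fun_prop)
      (hf (fun x => x.2.1.2.2.2) (by fun_prop))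

attribute [local irreducible] stB in
theorem poly_rnd : NPC.Poly (fun x : (List Cf × DIn) × List Cf => rnd x.1.1
    (stB x.1.2.1 x.1.2.2.1.1 x.1.2.2.1.2.1 x.1.2.2.1.2.2 x.1.2.2.2.1 x.1.2.2.2.2) x.2) := by
  unfold rnd
  refine NPC.Poly.append (by fun_prop) ?_
  refine NPC.Poly.filter ?_ (NPC.Poly.and (NPC.Poly.not (NPC.Poly.dec_mem (inst := _) ?_ ?_)) ?_)
  · fun_prop
  · fun_prop
  · fun_prop
  refine NPC.Poly.any (p := fun (q : ((List Cf × DIn) × List Cf) × Cf) (c : Cf) =>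
    stB q.1.1.2.1 q.1.1.2.2.1.1 q.1.1.2.2.1.2.1
      q.1.1.2.2.1.2.2 q.1.1.2.2.2.1 q.1.1.2.2.2.2 c q.2) (by fun_prop) ?_
  exact poly_stB.comp (f := fun q : (((List Cf × DIn) × List Cf) × Cf) × Cf =>
    (q.1.1.1.2, (q.2, q.1.2))) (by fun_prop)

theorem sz_rnd (N : List Cf) (st : Cf → Cf → Bool) (R : List Cf) :
    sz (rnd N st R) ≤ sz R + sz N := by
  unfold rnd
  exact (Nat.le_of_succ_le (sz_append _ _).le).trans (Nat.add_le_add_left (sz_filter_le _ _) _)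

theorem sz_iter_rnd (N : List Cf) (st : Cf → Cf → Bool) (R : List Cf) (k : ℕ) :
    sz ((rnd N st)^[k] R) ≤ sz R + k * sz N := by
  induction k with
  | zero => simp
  | succ k ih =>
    rw [Function.iterate_succ_apply']
    have h1 := sz_rnd N st ((rnd N st)^[k] R)
    rw [Nat.succ_mul]
    omega

attribute [local irreducible] rnd stB in
theorem poly_rch : NPC.Poly (fun x : List Cf × (DIn × Cf) =>
    rch x.1 x.2.1.1 x.2.1.2.1 x.2.1.2.2 x.2.2) := by
  unfold rch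
  refine NPC.Poly.iterLen (l := fun x : List Cf × (DIn × Cf) => x.1)
    (s := fun x : List Cf × (DIn × Cf) => [x.2.2])
    (F := fun x R => rnd x.1 (stB x.2.1.1 x.2.1.2.1.1 x.2.1.2.1.2.1 x.2.1.2.1.2.2 x.2.1.2.2.1
      x.2.1.2.2.2) R)
    (by fun_prop) (by fun_prop) ?_ (2 * Polynomial.X + Polynomial.X * Polynomial.X) ?_
  · exact poly_rnd.comp (f := fun p : (List Cf × (DIn × Cf)) × List Cf =>
      ((p.1.1, p.1.2.1), p.2)) (by fun_prop)
  · rintro ⟨N, D, c⟩ k hk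
    have h1 := sz_iter_rnd N (stB D.1 D.2.1.1 D.2.1.2.1 D.2.1.2.2 D.2.2.1 D.2.2.2) [c] k
    have h2 : k ≤ sz ((N, (D, c)) : List Cf × (DIn × Cf)) := by
      have := length_lt_sz N
      simp only at hk
      simp only [sz_pair]
      omega
    have h3 : sz N ≤ sz ((N, (D, c)) : List Cf × (DIn × Cf)) := by
      simp only [sz_pair]
      omega
    have h4 : sz [c] ≤ 2 * sz ((N, (D, c)) : List Cf × (DIn × Cf)) := by
      simp only [sz_pair, sz_list_cons, sz_list_nil]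
      have := sz_pos N
      omega
    have h5 := Nat.mul_le_mul h2 h3
    simp only [Polynomial.eval_add, Polynomial.eval_mul, Polynomial.eval_X,
      Polynomial.eval_ofNat]
    exact h1.trans (Nat.add_le_add h4 h5)

theorem poly_inr : NPC.Poly (fun x : List (ℕ × ℕ) × List ℕ => inr x.1 x.2) := by
  unfold inr
  fun_prop

/-- input of the test for final configurations -/
abbrev EIn := DIn × (Rts × Cf)

attribute [local irreducible] inr H654R4.MO.reachB in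
theorem poly_enB : NPC.Poly (fun x : EIn => enB x.1.1 x.1.2.1 x.2.1 x.1.2.2 x.2.2) := by
  unfold enB
  refine NPC.Poly.and (by fun_prop) (NPC.Poly.and ?_ ?_)
  · refine NPC.Poly.all (p := fun (x : EIn) (e : ℕ × ℕ) => decide (e ∈ x.2.2.2.2.1) ||
      H654R4.MO.reachB (x.1.2.2.1 ++ inr x.1.1 x.1.2.1.2.1) x.2.1.1.1 e.1) (by fun_prop)
      (NPC.Poly.or (by fun_prop) ?_)
    exact H654R4.MO.poly_reachB.comp (f := fun p : EIn × (ℕ × ℕ) =>
      (p.1.1.2.2.1 ++ inr p.1.1.1 p.1.1.2.1.2.1, p.1.2.1.1.1, p.2.1)) (NPC.Poly.pair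
        (NPC.Poly.append (by fun_prop) (poly_inr.comp (f := fun p : EIn × (ℕ × ℕ) =>
          (p.1.1.1, p.1.1.2.1.2.1)) (by fun_prop))) (by fun_prop))
  · refine NPC.Poly.all (p := fun (x : EIn) (e : ℕ × ℕ) => decide (e ∈ x.2.2.2.2.2) ||
      H654R4.MO.reachB (x.1.2.2.2 ++ inr x.1.1 x.1.2.1.2.2) e.2 x.2.1.1.2) (by fun_prop)
      (NPC.Poly.or (by fun_prop) ?_)
    exact H654R4.MO.poly_reachB.comp (f := fun p : EIn × (ℕ × ℕ) =>
      (p.1.1.2.2.2 ++ inr p.1.1.1 p.1.1.2.1.2.2, p.2.2, p.1.2.1.1.2)) (NPC.Poly.pair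
        (NPC.Poly.append (by fun_prop) (poly_inr.comp (f := fun p : EIn × (ℕ × ℕ) =>
          (p.1.1.1, p.1.1.2.1.2.2)) (by fun_prop))) (by fun_prop))

end Pool.Agent.H871.GP
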