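import Pool.Agent.H871_GP.Time3
import Pool.Agent.H871_GP.Comp7

/-!
# The running time of the algorithm for the general case, continued
-/

namespace Pool.Agent.H871.GP

open Pool.Agent.NPC

attribute [local irreducible] tup in
theorem poly_cfs (B : ℕ) : NPC.Poly (fun x : List ℕ × List (ℕ × ℕ) => cfs B x.1 x.2) := by
  unfold cfs
  have h1 : NPC.Poly (fun x : List ℕ × List (ℕ × ℕ) => tup B x.2) :=
    (poly_tup B).comp (f := fun x : List ℕ × List (ℕ × ℕ) => x.2) (by fun_prop)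
  exact R671.poly_product (NPC.Poly.range_length (l := fun x : List ℕ × List (ℕ × ℕ) =>
    0 :: 0 :: x.1) (by fun_prop)) (R671.poly_product (by fun_prop) (R671.poly_product h1 h1))

attribute [local irreducible] fn2 up um in
theorem poly_fin2' : NPC.Poly (fun x : GIn × (List (ℕ × ℕ) × List (ℕ × ℕ)) =>
    fn2 x.1.1.2 x.1.2.2.2.1.1 x.1.2.2.2.1.2
      (up x.1.1.1 x.1.1.2 x.1.2.2.2.2.1 x.1.2.2.2.2.2)
      (um x.1.1.1 x.1.1.2 x.1.2.2.2.2.1 x.1.2.2.2.2.2) x.2.1 x.2.2) := by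
  have hup : NPC.Poly (fun x : GIn × (List (ℕ × ℕ) × List (ℕ × ℕ)) =>
      up x.1.1.1 x.1.1.2 x.1.2.2.2.2.1 x.1.2.2.2.2.2) :=
    poly_up.comp (f := fun x : GIn × (List (ℕ × ℕ) × List (ℕ × ℕ)) =>
      (x.1.1, x.1.2.2.2.2)) (by fun_prop)
  have hum : NPC.Poly (fun x : GIn × (List (ℕ × ℕ) × List (ℕ × ℕ)) =>
      um x.1.1.1 x.1.1.2 x.1.2.2.2.2.1 x.1.2.2.2.2.2) :=
    poly_um.comp (f := fun x : GIn × (List (ℕ × ℕ) × List (ℕ × ℕ)) =>
      (x.1.1, x.1.2.2.2.2)) (by fun_prop)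
  have := poly_fn2.comp (f := fun x : GIn × (List (ℕ × ℕ) × List (ℕ × ℕ)) =>
    (x.1.1.2, (x.1.2.2.2.1, ((up x.1.1.1 x.1.1.2 x.1.2.2.2.2.1 x.1.2.2.2.2.2,
      um x.1.1.1 x.1.1.2 x.1.2.2.2.2.1 x.1.2.2.2.2.2), x.2))))
    (NPC.Poly.pair (by fun_prop) (NPC.Poly.pair (by fun_prop)
      (NPC.Poly.pair (NPC.Poly.pair hup hum) (by fun_prop))))
  exact this

theorem poly_fin2 : NPC.Poly (fun x : GIn × (List (ℕ × ℕ) × List (ℕ × ℕ)) =>
    fin x.1.1.1 x.1.1.2 x.1.2.2.2.1.1 x.1.2.2.2.1.2 x.1.2.2.2.2.1 x.1.2.2.2.2.2 x.2.1 x.2.2) :=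
  poly_fin2'

attribute [local irreducible] gs2 dmB rch enB cs3 tup fin in
theorem poly_ts2 : NPC.Poly (fun x : List Cf × GIn =>
    ts2 x.1 x.2.1.1 x.2.1.2 x.2.2.1 x.2.2.2.1 x.2.2.2.2.1 x.2.2.2.2.2) := by
  unfold ts2
  have hc : NPC.Poly (fun x : List Cf × GIn =>
      cs3 x.2.1.1 x.2.1.2 x.2.2.1 x.2.2.2.1 x.2.2.2.2.1 x.2.2.2.2.2) :=
    poly_cs3.comp (f := fun x : List Cf × GIn => x.2) (by fun_prop)
  have h4 : NPC.Poly (fun x : List Cf × GIn => tup 4 x.2.1.2) :=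
    (poly_tup 4).comp (f := fun x : List Cf × GIn => x.2.1.2) (by fun_prop)
  refine NPC.Poly.and ?_ (NPC.Poly.and ?_ (NPC.Poly.and ?_ ?_))
  · exact poly_gs2.comp (f := fun x : List Cf × GIn => (x.2.2.1, (x.2.2.2.1, x.2.2.2.2.1)))
      (by fun_prop)
  · exact poly_dmB.comp (f := fun x : List Cf × GIn => (x.2.1, x.2.2.2.2.2)) (by fun_prop)
  · refine NPC.Poly.any (p := fun (x : List Cf × GIn) (c : Cf) =>
      enB x.2.1.2 (cs3 x.2.1.1 x.2.1.2 x.2.2.1 x.2.2.2.1 x.2.2.2.2.1 x.2.2.2.2.2) x.2.2.1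
        x.2.2.2.2.1 c) ?_ ?_
    · exact poly_rch.comp (f := fun x : List Cf × GIn => (x.1, ((x.2.1.2,
        (cs3 x.2.1.1 x.2.1.2 x.2.2.1 x.2.2.2.1 x.2.2.2.2.1 x.2.2.2.2.2, x.2.2.2.2.1)),
          (0, ((x.2.2.1.1.1, x.2.2.1.2.1), ([], [])))))) (NPC.Poly.pair (by fun_prop)
            (NPC.Poly.pair (NPC.Poly.pair (by fun_prop) (NPC.Poly.pair hc (by fun_prop)))
              (by fun_prop)))
    · exact poly_enB.comp (f := fun p : (List Cf × GIn) × Cf => ((p.1.2.1.2,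
        (cs3 p.1.2.1.1 p.1.2.1.2 p.1.2.2.1 p.1.2.2.2.1 p.1.2.2.2.2.1 p.1.2.2.2.2.2,
          p.1.2.2.2.2.1)), (p.1.2.2.1, p.2))) (NPC.Poly.pair (NPC.Poly.pair (by fun_prop)
            (NPC.Poly.pair (hc.comp (f := fun p : (List Cf × GIn) × Cf => p.1) (by fun_prop))
              (by fun_prop))) (by fun_prop))
  · refine NPC.Poly.any (p := fun (x : List Cf × GIn) (F : List (ℕ × ℕ) × List (ℕ × ℕ)) =>
      fin x.2.1.1 x.2.1.2 x.2.2.2.2.1.1 x.2.2.2.2.1.2 x.2.2.2.2.2.1 x.2.2.2.2.2.2 F.1 F.2)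
      (R671.poly_product h4 h4) ?_
    exact poly_fin2.comp (f := fun p : (List Cf × GIn) × (List (ℕ × ℕ) × List (ℕ × ℕ)) =>
      (p.1.2, p.2)) (by fun_prop)

attribute [local irreducible] ts2 cfs cl2 tup in
theorem poly_al2 (cX cL B : ℕ) : NPC.Poly (fun x : List ℕ × List (ℕ × ℕ) =>
    al2 cX cL B x.1 x.2) := by
  unfold al2
  have hX : NPC.Poly (fun x : (List ℕ × List (ℕ × ℕ)) × Rts => tup cX x.1.1) :=
    (poly_tup cX).comp (f := fun x : (List ℕ × List (ℕ × ℕ)) × Rts => x.1.1) (by fun_prop)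
  have hL : NPC.Poly (fun x : ((List ℕ × List (ℕ × ℕ)) × Rts) × List ℕ => tup cL x.1.1.2) :=
    (poly_tup cL).comp (f := fun x : ((List ℕ × List (ℕ × ℕ)) × Rts) × List ℕ => x.1.1.2)
      (by fun_prop)
  refine NPC.Poly.any (p := fun (x : List ℕ × List (ℕ × ℕ)) (r : Rts) =>
    (tup cX x.1).any (fun X => (tup cL x.2 ×ˢ tup cL x.2).any (fun L =>
      ts2 (cfs B x.1 x.2) x.1 x.2 r X L (cl2 x.1 x.2 r L)))) (by fun_prop) ?_
  refine NPC.Poly.any (p := fun (x : (List ℕ × List (ℕ × ℕ)) × Rts) (X : List ℕ) =>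
    (tup cL x.1.2 ×ˢ tup cL x.1.2).any (fun L =>
      ts2 (cfs B x.1.1 x.1.2) x.1.1 x.1.2 x.2 X L (cl2 x.1.1 x.1.2 x.2 L))) hX ?_
  refine NPC.Poly.any (p := fun (x : ((List ℕ × List (ℕ × ℕ)) × Rts) × List ℕ) (L : Lst) =>
    ts2 (cfs B x.1.1.1 x.1.1.2) x.1.1.1 x.1.1.2 x.1.2 x.2 L (cl2 x.1.1.1 x.1.1.2 x.1.2 L))
    (R671.poly_product hL hL) ?_
  exact poly_ts2.comp (f := fun p : (((List ℕ × List (ℕ × ℕ)) × Rts) × List ℕ) × Lst =>
    (cfs B p.1.1.1.1 p.1.1.1.2, (p.1.1.1, (p.1.1.2, (p.1.2, (p.2,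
      cl2 p.1.1.1.1 p.1.1.1.2 p.1.1.2 p.2)))))) (NPC.Poly.pair ((poly_cfs B).comp
        (f := fun p : (((List ℕ × List (ℕ × ℕ)) × Rts) × List ℕ) × Lst => p.1.1.1)
        (by fun_prop)) (NPC.Poly.pair (by fun_prop) (NPC.Poly.pair (by fun_prop)
          (NPC.Poly.pair (by fun_prop) (NPC.Poly.pair (by fun_prop) (poly_cl2.comp
            (f := fun p : (((List ℕ × List (ℕ × ℕ)) × Rts) × List ℕ) × Lst =>
              (p.1.1.1, (p.1.1.2, p.2))) (by fun_prop)))))))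

/-! ### Removing duplicates -/

/-- the list without duplicates -/
def ndl (l : List ℕ) : List ℕ :=
  l.foldr (fun v acc => bif decide (v ∈ acc) then acc else v :: acc) []

theorem mem_ndl {l : List ℕ} {v : ℕ} : v ∈ ndl l ↔ v ∈ l := by
  induction l with
  | nil => exact Iff.rfl
  | cons u l ih =>
    unfold ndl at ih ⊢
    rw [List.foldr_cons]
    by_cases h : u ∈ l.foldr (fun v acc => bif decide (v ∈ acc) then acc else v :: acc) []
    · simp only [h, decide_true, cond_true, ih, List.mem_cons]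
      constructor
      · exact Or.inr
      · rintro (rfl | h1)
        · exact ih.1 h
        · exact h1
    · simp only [h, decide_false, cond_false, ih, List.mem_cons]

theorem ndl_nodup (l : List ℕ) : (ndl l).Nodup := by
  induction l with
  | nil => exact List.nodup_nil
  | cons u l ih =>
    unfold ndl at ih ⊢
    rw [List.foldr_cons]
    by_cases h : u ∈ l.foldr (fun v acc => bif decide (v ∈ acc) then acc else v :: acc) []
    · simpa only [h, decide_true, cond_true] using ih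
    · simp only [h, decide_false, cond_false, List.nodup_cons, not_false_eq_true, ih, and_self]

theorem sz_ndl (l : List ℕ) : sz (ndl l) ≤ sz l := by
  induction l with
  | nil => exact le_rfl
  | cons u l ih =>
    unfold ndl at ih ⊢
    rw [List.foldr_cons, sz_list_cons]
    by_cases h : u ∈ l.foldr (fun v acc => bif decide (v ∈ acc) then acc else v :: acc) []
    · simp only [h, decide_true, cond_true]
      omega
    · simp only [h, decide_false, cond_false, sz_list_cons]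
      omega

theorem poly_ndl : NPC.Poly (fun l : List ℕ => ndl l) := by
  unfold ndl
  refine NPC.Poly.foldr (F := fun (_ : List ℕ) (v : ℕ) (acc : List ℕ) =>
    bif decide (v ∈ acc) then acc else v :: acc) (by fun_prop) (by fun_prop) (by fun_prop)
    Polynomial.X ?_
  intro l k _
  rw [Polynomial.eval_X]
  exact (sz_ndl (l.drop k)).trans (NPC.Poly.sz_drop_le l k)

theorem poly_rvE : NPC.Poly (fun E : List (ℕ × ℕ) => rvE E) := by
  unfold rvE
  fun_prop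

end Pool.Agent.H871.GP
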