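import Mathlib

/-!
# Branchings given by parent and depth functions, and two exchange operations
-/

namespace Pool.Agent.H871.GP

variable {V : Type*}

/-- `f` is the parent function and `a` the depth function of an out-branching with root `s` of the
digraph with vertex set `S` and arc relation `D`. -/
structure OB (S : Set V) (D : V → V → Prop) (s : V) (f : V → V) (a : V → ℕ) : Prop where
  mem : s ∈ S
  root : a s = 0
  arc : ∀ v ∈ S, v ≠ s → D (f v) v
  dep : ∀ v ∈ S, v ≠ s → a v = a (f v) + 1

/-- `w` is `v` or a descendant of `v`. -/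
def Sub (f : V → V) (a : V → ℕ) (v w : V) : Prop := ∃ k ≤ a w, f^[k] w = v

namespace OB

variable {S : Set V} {D : V → V → Prop} {s : V} {f : V → V} {a : V → ℕ}

theorem eq_root (h : OB S D s f a) {v : V} (hv : v ∈ S) (h0 : a v = 0) : v = s := by
  by_contra hne
  have := h.dep v hv hne
  omega

theorem iter (h : OB S D s f a) (hD : ∀ u v, D u v → u ∈ S ∧ v ∈ S) {v : V} (hv : v ∈ S) :
    ∀ k ≤ a v, f^[k] v ∈ S ∧ a (f^[k] v) = a v - k := by
  intro k
  induction k with
  | zero => intro _; exact ⟨hv, rfl⟩
  | succ k ih =>
    intro hk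
    obtain ⟨h1, h2⟩ := ih (by omega)
    have hne : f^[k] v ≠ s := by
      intro he
      rw [he, h.root] at h2
      omega
    have h3 := h.arc _ h1 hne
    have h4 := h.dep _ h1 hne
    rw [Function.iterate_succ_apply']
    exact ⟨(hD _ _ h3).1, by omega⟩

theorem sub_refl (v : V) : Sub f a v v := ⟨0, Nat.zero_le _, rfl⟩

theorem sub_le (h : OB S D s f a) (hD : ∀ u v, D u v → u ∈ S ∧ v ∈ S) {v w : V} (hw : w ∈ S)
    (hs : Sub f a v w) : a v ≤ a w := by
  obtain ⟨k, hk, rfl⟩ := hs
  rw [(h.iter hD hw k hk).2]
  omega

theorem sub_step (h : OB S D s f a) {v w : V} (hw : w ∈ S) (hws : w ≠ s) :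
    Sub f a v w ↔ w = v ∨ Sub f a v (f w) := by
  have hd := h.dep w hw hws
  constructor
  · rintro ⟨k, hk, hkv⟩
    cases k with
    | zero => exact Or.inl hkv
    | succ k =>
      rw [Function.iterate_succ_apply] at hkv
      exact Or.inr ⟨k, by omega, hkv⟩
  · rintro (rfl | ⟨k, hk, hkv⟩)
    · exact sub_refl w
    · exact ⟨k + 1, by omega, by rw [Function.iterate_succ_apply]; exact hkv⟩

theorem sub_root (h : OB S D s f a) {v : V} : Sub f a v s ↔ v = s := by
  constructor
  · rintro ⟨k, hk, hkv⟩
    rw [h.root] at hk
    obtain rfl : k = 0 := by omega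
    exact hkv.symm
  · rintro rfl; exact sub_refl _

open Classical in
/-- Changing the parent of `v` to a vertex `u` which is not a descendant of `v`. -/
theorem reparent (h : OB S D s f a) (hD : ∀ u v, D u v → u ∈ S ∧ v ∈ S) {u v : V}
    (hvs : v ≠ s) (huv : D u v) (hn : ¬ Sub f a v u) :
    OB S D s (Function.update f v u)
      (fun w => if Sub f a v w then (a w - a v) + (a u + 1) else a w) := by
  have hv := (hD _ _ huv).2
  refine ⟨h.mem, ?_, fun w hw hws => ?_, fun w hw hws => ?_⟩
  · have : ¬ Sub f a v s := fun hc => hvs (h.sub_root.1 hc)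
    simp only [this, if_false]
    exact h.root
  · by_cases hwv : w = v
    · subst hwv; simpa using huv
    · simpa [Function.update_of_ne hwv] using h.arc w hw hws
  · by_cases hwv : w = v
    · subst hwv
      simp only [sub_refl, if_true, Function.update_self, hn, if_false]
      omega
    · rw [Function.update_of_ne hwv]
      have hd := h.dep w hw hws
      have hst := h.sub_step (v := v) hw hws
      by_cases hsub : Sub f a v w
      · have hsub' : Sub f a v (f w) := (hst.1 hsub).resolve_left hwv
        have hle := h.sub_le hD (hD _ _ (h.arc w hw hws)).1 hsub'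
        simp only [hsub, hsub', if_true]
        omega
      · have hsub' : ¬ Sub f a v (f w) := fun hc => hsub (hst.2 (Or.inr hc))
        simp only [hsub, hsub', if_false]
        exact hd

open Classical in
/-- Moving the root from `s` to `v`, along an arc from `v` to `s`. -/
theorem shift (h : OB S D s f a) (hD : ∀ u v, D u v → u ∈ S ∧ v ∈ S) {v : V}
    (hvs : v ≠ s) (huv : D v s) :
    OB S D v (Function.update f s v)
      (fun w => if Sub f a v w then a w - a v else a w + 1) := by
  have hv := (hD _ _ huv).1
  refine ⟨hv, ?_, fun w hw hws => ?_, fun w hw hws => ?_⟩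
  · simp only [sub_refl, if_true]; omega
  · by_cases hwv : w = s
    · subst hwv; simpa using huv
    · simpa [Function.update_of_ne hwv] using h.arc w hw hwv
  · by_cases hwv : w = s
    · subst hwv
      have : ¬ Sub f a v w := fun hc => hvs (h.sub_root.1 hc)
      simp only [sub_refl, if_true, Function.update_self, this, if_false]
      have := h.root
      omega
    · rw [Function.update_of_ne hwv]
      have hd := h.dep w hw hwv
      have hst := h.sub_step (v := v) hw hwv
      by_cases hsub : Sub f a v w
      · have hsub' : Sub f a v (f w) := (hst.1 hsub).resolve_left hws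
        have hle := h.sub_le hD (hD _ _ (h.arc w hw hwv)).1 hsub'
        simp only [hsub, hsub', if_true]
        omega
      · have hsub' : ¬ Sub f a v (f w) := fun hc => hsub (hst.2 (Or.inr hc))
        simp only [hsub, hsub', if_false]
        omega

end OB

/-- `f`, `a` describe an out-branching with root `s`, and `g`, `b` an in-branching with root `t`,
of the digraph `D` with vertex set `S`, and the two branchings have no common arc. -/
structure GPair (S : Set V) (D : V → V → Prop) (s t : V) (f : V → V) (a : V → ℕ) (g : V → V)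
    (b : V → ℕ) : Prop where
  ob : OB S D s f a
  ib : OB S (fun u v => D v u) t g b
  dj : ∀ v ∈ S, v ≠ s → f v ≠ t → g (f v) ≠ v

/-- The reversed pair. -/
theorem GPair.rev {S : Set V} {D : V → V → Prop} (hD : ∀ u v, D u v → u ∈ S ∧ v ∈ S) {s t : V}
    {f : V → V} {a : V → ℕ} {g : V → V} {b : V → ℕ} (h : GPair S D s t f a g b) :
    GPair S (fun u v => D v u) t s g b f a := by
  refine ⟨h.ib, h.ob, fun v hv hvt hgs he => ?_⟩
  have h1 := h.dj (g v) (hD _ _ (h.ib.arc v hv hvt)).2 hgs
  rw [he] at h1
  exact h1 hvt rfl

end Pool.Agent.H871.GP
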